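import Pool.Agent.Work.MP_65b809_gt.Merge

/-! # BallB : balls of `G^(j)`

`FB K j R b` = vertices `y` (`T.V y`) with `Conn K j R b y`. For `y` in `FB K j R b` a path of at most
`R` edges from `b` to `y` stays in `FB K j R b` (the intermediate points are ends of shorter paths;
they satisfy `T.V` only on the coordinates `< j`, which is what `Edge K j` sees: replace an
intermediate point `u` by `trunc j u`, which is `EqOn j` to `u`, and is a vertex if `u` is an end of
an edge of `G^(j)`: `Grid j s u` gives `Grid d s (trunc j u)`).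

`ball_bdd`: suppose no point of `FB K j R b` is in `Grid j (t+1)` (where `t : ℤ`). Then all edges of
`G^(j)` between points of `FB K j R b` have scale `≤ t` (an edge of scale `s ≥ t + 1` has both ends
in `Grid j s ⊆ Grid j (t+1)`), so any two points `y, y'` of the ball are joined by a path of at most
`2R` edges of scale `≤ t` (through `b`); the chains at the scale `t` of the ends of an edge of scale
`s ≤ t` are close at the scale `t` (`close_ch` and the edge), so `ch y t`, `ch y' t` are `C(R)`-close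
at the scale `t` in the coordinates `< j`. If `b` itself is not a vertex on the coordinates `< j`
then all points of the ball are `EqOn j` to `b` or the ball is empty (first edge starts at a
grid tuple), and the statements are clear.

`ball_nz`: for all `t`: if some point `u` of the ball is in `Grid j t` then `NzLe j t 0 u`, and
`nz_conn` with `Conn K j (2R) u y`.

`ball_cases`: either there is `t` such that the ball contains a point of `Grid j t` but none of
`Grid j (t+1)`, or for every `t` the ball contains a point of `Grid j t` (or the ball is empty):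
the set of `t` with a point of the ball in `Grid j t` is downward closed (`grid_mono_s`) and
nonempty (any vertex).
-/

namespace MP65

namespace Tower

variable {N : Type} [Group N] {d : ℕ} (T : Tower N d) {K : ℝ}

theorem ball_cases (K : ℝ) {j : ℕ} (hj : j ≤ d) (R : ℕ) (b : ℕ → ℝ) (hne : (T.FB K j R b).Nonempty) :
    (∃ t : ℤ, (∃ u ∈ T.FB K j R b, T.Grid j t u) ∧ ∀ u ∈ T.FB K j R b, ¬ T.Grid j (t + 1) u) ∨
      ∀ t : ℤ, ∃ u ∈ T.FB K j R b, T.Grid j t u := by
  by_cases hall : ∀ t : ℤ, ∃ u ∈ T.FB K j R b, T.Grid j t u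
  · exact Or.inr hall
  left
  push Not at hall
  obtain ⟨t1, ht1⟩ := hall
  obtain ⟨y, hy⟩ := hne
  obtain ⟨s, hs⟩ := hy.1
  obtain ⟨t, ht, htmax⟩ := Int.exists_greatest_of_bdd
    (P := fun t => ∃ u ∈ T.FB K j R b, T.Grid j t u)
    ⟨t1, by
      rintro z ⟨u, hu, hz⟩
      by_contra hcon
      exact ht1 u hu (T.grid_mono_s hj (by omega) hz)⟩
    ⟨s, y, hy, T.grid_mono_j hj hs⟩
  refine ⟨t, ht, fun u hu hg => ?_⟩
  have := htmax (t + 1) ⟨u, hu, hg⟩
  omega

theorem ball_edge_le {j : ℕ} (hj : j ≤ d) {R : ℕ} {b : ℕ → ℝ} {t : ℤ}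
    (ht : ∀ u ∈ T.FB K j R b, ¬ T.Grid j (t + 1) u) {y y' : ℕ → ℝ} (hy : y ∈ T.FB K j R b)
    {s : ℤ} (hs : T.Grid j s y) : s ≤ t := by
  by_contra hcon
  exact ht y hy (T.grid_mono_s hj (by omega) hs)

private theorem ballb_trunc (j : ℕ) (y : ℕ → ℝ) : EqOn j y (trunc j y) := by
  intro i hi
  unfold trunc
  rw [if_pos hi]

private theorem ballb_path (R : ℕ) (hK : T.GoodK K) (r : ℕ) : ∃ C : ℝ, 0 ≤ C ∧
    ∀ (j : ℕ) (b : ℕ → ℝ) (t : ℤ) (y : ℕ → ℝ), j ≤ d →
    (∀ u ∈ T.FB K j R b, ¬ T.Grid j (t + 1) u) → r ≤ R → T.Conn K j r b y →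
    T.Close j t C (T.ch b t) (T.ch y t) := by
  induction r with
  | zero =>
    refine ⟨0, le_rfl, fun j b t y hj _ _ h => ?_⟩
    refine T.close_congr hj (T.eqv_refl _ _) ?_ (T.close_refl hj t le_rfl (T.ch b t))
    exact T.ch_eqv_above hj (fun i hi => by rw [h i hi]) t le_rfl
  | succ r ih =>
    obtain ⟨C, hC, h0⟩ := ih
    obtain ⟨C₁, hC₁, h1⟩ := T.close_ch
    obtain ⟨C₂, hC₂, h2⟩ := T.close_trans C C₁
    obtain ⟨C₃, hC₃, h3⟩ := T.close_trans C₂ K
    obtain ⟨C₄, hC₄, h4⟩ := T.close_trans C₃ C₁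
    refine ⟨max C C₄, hC.trans (le_max_left _ _), fun j b t y hj hb hr h => ?_⟩
    obtain ⟨u, hu, he | he⟩ := h
    · have a1 := h0 j b t u hj hb (by omega) hu
      refine T.close_mono (le_max_left _ _) (T.close_congr hj (T.eqv_refl _ _) ?_ a1)
      exact T.ch_eqv_above hj (fun i hi => by rw [he i hi]) t le_rfl
    · have a1 := h0 j b t u hj hb (by omega) hu
      obtain ⟨s, hsu, hsy, hcl⟩ := he
      have hmem : trunc j u ∈ T.FB K j R b := by
        refine ⟨⟨s, fun i hi => ?_⟩, ?_⟩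
        · unfold trunc
          split_ifs with h
          · exact hsu i h
          · exact rd_zero' _
        · exact conn_congr hj (EqOn.refl j b) (ballb_trunc j u) (conn_mono (by omega) hu)
      have hst : s ≤ t := T.ball_edge_le hj (y' := u) hb hmem
        (T.grid_congr (ballb_trunc j u) hsu)
      have hst' : (s : ℝ) ≤ (t : ℝ) := by exact_mod_cast hst
      have a2 := T.close_mono_j hj (h1 u s t hst)
      have a3 := T.close_mono_j hj (h1 y s t hst)
      have a4 := T.close_mono_s hj hK.1 hst' hcl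
      exact T.close_mono (le_max_right _ _) (h4 j t _ _ _ hj
        (h3 j t _ _ _ hj (h2 j t _ _ _ hj a1 a2) a4) (T.close_symm a3))

theorem ball_bdd (hK : T.GoodK K) (R : ℕ) : ∃ C : ℝ, 0 ≤ C ∧ ∀ (j : ℕ) (b : ℕ → ℝ) (t : ℤ), j ≤ d →
    (∀ u ∈ T.FB K j R b, ¬ T.Grid j (t + 1) u) →
    ∀ y ∈ T.FB K j R b, ∀ y' ∈ T.FB K j R b, T.Close j t C (T.ch y t) (T.ch y' t) := by
  obtain ⟨C, hC, h1⟩ := ballb_path T R hK R
  obtain ⟨C', hC', h2⟩ := T.close_trans C C
  refine ⟨C', hC', fun j b t hj hb y hy y' hy' => ?_⟩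
  exact h2 j t _ _ _ hj (T.close_symm (h1 j b t y hj hb le_rfl hy.2)) (h1 j b t y' hj hb le_rfl hy'.2)

theorem ball_nz (hK : T.GoodK K) (R : ℕ) : ∃ k : ℕ, ∀ (j : ℕ) (b : ℕ → ℝ) (t : ℤ), j ≤ d →
    (∃ u ∈ T.FB K j R b, T.Grid j t u) → ∀ y ∈ T.FB K j R b, T.NzLe j t k y := by
  obtain ⟨k, hk⟩ := T.nz_conn hK 0 (R + R)
  refine ⟨k, fun j b t hj hu y hy => ?_⟩
  obtain ⟨u, hu, hg⟩ := hu
  refine hk j t u y hj (conn_trans (conn_symm hj hu.2) hy.2 hj) ⟨∅, by simp, ?_⟩
  intro v hv _ i hi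
  rw [T.grid_mono_s hj (by omega : v ≤ t) hg i hi,
    T.grid_mono_s hj (by omega : v + 1 ≤ t) hg i hi]

end Tower

end MP65
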