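import Pool.Agent.Work.MP_65b809_gt.TBase

/-! # CProd : products of small increments, uniqueness and existence of chains

`chain_prod`. Let `c : ℤ → N` with `c(s+1)⁻¹ c(s)` in `Low d s C` for `t ≤ s < t'`. Then
`c(t')⁻¹ c(t)` is in `Low d t' C'`, with `C'` independent of `t' - t`. Proof: construct the
constants coordinate by coordinate: claim for `j ≤ d` there is `C_j ≥ 0` with
`Low j t' C_j (c(t')⁻¹ c(t))` for all such chains. Step `j → j+1`: put `a(t') = x_j(c(t')⁻¹ c(t))`;
`c(t'+1)⁻¹ c(t) = (c(t'+1)⁻¹ c(t')) (c(t')⁻¹ c(t))`, both factors have coordinates `< j` bounded at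
scale `t'` by `max C C_j`, so by `bd` `|a(t'+1) - a(t')| ≤ (C + C'') 3^{w_j t'} = D 3^{w_j t'}`;
as `a(t) = 0` induction gives `|a(t')| ≤ D 3^{w_j t'}` (using `w_j ≥ 1`:
`D 3^{w_j t'} + D 3^{w_j t'} ≤ D 3^{w_j (t'+1)}`). So `C_{j+1} = max C_j D`.

`chain_exists`: define `c` for `s ≥ T0` by `K` and below by recursion on `T0 - s`
(for instance `c s = K * prod` with `Nat` recursion on `(T0 - s).toNat`).
`chain_unique`: `c s = c (s+1) E s`: downward induction from a large level.
-/

namespace MP65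

/-- the products downward from `T0` -/
private def CProd_P {N : Type} [Group N] (E : ℤ → N) (T0 : ℤ) : ℕ → N
  | 0 => 1
  | n + 1 => CProd_P E T0 n * E (T0 - (n + 1))

theorem chain_exists {N : Type} [Group N] (E : ℤ → N) (T0 : ℤ) (hE : ∀ s, T0 ≤ s → E s = 1) :
    ∃ c : ℤ → N, (∃ T0 : ℤ, ∀ s, T0 ≤ s → c s = 1) ∧ ∀ s, c s = c (s + 1) * E s := by
  refine ⟨fun s => CProd_P E T0 (T0 - s).toNat, ⟨T0, fun s hs => ?_⟩, fun s => ?_⟩
  · have e : (T0 - s).toNat = 0 := by omega
    simp only [e, CProd_P]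
  · rcases le_or_gt T0 s with h | h
    · have e1 : (T0 - s).toNat = 0 := by omega
      have e2 : (T0 - (s + 1)).toNat = 0 := by omega
      simp only [e1, e2, CProd_P, hE s h, mul_one]
    · have e1 : (T0 - s).toNat = (T0 - (s + 1)).toNat + 1 := by omega
      have e2 : T0 - (((T0 - (s + 1)).toNat : ℤ) + 1) = s := by omega
      simp only [e1, CProd_P, e2]

theorem chain_unique {N : Type} [Group N] {E E' c c' : ℤ → N} {s₀ : ℤ}
    (hE : ∀ s, s₀ ≤ s → E s = E' s)
    (hc : ∃ T0 : ℤ, ∀ s, T0 ≤ s → c s = 1) (hc' : ∃ T0 : ℤ, ∀ s, T0 ≤ s → c' s = 1)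
    (h : ∀ s, c s = c (s + 1) * E s) (h' : ∀ s, c' s = c' (s + 1) * E' s) :
    ∀ s, s₀ ≤ s → c s = c' s := by
  obtain ⟨T1, h1⟩ := hc
  obtain ⟨T2, h2⟩ := hc'
  have key : ∀ n : ℕ, ∀ s, s₀ ≤ s → max T1 T2 ≤ s + n → c s = c' s := by
    intro n
    induction n with
    | zero =>
      intro s _ hs
      rw [h1 s (by have := le_max_left T1 T2; push_cast at hs; omega),
        h2 s (by have := le_max_right T1 T2; push_cast at hs; omega)]
    | succ n ih =>
      intro s hs0 hs
      rw [h s, h' s, hE s hs0, ih (s + 1) (by omega) (by push_cast at hs; omega)]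
  intro s hs
  exact key (max T1 T2 - s).toNat s hs (by omega)

namespace Tower

variable {N : Type} [Group N] {d : ℕ} (T : Tower N d)

theorem chain_prod (C : ℝ) : ∃ C' : ℝ, 0 ≤ C' ∧ ∀ (c : ℤ → N) (t t' : ℤ), t ≤ t' →
    (∀ s : ℤ, t ≤ s → s < t' → T.Low d s C ((c (s + 1))⁻¹ * c s)) →
    T.Low d t' C' ((c t')⁻¹ * c t) := by
  have key : ∀ j : ℕ, j ≤ d → ∃ C' : ℝ, 0 ≤ C' ∧ ∀ (c : ℤ → N) (t t' : ℤ), t ≤ t' →
      (∀ s : ℤ, t ≤ s → s < t' → T.Low d s C ((c (s + 1))⁻¹ * c s)) →
      T.Low j t' C' ((c t')⁻¹ * c t) := by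
    intro j
    induction j with
    | zero => exact fun _ => ⟨0, le_rfl, fun c t t' _ _ i hi => absurd hi (Nat.not_lt_zero i)⟩
    | succ j ih =>
      intro hj
      obtain ⟨C₁, hC₁, h1⟩ := ih (by omega)
      obtain ⟨B, hB⟩ := T.bd (max C C₁)
      have hw := T.one_le_w j (by omega)
      have hpos : ∀ a : ℝ, (0 : ℝ) < (3 : ℝ) ^ a := fun a =>
        Real.rpow_pos_of_pos (by norm_num) a
      have hx : ∀ (c : ℤ → N) (t : ℤ) (n : ℕ),
          (∀ s : ℤ, t ≤ s → s < t + n → T.Low d s C ((c (s + 1))⁻¹ * c s)) →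
          |T.x j ((c (t + n))⁻¹ * c t)| ≤ (|C| + |B|) * 3 ^ (T.w j * ((t + n : ℤ) : ℝ)) := by
        intro c t n
        induction n with
        | zero =>
          intro _
          have e : t + ((0 : ℕ) : ℤ) = t := by simp
          rw [e, inv_mul_cancel, T.x_one j (by omega), abs_zero]
          exact mul_nonneg (by positivity) (hpos _).le
        | succ n ihn =>
          intro hlow
          have h2 := ihn fun s hs1 hs2 => hlow s hs1 (by push_cast; omega)
          have h3 := hlow (t + n) (by omega) (by push_cast; omega)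
          have h4 := h1 c t (t + n) (by omega) fun s hs1 hs2 => hlow s hs1 (by push_cast; omega)
          have e : (c (t + ((n + 1 : ℕ) : ℤ)))⁻¹ * c t =
              ((c (t + n + 1))⁻¹ * c (t + n)) * ((c (t + n))⁻¹ * c t) := by
            have e1 : t + ((n + 1 : ℕ) : ℤ) = t + n + 1 := by push_cast; ring
            rw [e1]
            group
          have h5 := hB j (by omega) ((t + n : ℤ) : ℝ) ((c (t + n + 1))⁻¹ * c (t + n))
            ((c (t + n))⁻¹ * c t)
            (fun i hi => (T.low_mono (le_max_left C C₁) h3) i (by omega))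
            (T.low_mono (le_max_right C C₁) h4)
          have h6 := h3 j (by omega)
          rw [e]
          generalize (c (t + n + 1))⁻¹ * c (t + n) = u at *
          generalize (c (t + n))⁻¹ * c t = v at *
          have hp := hpos (T.w j * ((t + n : ℤ) : ℝ))
          have h7 : (2 : ℝ) * 3 ^ (T.w j * ((t + n : ℤ) : ℝ)) ≤
              3 ^ (T.w j * ((t + ((n + 1 : ℕ) : ℤ) : ℤ) : ℝ)) := by
            have e2 : T.w j * ((t + ((n + 1 : ℕ) : ℤ) : ℤ) : ℝ) =
                T.w j + T.w j * ((t + n : ℤ) : ℝ) := by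
              push_cast
              ring
            rw [e2, Real.rpow_add (by norm_num)]
            refine mul_le_mul_of_nonneg_right ?_ hp.le
            calc (2 : ℝ) ≤ 3 ^ (1 : ℝ) := by norm_num
              _ ≤ 3 ^ T.w j := Real.rpow_le_rpow_of_exponent_le (by norm_num) hw
          have h8 : T.x j (u * v) = (T.x j (u * v) - T.x j u - T.x j v) + T.x j u + T.x j v := by
            ring
          rw [h8]
          have h9 := abs_add_le ((T.x j (u * v) - T.x j u - T.x j v) + T.x j u) (T.x j v)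
          have h10 := abs_add_le (T.x j (u * v) - T.x j u - T.x j v) (T.x j u)
          have e1 := mul_le_mul_of_nonneg_right (le_abs_self C) hp.le
          have e2 := mul_le_mul_of_nonneg_right (le_abs_self B) hp.le
          have e3 := mul_le_mul_of_nonneg_left h7 (by positivity : 0 ≤ |C| + |B|)
          linarith
      refine ⟨max C₁ (|C| + |B|), le_max_of_le_left hC₁, fun c t t' htt hlow i hi => ?_⟩
      rcases Nat.lt_succ_iff_lt_or_eq.1 hi with h2 | h2
      · exact (h1 c t t' htt hlow i h2).trans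
          (mul_le_mul_of_nonneg_right (le_max_left _ _) (hpos _).le)
      · subst h2
        obtain ⟨n, rfl⟩ : ∃ n : ℕ, t' = t + n := ⟨(t' - t).toNat, by omega⟩
        exact (hx c t n hlow).trans
          (mul_le_mul_of_nonneg_right (le_max_right _ _) (hpos _).le)
  exact key d le_rfl

end Tower

end MP65
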