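import Pool.Agent.Work.MP_65b809_gt.Wt

/-! # CellP : the path lemma in one dimension (pure real/integer arithmetic)

Let `x_0, ..., x_m` be grid numbers, consecutive ones at distance `≤ C 3^{τ_l}` and both multiples of
`3^{τ_l}`, `τ_l ≤ Λ`, all with weight `Wt Λ (x_l) ∈ [a, a+W)`. Then either (A) all digits below `Λ`
of `x_0` and of `x_m` are few and `mr Λ x_0`, `mr Λ x_m` are close, or (B) there is a level `θ < Λ`
such that `x_0`, `x_m` have few digits below `θ`, are at distance `≤ 3^θ`, and all the steps of the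
path take place at levels `τ_l ≤ θ - E₀`.

Proof. Put `w(t,x) = wi (Λ-t).toNat (mr t x)` for `t ≤ Λ` (nonincreasing in `t`, changes by at most
`1` when `t` changes by `1`, `w(Λ,x) = |mr Λ x|`, `|w(t,x) - w(t,x')| ≤ |mr t x - mr t x'|`), and
`w(t,x) = Wt Λ x` if `x` is a multiple of `3^t`. Let `E = E₀ + C + 2` and `κ = a - E`.
* If `a < E + 4`: all `Wt Λ (x_l) < E + 4 + W`, (A) holds with `E' = 2(E + 4 + W)`.
* Otherwise `κ ≥ 4`. Let `S = {p : p grid number, Wt Λ p ≤ κ}`. (1) No `p ∈ S` lies between (≤, ≥)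
  `x_l` and `x_{l+1}`: `|mr τ_l p - mr τ_l x_l| ≤ C + 1`, so
  `Wt Λ p ≥ w(τ_l,p) ≥ w(τ_l,x_l) - C - 1 = Wt Λ x_l - C - 1 ≥ κ + E - C - 1 > κ`
  (`p` between, so `|p - x_l| ≤ C 3^{τ_l}`). Hence no `p ∈ S` lies between any two `x_l, x_{l'}`
  (induction; all the `x_l` are in the same component of the complement of `S`); in particular all
  `x_l` have the same sign (`0 ∈ S`), so the `mr Λ (x_l)` have the same weak sign.
  (2) If `t + 1 ≤ Λ` and `w(t+1,x) ≤ κ - 3` then every `x'` with no point of `S` between `x` and `x'`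
  has `|x - x'| < 3^{t-1}`: with `M = mr (t-1) x = 9 mr (t+1) x + l`, `|l| ≤ 4`, the points
  `3^{t-1}(M + e)`, `e ∈ {-1,0,1}`, are in `S` by `wi_nine`, and `x` lies between `3^{t-1} M` and one
  of its two neighbours (distance of `x` to `3^{t-1}M` is at most `3^{t-1}/2`).
  (3) For each `l` let `θ_l = max {t ≤ Λ : w(t,x_l) ≥ κ - 2}` (exists since
  `w(τ,x_l) = Wt ≥ a > κ` for small `τ`); so `w(θ_l, x_l) ≥ κ - 2`, and if `θ_l < Λ` then
  `w(θ_l + 1, x_l) = κ - 3`, `w(θ_l,x_l) = κ - 2`.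
  If all `θ_l = Λ`: `|mr Λ x_l| ≥ κ - 2`, and `|mr Λ x_l| ≤ Wt < a + W = κ + E + W`, same sign:
  (A) with `E' = W + E + 2`.
  (4) Otherwise let `θ = min θ_l < Λ`, attained at `l₁`. By (2) (for `x_{l₁}`)
  `|x_l - x_{l₁}| < 3^{θ-1}` for all `l`. Claim `θ_l ≤ θ + 1`: suppose `θ_l ≥ θ + 2`, let
  `t = θ + 1`. `mr t x_l`, `mr t x_{l₁}` differ by at most `1` (distance `< 3^{t-2}`). At the level
  `θ_l`: `w(θ_l,x_l) ≥ κ - 2` but `w(θ_l,x_{l₁}) ≤ w(θ+1,x_{l₁}) = κ - 3`, so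
  `mr θ_l x_l ≠ mr θ_l x_{l₁}`; `wi_boundary` (k = θ_l - t) gives that they differ by `1` and
  `w(t,x_{l₁}) = w(θ_l,x_{l₁}) + (θ_l - t) ≥ (w(θ_l,x_l) - 1) + (θ_l - t) ≥ κ - 3 + (θ_l - t)`,
  and `w(t,x_{l₁}) = κ - 3`, so `θ_l = t`, contradiction.
  (5) Also `w(θ_l, x_l) ≤ κ - 2`: clear if `θ_l < Λ`; if `θ_l = Λ` then `mr Λ x_l`, `mr Λ x_{l₁}`
  differ by at most `1` and `w(Λ,x_{l₁}) ≤ κ - 3`. For a step `l` (`x_l` a multiple of
  `3^{τ_l}`): `w(τ_l,x_l) = Wt Λ x_l ≥ a = κ + E`, `w` changes by at most one per level and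
  `w(θ_l,x_l) ≤ κ - 2`, so `τ_l ≤ θ_l - E - 2 ≤ θ - E₀`.
  (6) `Wt Λ x_l < a + W = κ + E + W ≤ w(θ,x_l) + 2 + E + W` as `w(θ,x_l) ≥ w(θ_l,x_l) ≥ κ - 2`.
  `|x_0 - x_m| ≤ 2·3^{θ-1} ≤ 3^θ`. So (B).
-/

namespace MP65

/-- weight of the integer part at the level `t` -/
private noncomputable def wv (Λ t : ℤ) (x : ℝ) : ℕ := wi (Λ - t).toNat (mr t x)

private theorem wv_mono {Λ t t' : ℤ} (h : t ≤ t') (h' : t' ≤ Λ) (x : ℝ) :
    wv Λ t' x ≤ wv Λ t x ∧ (wv Λ t x : ℤ) ≤ wv Λ t' x + (t' - t) := by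
  have h1 := wi_add (t' - t).toNat (Λ - t').toNat (mr t x)
  have h2 : mr t' x = par^[(t' - t).toNat] (mr t x) := by
    have := mr_add t (t' - t).toNat x
    rw [← this]
    congr 1
    omega
  have h3 : (t' - t).toNat + (Λ - t').toNat = (Λ - t).toNat := by omega
  rw [← h2, h3] at h1
  unfold wv
  refine ⟨h1.1, ?_⟩
  have := h1.2
  omega

private theorem wv_top (Λ : ℤ) (x : ℝ) : wv Λ Λ x = (mr Λ x).natAbs := by
  unfold wv
  simp [wi]

private theorem wv_lip (Λ t : ℤ) (x x' : ℝ) :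
    (wv Λ t x : ℤ) ≤ wv Λ t x' + |mr t x - mr t x'| := wi_lip _ _ _

private theorem mr_grid (t M : ℤ) : rd t ((3 : ℝ) ^ t * M) = (3 : ℝ) ^ t * M ∧
    mr t ((3 : ℝ) ^ t * M) = M := by
  have h : rd t ((3 : ℝ) ^ t * M) = (3 : ℝ) ^ t * M := (rd_fix_iff t _).2 ⟨M, rfl⟩
  refine ⟨h, ?_⟩
  unfold rd at h
  have h3 : (3 : ℝ) ^ t ≠ 0 := by positivity
  have := mul_left_cancel₀ h3 h
  exact_mod_cast this

private theorem mr_nonneg_of_pos {t : ℤ} {x : ℝ} (h : 0 < x) : 0 ≤ mr t x := by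
  unfold mr
  apply Int.floor_nonneg.2
  positivity

private theorem mr_nonpos_of_neg {t : ℤ} {x : ℝ} (h : x < 0) : mr t x ≤ 0 := by
  unfold mr
  have h3 : (0 : ℝ) < (3 : ℝ) ^ t := by positivity
  have h1 : x / (3 : ℝ) ^ t < 0 := div_neg_of_neg_of_pos h h3
  have h2 : ⌊x / (3 : ℝ) ^ t + 1 / 2⌋ < 1 := Int.floor_lt.2 (by push_cast; linarith)
  omega

theorem cell_path (C W E₀ : ℕ) : ∃ E' : ℕ, ∀ (Λ : ℤ) (a m : ℕ) (x : ℕ → ℝ) (τ : ℕ → ℤ),
    (∀ l, l < m → τ l ≤ Λ ∧ rd (τ l) (x l) = x l ∧ rd (τ l) (x (l + 1)) = x (l + 1) ∧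
      |x l - x (l + 1)| ≤ C * (3 : ℝ) ^ (τ l)) →
    (∀ l, l ≤ m → ∃ s : ℤ, rd s (x l) = x l) →
    (∀ l, l ≤ m → a ≤ Wt Λ (x l) ∧ Wt Λ (x l) < a + W) →
    (Wt Λ (x 0) ≤ (mr Λ (x 0)).natAbs + E' ∧ Wt Λ (x m) ≤ (mr Λ (x m)).natAbs + E' ∧
      |mr Λ (x 0) - mr Λ (x m)| ≤ E') ∨
    ∃ θ : ℤ, θ < Λ ∧ Wt Λ (x 0) ≤ wi (Λ - θ).toNat (mr θ (x 0)) + E' ∧
      Wt Λ (x m) ≤ wi (Λ - θ).toNat (mr θ (x m)) + E' ∧
      |x 0 - x m| ≤ (3 : ℝ) ^ θ ∧ ∀ l, l < m → τ l + E₀ ≤ θ := by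
  obtain ⟨E, hE⟩ : ∃ E : ℕ, E = E₀ + C + 2 := ⟨_, rfl⟩
  refine ⟨2 * (E + 4 + W), ?_⟩
  intro Λ a m x τ hst hgr hwt
  have htop : ∀ l, l ≤ m → (mr Λ (x l)).natAbs ≤ Wt Λ (x l) := by
    intro l hl
    obtain ⟨s, hs⟩ := hgr l hl
    have := wi_level_le_Wt (le_refl Λ) hs
    simpa [wi] using this
  by_cases hA : a < E + 4
  · left
    have h0 := hwt 0 (Nat.zero_le _)
    have hm := hwt m le_rfl
    have t0 := htop 0 (Nat.zero_le _)
    have tm := htop m le_rfl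
    refine ⟨by omega, by omega, ?_⟩
    rw [abs_le]
    push_cast
    constructor <;> omega
  push Not at hA
  obtain ⟨κ, hκ⟩ : ∃ κ : ℕ, a = κ + E := ⟨a - E, by omega⟩
  have hκ4 : 4 ≤ κ := by omega
  -- points of `S` are not equal to any `x l`
  have hne : ∀ p : ℝ, (∃ s, rd s p = p) → Wt Λ p ≤ κ → ∀ l, l ≤ m → p ≠ x l := by
    rintro p - hp l hl rfl
    have := (hwt l hl).1
    omega
  -- (1)
  have hstep : ∀ p : ℝ, (∃ s, rd s p = p) → Wt Λ p ≤ κ → ∀ l, l < m →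
      (p < x l → p < x (l + 1)) ∧ (x l < p → x (l + 1) < p) := by
    intro p hpg hp l hl
    obtain ⟨hτ, hx, hx', hd⟩ := hst l hl
    have key : ¬ |p - x l| ≤ |x l - x (l + 1)| := by
      intro hle
      obtain ⟨s, hs⟩ := hpg
      have h3 : (0 : ℝ) < (3 : ℝ) ^ (τ l) := by positivity
      have h1 : |(mr (τ l) (x l) : ℝ) - mr (τ l) p| ≤ C + 1 := by
        refine (abs_mr_sub_le (τ l) (x l) p).trans ?_
        have : |x l - p| / (3 : ℝ) ^ (τ l) ≤ C := by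
          rw [div_le_iff₀ h3, abs_sub_comm]
          exact hle.trans hd
        linarith
      have h2 : |mr (τ l) (x l) - mr (τ l) p| ≤ C + 1 := by exact_mod_cast h1
      have h4 := wv_lip Λ (τ l) (x l) p
      have h5 : wv Λ (τ l) p ≤ Wt Λ p := wi_level_le_Wt hτ hs
      have h6 : Wt Λ (x l) = wv Λ (τ l) (x l) := Wt_eq' hτ hx
      have h7 := (hwt l hl.le).1
      omega
    have n1 := hne p hpg hp (l + 1) hl
    constructor
    · intro h
      by_contra h'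
      push Not at h'
      apply key
      rw [abs_of_neg (by linarith), abs_of_nonneg (by linarith)]
      linarith
    · intro h
      by_contra h'
      push Not at h'
      apply key
      rw [abs_of_pos (by linarith), abs_of_nonpos (by linarith)]
      linarith
  have hside : ∀ p : ℝ, (∃ s, rd s p = p) → Wt Λ p ≤ κ →
      (∀ l, l ≤ m → p < x l) ∨ (∀ l, l ≤ m → x l < p) := by
    intro p hpg hp
    rcases lt_or_gt_of_ne (hne p hpg hp 0 (Nat.zero_le _)) with h | h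
    · left
      intro l
      induction l with
      | zero => intro _; exact h
      | succ l ih => intro hl; exact (hstep p hpg hp l (by omega)).1 (ih (by omega))
    · right
      intro l
      induction l with
      | zero => intro _; exact h
      | succ l ih => intro hl; exact (hstep p hpg hp l (by omega)).2 (ih (by omega))
  -- (2)
  have h2 : ∀ (t : ℤ) (l : ℕ), l ≤ m → t + 1 ≤ Λ → wv Λ (t + 1) (x l) + 3 ≤ κ →
      ∀ l', l' ≤ m → |x l - x l'| < (3 : ℝ) ^ (t - 1) := by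
    intro t l hl ht hw l' hl'
    obtain ⟨M, hM⟩ : ∃ M, M = mr (t - 1) (x l) := ⟨_, rfl⟩
    obtain ⟨A, hAA⟩ : ∃ A, A = mr (t + 1) (x l) := ⟨_, rfl⟩
    have hMA : ∃ e : ℤ, M = 9 * A + e ∧ |e| ≤ 4 := by
      have e1 : mr t (x l) = par M := by
        rw [hM]
        have := mr_succ (t - 1) (x l)
        rwa [sub_add_cancel] at this
      have e2 : A = par (par M) := by rw [hAA, mr_succ, e1]
      refine ⟨M - 9 * A, by ring, ?_⟩
      rw [e2, abs_le]
      unfold par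
      constructor <;> omega
    obtain ⟨e, he, he4⟩ := hMA
    have h3 : (0 : ℝ) < (3 : ℝ) ^ (t - 1) := by positivity
    have hS : ∀ f : ℤ, |f| ≤ 1 → (∃ s, rd s ((3 : ℝ) ^ (t - 1) * ((M + f : ℤ) : ℝ)) =
        (3 : ℝ) ^ (t - 1) * ((M + f : ℤ) : ℝ)) ∧
        Wt Λ ((3 : ℝ) ^ (t - 1) * ((M + f : ℤ) : ℝ)) ≤ κ := by
      intro f hf
      obtain ⟨g1, g2⟩ := mr_grid (t - 1) (M + f)
      refine ⟨⟨_, g1⟩, ?_⟩
      rw [Wt_eq' (t := t - 1) (by omega) g1, g2]
      have hk : (Λ - (t - 1)).toNat = (Λ - (t + 1)).toNat + 2 := by omega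
      rw [hk, he, add_assoc]
      refine (wi_nine _ A (e + f) ?_).trans ?_
      · have := abs_add_le e f
        omega
      · unfold wv at hw
        rw [← hAA] at hw
        exact hw
    have hab := abs_sub_rd_le (t - 1) (x l)
    unfold rd at hab
    rw [← hM] at hab
    have s0 := hS 0 (by simp)
    have s1 := hS 1 (by simp)
    have s2 := hS (-1) (by simp)
    have r0 := hside _ s0.1 s0.2
    have r1 := hside _ s1.1 s1.2
    have r2 := hside _ s2.1 s2.2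
    push_cast at r0 r1 r2
    rw [abs_le] at hab
    have p1 : x l < (3 : ℝ) ^ (t - 1) * ((M : ℝ) + 1) := by nlinarith [hab.2]
    have p2 : (3 : ℝ) ^ (t - 1) * ((M : ℝ) + -1) < x l := by nlinarith [hab.1]
    have q1 : x l' < (3 : ℝ) ^ (t - 1) * ((M : ℝ) + 1) := by
      rcases r1 with r | r
      · exact absurd (r l hl) (by linarith)
      · exact r l' hl'
    have q2 : (3 : ℝ) ^ (t - 1) * ((M : ℝ) + -1) < x l' := by
      rcases r2 with r | r
      · exact r l' hl'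
      · exact absurd (r l hl) (by linarith)
    rcases r0 with r | r
    · have u1 := r l hl
      have u2 := r l' hl'
      rw [abs_lt]
      constructor <;> nlinarith
    · have u1 := r l hl
      have u2 := r l' hl'
      rw [abs_lt]
      constructor <;> nlinarith
  -- (3)
  have hth : ∀ l, ∃ t : ℤ, l ≤ m → t ≤ Λ ∧ κ ≤ wv Λ t (x l) + 2 ∧
      ∀ t', t' ≤ Λ → κ ≤ wv Λ t' (x l) + 2 → t' ≤ t := by
    intro l
    by_cases hl : l ≤ m
    · obtain ⟨s, hs⟩ := hgr l hl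
      have hne : ∃ z : ℤ, z ≤ Λ ∧ κ ≤ wv Λ z (x l) + 2 := by
        refine ⟨min s Λ, min_le_right _ _, ?_⟩
        have h1 : rd (min s Λ) (x l) = x l := rd_fix_mono (min_le_left _ _) hs
        have h2 : Wt Λ (x l) = wv Λ (min s Λ) (x l) := Wt_eq' (min_le_right _ _) h1
        have h3 := (hwt l hl).1
        omega
      obtain ⟨u, hu, hu'⟩ := Int.exists_greatest_of_bdd
        (P := fun z => z ≤ Λ ∧ κ ≤ wv Λ z (x l) + 2) ⟨Λ, fun z hz => hz.1⟩ hne
      exact ⟨u, fun _ => ⟨hu.1, hu.2, fun t' h1 h2 => hu' t' ⟨h1, h2⟩⟩⟩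
    · exact ⟨0, fun h => absurd h hl⟩
  choose θf hθ using hth
  have hlt : ∀ l, l ≤ m → θf l < Λ → wv Λ (θf l + 1) (x l) + 3 = κ ∧ wv Λ (θf l) (x l) + 2 = κ := by
    intro l hl h
    obtain ⟨h1, h2, h3⟩ := hθ l hl
    have h4 : ¬ κ ≤ wv Λ (θf l + 1) (x l) + 2 := by
      intro h5
      have := h3 _ (by omega) h5
      omega
    have h5 := wv_mono (Λ := Λ) (t := θf l) (t' := θf l + 1) (by omega) (by omega) (x l)
    have h6 := h5.2
    omega
  by_cases hall : ∀ l, l ≤ m → θf l = Λ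
  · left
    have b0 := hθ 0 (Nat.zero_le _)
    have bm := hθ m le_rfl
    rw [hall 0 (Nat.zero_le _), wv_top] at b0
    rw [hall m le_rfl, wv_top] at bm
    have w0 := hwt 0 (Nat.zero_le _)
    have wm := hwt m le_rfl
    have t0 := htop 0 (Nat.zero_le _)
    have tm := htop m le_rfl
    have hz : (∀ l, l ≤ m → (0 : ℝ) < x l) ∨ (∀ l, l ≤ m → x l < 0) := by
      apply hside 0 ⟨Λ, rd_zero' Λ⟩
      have : Wt Λ 0 = wv Λ Λ 0 := Wt_eq' le_rfl (rd_zero' Λ)
      rw [this, wv_top]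
      have : mr Λ 0 = 0 := by
        have := (mr_grid Λ 0).2
        simpa using this
      simp [this]
    have b0' := b0.2.1
    have bm' := bm.2.1
    refine ⟨by omega, by omega, ?_⟩
    rw [abs_le]
    push_cast
    rcases hz with hz | hz
    · have z0 := mr_nonneg_of_pos (t := Λ) (hz 0 (Nat.zero_le _))
      have zm := mr_nonneg_of_pos (t := Λ) (hz m le_rfl)
      constructor <;> omega
    · have z0 := mr_nonpos_of_neg (t := Λ) (hz 0 (Nat.zero_le _))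
      have zm := mr_nonpos_of_neg (t := Λ) (hz m le_rfl)
      constructor <;> omega
  · right
    push Not at hall
    obtain ⟨l₀, hl₀, hl₀'⟩ := hall
    obtain ⟨l₁, hl₁, hmin⟩ := Finset.exists_min_image (Finset.range (m + 1)) θf ⟨0, by simp⟩
    rw [Finset.mem_range] at hl₁
    have hl₁' : l₁ ≤ m := by omega
    have hmin' : ∀ l, l ≤ m → θf l₁ ≤ θf l := fun l hl => hmin l (Finset.mem_range.2 (by omega))
    have hθΛ : θf l₁ < Λ := by
      have h1 := hmin' l₀ hl₀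
      have h2 := (hθ l₀ hl₀).1
      omega
    obtain ⟨θ, hθe⟩ : ∃ θ, θ = θf l₁ := ⟨_, rfl⟩
    obtain ⟨hA1, hA2⟩ := hlt l₁ hl₁' hθΛ
    rw [← hθe] at hA1 hA2 hθΛ hmin'
    have hcl : ∀ l, l ≤ m → |x l₁ - x l| < (3 : ℝ) ^ (θ - 1) :=
      fun l hl => h2 θ l₁ hl₁' (by omega) (by omega) l hl
    have hpow : ∀ t : ℤ, θ - 1 ≤ t → (3 : ℝ) ^ (θ - 1) ≤ (3 : ℝ) ^ t := fun t ht =>
      zpow_le_zpow_right₀ (by norm_num) ht
    have hmr : ∀ t : ℤ, θ - 1 ≤ t → ∀ l, l ≤ m → |mr t (x l₁) - mr t (x l)| ≤ 1 := fun t ht l hl =>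
      abs_mr_sub_le_of_lt ((hcl l hl).trans_le (hpow t ht))
    -- (4)
    have h4 : ∀ l, l ≤ m → θf l ≤ θ + 1 := by
      intro l hl
      by_contra hcon
      push Not at hcon
      obtain ⟨c1, c2, -⟩ := hθ l hl
      have m1 := hmr (θ + 1) (by omega) l hl
      have m2 := (wv_mono (Λ := Λ) (t := θ + 1) (t' := θf l) (by omega) c1 (x l₁)).1
      have e1 : ∀ y : ℝ, par^[(θf l - (θ + 1)).toNat] (mr (θ + 1) y) = mr (θf l) y := by
        intro y
        rw [← mr_add]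
        congr 1
        omega
      have hne' : par^[(θf l - (θ + 1)).toNat] (mr (θ + 1) (x l₁)) ≠
          par^[(θf l - (θ + 1)).toNat] (mr (θ + 1) (x l)) := by
        rw [e1, e1]
        intro h
        have : wv Λ (θf l) (x l₁) = wv Λ (θf l) (x l) := by unfold wv; rw [h]
        omega
      obtain ⟨b1, b2⟩ := wi_boundary (θf l - (θ + 1)).toNat (Λ - θf l).toNat _ _ m1 hne'
      have e2 : (θf l - (θ + 1)).toNat + (Λ - θf l).toNat = (Λ - (θ + 1)).toNat := by omega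
      rw [e1, e2] at b1
      rw [e1, e1] at b2
      have b3 : wv Λ (θ + 1) (x l₁) = wv Λ (θf l) (x l₁) + (θf l - (θ + 1)).toNat := b1
      have b4 := wv_lip Λ (θf l) (x l) (x l₁)
      rw [abs_sub_comm] at b4
      omega
    -- (5)
    have h5 : ∀ l, l ≤ m → wv Λ (θf l) (x l) + 2 ≤ κ := by
      intro l hl
      rcases lt_or_eq_of_le (hθ l hl).1 with h | h
      · exact (hlt l hl h).2.le
      · rw [h]
        have m1 := hmr Λ (by omega) l hl
        have m2 := (wv_mono (Λ := Λ) (t := θ + 1) (t' := Λ) (by omega) le_rfl (x l₁)).1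
        have b4 := wv_lip Λ Λ (x l) (x l₁)
        rw [abs_sub_comm] at b4
        omega
    have h6 : ∀ l, l ≤ m → Wt Λ (x l) ≤ wv Λ θ (x l) + 2 * (E + 4 + W) := by
      intro l hl
      have c1 := (wv_mono (Λ := Λ) (hmin' l hl) (hθ l hl).1 (x l)).1
      have c2 := (hθ l hl).2.1
      have c3 := (hwt l hl).2
      omega
    refine ⟨θ, hθΛ, h6 0 (Nat.zero_le _), h6 m le_rfl, ?_, ?_⟩
    · have a1 := hcl 0 (Nat.zero_le _)
      have a2 := hcl m le_rfl
      have a3 : (3 : ℝ) ^ θ = 3 * (3 : ℝ) ^ (θ - 1) := by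
        rw [← zpow_one_add₀ (by norm_num : (3 : ℝ) ≠ 0)]
        congr 1
        ring
      rw [abs_lt] at a1 a2
      rw [abs_le, a3]
      constructor <;> linarith [a1.1, a1.2, a2.1, a2.2]
    · intro l hl
      obtain ⟨hτ, hx, -, -⟩ := hst l hl
      have c1 : Wt Λ (x l) = wv Λ (τ l) (x l) := Wt_eq' hτ hx
      have c2 := (hwt l hl.le).1
      have c3 := h5 l hl.le
      have c4 : τ l < θf l := by
        by_contra hcon
        push Not at hcon
        have := (wv_mono (Λ := Λ) hcon hτ (x l)).1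
        omega
      have c5 := (wv_mono (Λ := Λ) c4.le (hθ l hl.le).1 (x l)).2
      have c6 := h4 l hl.le
      omega

end MP65
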