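import Pool.Agent.Work.MP_65b809_gt.ChA

/-! # ChT : triangular structure of the chains

* `ch_eqv_above`: the roundings at the scales `t ≥ s` of the coordinates `< j` agree (`rd_rd`). The
  increments `inc y t`, `inc y' t` have the same product `incTo · t j` of the factors with index
  `< j`, and the other factors `z_i(..)`, `i ≥ j`, have vanishing coordinates `< j`, so
  `inc y t ~_j inc y' t` (`eqv_mul`); downward induction from a scale where both chains are `1`.
* `ch_eqv_below`: for `t < s` the factors of index `< j` of the increments are `z_i 0 = 1`.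
* `ch_eqv_trunc`: special case of `ch_eqv_above` (at every scale: the coordinates `< j` are the same).
* `ch_trunc` (triangular formula): first `ch y s ~_{j+1} ch (trunc (j+1) y) s` (`ch_eqv_trunc`), then
  `ch (trunc (j+1) y) s ~_{j+1} ch (trunc j y) s * z_j(rd ... )` by
  downward induction on `s` (for large `s` both sides are `1`): the increments of
  `trunc (j+1) y` are `incTo y s (j+1)` followed by `z_i 0 = 1`, i.e.
  `inc (trunc (j+1) y) s = inc (trunc j y) s * z_j(Δ_j)`; then
  `c z_j(a) E z_j(Δ) ~_{j+1} (c E) z_j(a + Δ)` by `eqv_z_comm`, `eqv_z_add`, `eqv_mul`.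
-/

namespace MP65

namespace Tower

variable {N : Type} [Group N] {d : ℕ} (T : Tower N d)

private theorem ChT_incTo_congr {y y' : ℕ → ℝ} (s : ℤ) {j : ℕ}
    (h : ∀ i, i < j → rd (T.lam i s) (y i) = rd (T.lam i s) (y' i))
    (h' : ∀ i, i < j → rd (T.lam i (s + 1)) (y i) = rd (T.lam i (s + 1)) (y' i)) :
    T.incTo y s j = T.incTo y' s j := by
  induction j with
  | zero => rfl
  | succ j ih =>
    rw [incTo, incTo, ih (fun i hi => h i (by omega)) (fun i hi => h' i (by omega)),
      h j (Nat.lt_succ_self j), h' j (Nat.lt_succ_self j)]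

/-- the increments modulo the coordinates `≥ j` -/
private theorem ChT_inc_eqv (y : ℕ → ℝ) (s : ℤ) (j n : ℕ) (h : j + n ≤ d) :
    T.Eqv j (T.incTo y s (j + n)) (T.incTo y s j) := by
  induction n with
  | zero => exact T.eqv_refl _ _
  | succ n ih =>
    have e : T.incTo y s (j + (n + 1)) = T.incTo y s (j + n) *
        T.z (j + n) (rd (T.lam (j + n) s) (y (j + n)) -
          rd (T.lam (j + n) (s + 1)) (y (j + n))) := rfl
    rw [e]
    exact T.eqv_trans (T.eqv_mono (Nat.le_add_right j n) (T.eqv_mul_z (by omega) _ _))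
      (ih (by omega))

private theorem ChT_inc_eqv' (y : ℕ → ℝ) (s : ℤ) {j : ℕ} (hj : j ≤ d) :
    T.Eqv j (T.inc y s) (T.incTo y s j) := by
  obtain ⟨n, hn⟩ := Nat.exists_eq_add_of_le hj
  have h := ChT_inc_eqv T y s j n (by omega)
  rw [← hn] at h
  exact h

/-- chains agree modulo the coordinates `≥ j` if the roundings of the coordinates `< j` agree -/
theorem ch_eqv_above {j : ℕ} (hj : j ≤ d) {y y' : ℕ → ℝ} {s : ℤ}
    (h : ∀ i, i < j → rd (T.lam i s) (y i) = rd (T.lam i s) (y' i)) :
    ∀ t, s ≤ t → T.Eqv j (T.ch y t) (T.ch y' t) := by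
  obtain ⟨T1, h1⟩ := T.ch_top y
  obtain ⟨T2, h2⟩ := T.ch_top y'
  have hr : ∀ t, s ≤ t → ∀ i, i < j → rd (T.lam i t) (y i) = rd (T.lam i t) (y' i) := by
    intro t ht i hi
    rw [← rd_rd (T.lam_mono (hi.trans_le hj) ht) (y i), h i hi,
      rd_rd (T.lam_mono (hi.trans_le hj) ht)]
  have hinc : ∀ t, s ≤ t → T.Eqv j (T.inc y t) (T.inc y' t) := by
    intro t ht
    have h3 := ChT_incTo_congr T t (hr t ht) (hr (t + 1) (by omega))
    refine T.eqv_trans (ChT_inc_eqv' T y t hj) ?_
    rw [h3]
    exact T.eqv_symm (ChT_inc_eqv' T y' t hj)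
  have key : ∀ n : ℕ, ∀ t, s ≤ t → max T1 T2 ≤ t + n → T.Eqv j (T.ch y t) (T.ch y' t) := by
    intro n
    induction n with
    | zero =>
      intro t _ ht
      rw [h1 t (by have := le_max_left T1 T2; push_cast at ht; omega),
        h2 t (by have := le_max_right T1 T2; push_cast at ht; omega)]
      exact T.eqv_refl _ _
    | succ n ih =>
      intro t hs ht
      rw [T.ch_succ y t, T.ch_succ y' t]
      exact T.eqv_mul hj (ih (t + 1) (by omega) (by push_cast at ht; omega)) (hinc t hs)
  intro t ht
  exact key (max T1 T2 - t).toNat t ht (by omega)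

theorem ch_eqv_below {j : ℕ} (hj : j ≤ d) {y : ℕ → ℝ} {s : ℤ} (h : T.Grid j s y) :
    ∀ t, t ≤ s → T.Eqv j (T.ch y t) (T.ch y s) := by
  have hone : ∀ u, u < s → T.Eqv j (T.inc y u) 1 := by
    intro u hu
    have h1 : ∀ k, k ≤ j → T.incTo y u k = 1 := by
      intro k
      induction k with
      | zero => exact fun _ => rfl
      | succ k ih =>
        intro hk
        have hkd : k < d := by omega
        have e1 := rd_fix_mono (T.lam_mono hkd (show u ≤ s by omega)) (h k (by omega))
        have e2 := rd_fix_mono (T.lam_mono hkd (show u + 1 ≤ s by omega)) (h k (by omega))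
        rw [incTo, ih (by omega), e1, e2, sub_self, T.z_zero k hkd, mul_one]
    have h2 := ChT_inc_eqv' T y u hj
    rw [h1 j le_rfl] at h2
    exact h2
  have key : ∀ n : ℕ, ∀ t, t + n = s → T.Eqv j (T.ch y t) (T.ch y s) := by
    intro n
    induction n with
    | zero =>
      intro t ht
      have e : t = s := by simpa using ht
      rw [e]
      exact T.eqv_refl _ _
    | succ n ih =>
      intro t ht
      rw [T.ch_succ y t]
      have h3 := T.eqv_mul hj (ih (t + 1) (by push_cast at ht; omega))
        (hone t (by push_cast at ht; omega))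
      rw [mul_one] at h3
      exact h3
  intro t ht
  exact key (s - t).toNat t (by omega)

theorem ch_eqv_trunc {j : ℕ} (hj : j ≤ d) (y : ℕ → ℝ) (s : ℤ) :
    T.Eqv j (T.ch y s) (T.ch (trunc j y) s) :=
  T.ch_eqv_above hj (s := s) (fun i hi => by rw [trunc, if_pos hi]) s le_rfl

/-- the factors of the increments of a truncated tuple -/
private theorem ChT_inc_trunc {k : ℕ} (hk : k ≤ d) (y : ℕ → ℝ) (s : ℤ) :
    T.inc (trunc k y) s = T.incTo y s k := by
  have h1 : ∀ n : ℕ, k + n ≤ d → T.incTo (trunc k y) s (k + n) = T.incTo (trunc k y) s k := by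
    intro n
    induction n with
    | zero => exact fun _ => rfl
    | succ n ih =>
      intro hn
      have e : T.incTo (trunc k y) s (k + (n + 1)) = T.incTo (trunc k y) s (k + n) *
          T.z (k + n) (rd (T.lam (k + n) s) (trunc k y (k + n)) -
            rd (T.lam (k + n) (s + 1)) (trunc k y (k + n))) := rfl
      have e0 : trunc k y (k + n) = 0 := by
        rw [trunc, if_neg (by omega)]
      rw [e, ih (by omega), e0, rd_zero', rd_zero', sub_self, T.z_zero (k + n) (by omega), mul_one]
  obtain ⟨n, hn⟩ := Nat.exists_eq_add_of_le hk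
  have h2 := h1 n (by omega)
  rw [← hn] at h2
  unfold inc
  rw [h2]
  exact ChT_incTo_congr T s (fun i hi => by rw [trunc, if_pos hi])
    (fun i hi => by rw [trunc, if_pos hi])

/-- triangular formula -/
theorem ch_trunc {j : ℕ} (hj : j < d) (y : ℕ → ℝ) (s : ℤ) :
    T.Eqv (j + 1) (T.ch y s) (T.ch (trunc j y) s * T.z j (rd (T.lam j s) (y j))) := by
  refine T.eqv_trans (T.ch_eqv_trunc (Nat.succ_le_of_lt hj) y s) ?_
  obtain ⟨T1, h1⟩ := T.ch_top (trunc (j + 1) y)
  obtain ⟨T2, h2⟩ := T.ch_top (trunc j y)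
  obtain ⟨T3, h3⟩ := T.rd_lam_large y
  have key : ∀ n : ℕ, ∀ t, max T1 (max T2 T3) ≤ t + n →
      T.Eqv (j + 1) (T.ch (trunc (j + 1) y) t)
        (T.ch (trunc j y) t * T.z j (rd (T.lam j t) (y j))) := by
    intro n
    induction n with
    | zero =>
      intro t ht
      have a1 := le_max_left T1 (max T2 T3)
      have a2 := le_max_right T1 (max T2 T3)
      have a3 := le_max_left T2 T3
      have a4 := le_max_right T2 T3
      push_cast at ht
      rw [h1 t (by omega), h2 t (by omega), h3 t (by omega) j hj, T.z_zero j hj, mul_one]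
      exact T.eqv_refl _ _
    | succ n ih =>
      intro t ht
      have ih' := ih (t + 1) (by push_cast at ht; omega)
      have e1 : T.inc (trunc (j + 1) y) t = T.inc (trunc j y) t *
          T.z j (rd (T.lam j t) (y j) - rd (T.lam j (t + 1)) (y j)) := by
        rw [ChT_inc_trunc T (Nat.succ_le_of_lt hj), ChT_inc_trunc T hj.le]
        rfl
      rw [T.ch_succ (trunc (j + 1) y) t, T.ch_succ (trunc j y) t, e1]
      have hj1 : j + 1 ≤ d := Nat.succ_le_of_lt hj
      generalize T.ch (trunc (j + 1) y) (t + 1) = c' at ih' ⊢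
      generalize T.ch (trunc j y) (t + 1) = c at ih' ⊢
      generalize T.inc (trunc j y) t = E
      generalize rd (T.lam j (t + 1)) (y j) = a at ih' ⊢
      generalize rd (T.lam j t) (y j) = b
      have s1 : T.Eqv (j + 1) (c' * (E * T.z j (b - a))) (c * T.z j a * (E * T.z j (b - a))) :=
        T.eqv_mul hj1 ih' (T.eqv_refl _ _)
      have s2 : c * T.z j a * (E * T.z j (b - a)) = c * (T.z j a * E) * T.z j (b - a) := by group
      have s3 : T.Eqv (j + 1) (c * (T.z j a * E) * T.z j (b - a))
          (c * (E * T.z j a) * T.z j (b - a)) :=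
        T.eqv_mul hj1 (T.eqv_mul hj1 (T.eqv_refl _ _) (T.eqv_z_comm hj a E)) (T.eqv_refl _ _)
      have s4 : c * (E * T.z j a) * T.z j (b - a) = c * E * (T.z j a * T.z j (b - a)) := by group
      have s5 : T.Eqv (j + 1) (c * E * (T.z j a * T.z j (b - a))) (c * E * T.z j b) := by
        have s6 := T.eqv_mul hj1 (T.eqv_refl (j + 1) (c * E)) (T.eqv_z_add hj a (b - a))
        rw [add_sub_cancel] at s6
        exact s6
      rw [s2] at s1
      rw [s4] at s3
      exact T.eqv_trans s1 (T.eqv_trans s3 s5)
  exact key (max T1 (max T2 T3) - s).toNat s (by omega)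

end Tower

end MP65
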