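import Pool.Agent.Work.MP_65b809_gt.TDefs

/-! # Rnd : rounding of reals to multiples of `3^t` (all elementary, from `Int.floor`)

`mr t x = ⌊x / 3^t + 1/2⌋`, `rd t x = 3^t * mr t x`.
* `abs_sub_rd_le`: from `Int.floor_le`, `Int.lt_floor_add_one`.
* `mr_succ`: with `u = x/3^t`: `⌊u/3+1/2⌋ = ⌊(⌊u+1/2⌋+1)/3⌋` (write `u/3+1/2 = (u+1/2+1)/3`; use
  `Int.floor_div`-type lemma `⌊⌊v⌋/3⌋ = ⌊v/3⌋` or argue by inequalities with `omega`).
* `rd_fix_iff`: `rd t x = x ↔ x = 3^t m` with `m = mr t x`.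
* `rd_add_grid`: if `q = 3^t m` and `s ≤ t` then `q / 3^s` is an integer (`3^(t-s) m`), so
  `mr s (q + x) = q/3^s + mr s x`.
* `rd_rd`: `rd t (rd s x) = rd t x` for `s ≤ t`: induct on `t - s` with `mr_succ`
  (`mr s (rd s x) = mr s x`, and `mr (s+1)` is a function of `mr s`).
-/

namespace MP65

private theorem Rnd_pos (t : ℤ) : (0 : ℝ) < (3 : ℝ) ^ t := zpow_pos (by norm_num) t

private theorem Rnd_mr_grid (t : ℤ) (m : ℤ) : mr t ((3 : ℝ) ^ t * m) = m := by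
  unfold mr
  rw [mul_div_cancel_left₀ _ (Rnd_pos t).ne', Int.floor_eq_iff]
  constructor <;> linarith

theorem abs_sub_rd_le (t : ℤ) (x : ℝ) : |x - rd t x| ≤ (3 : ℝ) ^ t / 2 := by
  have hp := Rnd_pos t
  have h1 := Int.floor_le (x / (3 : ℝ) ^ t + 1 / 2)
  have h2 := Int.lt_floor_add_one (x / (3 : ℝ) ^ t + 1 / 2)
  have hx : x = (3 : ℝ) ^ t * (x / (3 : ℝ) ^ t) := by field_simp
  have h3 : x - rd t x = (3 : ℝ) ^ t * (x / (3 : ℝ) ^ t - mr t x) := by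
    unfold rd
    rw [mul_sub, ← hx]
  have h4 : |x / (3 : ℝ) ^ t - mr t x| ≤ 1 / 2 := by
    unfold mr
    rw [abs_le]
    constructor <;> linarith
  rw [h3, abs_mul, abs_of_pos hp]
  calc (3 : ℝ) ^ t * |x / (3 : ℝ) ^ t - mr t x| ≤ (3 : ℝ) ^ t * (1 / 2) :=
        mul_le_mul_of_nonneg_left h4 hp.le
    _ = (3 : ℝ) ^ t / 2 := by ring

theorem mr_succ (t : ℤ) (x : ℝ) : mr (t + 1) x = par (mr t x) := by
  have hp := Rnd_pos t
  have h1 := Int.floor_le (x / (3 : ℝ) ^ t + 1 / 2)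
  have h2 := Int.lt_floor_add_one (x / (3 : ℝ) ^ t + 1 / 2)
  change ((mr t x : ℤ) : ℝ) ≤ _ at h1
  change _ < ((mr t x : ℤ) : ℝ) + 1 at h2
  generalize mr t x = m at h1 h2
  have h3 : x / (3 : ℝ) ^ (t + 1) = x / (3 : ℝ) ^ t / 3 := by
    rw [zpow_add₀ (by norm_num : (3 : ℝ) ≠ 0), zpow_one, div_div]
  unfold mr par
  rw [h3, Int.floor_eq_iff]
  have h4 : 3 * ((m + 1) / 3) ≤ m + 1 := by omega
  have h5 : m + 1 ≤ 3 * ((m + 1) / 3) + 2 := by omega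
  have h4' : (3 : ℝ) * (((m + 1) / 3 : ℤ) : ℝ) ≤ m + 1 := by exact_mod_cast h4
  have h5' : (m : ℝ) + 1 ≤ 3 * (((m + 1) / 3 : ℤ) : ℝ) + 2 := by exact_mod_cast h5
  constructor <;> linarith

theorem mr_add (t : ℤ) (k : ℕ) (x : ℝ) : mr (t + k) x = par^[k] (mr t x) := by
  induction k with
  | zero => simp
  | succ k ih =>
    rw [Function.iterate_succ_apply', ← ih, ← mr_succ]
    congr 1
    push_cast
    ring

theorem rd_fix_iff (t : ℤ) (x : ℝ) : rd t x = x ↔ ∃ m : ℤ, x = (3 : ℝ) ^ t * m := by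
  constructor
  · intro h
    exact ⟨mr t x, h.symm⟩
  · rintro ⟨m, rfl⟩
    unfold rd
    rw [Rnd_mr_grid]

theorem rd_fix (t : ℤ) (x : ℝ) : rd t (rd t x) = rd t x :=
  (rd_fix_iff t _).2 ⟨mr t x, rfl⟩

/-- a multiple of `3^t` is a multiple of `3^s`, `s ≤ t` -/
theorem rd_fix_mono {s t : ℤ} (h : s ≤ t) {x : ℝ} (hx : rd t x = x) : rd s x = x := by
  obtain ⟨m, rfl⟩ := (rd_fix_iff t x).1 hx
  obtain ⟨k, hk⟩ : ∃ k : ℕ, t = s + k := ⟨(t - s).toNat, by omega⟩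
  refine (rd_fix_iff s _).2 ⟨3 ^ k * m, ?_⟩
  rw [hk, zpow_add₀ (by norm_num : (3 : ℝ) ≠ 0), zpow_natCast]
  push_cast
  ring

theorem mr_rd {s t : ℤ} (h : s ≤ t) (x : ℝ) : mr t (rd s x) = mr t x := by
  obtain ⟨k, hk⟩ : ∃ k : ℕ, t = s + k := ⟨(t - s).toNat, by omega⟩
  rw [hk, mr_add, mr_add]
  congr 1
  exact Rnd_mr_grid s (mr s x)

theorem rd_rd {s t : ℤ} (h : s ≤ t) (x : ℝ) : rd t (rd s x) = rd t x := by
  have h1 : rd t (rd s x) = (3 : ℝ) ^ t * (mr t (rd s x) : ℝ) := rfl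
  rw [h1, mr_rd h]
  rfl

theorem rd_add_grid {s t : ℤ} (h : s ≤ t) {q : ℝ} (hq : rd t q = q) (x : ℝ) :
    rd s (q + x) = q + rd s x := by
  obtain ⟨m, rfl⟩ := (rd_fix_iff s q).1 (rd_fix_mono h hq)
  have hp := Rnd_pos s
  have h1 : mr s ((3 : ℝ) ^ s * m + x) = m + mr s x := by
    unfold mr
    rw [add_div, mul_div_cancel_left₀ _ hp.ne', add_assoc, Int.floor_intCast_add]
  unfold rd
  rw [h1]
  push_cast
  ring

theorem rd_zero' (t : ℤ) : rd t 0 = 0 := (rd_fix_iff t 0).2 ⟨0, by simp⟩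

theorem rd_eq_zero {t : ℤ} {x : ℝ} (h : 2 * |x| < (3 : ℝ) ^ t) : rd t x = 0 := by
  have hp := Rnd_pos t
  have h1 : mr t x = 0 := by
    unfold mr
    rw [Int.floor_eq_iff]
    have h2 : |x / (3 : ℝ) ^ t| < 1 / 2 := by
      rw [abs_div, abs_of_pos hp, div_lt_iff₀ hp]
      linarith
    rw [abs_lt] at h2
    push_cast
    constructor <;> linarith
  unfold rd
  rw [h1]
  simp

theorem rd_near {t : ℤ} {q x : ℝ} (hq : rd t q = q) (h : 2 * |x - q| < (3 : ℝ) ^ t) :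
    rd t x = q := by
  have h1 := rd_add_grid le_rfl hq (x - q)
  rw [rd_eq_zero h, add_sub_cancel, add_zero] at h1
  exact h1

theorem abs_mr_sub_le (t : ℤ) (x y : ℝ) :
    |(mr t x : ℝ) - mr t y| ≤ |x - y| / (3 : ℝ) ^ t + 1 := by
  have hp := Rnd_pos t
  have h1 := Int.floor_le (x / (3 : ℝ) ^ t + 1 / 2)
  have h2 := Int.lt_floor_add_one (x / (3 : ℝ) ^ t + 1 / 2)
  have h3 := Int.floor_le (y / (3 : ℝ) ^ t + 1 / 2)
  have h4 := Int.lt_floor_add_one (y / (3 : ℝ) ^ t + 1 / 2)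
  have h5 : |x - y| / (3 : ℝ) ^ t = |x / (3 : ℝ) ^ t - y / (3 : ℝ) ^ t| := by
    rw [← sub_div, abs_div, abs_of_pos hp]
  rw [h5]
  unfold mr
  have h6 := le_abs_self (x / (3 : ℝ) ^ t - y / (3 : ℝ) ^ t)
  have h7 := neg_abs_le (x / (3 : ℝ) ^ t - y / (3 : ℝ) ^ t)
  rw [abs_le]
  constructor <;> linarith

theorem abs_mr_sub_le_of_lt {t : ℤ} {x y : ℝ} (h : |x - y| < (3 : ℝ) ^ t) :
    |mr t x - mr t y| ≤ 1 := by
  have hp := Rnd_pos t
  have h1 := abs_mr_sub_le t x y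
  have h2 : |x - y| / (3 : ℝ) ^ t < 1 := by
    rw [div_lt_one hp]
    exact h
  have h3 : |((mr t x - mr t y : ℤ) : ℝ)| < 2 := by
    push_cast
    linarith
  have h4 : |mr t x - mr t y| < 2 := by exact_mod_cast h3
  omega

/-- change of the rounding between two levels -/
theorem abs_rd_sub_rd_le {s t : ℤ} (h : s ≤ t) (x : ℝ) : |rd s x - rd t x| ≤ (3 : ℝ) ^ t := by
  have h1 := abs_sub_rd_le t (rd s x)
  rw [rd_rd h] at h1
  have := Rnd_pos t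
  linarith

/-- if the roundings at the levels `s ≤ u` agree then all the roundings in between agree -/
theorem rd_between {s t u : ℤ} (h1 : s ≤ t) (h2 : t ≤ u) {x : ℝ} (h : rd s x = rd u x) :
    rd t x = rd u x := by
  rw [← rd_rd h1, h]
  exact rd_fix_mono h2 (rd_fix u x)

/-- two grid numbers of level `s` which are close to each other: the difference is an integer
multiple of `3^s` -/
theorem rd_sub_grid {s : ℤ} {x y : ℝ} (hx : rd s x = x) (hy : rd s y = y) : rd s (x - y) = x - y := by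
  obtain ⟨m, hm⟩ := (rd_fix_iff s x).1 hx
  obtain ⟨n, hn⟩ := (rd_fix_iff s y).1 hy
  refine (rd_fix_iff s _).2 ⟨m - n, ?_⟩
  rw [hm, hn]
  push_cast
  ring

theorem rd_add_grid' {s : ℤ} {x y : ℝ} (hx : rd s x = x) (hy : rd s y = y) : rd s (x + y) = x + y := by
  rw [rd_add_grid le_rfl hx, hy]

end MP65
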