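import Pool.Agent.Work.MP_65b809_gt.CProd
import Pool.Agent.Work.MP_65b809_gt.Rnd

/-! # ChA : the chain `ch y`, its increments

* `rd_lam_large`: `lam i s ≥ s` for `s ≥ 0` (`w_i ≥ 1`), so `3^{lam i s}` is eventually larger than
  `2|y i|` for all `i < d`, and `rd_eq_zero` applies.
* `ch_top`, `ch_succ`: `chain_exists` applied to `T.inc y` (increments are products of `z i 0 = 1`
  for large `s`), then `Exists.choose_spec`.
* `low_inc`: the increments `Δ_i = rd (lam i s) (y i) - rd (lam i (s+1)) (y i)` satisfy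
  `|Δ_i| ≤ 3^{lam i (s+1)} ≤ 3^{w_i (s+1)} ≤ C 3^{w_i s}` (`C = max 3^{w_i}`), so `z i Δ_i` is in
  `Low d s C`, and a product of `d` such elements is in `Low d s C'` (`low_mul`, at most `d` times).
* `close_ch`: `chain_prod` and `close_of_low`.
* `ch_congr_above`: if the roundings agree at all scales `≥ s` then the chains agree at scales `≥ s`
  (`chain_unique`; the increments at scales `≥ s` agree).
* `ch_rdl`: `rd t (rd s x) = rd t x` for `s ≤ t`, so the roundings of `rdl s y` at scales `≥ s` are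
  those of `y`.
* `ch_below`: for `Grid d s y` the increments at the scales `< s` are `1` (`rd` is the identity
  there).
* `ch_const`: `rd_between`: all the increments between the two scales are `1`.
-/

namespace MP65

namespace Tower

variable {N : Type} [Group N] {d : ℕ} (T : Tower N d)

theorem rd_lam_large (y : ℕ → ℝ) : ∃ T0 : ℤ, ∀ s, T0 ≤ s → ∀ i, i < d →
    rd (T.lam i s) (y i) = 0 := by
  have key : ∀ j : ℕ, j ≤ d → ∃ T0 : ℤ, ∀ s, T0 ≤ s → ∀ i, i < j →
      rd (T.lam i s) (y i) = 0 := by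
    intro j
    induction j with
    | zero => exact fun _ => ⟨0, fun s _ i hi => absurd hi (Nat.not_lt_zero i)⟩
    | succ j ih =>
      intro hj
      obtain ⟨T0, h0⟩ := ih (by omega)
      obtain ⟨n, hn⟩ := pow_unbounded_of_one_lt (2 * |y j|) (by norm_num : (1 : ℝ) < 3)
      refine ⟨max T0 n, fun s hs i hi => ?_⟩
      rcases Nat.lt_succ_iff_lt_or_eq.1 hi with h2 | h2
      · exact h0 s ((le_max_left _ _).trans hs) i h2
      · subst h2
        have hs' : (n : ℤ) ≤ s := (le_max_right _ _).trans hs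
        apply rd_eq_zero
        refine hn.trans_le ?_
        rw [← zpow_natCast]
        refine zpow_le_zpow_right₀ (by norm_num) ?_
        have h3 := T.lam_add (i := i) (by omega) 0 s.toNat
        have h4 : (0 : ℤ) + (s.toNat : ℤ) = s := by omega
        have h5 : T.lam i 0 = 0 := by simp [lam]
        rw [h4, h5] at h3
        omega
  exact key d le_rfl

private theorem ChA_incTo_one (y : ℕ → ℝ) (s : ℤ) {j : ℕ} (hj : j ≤ d)
    (h : ∀ i, i < j → rd (T.lam i s) (y i) = rd (T.lam i (s + 1)) (y i)) :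
    T.incTo y s j = 1 := by
  induction j with
  | zero => rfl
  | succ j ih =>
    rw [incTo, ih (by omega) fun i hi => h i (by omega), h j (Nat.lt_succ_self j), sub_self,
      T.z_zero j (by omega), mul_one]

private theorem ChA_incTo_congr {y y' : ℕ → ℝ} (s : ℤ) {j : ℕ}
    (h : ∀ i, i < j → rd (T.lam i s) (y i) = rd (T.lam i s) (y' i))
    (h' : ∀ i, i < j → rd (T.lam i (s + 1)) (y i) = rd (T.lam i (s + 1)) (y' i)) :
    T.incTo y s j = T.incTo y' s j := by
  induction j with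
  | zero => rfl
  | succ j ih =>
    rw [incTo, incTo, ih (fun i hi => h i (by omega)) (fun i hi => h' i (by omega)),
      h j (Nat.lt_succ_self j), h' j (Nat.lt_succ_self j)]

private theorem ChA_spec (y : ℕ → ℝ) : (∃ T0 : ℤ, ∀ s, T0 ≤ s → T.ch y s = 1) ∧
    ∀ s, T.ch y s = T.ch y (s + 1) * T.inc y s := by
  obtain ⟨T0, h0⟩ := T.rd_lam_large y
  have hex := chain_exists (T.inc y) T0 (fun s hs => ChA_incTo_one T y s le_rfl fun i hi => by
    rw [h0 s hs i hi, h0 (s + 1) (by omega) i hi])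
  unfold ch
  rw [dif_pos hex]
  exact hex.choose_spec

theorem ch_top (y : ℕ → ℝ) : ∃ T0 : ℤ, ∀ s, T0 ≤ s → T.ch y s = 1 := (ChA_spec T y).1

theorem ch_succ (y : ℕ → ℝ) (s : ℤ) : T.ch y s = T.ch y (s + 1) * T.inc y s := (ChA_spec T y).2 s

theorem low_inc : ∃ C : ℝ, 0 ≤ C ∧ ∀ (y : ℕ → ℝ) (s : ℤ), T.Low d s C (T.inc y s) := by
  have key : ∀ j : ℕ, j ≤ d → ∃ C : ℝ, 0 ≤ C ∧ ∀ (y : ℕ → ℝ) (s : ℤ),
      T.Low d s C (T.incTo y s j) := by
    intro j
    induction j with
    | zero => exact fun _ => ⟨0, le_rfl, fun y s => T.low_one le_rfl _ le_rfl⟩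
    | succ j ih =>
      intro hj
      obtain ⟨C₁, hC₁, h1⟩ := ih (by omega)
      obtain ⟨C₂, hC₂, h2⟩ := T.low_mul C₁ ((3 : ℝ) ^ T.w j)
      refine ⟨C₂, hC₂, fun y s => h2 d s _ _ le_rfl (h1 y s) fun i hi => ?_⟩
      have hpos : ∀ a : ℝ, (0 : ℝ) < (3 : ℝ) ^ a := fun a =>
        Real.rpow_pos_of_pos (by norm_num) a
      by_cases hij : i = j
      · subst hij
        rw [T.x_z i hi]
        refine (abs_rd_sub_rd_le (T.lam_mono hi (by omega)) (y i)).trans
          ((T.lam_bounds i (s + 1)).1.trans (le_of_eq ?_))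
        rw [← Real.rpow_add (by norm_num)]
        congr 1
        push_cast
        ring
      · rw [T.x_z_ne j i (by omega) hi hij, abs_zero]
        exact (mul_pos (hpos _) (hpos _)).le
  exact key d le_rfl

/-- the chain at the scales `t ≤ t'` -/
theorem close_ch : ∃ C : ℝ, 0 ≤ C ∧ ∀ (y : ℕ → ℝ) (t t' : ℤ), t ≤ t' →
    T.Close d t' C (T.ch y t') (T.ch y t) := by
  obtain ⟨C₁, -, h1⟩ := T.low_inc
  obtain ⟨C₂, -, h2⟩ := T.chain_prod C₁
  obtain ⟨C₃, hC₃, h3⟩ := T.close_of_low C₂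
  refine ⟨C₃, hC₃, fun y t t' htt => h3 d t' _ _ le_rfl (h2 (T.ch y) t t' htt fun s _ _ => ?_)⟩
  rw [T.ch_succ y s, inv_mul_cancel_left]
  exact h1 y s

theorem ch_congr_above {y y' : ℕ → ℝ} {s : ℤ}
    (h : ∀ t, s ≤ t → ∀ i, i < d → rd (T.lam i t) (y i) = rd (T.lam i t) (y' i)) :
    ∀ t, s ≤ t → T.ch y t = T.ch y' t := by
  refine chain_unique (E := T.inc y) (E' := T.inc y') (fun t ht => ?_) (T.ch_top y) (T.ch_top y')
    (T.ch_succ y) (T.ch_succ y')
  exact ChA_incTo_congr T t (h t ht) (h (t + 1) (by omega))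

theorem ch_congr {y y' : ℕ → ℝ} (h : EqOn d y y') : T.ch y = T.ch y' := by
  funext s
  exact T.ch_congr_above (s := s) (fun t _ i hi => by rw [h i hi]) s le_rfl

theorem ch_rdl (y : ℕ → ℝ) (s : ℤ) : ∀ t, s ≤ t → T.ch (T.rdl s y) t = T.ch y t :=
  T.ch_congr_above fun _ ht _ hi => rd_rd (T.lam_mono hi ht) _

private theorem ChA_const (y : ℕ → ℝ) (s : ℤ) (n : ℕ)
    (h : ∀ u, s ≤ u → u < s + n → T.inc y u = 1) : T.ch y s = T.ch y (s + n) := by
  induction n with
  | zero => simp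
  | succ n ih =>
    rw [ih fun u h1 h2 => h u h1 (by push_cast; omega), T.ch_succ y (s + n),
      h (s + n) (by omega) (by push_cast; omega), mul_one]
    congr 1
    push_cast
    ring

theorem ch_below {y : ℕ → ℝ} {s : ℤ} (h : T.Grid d s y) : ∀ t, t ≤ s → T.ch y t = T.ch y s := by
  intro t ht
  obtain ⟨n, rfl⟩ : ∃ n : ℕ, s = t + n := ⟨(s - t).toNat, by omega⟩
  refine ChA_const T y t n fun u _ h2 => ChA_incTo_one T y u le_rfl fun i hi => ?_
  rw [rd_fix_mono (T.lam_mono hi (by omega)) (h i hi),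
    rd_fix_mono (T.lam_mono hi (by omega)) (h i hi)]

/-- roundings of the coordinates constant between two scales: the chain is constant (exactly) -/
theorem ch_const {y : ℕ → ℝ} {s t : ℤ} (hst : s ≤ t)
    (h : ∀ i, i < d → rd (T.lam i s) (y i) = rd (T.lam i t) (y i)) : T.ch y s = T.ch y t := by
  obtain ⟨n, rfl⟩ : ∃ n : ℕ, t = s + n := ⟨(t - s).toNat, by omega⟩
  refine ChA_const T y s n fun u h1 h2 => ChA_incTo_one T y u le_rfl fun i hi => ?_
  have e1 := rd_between (T.lam_mono hi h1) (T.lam_mono hi h2.le) (h i hi)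
  have e2 := rd_between (T.lam_mono hi (show s ≤ u + 1 by omega))
    (T.lam_mono hi (show u + 1 ≤ s + n by omega)) (h i hi)
  rw [e1, e2]

end Tower

end MP65
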