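import Mathlib

/-! # MP_65b809_gt : definitions (fixed, do not edit)

Distances are plain functions `d : X → X → ℝ`. -/

namespace MP65

open Set Filter Topology

/-- A metric family (a set of subsets of `Z`) has growth at most `V`: there is `C ≥ 1` such that
every ball of radius `r` in every member has at most `C V(C r) + C` points. -/
def GrowthLe {Z : Type*} (d : Z → Z → ℝ) (V : ℝ → ℝ) (Y : Set (Set Z)) : Prop :=
  ∃ C : ℝ, 1 ≤ C ∧ ∀ A ∈ Y, ∀ z ∈ A, ∀ r : ℝ, 0 ≤ r →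
    {x | x ∈ A ∧ d z x ≤ r}.Finite ∧
      ({x | x ∈ A ∧ d z x ≤ r}.ncard : ℝ) ≤ C * V (C * r) + C

/-- The class of metric families of polynomial growth. -/
def PolyFamily {Z : Type*} (d : Z → Z → ℝ) (Y : Set (Set Z)) : Prop :=
  ∃ e : ℕ, 1 ≤ e ∧ GrowthLe d (fun r => r ^ e) Y

/-- The class of metric families of subexponential growth. -/
def SubexpFamily {Z : Type*} (d : Z → Z → ℝ) (Y : Set (Set Z)) : Prop :=
  ∃ V : ℝ → ℝ, MonotoneOn V (Set.Ici 0) ∧ (∀ r, 0 ≤ r → 0 ≤ V r) ∧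
    Tendsto (fun r => Real.log (V r) / r) atTop (𝓝 0) ∧ GrowthLe d V Y

/-- `(Z, d)` `n`-decomposes over the class `M` of metric families: for every `r ≥ 0` there is a
family `Y` in `M` such that `Z` is the union of `n + 1` subsets, each of them an `r`-disjoint union
of members of `Y`. -/
def Decomposes {Z : Type*} (d : Z → Z → ℝ) (M : Set (Set Z) → Prop) (n : ℕ) : Prop :=
  ∀ r : ℝ, 0 ≤ r → ∃ Y : Set (Set Z), M Y ∧ ∃ X : Fin (n + 1) → Set Z,
    (⋃ i, X i) = Set.univ ∧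
    ∀ i, ∃ P : Set (Set Z), P ⊆ Y ∧ ⋃₀ P = X i ∧
      P.Pairwise (fun A B => ∀ a ∈ A, ∀ b ∈ B, r ≤ d a b)

/-- The least `n` such that `(Z, d)` `n`-decomposes over `M`. -/
noncomputable def asdimOf {Z : Type*} (d : Z → Z → ℝ) (M : Set (Set Z) → Prop) : ℕ∞ :=
  ⨅ (n : ℕ) (_ : Decomposes d M n), (n : ℕ∞)

/-- Polynomial asymptotic dimension. -/
noncomputable def asdimPoly {Z : Type*} (d : Z → Z → ℝ) : ℕ∞ := asdimOf d (PolyFamily d)

/-- Subexponential asymptotic dimension. -/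
noncomputable def asdimSe {Z : Type*} (d : Z → Z → ℝ) : ℕ∞ := asdimOf d (SubexpFamily d)

/-- `Z` is a maximal `1`-separated subset of `(Y, d)`: distinct points of `Z` are at distance at
least `1`, and every point of `Y` is at distance less than `1` from some point of `Z`. -/
def IsNet {Y : Type*} (d : Y → Y → ℝ) (Z : Set Y) : Prop :=
  (∀ x ∈ Z, ∀ y ∈ Z, x ≠ y → 1 ≤ d x y) ∧ ∀ y, ∃ z ∈ Z, d z y < 1

/-- A real algebraic subgroup of `GL_m(ℝ)` (the zero set in `GL_m(ℝ)` of a set of polynomials in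
the entries) which is closed under transposition. -/
structure AlgGroup (m : ℕ) where
  G : Subgroup (GL (Fin m) ℝ)
  alg : ∃ P : Set (MvPolynomial (Fin m × Fin m) ℝ), ∀ g : GL (Fin m) ℝ,
    g ∈ G ↔ ∀ p ∈ P, MvPolynomial.eval (fun ij => (g : Matrix (Fin m) (Fin m) ℝ) ij.1 ij.2) p = 0
  transpose : ∀ g ∈ G, ∀ g' : GL (Fin m) ℝ,
    (g' : Matrix (Fin m) (Fin m) ℝ) = (g : Matrix (Fin m) (Fin m) ℝ).transpose → g' ∈ G

/-- The symmetric space of `G`: the positive definite symmetric matrices in `G` (the orbit of the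
identity under `x ↦ g x gᵀ`, i.e. `G / (G ∩ O(m))`). -/
def SymSpace {m : ℕ} (G : AlgGroup m) : Type :=
  {x : GL (Fin m) ℝ // x ∈ G.G ∧ (x : Matrix (Fin m) (Fin m) ℝ).PosDef}

/-- The invariant Riemannian distance `d(x,y)² = ∑ (log λ)²`, `λ` the eigenvalues of `x⁻¹ y`
(roots of the characteristic polynomial, with multiplicity). -/
noncomputable def rdist {m : ℕ} (x y : GL (Fin m) ℝ) : ℝ :=
  Real.sqrt ((((x⁻¹ * y : GL (Fin m) ℝ) : Matrix (Fin m) (Fin m) ℝ).charpoly.roots.map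
    (fun l => Real.log l ^ 2)).sum)

/-- Symmetric matrices `s` with `exp (t s) ∈ G` for all real `t` (the tangent space `𝔭` of
`SymSpace G` at the identity). -/
def pSet {m : ℕ} (G : AlgGroup m) : Set (Matrix (Fin m) (Fin m) ℝ) :=
  {s | s.transpose = s ∧ ∀ t : ℝ, ∃ g ∈ G.G,
    (g : Matrix (Fin m) (Fin m) ℝ) = NormedSpace.exp (t • s)}

/-- The dimension of the symmetric space. -/
noncomputable def dimX {m : ℕ} (G : AlgGroup m) : ℕ :=
  Module.finrank ℝ (Submodule.span ℝ (pSet G))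

/-- The rank: the largest dimension of a commuting linear subspace of `𝔭`. -/
noncomputable def rankX {m : ℕ} (G : AlgGroup m) : ℕ :=
  sSup {k | ∃ A : Submodule ℝ (Matrix (Fin m) (Fin m) ℝ), (A : Set _) ⊆ pSet G ∧
    (∀ s ∈ A, ∀ t ∈ A, s * t = t * s) ∧ Module.finrank ℝ A = k}

/-- The space `∏ X_i × ℝ^k × V^l`. -/
abbrev Total {n : ℕ} {m : Fin n → ℕ} (G : ∀ i, AlgGroup (m i)) (k l : ℕ) (V : Type) : Type :=
  (∀ i, SymSpace (G i)) × EuclideanSpace ℝ (Fin k) × (Fin l → V)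

/-- The product metric: the Riemannian product of the `X_i` with metric scaled by `c i`, and
`ℝ^k`; plus (`ℓ¹`) the graph distances in the trees. -/
noncomputable def totalDist {n : ℕ} {m : Fin n → ℕ} (G : ∀ i, AlgGroup (m i)) (c : Fin n → ℝ)
    (k l : ℕ) {V : Type} (T : SimpleGraph V) (x y : Total G k l V) : ℝ :=
  Real.sqrt (∑ i, (c i * rdist (x.1 i).1 (y.1 i).1) ^ 2 + dist x.2.1 y.2.1 ^ 2) +
    ∑ j, (T.dist (x.2.2 j) (y.2.2 j) : ℝ)

/-! ## Internal definitions -/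

/-- Internal: the strong form of `asdimPoly ≤ D` which adds under products. -/
def PolyDim {X : Type} (d : X → X → ℝ) (D : ℕ) : Prop :=
  ∀ (r ε : ℝ) (q : ℕ), 0 < ε → ∃ (Λ : Type) (f : Fin q → X → Option Λ) (C e : ℕ),
    (∀ x, ({i | f i x = none} : Set (Fin q)).ncard ≤ D) ∧
    (∀ i x y a b, d x y ≤ r → f i x = some a → f i y = some b → a = b) ∧
    (∀ i x a (n : ℕ), f i x = some a → ∃ g : X → ℕ, (∀ y, g y < C * (n + 1) ^ e) ∧
      ∀ y z, f i y = some a → f i z = some a → d x y ≤ n → d x z ≤ n → g y = g z → d y z ≤ ε)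

end MP65
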