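import Pool.Agent.Work.MP_65b809_gt.RoundNB

/-! # GL : balls of the coned graph have polynomial growth

`gl1`. For `k`, `C₁` there are `C, e`: for all `t₀ ≤ t₁`, `g₀`, the set `A_k(g₀, C₁)` of `y` with
`Grid d t₀ y` such that there are `z` and `s ≤ t₀` with `Grid d s z`, `Close d t₀ C₁ g₀ (ch z s)` and
`ConnLe K d t₁ k z y` satisfies `Cnt d A (C ((t₁-t₀)+1)^e)`.
Induction on `k` (for all `C₁`; use the path from the `z` side: `ConnLe` is symmetric, so write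
`ConnLe (k+1) z y` as a first step `z → z₁` followed by `ConnLe k z₁ y`). `k = 0`: `y` is `EqOn d` to
`z`, so `ch y t₀ = ch z s`-close to `g₀` (`ch_below`, both grids): `cnt_near` at the scale `t₀`.
`k+1`, first step an edge of scale `σ ≤ t₁` (or `EqOn`):
 * `σ < t₀`: `z₁` is in `Grid d σ` and `ch z₁ σ` is close to `g₀` at the scale `t₀` with a constant
   `C₁'` (triangle: `ch z s`, `ch z σ`: `ch z` is constant below any grid scale, so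
   `ch z σ = ch z s` as `z` is a grid tuple of both scales; the edge). So `y ∈ A_k(g₀, C₁')`.
 * `t₀ ≤ σ ≤ t₁`: `z` is a grid tuple of scale `σ`, hence of scale `t₀`, `ch z σ = ch z t₀ = ch z s`
   is `C₁`-close to `g₀` at the scale `t₀`: at most `W` such `z` (`cnt_near` at `t₀`). `z₁` is a grid
   tuple of scale `σ` with `ch z₁ σ` `K`-close to `ch z σ` at the scale `σ`: at most `W'` such `z₁`
   for each `(z, σ)`. For each `z₁`: `y ∈ A_k(ch z₁ σ, 0)`, with start `z₁` itself. Total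
   `W · (t₁ - t₀ + 1) · W' · (bound for k)`. Use `Cnt.bind` and `Cnt.union`/a union over `σ`.

`split`: `Conn K d k z y` implies `ConnLe K d t₁ k z y` or there are `k' < k`, `u` with
`Grid d t₁ u` and `ConnLe K d t₁ k' u y` (take the end `u` of the last edge of scale `> t₁`).

`gl`: `y⁰` a vertex. `A = {y : Grid d t₀ y, Conn K d k y⁰ y, Close d t₁ C (ch y⁰ s⁰) (ch y t₀)}` with
`Grid d s⁰ y⁰`, `s⁰ ≤ t₀`. Either `ConnLe K d t₁ k y⁰ y`: `gl1` with `g₀ = ch y⁰ s⁰`. Or `u` as in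
`split`: `ConnLe K d t₁ k' u y` gives `Close d t₁ C' (ch u t₁) (ch y t₀)` (each edge of scale `≤ t₁`
gives closeness at the scale `t₁`), so `Close d t₁ C'' (ch y⁰ s⁰) (ch u t₁)`: at most `W''` such
`u`, and for each of them `gl1` with `g₀ = ch u t₁`, `z = u` (`Grid d t₀ u`). 
-/

namespace MP65

namespace Tower

variable {N : Type} [Group N] {d : ℕ} (T : Tower N d) {K : ℝ}

private theorem gl_edge_congr {t : ℤ} {y y' z z' : ℕ → ℝ} (h1 : EqOn d y z)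
    (h2 : EqOn d y' z') (h : T.EdgeLe K d t y y') : T.EdgeLe K d t z z' := by
  obtain ⟨s, hs, a1, a2, a3⟩ := h
  refine ⟨s, hs, T.grid_congr h1 a1, T.grid_congr h2 a2, ?_⟩
  rw [← T.ch_congr h1, ← T.ch_congr h2]
  exact a3

private theorem gl_mono {t : ℤ} {k l : ℕ} (h : k ≤ l) {y y' : ℕ → ℝ} (hc : T.ConnLe K d t k y y') :
    T.ConnLe K d t l y y' := by
  induction l, h using Nat.le_induction with
  | base => exact hc
  | succ l _ ih => exact ⟨y', ih, Or.inl (EqOn.refl d y')⟩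

private theorem gl_head {t : ℤ} {k : ℕ} {z y : ℕ → ℝ} (h : T.ConnLe K d t (k + 1) z y) :
    ∃ z₁, (EqOn d z z₁ ∨ T.EdgeLe K d t z z₁) ∧ T.ConnLe K d t k z₁ y := by
  induction k generalizing y with
  | zero =>
    obtain ⟨u, hu, h1⟩ := h
    have hu' : EqOn d z u := hu
    refine ⟨y, ?_, EqOn.refl d y⟩
    rcases h1 with h1 | h1
    · exact Or.inl (EqOn.trans hu' h1)
    · exact Or.inr (gl_edge_congr T (EqOn.symm hu') (EqOn.refl d y) h1)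
  | succ k ih =>
    obtain ⟨u, hu, h1⟩ := h
    obtain ⟨z₁, hz₁, h2⟩ := ih hu
    exact ⟨z₁, hz₁, u, h2, h1⟩

private theorem gl_close (hK : T.GoodK K) (k : ℕ) : ∃ C : ℝ, 0 ≤ C ∧ ∀ (t : ℤ) (z y : ℕ → ℝ),
    T.ConnLe K d t k z y → T.Close d t C (T.ch z t) (T.ch y t) := by
  induction k with
  | zero =>
    refine ⟨0, le_rfl, fun t z y h => ?_⟩
    rw [T.ch_congr (show EqOn d z y from h)]
    exact T.close_refl le_rfl t le_rfl _
  | succ k ih =>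
    obtain ⟨C, hC, h0⟩ := ih
    obtain ⟨C₁, hC₁, h1⟩ := T.close_ch
    obtain ⟨C₂, hC₂, h2⟩ := T.close_trans C C₁
    obtain ⟨C₃, hC₃, h3⟩ := T.close_trans C₂ K
    obtain ⟨C₄, hC₄, h4⟩ := T.close_trans C₃ C₁
    refine ⟨max C C₄, hC.trans (le_max_left _ _), fun t z y h => ?_⟩
    obtain ⟨u, hu, he | he⟩ := h
    · rw [← T.ch_congr he]
      exact T.close_mono (le_max_left _ _) (h0 t z u hu)
    · obtain ⟨s, hst, -, -, hcl⟩ := he
      have hst' : (s : ℝ) ≤ (t : ℝ) := by exact_mod_cast hst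
      have a4 := T.close_mono_s le_rfl hK.1 hst' hcl
      exact T.close_mono (le_max_right _ _) (h4 d t _ _ _ le_rfl
        (h3 d t _ _ _ le_rfl (h2 d t _ _ _ le_rfl (h0 t z u hu) (h1 u s t hst)) a4)
        (T.close_symm (h1 y s t hst)))

private theorem gl_chgrid {z : ℕ → ℝ} {s σ : ℤ} (hs : T.Grid d s z) (hσ : T.Grid d σ z) :
    T.ch z s = T.ch z σ := by
  rcases le_total s σ with h | h
  · exact T.ch_below hσ s h
  · exact (T.ch_below hs σ h).symm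

theorem gl1 (hK : T.GoodK K) (k : ℕ) : ∀ C₁ : ℝ, ∃ C e : ℕ, ∀ (t₀ t₁ : ℤ) (g₀ : N), t₀ ≤ t₁ →
    Cnt d {y | T.Grid d t₀ y ∧ ∃ (z : ℕ → ℝ) (s : ℤ), s ≤ t₀ ∧ T.Grid d s z ∧
      T.Close d t₀ C₁ g₀ (T.ch z s) ∧ T.ConnLe K d t₁ k z y} (C * ((t₁ - t₀).toNat + 1) ^ e) := by
  classical
  induction k with
  | zero =>
    intro C₁
    obtain ⟨W, hW⟩ := T.cnt_near C₁
    refine ⟨W, 0, fun t₀ t₁ g₀ _ => ?_⟩
    rw [pow_zero, mul_one]
    refine Cnt.mono ?_ le_rfl (hW g₀ t₀)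
    rintro y ⟨hy, z, s, hs, hz, hc, hzy⟩
    have hzy' : EqOn d z y := hzy
    refine ⟨hy, ?_⟩
    rw [T.ch_congr hzy', T.ch_below hy s hs] at hc
    exact hc
  | succ k ih =>
    intro C₁
    obtain ⟨C₂, hC₂, h2⟩ := T.close_trans C₁ K
    obtain ⟨Ca, ea, ha⟩ := ih C₁
    obtain ⟨Cb, eb, hb⟩ := ih C₂
    obtain ⟨Cc, ec, hc⟩ := ih 0
    obtain ⟨W, hW⟩ := T.cnt_near C₁
    obtain ⟨W', hW'⟩ := T.cnt_near K
    refine ⟨Ca + Cb + W * (W' * Cc), max ea (max eb (ec + 1)), fun t₀ t₁ g₀ ht => ?_⟩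
    obtain ⟨L, hL⟩ : ∃ L : ℕ, L = (t₁ - t₀).toNat + 1 := ⟨_, rfl⟩
    have hL1 : 1 ≤ L := by omega
    rw [← hL]
    have hcount : Ca * L ^ ea + Cb * L ^ eb + L * (W * (W' * (Cc * L ^ ec))) ≤
        (Ca + Cb + W * (W' * Cc)) * L ^ max ea (max eb (ec + 1)) := by
      have p1 : L ^ ea ≤ L ^ max ea (max eb (ec + 1)) := Nat.pow_le_pow_right hL1 (le_max_left _ _)
      have p2 : L ^ eb ≤ L ^ max ea (max eb (ec + 1)) :=
        Nat.pow_le_pow_right hL1 ((le_max_left _ _).trans (le_max_right _ _))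
      have p3 : L ^ (ec + 1) ≤ L ^ max ea (max eb (ec + 1)) :=
        Nat.pow_le_pow_right hL1 ((le_max_right _ _).trans (le_max_right _ _))
      have q1 := Nat.mul_le_mul_left Ca p1
      have q2 := Nat.mul_le_mul_left Cb p2
      have q3 := Nat.mul_le_mul_left (W * (W' * Cc)) p3
      have e3 : L * (W * (W' * (Cc * L ^ ec))) = W * (W' * Cc) * L ^ (ec + 1) := by ring
      rw [e3]
      calc Ca * L ^ ea + Cb * L ^ eb + W * (W' * Cc) * L ^ (ec + 1)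
          ≤ Ca * L ^ max ea (max eb (ec + 1)) + Cb * L ^ max ea (max eb (ec + 1)) +
            W * (W' * Cc) * L ^ max ea (max eb (ec + 1)) := by omega
        _ = _ := by ring
    have hA := ha t₀ t₁ g₀ ht
    have hB := hb t₀ t₁ g₀ ht
    rw [← hL] at hA hB
    -- the third part
    have hC3 : Cnt d {y | T.Grid d t₀ y ∧ ∃ (σ : ℤ) (z z₁ : ℕ → ℝ), t₀ ≤ σ ∧ σ ≤ t₁ ∧
        (T.Grid d t₀ z ∧ T.Close d t₀ C₁ g₀ (T.ch z t₀)) ∧
        (T.Grid d σ z₁ ∧ T.Close d σ K (T.ch z t₀) (T.ch z₁ σ)) ∧ T.ConnLe K d t₁ k z₁ y}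
        (L * (W * (W' * (Cc * L ^ ec)))) := by
      have hch : ∀ y : ℕ → ℝ, ∃ σ : ℤ, (T.Grid d t₀ y ∧ ∃ (σ : ℤ) (z z₁ : ℕ → ℝ), t₀ ≤ σ ∧ σ ≤ t₁ ∧
        (T.Grid d t₀ z ∧ T.Close d t₀ C₁ g₀ (T.ch z t₀)) ∧
        (T.Grid d σ z₁ ∧ T.Close d σ K (T.ch z t₀) (T.ch z₁ σ)) ∧ T.ConnLe K d t₁ k z₁ y) →
        (t₀ ≤ σ ∧ σ ≤ t₁ ∧ ∃ (z z₁ : ℕ → ℝ),
        (T.Grid d t₀ z ∧ T.Close d t₀ C₁ g₀ (T.ch z t₀)) ∧
        (T.Grid d σ z₁ ∧ T.Close d σ K (T.ch z t₀) (T.ch z₁ σ)) ∧ T.ConnLe K d t₁ k z₁ y) := by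
        intro y
        by_cases hy : T.Grid d t₀ y ∧ ∃ (σ : ℤ) (z z₁ : ℕ → ℝ), t₀ ≤ σ ∧ σ ≤ t₁ ∧
          (T.Grid d t₀ z ∧ T.Close d t₀ C₁ g₀ (T.ch z t₀)) ∧
          (T.Grid d σ z₁ ∧ T.Close d σ K (T.ch z t₀) (T.ch z₁ σ)) ∧ T.ConnLe K d t₁ k z₁ y
        · obtain ⟨-, σ, z, z₁, h1, h2, h3, h4, h5⟩ := hy
          exact ⟨σ, fun _ => ⟨h1, h2, z, z₁, h3, h4, h5⟩⟩
        · exact ⟨0, fun h => absurd h hy⟩
      choose f hf using hch
      refine Cnt.fibre (fun y => (f y - t₀).toNat) (fun y hy => ?_) fun c _ => ?_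
      · obtain ⟨h1, h2, -⟩ := hf y hy
        show (f y - t₀).toNat < L
        omega
      · have hbind : Cnt d {y | T.Grid d t₀ y ∧ ∃ z₀ ∈ {z | T.Grid d t₀ z ∧
            T.Close d t₀ C₁ g₀ (T.ch z t₀)}, ∃ z₁ ∈ {z₁ | T.Grid d (t₀ + c) z₁ ∧
            T.Close d ((t₀ + c : ℤ) : ℝ) K (T.ch z₀ t₀) (T.ch z₁ (t₀ + c))}, T.ConnLe K d t₁ k z₁ y}
            (W * (W' * (Cc * L ^ ec))) := by
          refine Cnt.bind (fun z₀ => {y | T.Grid d t₀ y ∧ ∃ z₁ ∈ {z₁ | T.Grid d (t₀ + c) z₁ ∧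
            T.Close d ((t₀ + c : ℤ) : ℝ) K (T.ch z₀ t₀) (T.ch z₁ (t₀ + c))}, T.ConnLe K d t₁ k z₁ y})
            (hW g₀ t₀) (fun z₀ _ => ?_) ?_ ?_
          · refine Cnt.bind (fun z₁ => {y | T.Grid d t₀ y ∧ ∃ (z : ℕ → ℝ) (s : ℤ), s ≤ t₀ ∧
              T.Grid d s z ∧ T.Close d t₀ 0 (T.ch z₁ t₀) (T.ch z s) ∧ T.ConnLe K d t₁ k z y})
              (hW' (T.ch z₀ t₀) (t₀ + c)) (fun z₁ _ => ?_) ?_ ?_
            · have := hc t₀ t₁ (T.ch z₁ t₀) ht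
              rw [← hL] at this
              exact this
            · intro u _ u' _ huu
              rw [T.ch_congr huu]
            · rintro y ⟨hy, z₁, hz₁, hcon⟩
              have hg : T.Grid d t₀ z₁ := T.grid_mono_s le_rfl (by omega) hz₁.1
              exact ⟨z₁, hz₁, hy, z₁, t₀, le_rfl, hg, T.close_refl le_rfl _ le_rfl _, hcon⟩
          · intro u _ u' _ huu
            simp only [T.ch_congr huu]
            exact subset_rfl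
          · rintro y ⟨hy, z₀, hz₀, hz₁⟩
            exact ⟨z₀, hz₀, hy, hz₁⟩
        refine Cnt.mono ?_ le_rfl hbind
        rintro y ⟨hy, hyc⟩
        obtain ⟨h1, h2, z, z₁, h3, h4, h5⟩ := hf y hy
        have hσ : f y = t₀ + c := by
          have : (f y - t₀).toNat = c := hyc
          omega
        rw [hσ] at h4
        exact ⟨hy.1, z, h3, z₁, h4, h5⟩
    refine Cnt.mono ?_ hcount ((hA.union hB).union hC3)
    rintro y ⟨hy, z, s, hs, hz, hcl, hcon⟩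
    obtain ⟨z₁, hstep, hcon'⟩ := gl_head T hcon
    rcases hstep with he | he
    · refine Or.inl (Or.inl ⟨hy, z₁, s, hs, T.grid_congr he hz, ?_, hcon'⟩)
      rw [← T.ch_congr he]
      exact hcl
    · obtain ⟨σ, hσ, hσz, hσz₁, hcl'⟩ := he
      have e1 : T.ch z s = T.ch z σ := gl_chgrid T hz hσz
      by_cases hσt : σ ≤ t₀
      · refine Or.inl (Or.inr ⟨hy, z₁, σ, hσt, hσz₁, ?_, hcon'⟩)
        have hσt' : (σ : ℝ) ≤ (t₀ : ℝ) := by exact_mod_cast hσt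
        rw [e1] at hcl
        exact h2 d t₀ _ _ _ le_rfl hcl (T.close_mono_s le_rfl hK.1 hσt' hcl')
      · refine Or.inr ⟨hy, σ, z, z₁, by omega, hσ, ⟨?_, ?_⟩, ⟨hσz₁, ?_⟩, hcon'⟩
        · exact T.grid_mono_s le_rfl (by omega) hσz
        · rw [T.ch_below hσz t₀ (by omega), ← e1]
          exact hcl
        · rw [T.ch_below hσz t₀ (by omega)]
          exact hcl'

theorem split_conn (hK : T.GoodK K) (t₁ : ℤ) {k : ℕ} {z y : ℕ → ℝ} (h : T.Conn K d k z y) :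
    T.ConnLe K d t₁ k z y ∨ ∃ (k' : ℕ) (u : ℕ → ℝ), k' < k ∧ T.Grid d t₁ u ∧
      T.ConnLe K d t₁ k' u y := by
  induction k generalizing y with
  | zero => exact Or.inl h
  | succ k ih =>
    obtain ⟨u, hu, h1⟩ := h
    have hstep : (EqOn d u y ∨ T.EdgeLe K d t₁ u y) ∨ T.Grid d t₁ y := by
      rcases h1 with h1 | h1
      · exact Or.inl (Or.inl h1)
      · obtain ⟨σ, a1, a2, a3⟩ := h1
        by_cases hσ : σ ≤ t₁
        · exact Or.inl (Or.inr ⟨σ, hσ, a1, a2, a3⟩)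
        · exact Or.inr (T.grid_mono_s le_rfl (by omega) a2)
    rcases hstep with hstep | hg
    · rcases ih hu with h2 | ⟨k', v, hk', hv, h2⟩
      · exact Or.inl ⟨u, h2, hstep⟩
      · exact Or.inr ⟨k' + 1, v, by omega, hv, u, h2, hstep⟩
    · exact Or.inr ⟨0, y, Nat.succ_pos _, hg, EqOn.refl d y⟩

theorem gl (hK : T.GoodK K) (k : ℕ) (C : ℝ) : ∃ C' e : ℕ, ∀ (t₀ t₁ s : ℤ) (y₀ : ℕ → ℝ),
    t₀ ≤ t₁ → s ≤ t₀ → T.Grid d s y₀ →
    Cnt d {y | T.Grid d t₀ y ∧ T.Conn K d k y₀ y ∧ T.Close d t₁ C (T.ch y₀ s) (T.ch y t₀)}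
      (C' * ((t₁ - t₀).toNat + 1) ^ e) := by
  obtain ⟨Ck, hCk, hk⟩ := gl_close T hK k
  obtain ⟨C₁, hC₁, h1⟩ := T.close_ch
  obtain ⟨C₂, hC₂, h2⟩ := T.close_trans C C₁
  obtain ⟨C₃, hC₃, h3⟩ := T.close_trans C₂ Ck
  obtain ⟨C₀, e, h0⟩ := T.gl1 hK k 0
  obtain ⟨W, hW⟩ := T.cnt_near C₃
  refine ⟨C₀ + W * C₀, e, fun t₀ t₁ s y₀ ht hs hy₀ => ?_⟩
  have hcount : C₀ * ((t₁ - t₀).toNat + 1) ^ e + W * (C₀ * ((t₁ - t₀).toNat + 1) ^ e) ≤
      (C₀ + W * C₀) * ((t₁ - t₀).toNat + 1) ^ e := le_of_eq (by ring)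
  have hB : Cnt d {y | T.Grid d t₀ y ∧ ∃ u ∈ {u | T.Grid d t₁ u ∧
      T.Close d t₁ C₃ (T.ch y₀ s) (T.ch u t₁)}, T.ConnLe K d t₁ k u y}
      (W * (C₀ * ((t₁ - t₀).toNat + 1) ^ e)) := by
    refine Cnt.bind (fun u => {y | T.Grid d t₀ y ∧ ∃ (z : ℕ → ℝ) (s : ℤ), s ≤ t₀ ∧
      T.Grid d s z ∧ T.Close d t₀ 0 (T.ch u t₀) (T.ch z s) ∧ T.ConnLe K d t₁ k z y})
      (hW (T.ch y₀ s) t₁) (fun u _ => h0 t₀ t₁ _ ht) ?_ ?_
    · intro u _ u' _ huu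
      rw [T.ch_congr huu]
    · rintro y ⟨hy, u, hu, hcon⟩
      exact ⟨u, hu, hy, u, t₀, le_rfl, T.grid_mono_s le_rfl ht hu.1,
        T.close_refl le_rfl _ le_rfl _, hcon⟩
  refine Cnt.mono ?_ hcount ((h0 t₀ t₁ (T.ch y₀ s) ht).union hB)
  rintro y ⟨hy, hcon, hcl⟩
  rcases T.split_conn hK t₁ hcon with h | ⟨k', u, hk', hu, h⟩
  · exact Or.inl ⟨hy, y₀, s, hs, hy₀, T.close_refl le_rfl _ le_rfl _, h⟩
  · have h' := gl_mono T (le_of_lt hk') h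
    refine Or.inr ⟨hy, u, ⟨hu, ?_⟩, h'⟩
    exact h3 d t₁ _ _ _ le_rfl
      (h2 d t₁ _ _ _ le_rfl hcl (T.close_symm (h1 y t₀ t₁ ht)))
      (T.close_symm (hk t₁ u y h'))

end Tower

end MP65
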