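import Pool.Agent.Work.MP_65b809_gt.Ch

/-! # GrA : the coned graph, elementary facts

* `exists_goodK`: let `C₁` be the constant of `close_ch`. (1) `Close d s K (ch y (s+1)) (ch y s)`:
  the element `(ch y (s+1))⁻¹ ch y s = inc y s` is `Low d s C` by `low_inc`, `low_inv`.
  (2) given `C` choose `p` with `C ≤ 3^p`: `Close j s C a b` gives `Close j (s+p) 1 a b`
  (`close_scale`), and `ch y (s+p)` is `C₁`-close to `ch y s` at scale `s+p`; `close_trans` twice
  gives a constant independent of `C`. `K` = maximum.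
* `Grid` facts from `rd_fix_mono`, `rd_fix`, `rd_rd`, `lam_mono`.
* `edge_mono_j`: an edge of `G^(j)` is an edge of `G^(i)`, `i ≤ j`. `edge_congr`: `ch_eqv_above`,
  `close_congr`, `grid_congr`. `conn_trans`, `conn_symm`: induction (`edge_symm`, `EqOn` steps).
-/

namespace MP65

theorem EqOn.refl (j : ℕ) (y : ℕ → ℝ) : EqOn j y y := fun _ _ => rfl

theorem EqOn.symm {j : ℕ} {y y' : ℕ → ℝ} (h : EqOn j y y') : EqOn j y' y :=
  fun i hi => (h i hi).symm

theorem EqOn.trans {j : ℕ} {y y' y'' : ℕ → ℝ} (h : EqOn j y y') (h' : EqOn j y' y'') :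
    EqOn j y y'' := fun i hi => (h i hi).trans (h' i hi)

theorem EqOn.mono {i j : ℕ} (hij : i ≤ j) {y y' : ℕ → ℝ} (h : EqOn j y y') : EqOn i y y' :=
  fun k hk => h k (lt_of_lt_of_le hk hij)

namespace Tower

variable {N : Type} [Group N] {d : ℕ} (T : Tower N d)

theorem exists_goodK : ∃ K : ℝ, T.GoodK K := by
  obtain ⟨C1, hC1, h1⟩ := T.low_inc
  obtain ⟨C1', hC1', h1'⟩ := T.close_of_low C1
  obtain ⟨C2, hC2, h2⟩ := T.close_ch
  obtain ⟨C3, hC3, h3⟩ := T.close_trans C2 1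
  obtain ⟨C4, hC4, h4⟩ := T.close_trans C3 C2
  refine ⟨max C1' C4, le_trans hC4 (le_max_right _ _), ?_, ?_⟩
  · intro y s
    refine T.close_mono (le_max_left _ _) (h1' d s _ _ le_rfl ?_)
    have : (T.ch y (s + 1))⁻¹ * T.ch y s = T.inc y s := by
      rw [T.ch_succ y s, inv_mul_cancel_left]
    rw [this]
    exact h1 y s
  · intro C
    obtain ⟨p, hp⟩ := pow_unbounded_of_one_lt C (by norm_num : (1 : ℝ) < 3)
    refine ⟨p, fun j y y' s hj hc => ?_⟩
    have hs : s ≤ s + (p : ℤ) := by omega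
    have a1 : T.Close j ((s + p : ℤ) : ℝ) 1 (T.ch y s) (T.ch y' s) := by
      have := T.close_scale hj hp.le hc
      push_cast
      exact this
    have a2 := T.close_mono_j hj (h2 y s (s + p) hs)
    have a3 := T.close_mono_j hj (h2 y' s (s + p) hs)
    have a4 := h3 j _ _ _ _ hj a2 a1
    exact T.close_mono (le_max_right _ _) (h4 j _ _ _ _ hj a4 (T.close_symm a3))

theorem grid_mono_s {j : ℕ} (hj : j ≤ d) {s t : ℤ} (h : s ≤ t) {y : ℕ → ℝ} (hy : T.Grid j t y) :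
    T.Grid j s y := fun i hi => rd_fix_mono (T.lam_mono (lt_of_lt_of_le hi hj) h) (hy i hi)

theorem grid_mono_j {i j : ℕ} (h : i ≤ j) {s : ℤ} {y : ℕ → ℝ} (hy : T.Grid j s y) :
    T.Grid i s y := fun k hk => hy k (lt_of_lt_of_le hk h)

theorem grid_congr {j : ℕ} {s : ℤ} {y y' : ℕ → ℝ} (h : EqOn j y y') (hy : T.Grid j s y) :
    T.Grid j s y' := fun i hi => by rw [← h i hi]; exact hy i hi

theorem grid_rdl (j : ℕ) (s : ℤ) (y : ℕ → ℝ) : T.Grid j s (T.rdl s y) :=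
  fun i _ => rd_fix _ _

theorem v_congr {y y' : ℕ → ℝ} (h : EqOn d y y') (hy : T.V y) : T.V y' := by
  obtain ⟨s, hs⟩ := hy
  exact ⟨s, T.grid_congr h hs⟩

theorem rdl_eqOn_of_grid {j : ℕ} {s : ℤ} {y : ℕ → ℝ} (hy : T.Grid j s y) :
    EqOn j (T.rdl s y) y := fun i hi => hy i hi

variable {T} {K : ℝ}

theorem edge_symm {j : ℕ} {y y' : ℕ → ℝ} (h : T.Edge K j y y') : T.Edge K j y' y := by
  obtain ⟨s, h1, h2, h3⟩ := h
  exact ⟨s, h2, h1, T.close_symm h3⟩

theorem edge_mono_j {i j : ℕ} (hij : i ≤ j) {y y' : ℕ → ℝ} (h : T.Edge K j y y') :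
    T.Edge K i y y' := by
  obtain ⟨s, h1, h2, h3⟩ := h
  exact ⟨s, T.grid_mono_j hij h1, T.grid_mono_j hij h2, T.close_mono_j hij h3⟩

theorem edgeLe_edge {j : ℕ} {t : ℤ} {y y' : ℕ → ℝ} (h : T.EdgeLe K j t y y') : T.Edge K j y y' := by
  obtain ⟨s, -, h1, h2, h3⟩ := h
  exact ⟨s, h1, h2, h3⟩

theorem edge_congr {j : ℕ} (hj : j ≤ d) {y y' z z' : ℕ → ℝ} (h1 : EqOn j y z) (h2 : EqOn j y' z')
    (h : T.Edge K j y y') : T.Edge K j z z' := by
  obtain ⟨s, a1, a2, a3⟩ := h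
  refine ⟨s, T.grid_congr h1 a1, T.grid_congr h2 a2, T.close_congr hj ?_ ?_ a3⟩
  · exact T.ch_eqv_above hj (fun i hi => by rw [h1 i hi]) s le_rfl
  · exact T.ch_eqv_above hj (fun i hi => by rw [h2 i hi]) s le_rfl

theorem edge_refl (hK : T.GoodK K) {j : ℕ} (hj : j ≤ d) {s : ℤ} {y y' : ℕ → ℝ}
    (hy : T.Grid j s y) (h : EqOn j y y') : T.Edge K j y y' := by
  refine ⟨s, hy, T.grid_congr h hy, ?_⟩
  refine T.close_congr hj (T.eqv_refl _ _) ?_ (T.close_refl hj s hK.1 (T.ch y s))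
  exact T.ch_eqv_above hj (fun i hi => by rw [h i hi]) s le_rfl

theorem conn_refl (j k : ℕ) (y : ℕ → ℝ) : T.Conn K j k y y := by
  induction k with
  | zero => exact EqOn.refl j y
  | succ k ih => exact ⟨y, ih, Or.inl (EqOn.refl j y)⟩

theorem conn_mono {j k l : ℕ} (h : k ≤ l) {y y' : ℕ → ℝ} (hc : T.Conn K j k y y') :
    T.Conn K j l y y' := by
  induction l, h using Nat.le_induction with
  | base => exact hc
  | succ l _ ih => exact ⟨y', ih, Or.inl (EqOn.refl j y')⟩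

private theorem gra_right {j k : ℕ} (hj : j ≤ d) {y y' z' : ℕ → ℝ} (h : T.Conn K j k y y')
    (h' : EqOn j y' z') : T.Conn K j k y z' := by
  cases k with
  | zero => exact EqOn.trans h h'
  | succ k =>
    obtain ⟨u, hu, h1 | h1⟩ := h
    · exact ⟨u, hu, Or.inl (EqOn.trans h1 h')⟩
    · exact ⟨u, hu, Or.inr (edge_congr hj (EqOn.refl j u) h' h1)⟩

theorem conn_trans {j k l : ℕ} {y y' y'' : ℕ → ℝ} (h : T.Conn K j k y y')
    (h' : T.Conn K j l y' y'') (hj : j ≤ d) : T.Conn K j (k + l) y y'' := by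
  induction l generalizing y'' with
  | zero => exact gra_right hj h h'
  | succ l ih =>
    obtain ⟨u, hu, h1⟩ := h'
    exact ⟨u, ih hu, h1⟩

theorem conn_symm {j k : ℕ} (hj : j ≤ d) {y y' : ℕ → ℝ} (h : T.Conn K j k y y') :
    T.Conn K j k y' y := by
  induction k generalizing y' with
  | zero => exact EqOn.symm h
  | succ k ih =>
    obtain ⟨u, hu, h1⟩ := h
    have h2 : T.Conn K j 1 y' u := by
      refine ⟨y', EqOn.refl j y', ?_⟩
      rcases h1 with h1 | h1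
      · exact Or.inl (EqOn.symm h1)
      · exact Or.inr (edge_symm h1)
    have := conn_trans h2 (ih hu) hj
    rwa [add_comm] at this

theorem conn_congr {j k : ℕ} (hj : j ≤ d) {y y' z z' : ℕ → ℝ} (h1 : EqOn j y z)
    (h2 : EqOn j y' z') (h : T.Conn K j k y y') : T.Conn K j k z z' := by
  have h3 : T.Conn K j 0 z y := EqOn.symm h1
  have := conn_trans h3 (gra_right hj h h2) hj
  rwa [zero_add] at this

theorem conn_mono_j {i j k : ℕ} (hij : i ≤ j) {y y' : ℕ → ℝ} (h : T.Conn K j k y y') :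
    T.Conn K i k y y' := by
  induction k generalizing y' with
  | zero => exact EqOn.mono hij h
  | succ k ih =>
    obtain ⟨u, hu, h1 | h1⟩ := h
    · exact ⟨u, ih hu, Or.inl (EqOn.mono hij h1)⟩
    · exact ⟨u, ih hu, Or.inr (edge_mono_j hij h1)⟩

theorem conn_of_edge {j : ℕ} {y y' : ℕ → ℝ} (h : T.Edge K j y y') : T.Conn K j 1 y y' :=
  ⟨y, EqOn.refl j y, Or.inr h⟩

end Tower

end MP65
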