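import Pool.Agent.Work.MP_65b809_gt.GrA

/-! # GrB : two basic connectivity lemmas

* `conn_round`: for `y` with `Grid j s y`, `NzLe j t k y` (if `s ≥ t` then `rdl t y` is `EqOn j` to `y`):
  going down from `rdl t y` to `rdl s y` (`EqOn j` to `y`) one scale at a time: at a scale `u ∉ S` the
  tuples `rdl (u+1) y` and `rdl u y` agree on `< j` (absorbed by `conn_congr`, no step counted); at
  `u ∈ S` they are joined by an edge of scale `u`: both are in `Grid d u`,
  `ch (rdl (u+1) y) u = ch (rdl (u+1) y) (u+1) = ch y (u+1)` (`ch_below`, `ch_rdl`),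
  `ch (rdl u y) u = ch y u`, and property (2) of `GoodK` (restricted to the coordinates `< j`).
* `close_conn`: `Grid j s y`, `Grid j s y'`, `Close j s C (ch y s) (ch y' s)`: with `p` from (3) of
  `GoodK` the tuples `rdl (s+p) y`, `rdl (s+p) y'` are joined by an edge of scale `s+p`, and `y` is
  joined to `rdl (s+p) y` by at most `p` edges (`conn_round` with `S` = the interval `[s, s+p)`,
  `conn_symm`). So `Conn` with `2p + 1`.
-/

namespace MP65

namespace Tower

variable {N : Type} [Group N] {d : ℕ} {T : Tower N d} {K : ℝ}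

/-- from the rounding at the scale `t` down to `y`: one edge for every nonzero level below `t` -/
theorem conn_round (hK : T.GoodK K) {j k : ℕ} (hj : j ≤ d) {s t : ℤ} {y : ℕ → ℝ}
    (hy : T.Grid j s y) (hn : T.NzLe j t k y) : T.Conn K j k (T.rdl t y) y := by
  obtain ⟨S, hS, hnz⟩ := hn
  by_cases hts : t ≤ s
  · have h0 : T.Conn K j 0 (T.rdl t y) y := T.rdl_eqOn_of_grid (T.grid_mono_s hj hts hy)
    exact conn_mono (Nat.zero_le k) h0
  push Not at hts
  have key : ∀ n : ℕ, T.Conn K j ((S.filter fun v => t - n ≤ v ∧ v < t).card)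
      (T.rdl t y) (T.rdl (t - n) y) := by
    intro n
    induction n with
    | zero =>
      have : t - ((0 : ℕ) : ℤ) = t := by simp
      rw [this]
      exact conn_refl _ _ _
    | succ n ih =>
      obtain ⟨u, hu⟩ : ∃ u : ℤ, u = t - ((n + 1 : ℕ) : ℤ) := ⟨_, rfl⟩
      have hu1 : t - (n : ℤ) = u + 1 := by rw [hu]; push_cast; ring
      have hut : u < t := by omega
      rw [hu1] at ih
      rw [← hu]
      have hsub : (S.filter fun v => u + 1 ≤ v ∧ v < t) ⊆ (S.filter fun v => u ≤ v ∧ v < t) := by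
        intro v hv
        rw [Finset.mem_filter] at hv ⊢
        exact ⟨hv.1, by omega, hv.2.2⟩
      by_cases huS : u ∈ S
      · have hcard : (S.filter fun v => u + 1 ≤ v ∧ v < t).card + 1 ≤
            (S.filter fun v => u ≤ v ∧ v < t).card := by
          refine Finset.card_lt_card ((Finset.ssubset_iff_of_subset hsub).2 ⟨u, ?_, ?_⟩)
          · rw [Finset.mem_filter]
            exact ⟨huS, le_rfl, hut⟩
          · rw [Finset.mem_filter]
            intro h
            omega
        refine conn_mono hcard ⟨T.rdl (u + 1) y, ih, Or.inr ⟨u, ?_, T.grid_rdl j u y, ?_⟩⟩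
        · exact T.grid_mono_s hj (by omega) (T.grid_rdl j (u + 1) y)
        · have e1 : T.ch (T.rdl (u + 1) y) u = T.ch y (u + 1) := by
            rw [T.ch_below (T.grid_rdl d (u + 1) y) u (by omega), T.ch_rdl y (u + 1) (u + 1) le_rfl]
          have e2 : T.ch (T.rdl u y) u = T.ch y u := T.ch_rdl y u u le_rfl
          rw [e1, e2]
          exact T.close_mono_j hj (hK.2.1 y u)
      · have he : EqOn j (T.rdl (u + 1) y) (T.rdl u y) := fun i hi =>
          (hnz u hut huS i hi).symm
        exact conn_mono (Finset.card_le_card hsub) (conn_congr hj (EqOn.refl j _) he ih)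
  have h1 := key (t - s).toNat
  have hn : t - (((t - s).toNat : ℕ) : ℤ) = s := by omega
  rw [hn] at h1
  have h2 : T.Conn K j k (T.rdl t y) (T.rdl s y) :=
    conn_mono ((Finset.card_filter_le _ _).trans hS) h1
  exact conn_congr hj (EqOn.refl j _) (T.rdl_eqOn_of_grid hy) h2

/-- close grid tuples are at bounded distance in the graph -/
theorem close_conn (hK : T.GoodK K) (C : ℝ) : ∃ k : ℕ, ∀ (j : ℕ) (s : ℤ) (y y' : ℕ → ℝ), j ≤ d →
    T.Grid j s y → T.Grid j s y' → T.Close j s C (T.ch y s) (T.ch y' s) →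
    T.Conn K j k y y' := by
  obtain ⟨p, hp⟩ := hK.2.2 C
  have hnz : ∀ (j : ℕ) (s : ℤ) (y : ℕ → ℝ), j ≤ d → T.Grid j s y → T.NzLe j (s + p) p y := by
    intro j s y hj hy
    refine ⟨Finset.Ico s (s + p), ?_, fun v hv hvS i hi => ?_⟩
    · rw [Int.card_Ico]
      omega
    · rw [Finset.mem_Ico] at hvS
      have hvs : v < s := by omega
      rw [T.grid_mono_s hj (by omega : v ≤ s) hy i hi,
        T.grid_mono_s hj (by omega : v + 1 ≤ s) hy i hi]
  refine ⟨p + 1 + p, fun j s y y' hj hy hy' hc => ?_⟩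
  have h1 := conn_symm hj (conn_round hK hj hy (hnz j s y hj hy))
  have h2 := conn_round hK hj hy' (hnz j s y' hj hy')
  have h3 : T.Conn K j 1 (T.rdl (s + p) y) (T.rdl (s + p) y') := by
    refine conn_of_edge ⟨s + p, T.grid_rdl j _ y, T.grid_rdl j _ y', ?_⟩
    rw [T.ch_rdl y (s + p) (s + p) le_rfl, T.ch_rdl y' (s + p) (s + p) le_rfl]
    exact hp j y y' s hj hc
  exact conn_trans (conn_trans h1 h3 hj) h2 hj

end Tower

end MP65
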