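import Pool.Agent.Work.MP_65b809_gt.MDefs

/-! # HBas : a basis of `n` of weight vectors of `diag H`

Let `A : Mat m → Mat m`, `(A Y) i j = (H i - H j) Y i j`. `n` is invariant under `A`, hence under
`P(A)` for every polynomial `P`: `(P(A) Y) i j = P(H i - H j) Y i j` (`poly_mem`: induction on
polynomials or `Submodule` of polynomials). Lagrange interpolation on the finite set of the values
`H i - H j` (`Lagrange.interpolate`, or the product formula) gives, for each value `v`, a polynomial
equal to `1` at `v` and `0` at the other values: so the part of weight `v` of an element of `n` is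
in `n` (`wt_part_mem`); more generally for every function `F : ℝ → ℝ`
`(F (H i - H j) Y i j) ∈ n` (`fun_mem`).
Basis: the homogeneous elements span `n` (every `Y` is the sum of its weight parts), so `n` has a basis
of homogeneous elements (`Module.Basis.ofSpan`); reindex by `Fin (finrank n)`, and sort by
weight (`Tuple.sort`).
Coordinates: `x k` a linear functional on all matrices extending the coordinate functional of the basis
(`LinearMap.exists_extend`).
`(4)`: if `Y = ∑ a_k e_k` has only entries of weight `> w`, then for `v ≤ w` the part of weight `v` of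
`Y` is `∑_{v_k = v} a_k e_k = 0`, so `a_k = 0` by linear independence.
`(5)`: `Y = ∑_{k ≥ j} a_k e_k`, each `e_k` has weight `v_k ≥ v_j`.
`(6)`: `e_k ≠ 0` has a nonzero entry, `supp` and `gap`.
-/

namespace MP65

open Matrix NormedSpace

private theorem poly_mem {m : ℕ} (H : Fin m → ℝ) (n : Submodule ℝ (Mat m))
    (ad : ∀ Y ∈ n, (Matrix.of fun i j => (H i - H j) * Y i j) ∈ n) {Y : Mat m}
    (hY : Y ∈ n) (P : Polynomial ℝ) :
    (Matrix.of fun i j => P.eval (H i - H j) * Y i j) ∈ n := by
  induction P using Polynomial.induction_on with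
  | C a =>
    have h : (Matrix.of fun i j => (Polynomial.C a).eval (H i - H j) * Y i j) = a • Y := by
      ext i j
      simp
    rw [h]
    exact n.smul_mem a hY
  | add p q hp hq =>
    have h : (Matrix.of fun i j => (p + q).eval (H i - H j) * Y i j) =
        (Matrix.of fun i j => p.eval (H i - H j) * Y i j) +
          Matrix.of fun i j => q.eval (H i - H j) * Y i j := by
      ext i j
      simp [add_mul]
    rw [h]
    exact n.add_mem hp hq
  | monomial k a ih =>
    have h := ad _ ih
    have e : (Matrix.of fun i j => (Polynomial.C a * Polynomial.X ^ (k + 1)).eval (H i - H j) *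
        Y i j) = Matrix.of fun i j => (H i - H j) *
          (Matrix.of fun i j => (Polynomial.C a * Polynomial.X ^ k).eval (H i - H j) * Y i j) i j := by
      ext i j
      simp only [Matrix.of_apply, Polynomial.eval_mul, Polynomial.eval_C, Polynomial.eval_pow,
        Polynomial.eval_X, pow_succ]
      ring
    rw [e]
    exact h

theorem fun_mem {m : ℕ} (H : Fin m → ℝ) (n : Submodule ℝ (Mat m))
    (ad : ∀ Y ∈ n, (Matrix.of fun i j => (H i - H j) * Y i j) ∈ n) (F : ℝ → ℝ) {Y : Mat m}
    (hY : Y ∈ n) : (Matrix.of fun i j => F (H i - H j) * Y i j) ∈ n := by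
  classical
  let V : Finset ℝ := (Finset.univ : Finset (Fin m × Fin m)).image fun p => H p.1 - H p.2
  have h1 := poly_mem H n ad hY (Lagrange.interpolate V id F)
  have e : (Matrix.of fun i j => (Lagrange.interpolate V id F).eval (H i - H j) * Y i j) =
      Matrix.of fun i j => F (H i - H j) * Y i j := by
    ext i j
    simp only [Matrix.of_apply]
    have hm : H i - H j ∈ V :=
      Finset.mem_image.2 ⟨(i, j), Finset.mem_univ _, rfl⟩
    have h2 := Lagrange.eval_interpolate_at_node (s := V) (v := id) F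
      (Set.injOn_id _) hm
    rw [id] at h2
    rw [h2]
  rw [← e]
  exact h1

theorem exists_basis {m : ℕ} (B : BData m) :
    ∃ (e : Fin (Module.finrank ℝ B.n) → Mat m) (v : Fin (Module.finrank ℝ B.n) → ℝ)
      (x : Fin (Module.finrank ℝ B.n) → (Mat m →ₗ[ℝ] ℝ)),
      Monotone v ∧ (∀ k, e k ∈ B.n) ∧ (∀ k i j, e k i j ≠ 0 → B.H i - B.H j = v k) ∧
      (∀ k l, x k (e l) = if k = l then 1 else 0) ∧
      (∀ Y ∈ B.n, Y = ∑ k, x k Y • e k) ∧
      (∀ Y ∈ B.n, ∀ w : ℝ, Gt B.H w Y → ∀ k, v k ≤ w → x k Y = 0) ∧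
      (∀ Y ∈ B.n, ∀ j, (∀ k, k < j → x k Y = 0) → Ge B.H (v j) Y) ∧
      ∀ k, Real.log 3 ≤ v k := by
  classical
  let part : ℝ → Mat m → Mat m := fun v Y =>
    Matrix.of fun i j => (if B.H i - B.H j = v then 1 else 0) * Y i j
  have part_apply : ∀ v Y i j, part v Y i j = (if B.H i - B.H j = v then 1 else 0) * Y i j :=
    fun v Y i j => rfl
  have part_mem : ∀ v, ∀ Y ∈ B.n, part v Y ∈ B.n := fun v Y hY =>
    fun_mem B.H B.n B.ad (fun t => if t = v then 1 else 0) hY
  -- homogeneous elements
  let S : Set B.n := {Y | ∃ v : ℝ, ∀ i j, (Y : Mat m) i j ≠ 0 → B.H i - B.H j = v}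
  have hspan : ⊤ ≤ Submodule.span ℝ S := by
    rintro ⟨Y, hY⟩ -
    let V : Finset ℝ := (Finset.univ : Finset (Fin m × Fin m)).image fun p => B.H p.1 - B.H p.2
    have hsum : (⟨Y, hY⟩ : B.n) = ∑ v ∈ V, (⟨part v Y, part_mem v Y hY⟩ : B.n) := by
      apply Subtype.ext
      rw [AddSubmonoidClass.coe_finsetSum]
      ext i j
      rw [Matrix.sum_apply]
      simp only [part_apply]
      rw [← Finset.sum_mul]
      have hm : B.H i - B.H j ∈ V := Finset.mem_image.2 ⟨(i, j), Finset.mem_univ _, rfl⟩
      rw [Finset.sum_ite_eq, if_pos hm, one_mul]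
    rw [hsum]
    refine Submodule.sum_mem _ fun v _ => Submodule.subset_span ⟨v, fun i j hij => ?_⟩
    by_contra hne
    apply hij
    show part v Y i j = 0
    rw [part_apply, if_neg hne, zero_mul]
  let b₀ := Module.Basis.ofSpan hspan
  have hb₀ : ∀ i, b₀ i ∈ S := fun i => Module.Basis.ofSpan_subset hspan ⟨i, rfl⟩
  let b₁ : Module.Basis (Fin (Module.finrank ℝ B.n)) ℝ B.n :=
    b₀.reindex (b₀.indexEquiv (Module.finBasis ℝ B.n))
  have hb₁ : ∀ i, b₁ i ∈ S := fun i => by
    show (b₀.reindex _) i ∈ S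
    rw [Module.Basis.reindex_apply]
    exact hb₀ _
  choose v₁ hv₁ using hb₁
  let b : Module.Basis (Fin (Module.finrank ℝ B.n)) ℝ B.n := b₁.reindex (Tuple.sort v₁).symm
  have hb : ∀ k, b k = b₁ (Tuple.sort v₁ k) := fun k => by
    show (b₁.reindex _) k = _
    rw [Module.Basis.reindex_apply, Equiv.symm_symm]
  have hext : ∀ k, ∃ g : Mat m →ₗ[ℝ] ℝ, g ∘ₗ B.n.subtype = b.coord k := fun k =>
    LinearMap.exists_extend _
  choose x hx using hext
  have hx' : ∀ k (Y : B.n), x k (Y : Mat m) = b.repr Y k := by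
    intro k Y
    have := LinearMap.congr_fun (hx k) Y
    simpa using this
  have hmono : Monotone (v₁ ∘ Tuple.sort v₁) := Tuple.monotone_sort v₁
  have hhom : ∀ k i j, ((b k : B.n) : Mat m) i j ≠ 0 → B.H i - B.H j = (v₁ ∘ Tuple.sort v₁) k := by
    intro k i j hij
    rw [hb] at hij
    exact hv₁ _ i j hij
  have hdual : ∀ k l, x k ((b l : B.n) : Mat m) = if k = l then 1 else 0 := by
    intro k l
    rw [hx', Module.Basis.repr_self, Finsupp.single_apply]
    simp only [eq_comm]
  have hsum : ∀ Y ∈ B.n, Y = ∑ k, x k Y • ((b k : B.n) : Mat m) := by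
    intro Y hY
    have h1 := b.sum_repr ⟨Y, hY⟩
    have h2 := congrArg (Subtype.val) h1
    rw [AddSubmonoidClass.coe_finsetSum] at h2
    have h3 : ∀ k, x k Y = b.repr ⟨Y, hY⟩ k := fun k => hx' k ⟨Y, hY⟩
    simp only [h3]
    exact h2.symm
  have hne : ∀ k, ∃ i j, ((b k : B.n) : Mat m) i j ≠ 0 := by
    intro k
    by_contra hcon
    push Not at hcon
    apply b.ne_zero k
    apply Subtype.ext
    ext i j
    exact hcon i j
  refine ⟨fun k => ((b k : B.n) : Mat m), v₁ ∘ Tuple.sort v₁, x, hmono, fun k => (b k).2, hhom,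
    hdual, hsum, ?_, ?_, ?_⟩
  · intro Y hY w hw k hk
    -- the part of weight `v k` vanishes
    have h1 : part ((v₁ ∘ Tuple.sort v₁) k) Y = 0 := by
      ext i j
      rw [part_apply, Matrix.zero_apply]
      by_cases h : B.H i - B.H j = (v₁ ∘ Tuple.sort v₁) k
      · have h2 : Y i j = 0 := by
          by_contra hn
          have := hw i j hn
          linarith
        rw [h2, mul_zero]
      · rw [if_neg h, zero_mul]
    have h2 : part ((v₁ ∘ Tuple.sort v₁) k) Y = ∑ l,
        (if (v₁ ∘ Tuple.sort v₁) l = (v₁ ∘ Tuple.sort v₁) k then x l Y else 0) •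
          ((b l : B.n) : Mat m) := by
      ext i j
      rw [part_apply, Matrix.sum_apply]
      conv_lhs => rw [hsum Y hY]
      rw [Matrix.sum_apply, Finset.mul_sum]
      refine Finset.sum_congr rfl fun l _ => ?_
      rw [Matrix.smul_apply, Matrix.smul_apply, smul_eq_mul, smul_eq_mul]
      by_cases hz : ((b l : B.n) : Mat m) i j = 0
      · rw [hz, mul_zero, mul_zero, mul_zero]
      · rw [hhom l i j hz]
        by_cases hvl : (v₁ ∘ Tuple.sort v₁) l = (v₁ ∘ Tuple.sort v₁) k
        · rw [if_pos hvl, if_pos hvl, one_mul]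
        · rw [if_neg hvl, if_neg hvl, zero_mul, zero_mul]
    have h3 := congrArg (x k) (h1.symm.trans h2)
    rw [map_zero, map_sum, Finset.sum_eq_single k] at h3
    · rw [map_smul, if_pos rfl, hdual, if_pos rfl, smul_eq_mul, mul_one] at h3
      exact h3.symm
    · intro l _ hl
      rw [map_smul, hdual, if_neg (Ne.symm hl), smul_zero]
    · intro h
      exact absurd (Finset.mem_univ k) h
  · intro Y hY j hj p q hpq
    rw [hsum Y hY, Matrix.sum_apply] at hpq
    obtain ⟨k, -, hk⟩ := Finset.exists_ne_zero_of_sum_ne_zero hpq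
    rw [Matrix.smul_apply, smul_eq_mul] at hk
    have h1 := left_ne_zero_of_mul hk
    have h2 := right_ne_zero_of_mul hk
    have h3 : j ≤ k := by
      by_contra hlt
      exact h1 (hj k (not_le.1 hlt))
    rw [hhom k p q h2]
    exact hmono h3
  · intro k
    obtain ⟨i, j, hij⟩ := hne k
    rw [← hhom k i j hij]
    exact B.gap i j (B.supp _ (b k).2 i j hij)

end MP65
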