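import Pool.Agent.Work.MP_65b809_gt.IDefs

/-! # Trot : the Lie algebra of a closed group

Fix a norm on matrices (for instance `open scoped Matrix.Norms.Operator`; only used inside proofs).
* `lie_smul`, `lie_neg`, `lie_transpose` (`Matrix.exp_transpose`), `lie_conj`
  (`Matrix.exp_units_conj`): clear.
* `lie_closed`: if `Y_k ∈ lieSet G`, `Y_k → Y` entrywise then `Y ∈ lieSet G`: `exp(t Y_k) → exp(tY)`
  (`exp` is continuous), `Nice.closed`.
* `lie_add` (Trotter): `(exp(A/k) exp(B/k))^k → exp(A+B)`: with `X = exp(A/k) exp(B/k)`,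
  `Z = exp((A+B)/k)`: `‖X^k - Z^k‖ ≤ k max(‖X‖,‖Z‖)^{k-1} ‖X - Z‖`, the norms are `≤ e^{c/k}`,
  `‖X - Z‖ ≤ C/k²` (`‖exp M - 1 - M‖ ≤ ‖M‖² e^{‖M‖}`). Then `exp(t(Y+Z)) ∈ G` by `Nice.closed`.
* `lie_comm_diag`: `Y ∈ lieSet G`, `diagonal H ∈ lieSet G`: `Y_s = exp(s diag H) Y exp(-s diag H)`
  is in the Lie algebra, entries `e^{s(H i - H j)} Y i j`; `(Y_s - Y)/s → ((H i - H j) Y i j)` as
  `s = 1/k → 0`; `lie_closed`.
-/

namespace MP65

open Matrix NormedSpace Filter Topology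

variable {m : ℕ} {G : Subgroup (GL (Fin m) ℝ)}

private theorem trot_norm_exp_le {A : Type*} [NormedRing A] [NormedAlgebra ℝ A] [CompleteSpace A]
    (h1 : ‖(1 : A)‖ ≤ 1) (x : A) : ‖exp x‖ ≤ Real.exp ‖x‖ := by
  have hs := norm_expSeries_summable' (𝕂 := ℝ) x
  have e1 : exp x = ∑' n : ℕ, ((n.factorial : ℝ)⁻¹) • x ^ n := by
    rw [exp_eq_tsum ℝ]
  have hpow : ∀ n : ℕ, ‖x ^ n‖ ≤ ‖x‖ ^ n := by
    intro n
    rcases Nat.eq_zero_or_pos n with h | h
    · subst h; simpa using h1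
    · exact norm_pow_le' x h
  have e2 : Real.exp ‖x‖ = ∑' n : ℕ, ((n.factorial : ℝ)⁻¹) • ‖x‖ ^ n := by
    rw [Real.exp_eq_exp_ℝ, exp_eq_tsum ℝ]
  have hs2 : Summable fun n : ℕ => ((n.factorial : ℝ)⁻¹) • ‖x‖ ^ n :=
    (norm_expSeries_summable' (𝕂 := ℝ) (‖x‖ : ℝ)).of_norm
  rw [e1, e2]
  refine (norm_tsum_le_tsum_norm hs).trans (hs.tsum_le_tsum (fun n => ?_) hs2)
  rw [norm_smul, smul_eq_mul, Real.norm_of_nonneg (by positivity)]
  exact mul_le_mul_of_nonneg_left (hpow n) (by positivity)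

private theorem trot_pow_sub {A : Type*} [NormedRing A] (h1 : ‖(1 : A)‖ ≤ 1) (X Z : A) (R : ℝ)
    (hR : 1 ≤ R) (hX : ‖X‖ ≤ R) (hZ : ‖Z‖ ≤ R) (n : ℕ) : ‖X ^ n - Z ^ n‖ ≤ n * R ^ n * ‖X - Z‖ := by
  have hZp : ∀ n : ℕ, ‖Z ^ n‖ ≤ R ^ n := by
    intro n
    rcases Nat.eq_zero_or_pos n with h | h
    · subst h; simpa using h1
    · exact (norm_pow_le' Z h).trans (pow_le_pow_left₀ (norm_nonneg _) hZ n)
  induction n with
  | zero => simp
  | succ n ih =>
    have e : X ^ (n + 1) - Z ^ (n + 1) = X * (X ^ n - Z ^ n) + (X - Z) * Z ^ n := by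
      rw [pow_succ' X, pow_succ' Z]; noncomm_ring
    rw [e]
    have h2 : ‖X * (X ^ n - Z ^ n)‖ ≤ R * (n * R ^ n * ‖X - Z‖) :=
      (norm_mul_le _ _).trans (mul_le_mul hX ih (norm_nonneg _) (by linarith))
    have h3 : ‖(X - Z) * Z ^ n‖ ≤ ‖X - Z‖ * R ^ n :=
      (norm_mul_le _ _).trans (mul_le_mul_of_nonneg_left (hZp n) (norm_nonneg _))
    have h4 : R ^ n ≤ R ^ (n + 1) := pow_le_pow_right₀ hR (Nat.le_succ n)
    have h5 : ‖X - Z‖ * R ^ n ≤ ‖X - Z‖ * R ^ (n + 1) :=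
      mul_le_mul_of_nonneg_left h4 (norm_nonneg _)
    calc _ ≤ _ := norm_add_le _ _
      _ ≤ R * (n * R ^ n * ‖X - Z‖) + ‖X - Z‖ * R ^ (n + 1) := by linarith
      _ = _ := by push_cast; ring

private theorem trot_trotter {A : Type*} [NormedRing A] [NormedAlgebra ℝ A] [CompleteSpace A]
    (h1 : ‖(1 : A)‖ ≤ 1) (x y : A) :
    Tendsto (fun k : ℕ => (exp ((1 / ((k : ℝ) + 1)) • x) * exp ((1 / ((k : ℝ) + 1)) • y)) ^ (k + 1))
      atTop (𝓝 (exp (x + y))) := by
  set f : ℝ → A := fun t => exp (t • x) * exp (t • y) - exp (t • (x + y)) with hf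
  have hd : HasDerivAt f 0 0 := by
    have d1 := hasDerivAt_exp_smul_const x (0 : ℝ)
    have d2 := hasDerivAt_exp_smul_const y (0 : ℝ)
    have d3 := hasDerivAt_exp_smul_const (x + y) (0 : ℝ)
    have d4 := (d1.mul d2).sub d3
    have e : exp ((0 : ℝ) • x) * x * exp ((0 : ℝ) • y) + exp ((0 : ℝ) • x) * (exp ((0 : ℝ) • y) * y) -
        exp ((0 : ℝ) • (x + y)) * (x + y) = 0 := by
      simp
    rw [e] at d4
    exact d4
  have hf0 : f 0 = 0 := by simp [hf]
  have hlim : Tendsto (fun k : ℕ => ((k : ℝ) + 1) * ‖f (1 / ((k : ℝ) + 1))‖) atTop (𝓝 0) := by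
    have h2 := hasDerivAt_iff_tendsto_slope_zero.1 hd
    have h3 : Tendsto (fun k : ℕ => 1 / ((k : ℝ) + 1)) atTop (𝓝[≠] 0) := by
      refine tendsto_nhdsWithin_iff.2 ⟨tendsto_one_div_add_atTop_nhds_zero_nat, ?_⟩
      exact Eventually.of_forall fun k => by
        simp only [Set.mem_compl_iff, Set.mem_singleton_iff]
        positivity
    have h4 := (h2.comp h3).norm
    simp only [norm_zero] at h4
    refine h4.congr fun k => ?_
    simp only [Function.comp, zero_add, hf0, sub_zero, norm_smul, norm_inv, norm_div, norm_one]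
    rw [Real.norm_of_nonneg (by positivity)]
    field_simp
  have hbd : ∀ k : ℕ, ‖(exp ((1 / ((k : ℝ) + 1)) • x) * exp ((1 / ((k : ℝ) + 1)) • y)) ^ (k + 1) -
      exp (x + y)‖ ≤ Real.exp (‖x‖ + ‖y‖) * (((k : ℝ) + 1) * ‖f (1 / ((k : ℝ) + 1))‖) := by
    intro k
    set h : ℝ := 1 / ((k : ℝ) + 1) with hh
    have hpos : 0 < h := by positivity
    have hkh : ((k : ℝ) + 1) * h = 1 := by rw [hh]; field_simp
    have e : exp (x + y) = (exp (h • (x + y))) ^ (k + 1) := by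
      let _ : NormedAlgebra ℚ A := NormedAlgebra.restrictScalars ℚ ℝ A
      have := NormedSpace.exp_nsmul (k + 1) (h • (x + y))
      rw [← this]
      congr 1
      rw [← Nat.cast_smul_eq_nsmul ℝ, smul_smul]
      push_cast
      rw [hkh, one_smul]
    rw [e]
    have hn : ∀ z : A, ‖exp (h • z)‖ ≤ Real.exp (h * ‖z‖) := by
      intro z
      have := trot_norm_exp_le h1 (h • z)
      rwa [norm_smul, Real.norm_of_nonneg hpos.le] at this
    have hX : ‖exp (h • x) * exp (h • y)‖ ≤ Real.exp (h * (‖x‖ + ‖y‖)) := by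
      calc _ ≤ _ := norm_mul_le _ _
        _ ≤ Real.exp (h * ‖x‖) * Real.exp (h * ‖y‖) :=
          mul_le_mul (hn x) (hn y) (norm_nonneg _) (Real.exp_pos _).le
        _ = _ := by rw [← Real.exp_add]; ring_nf
    have hZ : ‖exp (h • (x + y))‖ ≤ Real.exp (h * (‖x‖ + ‖y‖)) :=
      (hn _).trans (Real.exp_le_exp.2 (mul_le_mul_of_nonneg_left (norm_add_le _ _) hpos.le))
    have hR : 1 ≤ Real.exp (h * (‖x‖ + ‖y‖)) := Real.one_le_exp (by positivity)
    have := trot_pow_sub h1 _ _ _ hR hX hZ (k + 1)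
    refine this.trans (le_of_eq ?_)
    rw [← Real.exp_nat_mul]
    have e2 : ((k + 1 : ℕ) : ℝ) * (h * (‖x‖ + ‖y‖)) = ‖x‖ + ‖y‖ := by
      push_cast
      rw [← mul_assoc, hkh, one_mul]
    rw [e2]
    push_cast
    ring
  refine tendsto_iff_norm_sub_tendsto_zero.2 ?_
  refine squeeze_zero (fun k => norm_nonneg _) hbd ?_
  simpa using hlim.const_mul (Real.exp (‖x‖ + ‖y‖))

private theorem trot_tendsto_iff (Y : ℕ → Mat m) (Z : Mat m) :
    Tendsto Y atTop (𝓝 Z) ↔ ∀ i j, Tendsto (fun k => Y k i j) atTop (𝓝 (Z i j)) := by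
  constructor
  · intro h i j
    exact (tendsto_pi_nhds.1 (tendsto_pi_nhds.1 h i) j)
  · intro h
    exact tendsto_pi_nhds.2 fun i => tendsto_pi_nhds.2 fun j => h i j

set_option backward.isDefEq.respectTransparency false in
open scoped Matrix.Norms.Operator in
private theorem trot_exp_continuous : Continuous (exp : Mat m → Mat m) :=
  NormedSpace.exp_continuous

set_option backward.isDefEq.respectTransparency false in
open scoped Matrix.Norms.Operator in
private theorem trot_trotter_mat (x y : Mat m) :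
    Tendsto (fun k : ℕ => (exp ((1 / ((k : ℝ) + 1)) • x) * exp ((1 / ((k : ℝ) + 1)) • y)) ^ (k + 1))
      atTop (𝓝 (exp (x + y))) := by
  have h1 : ‖(1 : Mat m)‖ ≤ 1 := by
    rcases Nat.eq_zero_or_pos m with h | h
    · subst h
      have : (1 : Mat 0) = 0 := Subsingleton.elim _ _
      rw [this]; simp
    · have : Nonempty (Fin m) := ⟨⟨0, h⟩⟩
      exact norm_one.le
  exact trot_trotter h1 x y

private theorem trot_exists_unit (Y : Mat m) : ∃ g : GL (Fin m) ℝ, (g : Mat m) = exp Y := by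
  exact ⟨(Matrix.isUnit_exp Y).unit, rfl⟩

theorem lie_zero (hG : Nice G) : (0 : Mat m) ∈ lieSet G := by
  intro t
  exact ⟨1, G.one_mem, by simp⟩

theorem lie_smul (hG : Nice G) (c : ℝ) {Y : Mat m} (hY : Y ∈ lieSet G) : c • Y ∈ lieSet G := by
  intro t
  obtain ⟨g, hg, h⟩ := hY (t * c)
  exact ⟨g, hg, by rw [h, smul_smul]⟩

theorem lie_transpose (hG : Nice G) {Y : Mat m} (hY : Y ∈ lieSet G) : Y.transpose ∈ lieSet G := by
  intro t
  obtain ⟨g, hg, h⟩ := hY t
  obtain ⟨g', hg'⟩ := trot_exists_unit (t • Y.transpose)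
  refine ⟨g', hG.transpose g hg g' ?_, hg'⟩
  rw [hg', h, ← Matrix.exp_transpose, Matrix.transpose_smul]

theorem lie_closed (hG : Nice G) (Y : ℕ → Mat m) (Z : Mat m) (hY : ∀ k, Y k ∈ lieSet G)
    (h : ∀ i j, Tendsto (fun k => Y k i j) atTop (𝓝 (Z i j))) : Z ∈ lieSet G := by
  intro t
  choose g hg hgY using fun k => hY k t
  obtain ⟨g', hg'⟩ := trot_exists_unit (t • Z)
  refine ⟨g', hG.closed g g' hg ?_, hg'⟩
  have h1 : Tendsto Y atTop (𝓝 Z) := (trot_tendsto_iff Y Z).2 h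
  have h2 : Tendsto (fun k => t • Y k) atTop (𝓝 (t • Z)) := h1.const_smul t
  have h3 := (trot_exp_continuous.tendsto (t • Z)).comp h2
  rw [trot_tendsto_iff] at h3
  intro i j
  have := h3 i j
  rw [hg']
  refine this.congr fun k => ?_
  simp only [Function.comp, hgY]

theorem lie_add (hG : Nice G) {Y Z : Mat m} (hY : Y ∈ lieSet G) (hZ : Z ∈ lieSet G) :
    Y + Z ∈ lieSet G := by
  intro t
  choose g hg hgY using fun k : ℕ => hY (1 / ((k : ℝ) + 1) * t)
  choose g2 hg2 hgZ using fun k : ℕ => hZ (1 / ((k : ℝ) + 1) * t)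
  obtain ⟨g', hg'⟩ := trot_exists_unit (t • (Y + Z))
  refine ⟨g', hG.closed (fun k => (g k * g2 k) ^ (k + 1)) g' ?_ ?_, hg'⟩
  · intro k
    exact G.pow_mem (G.mul_mem (hg k) (hg2 k)) _
  · have h3 := trot_trotter_mat (t • Y) (t • Z)
    rw [← smul_add, trot_tendsto_iff] at h3
    intro i j
    rw [hg']
    refine (h3 i j).congr fun k => ?_
    simp only [Units.val_pow_eq_pow_val, Units.val_mul, hgY, hgZ, smul_smul]

/-- the Lie algebra as a linear subspace -/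
noncomputable def lieSub (hG : Nice G) : Submodule ℝ (Mat m) where
  carrier := lieSet G
  zero_mem' := lie_zero hG
  add_mem' := fun hY hZ => lie_add hG hY hZ
  smul_mem' := fun c _ hY => lie_smul hG c hY

theorem lie_conj (hG : Nice G) {g : GL (Fin m) ℝ} (hg : g ∈ G) {Y : Mat m} (hY : Y ∈ lieSet G) :
    (g : Mat m) * Y * ((g⁻¹ : GL (Fin m) ℝ) : Mat m) ∈ lieSet G := by
  intro t
  obtain ⟨g1, hg1, h⟩ := hY t
  refine ⟨g * g1 * g⁻¹, G.mul_mem (G.mul_mem hg hg1) (G.inv_mem hg), ?_⟩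
  have e : t • ((g : Mat m) * Y * ((g⁻¹ : GL (Fin m) ℝ) : Mat m)) =
      (g : Mat m) * (t • Y) * ((g⁻¹ : GL (Fin m) ℝ) : Mat m) := by
    rw [Matrix.mul_smul, Matrix.smul_mul]
  rw [e, Units.val_mul, Units.val_mul, h]
  exact (Matrix.exp_units_conj g (t • Y)).symm

theorem lie_comm_diag (hG : Nice G) {H : Fin m → ℝ} (hH : diagonal H ∈ lieSet G) {Y : Mat m}
    (hY : Y ∈ lieSet G) : (Matrix.of fun i j => (H i - H j) * Y i j) ∈ lieSet G := by
  have key : ∀ s : ℝ, (Matrix.of fun i j => Real.exp (s * (H i - H j)) * Y i j) ∈ lieSet G := by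
    intro s
    obtain ⟨g, hg, h⟩ := hH s
    have hinv : ((g⁻¹ : GL (Fin m) ℝ) : Mat m) = exp (-(s • diagonal H)) := by
      rw [Matrix.coe_units_inv, h, Matrix.exp_neg]
    have h1 := lie_conj hG hg hY
    have e1 : s • diagonal H = diagonal (fun i => s * H i) := by
      rw [← Matrix.diagonal_smul]; rfl
    have e2 : -(s • diagonal H) = diagonal (fun i => -(s * H i)) := by
      rw [e1, Matrix.diagonal_neg]
    rw [h, hinv, e2, e1, Matrix.exp_diagonal, Matrix.exp_diagonal] at h1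
    convert h1 using 1
    ext i j
    rw [Matrix.mul_diagonal, Matrix.diagonal_mul, Pi.coe_exp, Pi.coe_exp]
    simp only [Matrix.of_apply, ← Real.exp_eq_exp_ℝ]
    rw [mul_sub, Real.exp_sub, Real.exp_neg]
    ring
  refine lie_closed hG (fun k : ℕ => ((k : ℝ) + 1) •
    ((Matrix.of fun i j => Real.exp ((1 / ((k : ℝ) + 1)) * (H i - H j)) * Y i j) + (-1 : ℝ) • Y)) _
    (fun k => lie_smul hG _ (lie_add hG (key _) (lie_smul hG _ hY))) ?_
  intro i j
  simp only [Matrix.smul_apply, Matrix.add_apply, Matrix.of_apply, smul_eq_mul]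
  have hd : HasDerivAt (fun s : ℝ => Real.exp (s * (H i - H j))) (H i - H j) 0 := by
    have := ((hasDerivAt_id (0 : ℝ)).mul_const (H i - H j)).exp
    simpa using this
  have h2 := hasDerivAt_iff_tendsto_slope_zero.1 hd
  have h3 : Tendsto (fun k : ℕ => 1 / ((k : ℝ) + 1)) atTop (𝓝[≠] 0) := by
    refine tendsto_nhdsWithin_iff.2 ⟨tendsto_one_div_add_atTop_nhds_zero_nat, ?_⟩
    exact Eventually.of_forall fun k => by
      simp only [Set.mem_compl_iff, Set.mem_singleton_iff]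
      positivity
  have h4 := (h2.comp h3).mul_const (Y i j)
  refine h4.congr fun k => ?_
  simp only [Function.comp, zero_add, zero_mul, Real.exp_zero, smul_eq_mul, one_div, inv_inv]
  ring

end MP65
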