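import Pool.Agent.Work.MP_65b809_gt.MMul
import Pool.Agent.Work.MP_65b809_gt.HBas
import Pool.Agent.Work.MP_65b809_gt.Trot

/-! # IBd : the data `(H, n)` of a rank one group, decomposition of `𝔭`

`n = {Y ∈ lieSet G : Gt H 0 Y}`. `ad`: `lie_comm_diag`. `mul`: for `Y, Z ∈ n`, `exp Y exp Z ∈ G` and
`exp Y exp Z - 1 ∈ Gt H 0` (`exp_sub_one_gt`), so it is `exp W` with `Gt H 0 W` (`exp_surj`), and
`W ∈ lieSet G` by `Nice.nilp` (`gt_pow_eq_zero`).
`decomp`: `s ∈ 𝔭`. By `fun_mem` for the submodule `lieSub` (invariant under `ad`), with `F` the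
indicator functions of `(0,∞)`, `{0}`: `Y = s⁺` (entries with `H j < H i`) is in `n`, and
`s₀` (entries with `H i = H j`) is in the Lie algebra, symmetric, commutes with `diag H`
(`(s₀ D - D s₀) i j = s₀ i j (H j - H i) = 0`), so `s₀ = c diag H`. The part of `s` with
`H i < H j` is `Yᵀ`.
`finrank_le`: `(Y, c) ↦ Y + Yᵀ + c diag H` is an injective linear map from `n × ℝ` to
`span (pS G)` (its values are in `pS G`; injective: the entries with `H j < H i` give `Y`, the
diagonal gives `c` as `H ≠ 0`); `LinearMap.finrank_le_finrank_of_injective`.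
-/

namespace MP65

open Matrix NormedSpace Filter Topology

variable {m : ℕ} {G : Subgroup (GL (Fin m) ℝ)} {H : Fin m → ℝ}

private theorem ibd_unit (Y : Mat m) : ∃ g : GL (Fin m) ℝ, (g : Mat m) = exp Y := by
  exact ⟨(Matrix.isUnit_exp Y).unit, rfl⟩

private theorem ibd_exp_mem {Y : Mat m} (hY : Y ∈ lieSet G) : ∃ g ∈ G, (g : Mat m) = exp Y := by
  obtain ⟨g, hg, h⟩ := hY 1
  exact ⟨g, hg, by rw [h, one_smul]⟩

theorem exists_bdata (h : IwaHyp G H) : ∃ B : BData m, B.H = H ∧
    ∀ Y : Mat m, Y ∈ B.n ↔ Y ∈ lieSet G ∧ Gt H 0 Y := by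
  have hG := h.nice
  let n : Submodule ℝ (Mat m) :=
    { carrier := {Y | Y ∈ lieSet G ∧ Gt H 0 Y}
      zero_mem' := ⟨lie_zero hG, fun i j hij => absurd rfl hij⟩
      add_mem' := fun hY hZ => ⟨lie_add hG hY.1 hZ.1, gt_add hY.2 hZ.2⟩
      smul_mem' := fun c Y hY => ⟨lie_smul hG c hY.1, gt_smul c hY.2⟩ }
  refine ⟨⟨H, n, h.H_ne, h.gap, ?_, ?_, ?_⟩, rfl, fun Y => Iff.rfl⟩
  · intro Y hY i j hij
    exact sub_pos.1 (hY.2 i j hij)
  · intro Y hY
    refine ⟨lie_comm_diag hG h.H_mem hY.1, ?_⟩
    intro i j hij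
    refine hY.2 i j ?_
    intro h0
    apply hij
    simp [h0]
  · intro Y hY Z hZ
    have h1 : Gt H 0 (exp Y * exp Z - 1) := by
      have e : exp Y * exp Z - 1 = (exp Y - 1) * (exp Z - 1) + (exp Y - 1) + (exp Z - 1) := by
        noncomm_ring
      rw [e]
      exact gt_add (gt_add (gt_mul_gt (exp_sub_one_gt hY.2) (exp_sub_one_gt hZ.2))
        (exp_sub_one_gt hY.2)) (exp_sub_one_gt hZ.2)
    obtain ⟨W, hW, hexp⟩ := exp_surj h1
    refine ⟨W, ⟨?_, hW⟩, hexp.symm⟩
    refine hG.nilp W (gt_pow_eq_zero hW) ?_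
    obtain ⟨g1, hg1, e1⟩ := ibd_exp_mem hY.1
    obtain ⟨g2, hg2, e2⟩ := ibd_exp_mem hZ.1
    exact ⟨g1 * g2, G.mul_mem hg1 hg2, by rw [Units.val_mul, e1, e2, hexp]⟩

theorem decomp (h : IwaHyp G H) {B : BData m} (hB : ∀ Y : Mat m, Y ∈ B.n ↔ Y ∈ lieSet G ∧ Gt H 0 Y)
    {s : Mat m} (hs : s ∈ pS G) : ∃ Y ∈ B.n, ∃ c : ℝ, s = Y + Y.transpose + c • diagonal H := by
  have hG := h.nice
  obtain ⟨hsT, hsL⟩ := hs
  have had : ∀ Y ∈ lieSub hG, (Matrix.of fun i j => (H i - H j) * Y i j) ∈ lieSub hG := by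
    intro Y hY
    exact lie_comm_diag hG h.H_mem hY
  classical
  set F1 : ℝ → ℝ := fun v => if 0 < v then 1 else 0 with hF1
  set F0 : ℝ → ℝ := fun v => if v = 0 then 1 else 0 with hF0
  have h1 : (Matrix.of fun i j => F1 (H i - H j) * s i j) ∈ lieSet G :=
    fun_mem H (lieSub hG) had F1 (Y := s) hsL
  have h0 : (Matrix.of fun i j => F0 (H i - H j) * s i j) ∈ lieSet G :=
    fun_mem H (lieSub hG) had F0 (Y := s) hsL
  have hsym : ∀ i j, s i j = s j i := fun i j => by
    conv_lhs => rw [← hsT]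
    rfl
  obtain ⟨c, hc⟩ := h.rank (Matrix.of fun i j => F0 (H i - H j) * s i j) (by
    ext i j
    simp only [Matrix.transpose_apply, Matrix.of_apply, hF0, sub_eq_zero]
    by_cases hij : H i = H j
    · simp [hij, hsym i j]
    · have : ¬ H j = H i := fun h => hij h.symm
      simp [hij, this]) h0 (by
    ext i j
    rw [Matrix.mul_diagonal, Matrix.diagonal_mul]
    simp only [Matrix.of_apply, hF0, sub_eq_zero]
    by_cases hij : H i = H j
    · simp [hij]; ring
    · simp [hij])
  refine ⟨_, (hB _).2 ⟨h1, ?_⟩, c, ?_⟩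
  · intro i j hij
    simp only [Matrix.of_apply, hF1] at hij
    by_contra hn
    apply hij
    simp [hn]
  · rw [← hc]
    ext i j
    simp only [Matrix.add_apply, Matrix.transpose_apply, Matrix.of_apply, hF1, hF0]
    rcases lt_trichotomy (H i) (H j) with hlt | heq | hgt
    · have a1 : ¬ 0 < H i - H j := by linarith
      have a2 : 0 < H j - H i := by linarith
      have a3 : ¬ H i - H j = 0 := by intro h; linarith
      simp [a1, a2, a3, hsym i j]
    · have a2 : ¬ 0 < H j - H i := by linarith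
      have a3 : H i - H j = 0 := by linarith
      simp [a2, a3]
    · have a1 : 0 < H i - H j := by linarith
      have a2 : ¬ 0 < H j - H i := by linarith
      have a3 : ¬ H i - H j = 0 := by intro h; linarith
      simp [a1, a2, a3]

theorem finrank_n_lt (h : IwaHyp G H) {B : BData m}
    (hB : ∀ Y : Mat m, Y ∈ B.n ↔ Y ∈ lieSet G ∧ Gt H 0 Y) :
    Module.finrank ℝ B.n + 1 ≤ Module.finrank ℝ (Submodule.span ℝ (pS G)) := by
  have hG := h.nice
  let f : (B.n × ℝ) →ₗ[ℝ] Mat m :=
    { toFun := fun p => (p.1 : Mat m) + (p.1 : Mat m).transpose + p.2 • diagonal H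
      map_add' := by
        intro p q
        simp only [Prod.fst_add, Prod.snd_add, Submodule.coe_add, Matrix.transpose_add, add_smul]
        abel
      map_smul' := by
        intro c p
        simp only [Prod.smul_fst, Prod.smul_snd, Submodule.coe_smul, Matrix.transpose_smul,
          RingHom.id_apply, smul_add, smul_smul, smul_eq_mul] }
  have hf : ∀ p, f p ∈ Submodule.span ℝ (pS G) := by
    intro p
    refine Submodule.subset_span ⟨?_, ?_⟩
    · change ((p.1 : Mat m) + (p.1 : Mat m).transpose + p.2 • diagonal H).transpose =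
        (p.1 : Mat m) + (p.1 : Mat m).transpose + p.2 • diagonal H
      rw [Matrix.transpose_add, Matrix.transpose_add, Matrix.transpose_transpose,
        Matrix.transpose_smul, Matrix.diagonal_transpose, add_comm (p.1 : Mat m).transpose]
    · have h1 := ((hB (p.1 : Mat m)).1 p.1.2).1
      exact lie_add hG (lie_add hG h1 (lie_transpose hG h1)) (lie_smul hG _ h.H_mem)
  have hinj : Function.Injective (LinearMap.codRestrict (Submodule.span ℝ (pS G)) f hf) := by
    rw [← LinearMap.ker_eq_bot, LinearMap.ker_codRestrict, LinearMap.ker_eq_bot']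
    rintro ⟨Y, c⟩ hp
    have hp' : (Y : Mat m) + (Y : Mat m).transpose + c • diagonal H = 0 := hp
    have hgt := ((hB (Y : Mat m)).1 Y.2).2
    have hY0 : ∀ i j, ¬ H j < H i → (Y : Mat m) i j = 0 := by
      intro i j hij
      by_contra hne
      exact hij (sub_pos.1 (hgt i j hne))
    have hY : (Y : Mat m) = 0 := by
      ext i j
      by_cases hij : H j < H i
      · have e := congrFun (congrFun hp' i) j
        have hne : i ≠ j := by rintro rfl; exact lt_irrefl _ hij
        simp only [Matrix.add_apply, Matrix.transpose_apply, Matrix.smul_apply,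
          Matrix.diagonal_apply_ne _ hne, Matrix.zero_apply, smul_eq_mul, mul_zero, add_zero] at e
        rw [hY0 j i (not_lt.2 hij.le), add_zero] at e
        simpa using e
      · simpa using hY0 i j hij
    have hc : c = 0 := by
      obtain ⟨i, hi⟩ := Function.ne_iff.1 h.H_ne
      have e := congrFun (congrFun hp' i) i
      simp only [Matrix.add_apply, Matrix.transpose_apply, Matrix.smul_apply,
          Matrix.diagonal_apply_eq, Matrix.zero_apply, smul_eq_mul] at e
      rw [hY0 i i (lt_irrefl _)] at e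
      simp only [add_zero, zero_add, mul_eq_zero] at e
      rcases e with e | e
      · exact e
      · exact absurd e hi
    have hY' : Y = 0 := Subtype.ext hY
    rw [hc, hY']
    rfl
  have := LinearMap.finrank_le_finrank_of_injective hinj
  rw [Module.finrank_prod, Module.finrank_self] at this
  exact this

/-- elements of the triangular group of `G` are `exp Y diag(e^{τH})`: the diagonal part
`a = lim_k D^{-k} g D^k`, `D = exp(diag H)` (entries `e^{-k(H i - H j)} g i j → 0` for `H j < H i`), is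
in `G` by `Nice.closed`; `a = exp(diag(log g i i))`, so `diag(log g i i) ∈ lieSet G` by
`Nice.pos`, it commutes with `diag H`, so it is `τ diag H` by `rank`. Then `g a⁻¹ - 1 ∈ Gt H 0`,
`exp_surj`, `Nice.nilp`. -/
theorem triB_eq (h : IwaHyp G H) {B : BData m} (hBH : B.H = H)
    (hB : ∀ Y : Mat m, Y ∈ B.n ↔ Y ∈ lieSet G ∧ Gt H 0 Y) {g : GL (Fin m) ℝ} (hg : g ∈ G)
    (ht : TriB H g) : ∃ p : B.n × ℝ, (g : Mat m) = B.mu p := by
  have hG := h.nice
  obtain ⟨ht1, ht2, ht3⟩ := ht
  have hexpd : ∀ v : Fin m → ℝ, exp (diagonal v : Mat m) = diagonal (fun i => Real.exp (v i)) := by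
    intro v
    rw [Matrix.exp_diagonal]
    congr 1
    ext i
    rw [Pi.coe_exp, ← Real.exp_eq_exp_ℝ]
  -- the diagonal part
  obtain ⟨a, ha⟩ := ibd_unit (diagonal (fun i => Real.log ((g : Mat m) i i)))
  have ha' : (a : Mat m) = diagonal (fun i => (g : Mat m) i i) := by
    rw [ha, hexpd]
    congr 1
    ext i
    exact Real.exp_log (ht3 i)
  have haG : a ∈ G := by
    choose d hd hdH using fun k : ℕ => h.H_mem (k : ℝ)
    refine hG.closed (fun k => (d k)⁻¹ * g * d k) a
      (fun k => G.mul_mem (G.mul_mem (G.inv_mem (hd k)) hg) (hd k)) ?_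
    intro i j
    have hval : ∀ k : ℕ, (((d k)⁻¹ * g * d k : GL (Fin m) ℝ) : Mat m) i j =
        Real.exp (-(k * (H i - H j))) * (g : Mat m) i j := by
      intro k
      have e1 : (k : ℝ) • diagonal H = diagonal (fun i => (k : ℝ) * H i) := by
        rw [← Matrix.diagonal_smul]; rfl
      have e2 : -((k : ℝ) • diagonal H) = diagonal (fun i => -((k : ℝ) * H i)) := by
        rw [e1, Matrix.diagonal_neg]
      have hinv : (((d k)⁻¹ : GL (Fin m) ℝ) : Mat m) = diagonal (fun i => Real.exp (-(k * H i))) := by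
        rw [Matrix.coe_units_inv, hdH, ← Matrix.exp_neg, e2, hexpd]
      rw [Units.val_mul, Units.val_mul, hinv, hdH, e1, hexpd, Matrix.mul_diagonal,
        Matrix.diagonal_mul]
      rw [show -((k : ℝ) * (H i - H j)) = -(k * H i) + k * H j by ring, Real.exp_add]
      ring
    simp only [hval, ha']
    by_cases hij : i = j
    · subst hij
      simp
    · rw [Matrix.diagonal_apply_ne _ hij]
      by_cases h0 : (g : Mat m) i j = 0
      · simp [h0]
      · rcases ht1 i j h0 with h1 | h1
        · exact absurd h1 hij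
        · have h2 : Tendsto (fun k : ℕ => Real.exp (-((k : ℝ) * (H i - H j)))) atTop (𝓝 0) := by
            refine Real.tendsto_exp_neg_atTop_nhds_zero.comp ?_
            exact tendsto_natCast_atTop_atTop.atTop_mul_const (sub_pos.2 h1)
          simpa using h2.mul_const ((g : Mat m) i j)
  obtain ⟨τ, hτ⟩ := h.rank (diagonal (fun i => Real.log ((g : Mat m) i i)))
    (Matrix.diagonal_transpose _)
    (hG.pos _ (Matrix.diagonal_transpose _) ⟨a, haG, ha⟩)
    (by rw [Matrix.diagonal_mul_diagonal, Matrix.diagonal_mul_diagonal]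
        congr 1
        ext i
        ring)
  have hgii : ∀ i, (g : Mat m) i i = Real.exp (τ * H i) := by
    intro i
    have e := congrFun (congrFun hτ i) i
    simp only [Matrix.smul_apply, Matrix.diagonal_apply_eq, smul_eq_mul] at e
    rw [← e, Real.exp_log (ht3 i)]
  have hainv : ((a⁻¹ : GL (Fin m) ℝ) : Mat m) = diagonal (fun i => Real.exp (-(τ * H i))) := by
    have e0 : -(diagonal (fun i => Real.log ((g : Mat m) i i)) : Mat m) =
        diagonal (fun i => -Real.log ((g : Mat m) i i)) := by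
      rw [Matrix.diagonal_neg]
    rw [Matrix.coe_units_inv, ha, ← Matrix.exp_neg, e0, hexpd]
    congr 1
    ext i
    have e := congrFun (congrFun hτ i) i
    simp only [Matrix.smul_apply, Matrix.diagonal_apply_eq, smul_eq_mul] at e
    rw [e]
  have hgt : Gt H 0 ((g * a⁻¹ : GL (Fin m) ℝ) - 1 : Mat m) := by
    intro i j hij
    rw [Units.val_mul, hainv, Matrix.sub_apply, Matrix.mul_diagonal] at hij
    by_cases hne : i = j
    · subst hne
      exfalso
      apply hij
      rw [hgii, ← Real.exp_add, Matrix.one_apply_eq]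
      simp
    · rw [Matrix.one_apply_ne hne, sub_zero] at hij
      rcases ht1 i j (left_ne_zero_of_mul hij) with h1 | h1
      · exact absurd h1 hne
      · exact sub_pos.2 h1
  obtain ⟨Y, hY, hexp⟩ := exp_surj hgt
  have hYG : Y ∈ lieSet G := hG.nilp Y (gt_pow_eq_zero hY) ⟨_, G.mul_mem hg (G.inv_mem haG), hexp.symm⟩
  refine ⟨(⟨Y, (hB Y).2 ⟨hYG, hY⟩⟩, τ), ?_⟩
  unfold BData.mu
  simp only [hBH]
  rw [hexp]
  have e : diagonal (fun i => Real.exp (τ * H i)) = (a : Mat m) := by
    rw [ha']
    congr 1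
    ext i
    exact (hgii i).symm
  rw [e, ← Units.val_mul, inv_mul_cancel_right]

end MP65
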