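import Pool.Agent.Work.MP_65b809_gt.MDefs

/-! # IDefs : definitions for the Iwasawa part (fixed, do not edit) -/

namespace MP65

open Matrix NormedSpace Filter Topology

/-- the Lie algebra of `G`: matrices `Y` with `exp (t Y) ∈ G` for all real `t` -/
def lieSet {m : ℕ} (G : Subgroup (GL (Fin m) ℝ)) : Set (Mat m) :=
  {Y | ∀ t : ℝ, ∃ g ∈ G, (g : Mat m) = exp (t • Y)}

/-- closed self-adjoint subgroups with the two algebraicity properties used -/
structure Nice {m : ℕ} (G : Subgroup (GL (Fin m) ℝ)) : Prop where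
  closed : ∀ (u : ℕ → GL (Fin m) ℝ) (g : GL (Fin m) ℝ), (∀ k, u k ∈ G) →
    (∀ i j, Tendsto (fun k => (u k : Mat m) i j) atTop (𝓝 ((g : Mat m) i j))) → g ∈ G
  transpose : ∀ g ∈ G, ∀ g' : GL (Fin m) ℝ, (g' : Mat m) = (g : Mat m).transpose → g' ∈ G
  nilp : ∀ Y : Mat m, Y ^ m = 0 → (∃ g ∈ G, (g : Mat m) = exp Y) → Y ∈ lieSet G
  pos : ∀ s : Mat m, s.transpose = s → (∃ g ∈ G, (g : Mat m) = exp s) → s ∈ lieSet G

/-- the tangent space `𝔭` as a set -/
def pS {m : ℕ} (G : Subgroup (GL (Fin m) ℝ)) : Set (Mat m) := {s | s.transpose = s ∧ s ∈ lieSet G}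

/-- upper triangular pattern of a group element with respect to `H`, positive diagonal -/
def TriB {m : ℕ} (H : Fin m → ℝ) (g : GL (Fin m) ℝ) : Prop :=
  (∀ i j, (g : Mat m) i j ≠ 0 → i = j ∨ H j < H i) ∧
    (∀ i j, ((g⁻¹ : GL (Fin m) ℝ) : Mat m) i j ≠ 0 → i = j ∨ H j < H i) ∧
    ∀ i, 0 < (g : Mat m) i i

/-- the rank one hypotheses in adapted coordinates -/
structure IwaHyp {m : ℕ} (G : Subgroup (GL (Fin m) ℝ)) (H : Fin m → ℝ) : Prop where
  nice : Nice G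
  H_ne : H ≠ 0
  gap : ∀ i j, H j < H i → Real.log 3 ≤ H i - H j
  H_mem : diagonal H ∈ lieSet G
  rank : ∀ s : Mat m, s.transpose = s → s ∈ lieSet G → s * diagonal H = diagonal H * s →
    ∃ c : ℝ, s = c • diagonal H

end MP65
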