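import Pool.Agent.Work.MP_65b809_gt.IDefs

/-! # PolyE : positive definite elements of algebraic groups, logarithm

* `exists_log`: spectral theorem (`Matrix.IsHermitian.spectral_theorem`): `x = U diag(λ) U*`, `λ > 0`;
  `s = U diag(log λ) U*`; `exp` of a conjugate (`Matrix.exp_conj`), `Matrix.exp_diagonal`.
* `alg_pos`: let `s` be symmetric, `s = U diag(σ) Uᵀ`, `exp s ∈ G`. Then
  `exp(ts) i j = ∑_l U i l U j l e^{t σ_l}`. Let `𝓔` be the set of functions `f : ℝ → ℝ` of the form
  `f t = ∑_{λ ∈ F} c_λ e^{λ t}` (finite sums; = span of the functions `t ↦ e^{λt}`, a subalgebra of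
  `ℝ → ℝ`). For `p ∈ P` the function `t ↦ p(entries of exp(ts))` is in `𝓔` (induction on `p` with
  `MvPolynomial.induction_on`, or `Subalgebra` closure) and vanishes at `t = k ∈ ℕ`
  (`exp(ks) = (exp s)^k`). A function of `𝓔` vanishing on `ℕ` is zero: the monoid homomorphisms
  `k ↦ (e^λ)^k` (`Multiplicative ℕ →* ℝ`) for distinct `λ` are distinct, hence linearly independent
  (`linearIndependent_monoidHom`), so all `c_λ = 0`.
* `alg_closed`: polynomials are continuous.
* `nice_of_alg`: assemble.
-/

namespace MP65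

open Matrix NormedSpace Filter Topology

private theorem spectral {m : ℕ} {s : Mat m} (hs : s.transpose = s) :
    ∃ (U : Mat m) (d : Fin m → ℝ), U * U.transpose = 1 ∧ s = U * diagonal d * U.transpose := by
  have hA : s.IsHermitian := by
    rw [Matrix.IsHermitian, Matrix.conjTranspose_eq_transpose_of_trivial, hs]
  refine ⟨(hA.eigenvectorUnitary : Mat m), hA.eigenvalues, ?_, ?_⟩
  · have h := Matrix.mem_unitaryGroup_iff.1 hA.eigenvectorUnitary.2
    rw [Matrix.star_eq_conjTranspose, Matrix.conjTranspose_eq_transpose_of_trivial] at h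
    exact h
  · have h := hA.spectral_theorem
    rw [Unitary.conjStarAlgAut_apply, Matrix.star_eq_conjTranspose,
      Matrix.conjTranspose_eq_transpose_of_trivial] at h
    exact h

private theorem exp_conj_diag {m : ℕ} {U : Mat m} (hU : U * U.transpose = 1) (d : Fin m → ℝ) :
    exp (U * diagonal d * U.transpose) = U * diagonal (fun i => Real.exp (d i)) * U.transpose := by
  have hinv : U⁻¹ = U.transpose := Matrix.inv_eq_right_inv hU
  have hunit : IsUnit U := IsUnit.of_mul_eq_one _ hU
  rw [← hinv, Matrix.exp_conj _ _ hunit, Matrix.exp_diagonal]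
  congr 2
  congr 1
  funext i
  rw [Pi.coe_exp, Real.exp_eq_exp_ℝ]

theorem exists_log {m : ℕ} {x : Mat m} (hx : x.PosDef) : ∃ s : Mat m, s.transpose = s ∧ exp s = x := by
  have hA : x.IsHermitian := hx.isHermitian
  have hU : (hA.eigenvectorUnitary : Mat m) * (hA.eigenvectorUnitary : Mat m).transpose = 1 := by
    have h := Matrix.mem_unitaryGroup_iff.1 hA.eigenvectorUnitary.2
    rw [Matrix.star_eq_conjTranspose, Matrix.conjTranspose_eq_transpose_of_trivial] at h
    exact h
  have hsp : x = (hA.eigenvectorUnitary : Mat m) * diagonal hA.eigenvalues *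
      (hA.eigenvectorUnitary : Mat m).transpose := by
    have h := hA.spectral_theorem
    rw [Unitary.conjStarAlgAut_apply, Matrix.star_eq_conjTranspose,
      Matrix.conjTranspose_eq_transpose_of_trivial] at h
    exact h
  refine ⟨(hA.eigenvectorUnitary : Mat m) * diagonal (fun i => Real.log (hA.eigenvalues i)) *
    (hA.eigenvectorUnitary : Mat m).transpose, ?_, ?_⟩
  · rw [Matrix.transpose_mul, Matrix.transpose_mul, Matrix.transpose_transpose,
      Matrix.diagonal_transpose, Matrix.mul_assoc]
  · rw [exp_conj_diag hU]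
    conv_rhs => rw [hsp]
    congr 3
    funext i
    exact Real.exp_log (hx.eigenvalues_pos i)

theorem posDef_exp {m : ℕ} {s : Mat m} (hs : s.transpose = s) : (exp s : Mat m).PosDef := by
  have h1 : exp s = (exp ((1 / 2 : ℝ) • s)).conjTranspose * exp ((1 / 2 : ℝ) • s) := by
    rw [Matrix.conjTranspose_eq_transpose_of_trivial, ← Matrix.exp_transpose,
      Matrix.transpose_smul, hs, ← Matrix.exp_add_of_commute _ _ (Commute.refl _), ← add_smul]
    norm_num
  rw [h1]
  refine Matrix.PosDef.conjTranspose_mul_self _ ?_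
  exact Matrix.mulVec_injective_of_isUnit (Matrix.isUnit_exp _)

/-- Exponential polynomials. -/
private noncomputable def eS : Submodule ℝ (ℝ → ℝ) :=
  Submodule.span ℝ (Set.range fun l : ℝ => fun t : ℝ => Real.exp (l * t))

private theorem eS_mul (l : ℝ) {f : ℝ → ℝ} (hf : f ∈ eS) :
    (fun t => f t * Real.exp (l * t)) ∈ eS := by
  unfold eS at hf ⊢
  induction hf using Submodule.span_induction with
  | mem f hf =>
    obtain ⟨a, rfl⟩ := hf
    refine Submodule.subset_span ⟨a + l, ?_⟩
    funext t
    simp only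
    rw [← Real.exp_add, add_mul]
  | zero =>
    have : (fun t : ℝ => (0 : ℝ → ℝ) t * Real.exp (l * t)) = 0 := by
      funext t
      simp
    rw [this]
    exact Submodule.zero_mem _
  | add f g _ _ hf hg =>
    have : (fun t : ℝ => (f + g) t * Real.exp (l * t)) =
        (fun t => f t * Real.exp (l * t)) + fun t => g t * Real.exp (l * t) := by
      funext t
      simp [add_mul]
    rw [this]
    exact Submodule.add_mem _ hf hg
  | smul a f _ hf =>
    have : (fun t : ℝ => (a • f) t * Real.exp (l * t)) =
        a • fun t => f t * Real.exp (l * t) := by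
      funext t
      simp [mul_assoc]
    rw [this]
    exact Submodule.smul_mem _ a hf

private theorem eS_zero {f : ℝ → ℝ} (hf : f ∈ eS) (h : ∀ k : ℕ, f k = 0) : f = 0 := by
  unfold eS at hf
  rw [Finsupp.mem_span_range_iff_exists_finsupp] at hf
  obtain ⟨c, hc⟩ := hf
  have hinj : Function.Injective fun l : ℝ => powersHom ℝ (Real.exp l) := by
    intro a b hab
    exact Real.exp_injective ((powersHom ℝ).injective hab)
  have hli := (linearIndependent_monoidHom (Multiplicative ℕ) ℝ).comp _ hinj
  rw [linearIndependent_iff] at hli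
  have hc0 : c = 0 := by
    apply hli
    funext k
    have h1 := h k.toAdd
    rw [← hc] at h1
    rw [Finsupp.linearCombination_apply, Finsupp.sum, Finset.sum_apply]
    rw [Finsupp.sum, Finset.sum_apply] at h1
    rw [Pi.zero_apply, ← h1]
    refine Finset.sum_congr rfl fun l _ => ?_
    simp only [Pi.smul_apply, Function.comp_apply, smul_eq_mul, powersHom_apply]
    rw [← Real.exp_nat_mul, mul_comm l]
  rw [← hc, hc0, Finsupp.sum_zero_index]

theorem alg_pos {m : ℕ} (G : AlgGroup m) {s : Mat m} (hs : s.transpose = s)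
    (h : ∃ g ∈ G.G, (g : Mat m) = exp s) : s ∈ lieSet G.G := by
  obtain ⟨P, hP⟩ := G.alg
  obtain ⟨g₀, hg₀, hgs⟩ := h
  obtain ⟨U, d, hU, hsd⟩ := spectral hs
  have hexp : ∀ t : ℝ, exp (t • s) = U * diagonal (fun i => Real.exp (d i * t)) * U.transpose := by
    intro t
    have h1 : t • s = U * diagonal (fun i => d i * t) * U.transpose := by
      rw [hsd]
      have h2 : diagonal (fun i => d i * t) = t • diagonal d := by
        rw [← Matrix.diagonal_smul]
        congr 1
        funext i
        simp [mul_comm]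
      rw [h2, Matrix.mul_smul, Matrix.smul_mul]
    rw [h1, exp_conj_diag hU]
  have hent : ∀ (t : ℝ) (i j : Fin m), (exp (t • s) : Mat m) i j =
      ∑ l, (U i l * U j l) * Real.exp (d l * t) := by
    intro t i j
    rw [hexp t, Matrix.mul_apply]
    refine Finset.sum_congr rfl fun l _ => ?_
    rw [Matrix.mul_diagonal, Matrix.transpose_apply]
    ring
  have hmemE : ∀ p : MvPolynomial (Fin m × Fin m) ℝ,
      (fun t : ℝ => MvPolynomial.eval (fun ij => (exp (t • s) : Mat m) ij.1 ij.2) p) ∈ eS := by
    intro p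
    induction p using MvPolynomial.induction_on with
    | C a =>
      have h1 : (fun t : ℝ => MvPolynomial.eval (fun ij : Fin m × Fin m =>
          (exp (t • s) : Mat m) ij.1 ij.2) (MvPolynomial.C a)) =
          a • fun t : ℝ => Real.exp (0 * t) := by
        funext t
        simp
      rw [h1]
      exact Submodule.smul_mem _ a (Submodule.subset_span ⟨0, rfl⟩)
    | add p q hp hq =>
      have h1 : (fun t : ℝ => MvPolynomial.eval (fun ij : Fin m × Fin m =>
          (exp (t • s) : Mat m) ij.1 ij.2) (p + q)) =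
          (fun t : ℝ => MvPolynomial.eval (fun ij : Fin m × Fin m =>
          (exp (t • s) : Mat m) ij.1 ij.2) p) + fun t : ℝ => MvPolynomial.eval
            (fun ij : Fin m × Fin m => (exp (t • s) : Mat m) ij.1 ij.2) q := by
        funext t
        simp
      rw [h1]
      exact Submodule.add_mem _ hp hq
    | mul_X p ij hp =>
      have h1 : (fun t : ℝ => MvPolynomial.eval (fun ij : Fin m × Fin m =>
          (exp (t • s) : Mat m) ij.1 ij.2) (p * MvPolynomial.X ij)) =
          ∑ l, (U ij.1 l * U ij.2 l) • fun t : ℝ => MvPolynomial.eval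
            (fun ij : Fin m × Fin m => (exp (t • s) : Mat m) ij.1 ij.2) p *
              Real.exp (d l * t) := by
        funext t
        rw [Finset.sum_apply, MvPolynomial.eval_mul, MvPolynomial.eval_X, hent, Finset.mul_sum]
        refine Finset.sum_congr rfl fun l _ => ?_
        simp only [Pi.smul_apply, smul_eq_mul]
        ring
      rw [h1]
      exact Submodule.sum_mem _ fun l _ => Submodule.smul_mem _ _ (eS_mul (d l) hp)
  have hzero : ∀ p ∈ P, ∀ t : ℝ,
      MvPolynomial.eval (fun ij => (exp (t • s) : Mat m) ij.1 ij.2) p = 0 := by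
    intro p hp t
    have h1 := eS_zero (hmemE p) (fun k => by
      have h2 : ((g₀ ^ k : GL (Fin m) ℝ) : Mat m) = exp ((k : ℝ) • s) := by
        rw [Units.val_pow_eq_pow_val, hgs, ← Matrix.exp_nsmul, Nat.cast_smul_eq_nsmul]
      have h3 := (hP (g₀ ^ k)).1 (G.G.pow_mem hg₀ k) p hp
      rw [h2] at h3
      exact h3)
    exact congrFun h1 t
  intro t
  obtain ⟨g, hg⟩ := Matrix.isUnit_exp (t • s)
  refine ⟨g, (hP g).2 fun p hp => ?_, hg⟩
  rw [hg]
  exact hzero p hp t

theorem alg_closed {m : ℕ} (G : AlgGroup m) (u : ℕ → GL (Fin m) ℝ) (g : GL (Fin m) ℝ)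
    (hu : ∀ k, u k ∈ G.G)
    (h : ∀ i j, Tendsto (fun k => (u k : Mat m) i j) atTop (𝓝 ((g : Mat m) i j))) : g ∈ G.G := by
  obtain ⟨P, hP⟩ := G.alg
  refine (hP g).2 fun p hp => ?_
  have h1 : Tendsto (fun k => fun ij : Fin m × Fin m => (u k : Mat m) ij.1 ij.2) atTop
      (𝓝 fun ij : Fin m × Fin m => (g : Mat m) ij.1 ij.2) :=
    tendsto_pi_nhds.2 fun ij => h ij.1 ij.2
  have h2 := ((MvPolynomial.continuous_eval p).tendsto _).comp h1
  have h3 : ((fun x => MvPolynomial.eval x p) ∘
      fun k => fun ij : Fin m × Fin m => (u k : Mat m) ij.1 ij.2) = fun _ => (0 : ℝ) := by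
    funext k
    exact (hP (u k)).1 (hu k) p hp
  rw [h3] at h2
  exact (tendsto_nhds_unique h2 tendsto_const_nhds)

end MP65
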