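import Pool.Agent.Work.MP_65b809_gt.IBd
import Pool.Agent.Work.MP_65b809_gt.PolyE

/-! # IMin : the triangular group acts transitively (by minimisation)

Let `x ∈ G` be positive definite. Consider the set `𝒦` of the pairs of matrices `(g, g')` with
`g g' = 1`, `g' g = 1`, the unit `g` in `G` and `TriB H g`, and on it
`φ(g,g') = tr(g x gᵀ) + tr(g'ᵀ x⁻¹ g')` (`= tr(g x gᵀ) + tr((g x gᵀ)⁻¹)`).
* The sublevel set `𝒦_C = {φ ≤ C}`, `C = φ(1,1)`, is compact and nonempty: both terms are `≥ 0`;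
  `tr(g x gᵀ) ≥ λ_min(x) ∑ (g i j)²` and `tr(g'ᵀ x⁻¹ g') ≥ λ_min(x⁻¹) ∑ (g' i j)²`, so it is bounded; it is closed in
  `Mat × Mat`: for a limit `(g,g')`: `g g' = g' g = 1`; the patterns are closed conditions;
  `g i i ≥ 0` and `1 = (g g') i i = g i i g' i i` (by the patterns), so `g i i > 0`; `g ∈ G` by
  `Nice.closed` (use sequences: `IsSeqClosed.isClosed`). Finite dimensional space: closed and
  bounded is compact (`Metric.isCompact_of_isClosed_isBounded`).
* Let `(g,g')` be a minimum of `φ` on `𝒦_C`, hence on `𝒦`; `x₁ = g x gᵀ`, positive definite, in `G`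
  (`Nice.transpose`). For `Y ∈ n` or `Y = diag H`: `exp(tY) g` (inverse `g' exp(-tY)`) is in `𝒦`
  (`exp(tY)` has the pattern, diagonal positive, products of patterns), so
  `f(t) = tr(e^{tY} x₁ e^{tYᵀ}) + tr(e^{-tYᵀ} x₁⁻¹ e^{-tY})` has a minimum at `t = 0` and
  `0 = f'(0) = 2 tr(Y x₁) - 2 tr(Y x₁⁻¹)` (derivatives by `hasDerivAt_exp_smul_const`; trace of a
  transpose, `x₁` symmetric).
* Let `s` be symmetric with `exp s = x₁` (`exists_log`); `s ∈ 𝔭` by `Nice.pos`; `decomp`:
  `s = Y + Yᵀ + c diag H`. Then `tr(s (x₁ - x₁⁻¹)) = 2 tr(Y(x₁ - x₁⁻¹)) + c tr(diag H (x₁ - x₁⁻¹)) = 0`.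
  Diagonalising `s = U diag(σ) Uᵀ`: the trace is `∑ σ_i (e^{σ_i} - e^{-σ_i})`, all terms `≥ 0`, and
  `= 0` only for `σ_i = 0`. So `s = 0`, `x₁ = 1`, `x = g⁻¹ (g⁻¹)ᵀ`, and `g⁻¹` is in `G` with
  `TriB H g⁻¹` (`(g⁻¹) i i = 1 / g i i`); `triB_eq`.
-/

namespace MP65

open Matrix NormedSpace Filter Topology

variable {m : ℕ} {G : Subgroup (GL (Fin m) ℝ)} {H : Fin m → ℝ}

private theorem imin_exp_diag (v : Fin m → ℝ) :
    exp (diagonal v : Mat m) = diagonal (fun i => Real.exp (v i)) := by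
  rw [Matrix.exp_diagonal]
  congr 1
  ext i
  rw [Pi.coe_exp, ← Real.exp_eq_exp_ℝ]

/-- spectral form -/
private theorem imin_spec {s : Mat m} (hs : s.transpose = s) : ∃ (U : GL (Fin m) ℝ) (σ : Fin m → ℝ),
    s = (U : Mat m) * diagonal σ * ((U⁻¹ : GL (Fin m) ℝ) : Mat m) := by
  have hA : s.IsHermitian := by
    rw [Matrix.IsHermitian, Matrix.conjTranspose_eq_transpose_of_trivial, hs]
  have h1 := hA.spectral_theorem
  rw [Unitary.conjStarAlgAut_apply] at h1
  have hU1 := Unitary.coe_mul_star_self hA.eigenvectorUnitary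
  have hU2 := Unitary.coe_star_mul_self hA.eigenvectorUnitary
  refine ⟨⟨(hA.eigenvectorUnitary : Mat m), star (hA.eigenvectorUnitary : Mat m), hU1, hU2⟩,
    hA.eigenvalues, ?_⟩
  conv_lhs => rw [h1]
  rfl

private theorem imin_mul_exp_nonneg (x : ℝ) : 0 ≤ x * (Real.exp x - Real.exp (-x)) ∧
    (x * (Real.exp x - Real.exp (-x)) = 0 → x = 0) := by
  rcases lt_trichotomy x 0 with h | h | h
  · have h1 : Real.exp x - Real.exp (-x) < 0 := by
      have := Real.exp_lt_exp.2 (show x < -x by linarith)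
      linarith
    exact ⟨(mul_pos_of_neg_of_neg h h1).le, fun h0 => absurd h0 (mul_pos_of_neg_of_neg h h1).ne'⟩
  · subst h; simp
  · have h1 : 0 < Real.exp x - Real.exp (-x) := by
      have := Real.exp_lt_exp.2 (show -x < x by linarith)
      linarith
    exact ⟨(mul_pos h h1).le, fun h0 => absurd h0 (mul_pos h h1).ne'⟩

private theorem imin_trace_zero {s : Mat m} (hs : s.transpose = s)
    (h : (s * (exp s - exp (-s))).trace = 0) : s = 0 := by
  obtain ⟨U, σ, hU⟩ := imin_spec hs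
  have e1 : exp s = (U : Mat m) * diagonal (fun i => Real.exp (σ i)) *
      ((U⁻¹ : GL (Fin m) ℝ) : Mat m) := by
    rw [hU]
    rw [Matrix.exp_units_conj U (diagonal σ), imin_exp_diag]
  have e2 : exp (-s) = (U : Mat m) * diagonal (fun i => Real.exp (-σ i)) *
      ((U⁻¹ : GL (Fin m) ℝ) : Mat m) := by
    have : -s = (U : Mat m) * diagonal (fun i => -σ i) * ((U⁻¹ : GL (Fin m) ℝ) : Mat m) := by
      rw [← Matrix.diagonal_neg, Matrix.mul_neg, Matrix.neg_mul, ← hU]
    rw [this]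
    rw [Matrix.exp_units_conj U (diagonal fun i => -σ i), imin_exp_diag]
  have hUU : ((U⁻¹ : GL (Fin m) ℝ) : Mat m) * (U : Mat m) = 1 := by
    rw [← Units.val_mul, inv_mul_cancel, Units.val_one]
  have e3 : exp s - exp (-s) = (U : Mat m) * diagonal (fun i => Real.exp (σ i) - Real.exp (-σ i)) *
      ((U⁻¹ : GL (Fin m) ℝ) : Mat m) := by
    rw [e1, e2, ← Matrix.sub_mul, ← Matrix.mul_sub, Matrix.diagonal_sub]
  have e4 : s * (exp s - exp (-s)) = (U : Mat m) *
      diagonal (fun i => σ i * (Real.exp (σ i) - Real.exp (-σ i))) *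
      ((U⁻¹ : GL (Fin m) ℝ) : Mat m) := by
    rw [e3]
    conv_lhs => rw [hU]
    calc (U : Mat m) * diagonal σ * ((U⁻¹ : GL (Fin m) ℝ) : Mat m) *
        ((U : Mat m) * diagonal (fun i => Real.exp (σ i) - Real.exp (-σ i)) *
          ((U⁻¹ : GL (Fin m) ℝ) : Mat m)) = (U : Mat m) * diagonal σ *
          (((U⁻¹ : GL (Fin m) ℝ) : Mat m) * (U : Mat m)) *
          diagonal (fun i => Real.exp (σ i) - Real.exp (-σ i)) *
          ((U⁻¹ : GL (Fin m) ℝ) : Mat m) := by noncomm_ring
      _ = _ := by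
        rw [hUU, Matrix.mul_one, Matrix.mul_assoc (U : Mat m), Matrix.diagonal_mul_diagonal]
  have e5 : ∑ i, σ i * (Real.exp (σ i) - Real.exp (-σ i)) = 0 := by
    rw [e4, Matrix.trace_mul_cycle, hUU, Matrix.one_mul, Matrix.trace_diagonal] at h
    exact h
  have e6 := (Finset.sum_eq_zero_iff_of_nonneg (fun i _ => (imin_mul_exp_nonneg (σ i)).1)).1 e5
  have e7 : σ = 0 := by
    ext i
    exact (imin_mul_exp_nonneg (σ i)).2 (e6 i (Finset.mem_univ i))
  rw [hU, e7]
  simp

private theorem imin_entry_le (M : Mat m) (i j : Fin m) : (M i j) ^ 2 ≤ (M * M.transpose).trace := by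
  have e : (M * M.transpose).trace = ∑ i, ∑ j, (M i j) ^ 2 := by
    simp [Matrix.trace, Matrix.mul_apply, sq]
  rw [e]
  calc (M i j) ^ 2 ≤ ∑ j, (M i j) ^ 2 :=
        Finset.single_le_sum (f := fun j => (M i j) ^ 2) (fun j _ => sq_nonneg _) (Finset.mem_univ j)
    _ ≤ _ := Finset.single_le_sum (f := fun i => ∑ j, (M i j) ^ 2)
        (fun i _ => Finset.sum_nonneg fun j _ => sq_nonneg _) (Finset.mem_univ i)

private theorem imin_trace_nonneg (M : Mat m) : 0 ≤ (M * M.transpose).trace := by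
  have e : (M * M.transpose).trace = ∑ i, ∑ j, (M i j) ^ 2 := by
    simp [Matrix.trace, Matrix.mul_apply, sq]
  rw [e]
  exact Finset.sum_nonneg fun i _ => Finset.sum_nonneg fun j _ => sq_nonneg _

private theorem imin_mul_entry (M N : Mat m) (c : ℝ) (hM : ∀ i j, |M i j| ≤ c) (i j : Fin m) :
    |(M * N) i j| ≤ c * ∑ k, ∑ l, |N k l| := by
  have hc : 0 ≤ c := (abs_nonneg _).trans (hM i j)
  rw [Matrix.mul_apply, Finset.mul_sum]
  refine (Finset.abs_sum_le_sum_abs _ _).trans (Finset.sum_le_sum fun k _ => ?_)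
  rw [abs_mul]
  exact mul_le_mul (hM i k) (Finset.single_le_sum (f := fun l => |N k l|)
    (fun l _ => abs_nonneg _) (Finset.mem_univ j)) (abs_nonneg _) hc

private theorem imin_mul_entry' (M N : Mat m) (c : ℝ) (hM : ∀ i j, |M i j| ≤ c) (i j : Fin m) :
    |(N * M) i j| ≤ c * ∑ k, ∑ l, |N k l| := by
  have h := imin_mul_entry M.transpose N.transpose c (fun i j => hM j i) j i
  rw [← Matrix.transpose_mul, Matrix.transpose_apply] at h
  rw [Finset.sum_comm]
  exact h

private theorem imin_diag_mul {a b : Mat m} (ha : ∀ i j, a i j ≠ 0 → i = j ∨ H j < H i)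
    (hb : ∀ i j, b i j ≠ 0 → i = j ∨ H j < H i) (i : Fin m) : (a * b) i i = a i i * b i i := by
  rw [Matrix.mul_apply]
  refine Finset.sum_eq_single i (fun k _ hk => ?_) (fun h => absurd (Finset.mem_univ i) h)
  by_contra hne
  rcases ha i k (left_ne_zero_of_mul hne) with h1 | h1
  · exact hk h1.symm
  · rcases hb k i (right_ne_zero_of_mul hne) with h2 | h2
    · exact hk h2
    · exact lt_irrefl _ (h1.trans h2)

private theorem imin_pat_mul {a b : Mat m} (ha : ∀ i j, a i j ≠ 0 → i = j ∨ H j < H i)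
    (hb : ∀ i j, b i j ≠ 0 → i = j ∨ H j < H i) (i j : Fin m) (h : (a * b) i j ≠ 0) :
    i = j ∨ H j < H i := by
  rw [Matrix.mul_apply] at h
  obtain ⟨k, _, hk⟩ := Finset.exists_ne_zero_of_sum_ne_zero h
  rcases ha i k (left_ne_zero_of_mul hk) with h1 | h1
  · subst h1
    exact hb i j (right_ne_zero_of_mul hk)
  · rcases hb k j (right_ne_zero_of_mul hk) with h2 | h2
    · subst h2
      exact Or.inr h1
    · exact Or.inr (h2.trans h1)

private theorem imin_triB_mul {g h : GL (Fin m) ℝ} (hg : TriB H g) (hh : TriB H h) :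
    TriB H (g * h) := by
  refine ⟨?_, ?_, ?_⟩
  · rw [Units.val_mul]
    exact imin_pat_mul hg.1 hh.1
  · rw [_root_.mul_inv_rev, Units.val_mul]
    exact imin_pat_mul hh.2.1 hg.2.1
  · intro i
    rw [Units.val_mul, imin_diag_mul hg.1 hh.1]
    exact mul_pos (hg.2.2 i) (hh.2.2 i)

private theorem imin_triB_inv {g : GL (Fin m) ℝ} (hg : TriB H g) : TriB H g⁻¹ := by
  refine ⟨hg.2.1, ?_, ?_⟩
  · rw [inv_inv]; exact hg.1
  · intro i
    have h1 : ((g : Mat m) * ((g⁻¹ : GL (Fin m) ℝ) : Mat m)) i i = 1 := by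
      rw [← Units.val_mul, mul_inv_cancel, Units.val_one, Matrix.one_apply_eq]
    rw [imin_diag_mul hg.1 hg.2.1] at h1
    have h2 := hg.2.2 i
    by_contra hn
    push Not at hn
    nlinarith [mul_nonpos_of_nonneg_of_nonpos h2.le hn]

private theorem imin_triB_one : TriB H (1 : GL (Fin m) ℝ) := by
  refine ⟨?_, ?_, ?_⟩
  · intro i j h
    left
    by_contra hn
    exact h (by rw [Units.val_one, Matrix.one_apply_ne hn])
  · intro i j h
    left
    by_contra hn
    exact h (by rw [inv_one, Units.val_one, Matrix.one_apply_ne hn])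
  · intro i
    rw [Units.val_one, Matrix.one_apply_eq]
    exact one_pos

/-- exponentials of the two types of elements have the pattern -/
private theorem imin_triB_exp_gt {Y : Mat m} (hY : Gt H 0 Y) {g : GL (Fin m) ℝ}
    (hg : (g : Mat m) = exp Y) : TriB H g := by
  have hgi : ((g⁻¹ : GL (Fin m) ℝ) : Mat m) = exp (-Y) := by
    rw [Matrix.coe_units_inv, hg, Matrix.exp_neg]
  have key : ∀ Z : Mat m, Gt H 0 Z → ∀ i j, (exp Z : Mat m) i j ≠ 0 → i = j ∨ H j < H i := by
    intro Z hZ i j hne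
    by_cases hij : i = j
    · exact Or.inl hij
    · right
      have h1 := exp_sub_one_gt hZ i j (by
        rw [Matrix.sub_apply, Matrix.one_apply_ne hij, sub_zero]; exact hne)
      exact sub_pos.1 h1
  refine ⟨?_, ?_, ?_⟩
  · rw [hg]; exact key Y hY
  · rw [hgi]; exact key _ (gt_neg hY)
  · intro i
    rw [hg]
    have h1 : (exp Y - 1 : Mat m) i i = 0 := by
      by_contra hne
      have := exp_sub_one_gt hY i i hne
      simp at this
    rw [Matrix.sub_apply, Matrix.one_apply_eq] at h1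
    linarith

private theorem imin_triB_exp_diag (t : ℝ) {g : GL (Fin m) ℝ}
    (hg : (g : Mat m) = exp (t • diagonal H)) : TriB H g := by
  have hgi : ((g⁻¹ : GL (Fin m) ℝ) : Mat m) = exp ((-t) • diagonal H) := by
    rw [Matrix.coe_units_inv, hg, neg_smul, Matrix.exp_neg]
  have e1 : ∀ t : ℝ, exp (t • diagonal H) = diagonal (fun i => Real.exp (t * H i)) := by
    intro t
    have : t • diagonal H = diagonal (fun i => t * H i) := by
      rw [← Matrix.diagonal_smul]; rfl
    rw [this, imin_exp_diag]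
  have key : ∀ t : ℝ, ∀ i j, (exp (t • diagonal H) : Mat m) i j ≠ 0 → i = j ∨ H j < H i := by
    intro t i j hne
    left
    by_contra hij
    exact hne (by rw [e1, Matrix.diagonal_apply_ne _ hij])
  refine ⟨?_, ?_, ?_⟩
  · rw [hg]; exact key t
  · rw [hgi]; exact key (-t)
  · intro i
    rw [hg, e1, Matrix.diagonal_apply_eq]
    exact Real.exp_pos _

set_option backward.isDefEq.respectTransparency false in
open scoped Matrix.Norms.Operator in
private theorem imin_deriv (Y x y : Mat m) :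
    HasDerivAt (fun t : ℝ => (exp (t • Y) * x * exp (t • Y.transpose)).trace +
      (exp (t • (-Y.transpose)) * y * exp (t • (-Y))).trace)
      ((Y * x + x * Y.transpose).trace + ((-Y.transpose) * y + y * (-Y)).trace) 0 := by
  have key : ∀ A B x : Mat m, HasDerivAt (fun t : ℝ => (exp (t • A) * x * exp (t • B)).trace)
      ((A * x + x * B).trace) 0 := by
    intro A B x
    have d1 := hasDerivAt_exp_smul_const A (0 : ℝ)
    have d2 := hasDerivAt_exp_smul_const B (0 : ℝ)
    have d3 := (d1.mul_const x).mul d2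
    have e : exp ((0 : ℝ) • A) * A * x * exp ((0 : ℝ) • B) +
        exp ((0 : ℝ) • A) * x * (exp ((0 : ℝ) • B) * B) = A * x + x * B := by
      simp
    rw [e] at d3
    exact (LinearMap.toContinuousLinearMap (Matrix.traceLinearMap (Fin m) ℝ ℝ)).hasFDerivAt.comp_hasDerivAt
      0 d3
  exact (key Y Y.transpose x).add (key (-Y.transpose) (-Y) y)

private theorem imin_crit (Y x y : Mat m) (hx : x.transpose = x) (hy : y.transpose = y)
    (hmin : ∀ t : ℝ, x.trace + y.trace ≤ (exp (t • Y) * x * exp (t • Y.transpose)).trace +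
      (exp (t • (-Y.transpose)) * y * exp (t • (-Y))).trace) :
    (Y * x).trace = (Y * y).trace := by
  have hd := imin_deriv Y x y
  have hloc : IsLocalMin (fun t : ℝ => (exp (t • Y) * x * exp (t • Y.transpose)).trace +
      (exp (t • (-Y.transpose)) * y * exp (t • (-Y))).trace) 0 := by
    refine Eventually.of_forall fun t => ?_
    simpa using hmin t
  have h0 := hloc.hasDerivAt_eq_zero hd
  have e1 : (x * Y.transpose).trace = (Y * x).trace := by
    rw [← Matrix.trace_transpose, Matrix.transpose_mul, Matrix.transpose_transpose, hx]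
  have e2 : (Y.transpose * y).trace = (Y * y).trace := by
    rw [← Matrix.trace_transpose, Matrix.transpose_mul, Matrix.transpose_transpose, hy,
      Matrix.trace_mul_comm]
  have e3 : (y * Y).trace = (Y * y).trace := Matrix.trace_mul_comm _ _
  rw [Matrix.trace_add, Matrix.trace_add, e1, Matrix.neg_mul, Matrix.mul_neg, Matrix.trace_neg,
    Matrix.trace_neg, e2, e3] at h0
  linarith

/-- existence of a minimum -/
private theorem imin_exists_min (hG : Nice G) (S S' : Mat m) (hS : S.transpose = S)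
    (hS' : S'.transpose = S') (h1 : S * S' = 1) :
    ∃ g ∈ G, TriB H g ∧ ∀ g' ∈ G, TriB H g' →
      ((g : Mat m) * (S * S) * (g : Mat m).transpose).trace +
        (((g⁻¹ : GL (Fin m) ℝ) : Mat m).transpose * (S' * S') * ((g⁻¹ : GL (Fin m) ℝ) : Mat m)).trace ≤
      ((g' : Mat m) * (S * S) * (g' : Mat m).transpose).trace +
        (((g'⁻¹ : GL (Fin m) ℝ) : Mat m).transpose * (S' * S') *
          ((g'⁻¹ : GL (Fin m) ℝ) : Mat m)).trace := by
  set φ : Mat m × Mat m → ℝ := fun p => (p.1 * (S * S) * p.1.transpose).trace +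
    (p.2.transpose * (S' * S') * p.2).trace with hφ
  have hcont : Continuous φ := by
    refine Continuous.add ?_ ?_
    · exact ((continuous_fst.matrix_mul continuous_const).matrix_mul
        continuous_fst.matrix_transpose).matrix_trace
    · exact ((continuous_snd.matrix_transpose.matrix_mul continuous_const).matrix_mul
        continuous_snd).matrix_trace
  set K : Set (Mat m × Mat m) := {p | (∃ g ∈ G, (g : Mat m) = p.1 ∧
    ((g⁻¹ : GL (Fin m) ℝ) : Mat m) = p.2 ∧ TriB H g) ∧ φ p ≤ φ (1, 1)} with hK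
  have hterm1 : ∀ a : Mat m, (a * (S * S) * a.transpose).trace = (a * S * (a * S).transpose).trace := by
    intro a
    rw [Matrix.transpose_mul, hS]
    congr 1
    noncomm_ring
  have hterm2 : ∀ b : Mat m, (b.transpose * (S' * S') * b).trace =
      ((S' * b).transpose * (S' * b).transpose.transpose).trace := by
    intro b
    rw [Matrix.transpose_transpose, Matrix.transpose_mul, hS']
    congr 1
    noncomm_ring
  -- bound
  set c : ℝ := φ (1, 1) + 1 with hc
  set R : ℝ := c * ∑ k, ∑ l, |S' k l| with hR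
  set R' : ℝ := c * ∑ k, ∑ l, |S k l| with hR'
  have hbound : ∀ p ∈ K, (∀ i j, |p.1 i j| ≤ R) ∧ ∀ i j, |p.2 i j| ≤ R' := by
    rintro p ⟨_, hp⟩
    have hn1 : 0 ≤ (p.1 * (S * S) * p.1.transpose).trace := by
      rw [hterm1]; exact imin_trace_nonneg _
    have hn2 : 0 ≤ (p.2.transpose * (S' * S') * p.2).trace := by
      rw [hterm2]; exact imin_trace_nonneg _
    have hφ1 : φ p = (p.1 * (S * S) * p.1.transpose).trace +
      (p.2.transpose * (S' * S') * p.2).trace := rfl
    have hb1 : ∀ i j, |(p.1 * S) i j| ≤ c := by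
      intro i j
      have := imin_entry_le (p.1 * S) i j
      rw [← hterm1] at this
      have h3 : |(p.1 * S) i j| ^ 2 ≤ φ (1, 1) := by rw [sq_abs]; linarith
      nlinarith [abs_nonneg ((p.1 * S) i j), sq_nonneg (|(p.1 * S) i j| - 1)]
    have hb2 : ∀ i j, |(S' * p.2) i j| ≤ c := by
      intro i j
      have := imin_entry_le (S' * p.2).transpose j i
      rw [← hterm2] at this
      have h3 : |(S' * p.2) i j| ^ 2 ≤ φ (1, 1) := by
        rw [sq_abs]
        rw [Matrix.transpose_apply] at this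
        linarith
      nlinarith [abs_nonneg ((S' * p.2) i j), sq_nonneg (|(S' * p.2) i j| - 1)]
    constructor
    · intro i j
      have := imin_mul_entry (p.1 * S) S' c hb1 i j
      rwa [Matrix.mul_assoc, h1, Matrix.mul_one] at this
    · intro i j
      have := imin_mul_entry' (S' * p.2) S c hb2 i j
      rwa [← Matrix.mul_assoc, h1, Matrix.one_mul] at this
  have hbox : IsCompact {p : Mat m × Mat m | (∀ i j, |p.1 i j| ≤ R) ∧ ∀ i j, |p.2 i j| ≤ R'} := by
    have h3 : ∀ R : ℝ, IsCompact {a : Mat m | ∀ i j, |a i j| ≤ R} := by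
      intro R
      have h4 : IsCompact (Set.pi Set.univ (fun _ : Fin m =>
          Set.pi Set.univ (fun _ : Fin m => Set.Icc (-R) R))) :=
        isCompact_univ_pi fun _ => isCompact_univ_pi fun _ => isCompact_Icc
      have h5 : {a : Mat m | ∀ i j, |a i j| ≤ R} = (Set.pi Set.univ (fun _ : Fin m =>
          Set.pi Set.univ (fun _ : Fin m => Set.Icc (-R) R)) : Set (Fin m → Fin m → ℝ)) := by
        refine Set.ext fun a => ⟨fun ha i _ j _ => abs_le.1 (ha i j), fun ha i j => ?_⟩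
        exact abs_le.2 (ha i (Set.mem_univ i) j (Set.mem_univ j))
      rw [h5]
      exact h4
    exact (h3 R).prod (h3 R')
  have hseq : IsSeqClosed K := by
    intro u p hu hlim
    have hu1 : ∀ k, ∃ g ∈ G, (g : Mat m) = (u k).1 ∧
      ((g⁻¹ : GL (Fin m) ℝ) : Mat m) = (u k).2 ∧ TriB H g := fun k => (hu k).1
    choose g hgG hg1 hg2 hgT using hu1
    have hl1 : Tendsto (fun k => (g k : Mat m)) atTop (𝓝 p.1) := by
      simp only [hg1]
      exact (continuous_fst.tendsto p).comp hlim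
    have hl2 : Tendsto (fun k => (((g k)⁻¹ : GL (Fin m) ℝ) : Mat m)) atTop (𝓝 p.2) := by
      simp only [hg2]
      exact (continuous_snd.tendsto p).comp hlim
    have hent : ∀ (v : ℕ → Mat m) (z : Mat m), Tendsto v atTop (𝓝 z) → ∀ i j,
        Tendsto (fun k => v k i j) atTop (𝓝 (z i j)) := fun v z hv i j =>
      tendsto_pi_nhds.1 (tendsto_pi_nhds.1 hv i) j
    have hm1 : p.1 * p.2 = 1 := by
      have h5 : Tendsto (fun k => (g k : Mat m) * (((g k)⁻¹ : GL (Fin m) ℝ) : Mat m)) atTop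
        (𝓝 (p.1 * p.2)) := hl1.mul hl2
      have h6 : (fun k => (g k : Mat m) * (((g k)⁻¹ : GL (Fin m) ℝ) : Mat m)) = fun _ => 1 := by
        ext1 k
        rw [← Units.val_mul, mul_inv_cancel, Units.val_one]
      rw [h6] at h5
      exact tendsto_nhds_unique h5 tendsto_const_nhds
    have hm2 : p.2 * p.1 = 1 := by
      have h5 : Tendsto (fun k => (((g k)⁻¹ : GL (Fin m) ℝ) : Mat m) * (g k : Mat m)) atTop
        (𝓝 (p.2 * p.1)) := hl2.mul hl1
      have h6 : (fun k => (((g k)⁻¹ : GL (Fin m) ℝ) : Mat m) * (g k : Mat m)) = fun _ => 1 := by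
        ext1 k
        rw [← Units.val_mul, inv_mul_cancel, Units.val_one]
      rw [h6] at h5
      exact tendsto_nhds_unique h5 tendsto_const_nhds
    have hpat1 : ∀ i j, p.1 i j ≠ 0 → i = j ∨ H j < H i := by
      intro i j hne
      by_contra hn
      apply hne
      have h5 := hent _ _ hl1 i j
      have h6 : (fun k => (g k : Mat m) i j) = fun _ => 0 := by
        ext1 k
        by_contra h7
        exact hn ((hgT k).1 i j h7)
      rw [h6] at h5
      exact tendsto_nhds_unique h5 tendsto_const_nhds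
    have hpat2 : ∀ i j, p.2 i j ≠ 0 → i = j ∨ H j < H i := by
      intro i j hne
      by_contra hn
      apply hne
      have h5 := hent _ _ hl2 i j
      have h6 : (fun k => (((g k)⁻¹ : GL (Fin m) ℝ) : Mat m) i j) = fun _ => 0 := by
        ext1 k
        by_contra h7
        exact hn ((hgT k).2.1 i j h7)
      rw [h6] at h5
      exact tendsto_nhds_unique h5 tendsto_const_nhds
    refine ⟨⟨⟨p.1, p.2, hm1, hm2⟩, ?_, rfl, rfl, hpat1, hpat2, ?_⟩, ?_⟩
    · exact hG.closed g _ hgG (fun i j => hent _ _ hl1 i j)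
    · intro i
      have h5 : 0 ≤ p.1 i i := ge_of_tendsto (hent _ _ hl1 i i)
        (Eventually.of_forall fun k => ((hgT k).2.2 i).le)
      have h6 : (p.1 * p.2) i i = 1 := by rw [hm1, Matrix.one_apply_eq]
      rw [imin_diag_mul hpat1 hpat2] at h6
      refine lt_of_le_of_ne h5 ?_
      intro h7
      change 0 = p.1 i i at h7
      rw [← h7] at h6
      simp at h6
    · exact le_of_tendsto ((hcont.tendsto p).comp hlim) (Eventually.of_forall fun k => (hu k).2)
  have hfc : FirstCountableTopology (Mat m) :=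
    inferInstanceAs (FirstCountableTopology (Fin m → Fin m → ℝ))
  have hcomp : IsCompact K := hbox.of_isClosed_subset hseq.isClosed hbound
  have hne : K.Nonempty := by
    refine ⟨(1, 1), ⟨1, G.one_mem, ?_, ?_, imin_triB_one⟩, le_rfl⟩
    · simp
    · simp
  obtain ⟨p, ⟨⟨g, hgG, hg1, hg2, hgT⟩, hpC⟩, hmin⟩ := hcomp.exists_isMinOn hne hcont.continuousOn
  refine ⟨g, hgG, hgT, fun g' hg' hT' => ?_⟩
  have e : ∀ g' : GL (Fin m) ℝ, ((g' : Mat m) * (S * S) * (g' : Mat m).transpose).trace +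
        (((g'⁻¹ : GL (Fin m) ℝ) : Mat m).transpose * (S' * S') *
          ((g'⁻¹ : GL (Fin m) ℝ) : Mat m)).trace =
      φ ((g' : Mat m), ((g'⁻¹ : GL (Fin m) ℝ) : Mat m)) := fun g' => rfl
  rw [e, e]
  have hp : ((g : Mat m), ((g⁻¹ : GL (Fin m) ℝ) : Mat m)) = p := by rw [hg1, hg2]
  rw [hp]
  by_cases hle : φ ((g' : Mat m), ((g'⁻¹ : GL (Fin m) ℝ) : Mat m)) ≤ φ (1, 1)
  · exact hmin (show _ ∈ K from ⟨⟨g', hg', rfl, rfl, hT'⟩, hle⟩)
  · exact hpC.trans (not_le.1 hle).le

theorem iwasawa {m : ℕ} {G : Subgroup (GL (Fin m) ℝ)} {H : Fin m → ℝ} (h : IwaHyp G H)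
    {B : BData m} (hBH : B.H = H) (hB : ∀ Y : Mat m, Y ∈ B.n ↔ Y ∈ lieSet G ∧ Gt H 0 Y)
    {x : GL (Fin m) ℝ} (hx : x ∈ G) (hpos : (x : Mat m).PosDef) :
    ∃ p : B.n × ℝ, (x : Mat m) = B.mu p * (B.mu p).transpose := by
  have hG := h.nice
  obtain ⟨s, hs, hsx⟩ := exists_log hpos
  set S : Mat m := exp ((1 / 2 : ℝ) • s) with hSdef
  set S' : Mat m := exp (-((1 / 2 : ℝ) • s)) with hS'def
  have hST : S.transpose = S := by
    rw [hSdef, ← Matrix.exp_transpose, Matrix.transpose_smul, hs]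
  have hS'T : S'.transpose = S' := by
    rw [hS'def, ← Matrix.exp_transpose, Matrix.transpose_neg, Matrix.transpose_smul, hs]
  have hSS' : S * S' = 1 := by
    rw [hSdef, hS'def, ← Matrix.exp_add_of_commute _ _ ((Commute.refl ((1 / 2 : ℝ) • s)).neg_right), add_neg_cancel,
      exp_zero]
  have hS'S : S' * S = 1 := by
    rw [hSdef, hS'def, ← Matrix.exp_add_of_commute _ _ ((Commute.refl ((1 / 2 : ℝ) • s)).neg_left), neg_add_cancel,
      exp_zero]
  have hSS : S * S = (x : Mat m) := by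
    rw [hSdef, ← Matrix.exp_add_of_commute _ _ (Commute.refl _), ← add_smul, ← hsx]
    norm_num
  have hS'S' : S' * S' = ((x⁻¹ : GL (Fin m) ℝ) : Mat m) := by
    have e1 : (S' * S') * (x : Mat m) = 1 := by
      rw [← hSS]
      calc S' * S' * (S * S) = S' * (S' * S) * S := by noncomm_ring
        _ = 1 := by rw [hS'S, Matrix.mul_one, hS'S]
    calc S' * S' = (S' * S') * ((x : Mat m) * ((x⁻¹ : GL (Fin m) ℝ) : Mat m)) := by
          rw [← Units.val_mul, mul_inv_cancel, Units.val_one, Matrix.mul_one]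
      _ = (S' * S' * (x : Mat m)) * ((x⁻¹ : GL (Fin m) ℝ) : Mat m) := by
          rw [Matrix.mul_assoc, Matrix.mul_assoc, Matrix.mul_assoc]
      _ = _ := by rw [e1, Matrix.one_mul]
  obtain ⟨g, hgG, hgT, hmin⟩ := imin_exists_min (H := H) hG S S' hST hS'T hSS'
  rw [hSS, hS'S'] at hmin
  have hxT : (x : Mat m).transpose = (x : Mat m) := by
    rw [← hsx, ← Matrix.exp_transpose, hs]
  -- the transposed unit
  obtain ⟨gT, hgTv⟩ : ∃ gT : GL (Fin m) ℝ, (gT : Mat m) = (g : Mat m).transpose :=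
    ⟨⟨(g : Mat m).transpose, ((g⁻¹ : GL (Fin m) ℝ) : Mat m).transpose, by
      rw [← Matrix.transpose_mul, ← Units.val_mul, inv_mul_cancel, Units.val_one,
        Matrix.transpose_one], by
      rw [← Matrix.transpose_mul, ← Units.val_mul, mul_inv_cancel, Units.val_one,
        Matrix.transpose_one]⟩, rfl⟩
  have hgTG : gT ∈ G := hG.transpose g hgG gT hgTv
  set x1 : GL (Fin m) ℝ := g * x * gT with hx1
  have hx1G : x1 ∈ G := G.mul_mem (G.mul_mem hgG hx) hgTG
  have hx1v : (x1 : Mat m) = (g : Mat m) * (x : Mat m) * (g : Mat m).transpose := by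
    rw [hx1, Units.val_mul, Units.val_mul, hgTv]
  have hgTi : ((gT⁻¹ : GL (Fin m) ℝ) : Mat m) = ((g⁻¹ : GL (Fin m) ℝ) : Mat m).transpose := by
    rw [Matrix.coe_units_inv, hgTv, Matrix.coe_units_inv, Matrix.transpose_nonsing_inv]
  have hx1i : ((x1⁻¹ : GL (Fin m) ℝ) : Mat m) = ((g⁻¹ : GL (Fin m) ℝ) : Mat m).transpose *
      ((x⁻¹ : GL (Fin m) ℝ) : Mat m) * ((g⁻¹ : GL (Fin m) ℝ) : Mat m) := by
    rw [hx1, _root_.mul_inv_rev, _root_.mul_inv_rev, Units.val_mul, Units.val_mul, hgTi]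
    rw [Matrix.mul_assoc]
  have hx1T : (x1 : Mat m).transpose = (x1 : Mat m) := by
    rw [hx1v, Matrix.transpose_mul, Matrix.transpose_mul, Matrix.transpose_transpose, hxT,
      Matrix.mul_assoc]
  have hx1iT : ((x1⁻¹ : GL (Fin m) ℝ) : Mat m).transpose = ((x1⁻¹ : GL (Fin m) ℝ) : Mat m) := by
    rw [Matrix.coe_units_inv, Matrix.transpose_nonsing_inv, hx1T]
  -- critical point equations
  have hcrit : ∀ Y : Mat m, (∀ t : ℝ, ∃ u ∈ G, TriB H u ∧ (u : Mat m) = exp (t • Y)) →
      (Y * (x1 : Mat m)).trace = (Y * ((x1⁻¹ : GL (Fin m) ℝ) : Mat m)).trace := by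
    intro Y hY
    refine imin_crit Y _ _ hx1T hx1iT fun t => ?_
    obtain ⟨u, huG, huT, hu⟩ := hY t
    have h1 := hmin (u * g) (G.mul_mem huG hgG) (imin_triB_mul huT hgT)
    have hui : ((u⁻¹ : GL (Fin m) ℝ) : Mat m) = exp (t • (-Y)) := by
      rw [Matrix.coe_units_inv, hu, smul_neg, Matrix.exp_neg]
    have huT' : (u : Mat m).transpose = exp (t • Y.transpose) := by
      rw [hu, ← Matrix.exp_transpose, Matrix.transpose_smul]
    have huiT : ((u⁻¹ : GL (Fin m) ℝ) : Mat m).transpose = exp (t • (-Y.transpose)) := by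
      rw [hui, ← Matrix.exp_transpose, Matrix.transpose_smul, Matrix.transpose_neg]
    rw [← hu, ← hui, ← huT', ← huiT, hx1v, hx1i]
    rw [_root_.mul_inv_rev, Units.val_mul, Units.val_mul, Matrix.transpose_mul,
      Matrix.transpose_mul] at h1
    have e1 : (u : Mat m) * (g : Mat m) * (x : Mat m) * ((g : Mat m).transpose * (u : Mat m).transpose) =
        (u : Mat m) * ((g : Mat m) * (x : Mat m) * (g : Mat m).transpose) * (u : Mat m).transpose := by
      noncomm_ring
    have e2 : ((u⁻¹ : GL (Fin m) ℝ) : Mat m).transpose * ((g⁻¹ : GL (Fin m) ℝ) : Mat m).transpose *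
        ((x⁻¹ : GL (Fin m) ℝ) : Mat m) *
        (((g⁻¹ : GL (Fin m) ℝ) : Mat m) * ((u⁻¹ : GL (Fin m) ℝ) : Mat m)) =
        ((u⁻¹ : GL (Fin m) ℝ) : Mat m).transpose * (((g⁻¹ : GL (Fin m) ℝ) : Mat m).transpose *
        ((x⁻¹ : GL (Fin m) ℝ) : Mat m) * ((g⁻¹ : GL (Fin m) ℝ) : Mat m)) *
        ((u⁻¹ : GL (Fin m) ℝ) : Mat m) := by
      noncomm_ring
    rw [e1, e2] at h1
    exact h1
  have hpos1 : (x1 : Mat m).PosDef := by
    rw [hx1v]
    have h2 : Function.Injective (g : Mat m).vecMul :=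
      Matrix.vecMul_injective_of_isUnit g.isUnit
    have h3 := hpos.mul_mul_conjTranspose_same (B := (g : Mat m)) h2
    rwa [Matrix.conjTranspose_eq_transpose_of_trivial] at h3
  obtain ⟨s1, hs1, hs1x⟩ := exists_log hpos1
  have hs1p : s1 ∈ pS G := ⟨hs1, hG.pos s1 hs1 ⟨x1, hx1G, hs1x.symm⟩⟩
  obtain ⟨Y, hY, c, hdec⟩ := decomp h hB hs1p
  have hYn := (hB Y).1 hY
  have hcY := hcrit Y (by
    intro t
    obtain ⟨u, hu, huv⟩ := hYn.1 t
    exact ⟨u, hu, imin_triB_exp_gt (gt_smul t hYn.2) huv, huv⟩)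
  have hcH := hcrit (diagonal H) (by
    intro t
    obtain ⟨u, hu, huv⟩ := h.H_mem t
    exact ⟨u, hu, imin_triB_exp_diag t huv, huv⟩)
  have hx1i' : ((x1⁻¹ : GL (Fin m) ℝ) : Mat m) = exp (-s1) := by
    rw [Matrix.coe_units_inv, ← hs1x, Matrix.exp_neg]
  have hzero : (s1 * (exp s1 - exp (-s1))).trace = 0 := by
    rw [hs1x, ← hx1i']
    have hYT : ∀ z : Mat m, z.transpose = z → (Y.transpose * z).trace = (Y * z).trace := by
      intro z hz
      rw [← Matrix.trace_transpose, Matrix.transpose_mul, Matrix.transpose_transpose, hz,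
        Matrix.trace_mul_comm]
    rw [Matrix.mul_sub, Matrix.trace_sub]
    rw [hdec, Matrix.add_mul, Matrix.add_mul, Matrix.add_mul, Matrix.add_mul]
    simp only [Matrix.trace_add, Matrix.smul_mul, Matrix.trace_smul]
    rw [hYT _ hx1T, hYT _ hx1iT, hcY, hcH]
    ring
  have hs10 : s1 = 0 := imin_trace_zero hs1 hzero
  have hx11 : (g : Mat m) * (x : Mat m) * (g : Mat m).transpose = 1 := by
    rw [← hx1v, ← hs1x, hs10, exp_zero]
  obtain ⟨p, hp⟩ := triB_eq h hBH hB (G.inv_mem hgG) (imin_triB_inv hgT)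
  refine ⟨p, ?_⟩
  rw [← hp]
  have e1 : ((g⁻¹ : GL (Fin m) ℝ) : Mat m) * (g : Mat m) = 1 := by
    rw [← Units.val_mul, inv_mul_cancel, Units.val_one]
  have e2 : (g : Mat m).transpose * ((g⁻¹ : GL (Fin m) ℝ) : Mat m).transpose = 1 := by
    rw [← Matrix.transpose_mul, e1, Matrix.transpose_one]
  calc (x : Mat m) = (((g⁻¹ : GL (Fin m) ℝ) : Mat m) * (g : Mat m)) * (x : Mat m) *
        ((g : Mat m).transpose * ((g⁻¹ : GL (Fin m) ℝ) : Mat m).transpose) := by
        rw [e1, e2, Matrix.one_mul, Matrix.mul_one]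
    _ = ((g⁻¹ : GL (Fin m) ℝ) : Mat m) * ((g : Mat m) * (x : Mat m) * (g : Mat m).transpose) *
        ((g⁻¹ : GL (Fin m) ℝ) : Mat m).transpose := by noncomm_ring
    _ = _ := by rw [hx11, Matrix.mul_one]

end MP65
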