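import Pool.Agent.Work.MP_65b809_gt.YhE
import Pool.Agent.Work.MP_65b809_gt.CellP

/-! # KCore : bounded diameter of the window components (finite top scale)

Let `A` be a set of vertices with: at most `k` nonzero levels below `t` in the coordinates `< j`,
chains at the scale `t` close to `g₀` in the coordinates `< j`. Consider a path `u_0, ..., u_m` in `A`
of edges of `G^(j+1)` of scales `s_l ≤ t` along which `a ≤ Wt (lam j t) (yh u_l) < a + W`. Then
`u_0` and `u_m` are at bounded distance in `G^(j+1)`.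

Proof. Let `M` = constant of `merge_nz` for `k`, `C₁` = constant of `yh_edge`, `E₀` = constant of
`lam_add_le` for `M` . Apply `cell_path C₁ W E₀` with `Λ = lam j t`, `x_l = yh u_l`,
`τ_l = lam j s_l`. (If `m = 0` nothing to prove. A path is obtained from `ReflTransGen` by induction,
for instance `Relation.ReflTransGen` to `List.Chain` or directly by induction constructing functions.)

Number of nonzero levels in the coordinates `≤ j` (`nz_succ`): if `NzLe j t' k y` (`t' ≤ t`) and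
`S` is a finite set of levels (integers `< lam j t'`) of card `≤ e` outside which
`rd τ (yh y) = rd (τ+1) (yh y)`, then `NzLe (j+1) t' (k + e) y`: by `rd_yh` the same holds for `y j`;
to `τ ∈ S` associate the scale `s` with `lam j s ≤ τ < lam j (s+1)` (`exists_lam`); if no `τ ∈ S`
lies in `[lam j s, lam j (s+1))` then `rd (lam j s) (y j) = rd (lam j (s+1)) (y j)`.

(A): `digit_set` with `θ = Λ` gives `e ≤ E'`; `NzLe (j+1) t (k+E') u_0`, same for `u_m`; so
`conn_round` joins `rdl t u_0` to `u_0`, `rdl t u_m` to `u_m`. `close_of_yh` and `close_conn` join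
`rdl t u_0` to `rdl t u_m` (`ch (rdl t y) t = ch y t`, `ch_rdl`).
(B): choose `t'` with `lam j t' ≤ θ < lam j (t'+1)` (`exists_lam`); `t' < t`. For all edges
`s_l + M ≤ t'`: otherwise `s_l + M ≥ t' + 1`, `lam j (t'+1) ≤ lam j (s_l + M) ≤ lam j s_l + E₀ ≤ θ`,
contradiction. By `merge_nz` the roundings of `u_l`, `u_{l+1}` in the coordinates `< j` agree at
`s_l + M`, hence at `t'` (`rd_rd`) and at `t`. So the roundings of `u_0` and `u_m` at `t'` agree in
the coordinates `< j`, the truncated chains at the scales `t'` and `t` are equal, the shifts are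
equal, and `|u_0 j - u_m j| = |yh u_0 - yh u_m| ≤ 3^θ ≤ C 3^{lam j t'}`. By `ch_trunc`
`(ch u_0 t')⁻¹ ch u_m t' ~_{j+1} z_j(difference of the roundings)`, so `close_conn` joins
`rdl t' u_0` to `rdl t' u_m`; and `NzLe (j+1) t' (k + E')` (`digit_set` at `θ`, restricted to levels
`< lam j t' ≤ θ`), `conn_round`.
-/

namespace MP65

namespace Tower

variable {N : Type} [Group N] {d : ℕ} (T : Tower N d)

theorem nz_succ {j : ℕ} (hj : j < d) {t' t : ℤ} (ht : t' ≤ t) {k e : ℕ} {g₀ : N} {y : ℕ → ℝ}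
    (h : T.NzLe j t' k y) (S : Finset ℤ) (hS : S.card ≤ e)
    (h' : ∀ τ : ℤ, τ < T.lam j t' → τ ∉ S →
      rd τ (T.yh g₀ t j y) = rd (τ + 1) (T.yh g₀ t j y)) :
    T.NzLe (j + 1) t' (k + e) y := by
  classical
  obtain ⟨S₀, hS₀, hS₀'⟩ := h
  choose σ hσ using fun τ : ℤ => T.exists_lam hj τ
  refine ⟨S₀ ∪ S.image σ, ?_, ?_⟩
  · refine (Finset.card_union_le _ _).trans (add_le_add hS₀ ?_)
    exact Finset.card_image_le.trans hS
  · intro s hs hsS i hi
    rw [Finset.mem_union, not_or] at hsS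
    rcases Nat.lt_succ_iff_lt_or_eq.1 hi with hi | rfl
    · exact hS₀' s hs hsS.1 i hi
    · have hstep : ∀ τ : ℤ, T.lam i s ≤ τ → τ < T.lam i (s + 1) → rd τ (y i) = rd (τ + 1) (y i) := by
        intro τ h1 h2
        have h3 : T.lam i (s + 1) ≤ T.lam i t' := T.lam_mono hj (by omega)
        have h4 : T.lam i t' ≤ T.lam i t := T.lam_mono hj ht
        have hτS : τ ∉ S := by
          intro hτ
          apply hsS.2
          rw [Finset.mem_image]
          refine ⟨τ, hτ, ?_⟩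
          obtain ⟨g1, g2⟩ := hσ τ
          by_contra hne
          rcases lt_or_gt_of_ne hne with hlt | hlt
          · have := T.lam_mono hj (show σ τ + 1 ≤ s by omega)
            omega
          · have := T.lam_mono hj (show s + 1 ≤ σ τ by omega)
            omega
        have h5 := h' τ (by omega) hτS
        rw [T.rd_yh g₀ t i y (by omega), T.rd_yh g₀ t i y (by omega)] at h5
        linarith
      have hmono : T.lam i s ≤ T.lam i (s + 1) := T.lam_mono hj (by omega)
      have key : ∀ n : ℕ, T.lam i s + n ≤ T.lam i (s + 1) →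
          rd (T.lam i s) (y i) = rd (T.lam i s + n) (y i) := by
        intro n
        induction n with
        | zero => intro _; simp
        | succ n ih =>
          intro hn
          push_cast at hn
          rw [ih (by omega), hstep (T.lam i s + n) (by omega) (by omega)]
          congr 1
          push_cast
          ring
      have h6 := key (T.lam i (s + 1) - T.lam i s).toNat (by omega)
      rw [h6]
      congr 1
      omega

private theorem kcore_path {N : Type} [Group N] {d : ℕ} {T : Tower N d} {K : ℝ} {j : ℕ} {t : ℤ}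
    {A : Set (ℕ → ℝ)} {P : (ℕ → ℝ) → Prop} {y y' : ℕ → ℝ}
    (h : Relation.ReflTransGen (fun u v => u ∈ A ∧ v ∈ A ∧ T.EdgeLe K (j + 1) t u v ∧
        P u ∧ P v) y y') (hne : y ≠ y') :
    ∃ (m : ℕ) (u : ℕ → ℕ → ℝ) (s : ℕ → ℤ), u 0 = y ∧ u m = y' ∧
      (∀ l, l ≤ m → u l ∈ A ∧ P (u l)) ∧
      ∀ l, l < m → s l ≤ t ∧ T.Grid (j + 1) (s l) (u l) ∧ T.Grid (j + 1) (s l) (u (l + 1)) ∧
        T.Close (j + 1) (s l) K (T.ch (u l) (s l)) (T.ch (u (l + 1)) (s l)) := by
  -- stronger statement: either `y = y'` or the path exists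
  have key : y = y' ∨ ∃ (m : ℕ) (u : ℕ → ℕ → ℝ) (s : ℕ → ℤ), u 0 = y ∧ u m = y' ∧
      (∀ l, l ≤ m → u l ∈ A ∧ P (u l)) ∧
      ∀ l, l < m → s l ≤ t ∧ T.Grid (j + 1) (s l) (u l) ∧ T.Grid (j + 1) (s l) (u (l + 1)) ∧
        T.Close (j + 1) (s l) K (T.ch (u l) (s l)) (T.ch (u (l + 1)) (s l)) := by
    induction h with
    | refl => left; rfl
    | @tail b c hab hbc ih =>
      right
      obtain ⟨hbA, hcA, ⟨s₀, hs1, hs2, hs3, hs4⟩, hPb, hPc⟩ := hbc
      have ih' : ∃ (m : ℕ) (u : ℕ → ℕ → ℝ) (s : ℕ → ℤ), u 0 = y ∧ u m = b ∧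
          (∀ l, l ≤ m → u l ∈ A ∧ P (u l)) ∧
          ∀ l, l < m → s l ≤ t ∧ T.Grid (j + 1) (s l) (u l) ∧
            T.Grid (j + 1) (s l) (u (l + 1)) ∧
            T.Close (j + 1) (s l) K (T.ch (u l) (s l)) (T.ch (u (l + 1)) (s l)) := by
        by_cases hyb : y = b
        · refine ⟨0, fun _ => b, fun _ => 0, hyb.symm, rfl, ?_, ?_⟩
          · intro l _; exact ⟨hbA, hPb⟩
          · intro l hl; omega
        · rcases ih hyb with h | h
          · exact absurd h hyb
          · exact h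
      obtain ⟨m, u, s, h0, hm, hA, hE⟩ := ih'
      refine ⟨m + 1, fun l => if l ≤ m then u l else c, fun l => if l < m then s l else s₀,
        ?_, ?_, ?_, ?_⟩
      · simp [h0]
      · simp
      · intro l hl
        by_cases hlm : l ≤ m
        · simp only [hlm, if_true]; exact hA l hlm
        · simp only [hlm, if_false]; exact ⟨hcA, hPc⟩
      · intro l hl
        rcases Nat.lt_succ_iff_lt_or_eq.1 hl with hlm | rfl
        · have h1 : l ≤ m := hlm.le
          have h2 : l + 1 ≤ m := hlm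
          simp only [h1, h2, hlm, if_true]
          exact hE l hlm
        · have h2 : ¬ l + 1 ≤ l := by omega
          have h3 : ¬ l < l := by omega
          simp only [le_refl, h2, h3, if_true, if_false]
          rw [hm]
          exact ⟨hs1, hs2, hs3, hs4⟩
  rcases key with h | h
  · exact absurd h hne
  · exact h

theorem k_core {K : ℝ} (hK : T.GoodK K) {j : ℕ} (hj : j < d) (k : ℕ) (C : ℝ) (W : ℕ) :
    ∃ R' : ℕ, ∀ (t : ℤ) (g₀ : N) (A : Set (ℕ → ℝ)),
      (∀ y ∈ A, (∃ s : ℤ, s ≤ t ∧ T.Grid (j + 1) s y) ∧ T.NzLe j t k y ∧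
        T.Close j t C g₀ (T.ch y t)) →
      ∀ (a : ℕ) (y y' : ℕ → ℝ), y ∈ A →
      Relation.ReflTransGen (fun u v => u ∈ A ∧ v ∈ A ∧ T.EdgeLe K (j + 1) t u v ∧
        (a ≤ Wt (T.lam j t) (T.yh g₀ t j u) ∧ Wt (T.lam j t) (T.yh g₀ t j u) < a + W) ∧
        (a ≤ Wt (T.lam j t) (T.yh g₀ t j v) ∧ Wt (T.lam j t) (T.yh g₀ t j v) < a + W)) y y' →
      T.Conn K (j + 1) R' y y' := by
  obtain ⟨M, hM⟩ := T.merge_nz hK k
  obtain ⟨C₁, hC₁⟩ := T.yh_edge hK k C
  obtain ⟨E₀, hE₀⟩ := T.lam_add_le M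
  obtain ⟨E₁, hE₁⟩ := T.lam_add_le 1
  obtain ⟨E', hE'⟩ := cell_path C₁ W E₀
  obtain ⟨CA, hCA0, hCA⟩ := T.close_of_yh (max C E')
  obtain ⟨kA, hkA⟩ := close_conn hK CA
  obtain ⟨kB, hkB⟩ := close_conn hK ((3 : ℝ) ^ E₁ + 1)
  refine ⟨(k + E') + (kA + kB) + (k + E'), ?_⟩
  intro t g₀ A hA a y y' hy hpath
  have hj1 : j + 1 ≤ d := hj
  by_cases hne : y = y'
  · subst hne
    exact conn_refl _ _ _
  obtain ⟨m, u, s, hu0, hum, huA, huE⟩ := kcore_path
    (P := fun u => a ≤ Wt (T.lam j t) (T.yh g₀ t j u) ∧ Wt (T.lam j t) (T.yh g₀ t j u) < a + W)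
    hpath hne
  have hlamt : ∀ l, l < m → T.lam j (s l) ≤ T.lam j t := fun l hl =>
    T.lam_mono hj (huE l hl).1
  -- nonzero levels give connections
  have hround : ∀ (l : ℕ), l ≤ m → ∀ t' : ℤ, t' ≤ t →
      (∃ S : Finset ℤ, S.card ≤ E' ∧ ∀ τ : ℤ, τ < T.lam j t' → τ ∉ S →
        rd τ (T.yh g₀ t j (u l)) = rd (τ + 1) (T.yh g₀ t j (u l))) →
      T.Conn K (j + 1) (k + E') (T.rdl t' (u l)) (u l) := by
    rintro l hl t' ht' ⟨S, hS, hS'⟩
    obtain ⟨⟨sg, hsg, hG⟩, hNz, -⟩ := hA (u l) (huA l hl).1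
    have hNz' : T.NzLe j t' k (u l) := by
      obtain ⟨S₀, h1, h2⟩ := hNz
      exact ⟨S₀, h1, fun s hs => h2 s (by omega)⟩
    exact conn_round hK hj1 hG (T.nz_succ hj ht' hNz' S hS hS')
  have hgridyh : ∀ l, l ≤ m → ∃ s : ℤ, rd s (T.yh g₀ t j (u l)) = T.yh g₀ t j (u l) := by
    intro l hl
    obtain ⟨⟨sg, hsg, hG⟩, -, -⟩ := hA (u l) (huA l hl).1
    exact ⟨_, T.yh_grid g₀ hsg hj hG⟩
  have hj0 : j ≤ d := hj.le
  have happ := hE' (T.lam j t) a m (fun l => T.yh g₀ t j (u l)) (fun l => T.lam j (s l))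
    (fun l hl => by
      obtain ⟨h1, h2, h3, h4⟩ := huE l hl
      obtain ⟨-, hNz, hCl⟩ := hA (u l) (huA l hl.le).1
      obtain ⟨-, -, hCl'⟩ := hA (u (l + 1)) (huA (l + 1) hl).1
      exact ⟨hlamt l hl, T.yh_grid g₀ h1 hj h2, T.yh_grid g₀ h1 hj h3,
        hC₁ j g₀ t (s l) (u l) (u (l + 1)) hj hNz hCl hCl' h1 h2 h3 h4⟩)
    hgridyh (fun l hl => (huA l hl).2)
  rw [← hu0, ← hum]
  rcases happ with ⟨hw0, hwm, hd⟩ | ⟨θ, hθ, hw0, hwm, hd, hτ⟩
  · -- case (A)
    have hdig : ∀ l, l ≤ m → Wt (T.lam j t) (T.yh g₀ t j (u l)) ≤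
        (mr (T.lam j t) (T.yh g₀ t j (u l))).natAbs + E' →
        T.Conn K (j + 1) (k + E') (T.rdl t (u l)) (u l) := by
      intro l hl hw
      obtain ⟨sg, hsg⟩ := hgridyh l hl
      obtain ⟨S, hS, hS'⟩ := digit_set (le_refl (T.lam j t)) hsg
      refine hround l hl t le_rfl ⟨S, ?_, hS'⟩
      simp only [sub_self, Int.toNat_zero, wi] at hS
      omega
    have c0 := hdig 0 (Nat.zero_le _) hw0
    have cm := hdig m le_rfl hwm
    have hcl : T.Close (j + 1) t CA (T.ch (u 0) t) (T.ch (u m) t) := by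
      refine hCA j g₀ t (u 0) (u m) hj ?_ ?_ ?_
      · exact T.close_mono (le_max_left _ _) (hA _ (huA 0 (Nat.zero_le _)).1).2.2
      · exact T.close_mono (le_max_left _ _) (hA _ (huA m le_rfl).1).2.2
      · refine le_trans ?_ (le_max_right _ _)
        exact_mod_cast hd
    have hcc : T.Conn K (j + 1) kA (T.rdl t (u 0)) (T.rdl t (u m)) := by
      refine hkA (j + 1) t _ _ hj1 (T.grid_rdl _ _ _) (T.grid_rdl _ _ _) ?_
      rw [T.ch_rdl (u 0) t t le_rfl, T.ch_rdl (u m) t t le_rfl]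
      exact hcl
    have := conn_trans (conn_trans (conn_symm hj1 c0) (conn_mono (Nat.le_add_right kA kB) hcc) hj1)
      cm hj1
    exact this
  · -- case (B)
    obtain ⟨t', ht'1, ht'2⟩ := T.exists_lam hj θ
    have htt' : t' < t := by
      by_contra hcon
      have := T.lam_mono hj (show t ≤ t' by omega)
      omega
    have hsM : ∀ l, l < m → s l + M ≤ t' := by
      intro l hl
      by_contra hcon
      have h1 := T.lam_mono hj (show t' + 1 ≤ s l + M by omega)
      have h2 := hE₀ j (s l) hj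
      have h3 := hτ l hl
      omega
    have hagree : ∀ l, l ≤ m → ∀ i, i < j → rd (T.lam i t') (u l i) = rd (T.lam i t') (u 0 i) := by
      intro l
      induction l with
      | zero => intro _ i _; rfl
      | succ l ih =>
        intro hl i hi
        rw [← ih (by omega) i hi]
        obtain ⟨h1, h2, h3, h4⟩ := huE l (by omega)
        obtain ⟨-, hNz, -⟩ := hA (u l) (huA l (by omega)).1
        have h5 := hM j (s l) t (u l) (u (l + 1)) hj0 (T.grid_mono_j (Nat.le_succ j) h2)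
          (T.grid_mono_j (Nat.le_succ j) h3) (T.close_mono_j (Nat.le_succ j) h4) hNz
          (by have := hsM l (by omega); omega) i hi
        have h6 : T.lam i (s l + M) ≤ T.lam i t' := T.lam_mono (by omega) (hsM l (by omega))
        rw [← rd_rd h6 (u (l + 1) i), h5, rd_rd h6]
    have hagm := hagree m le_rfl
    -- the truncated chains agree above `t'`
    have hch : ∀ r, t' ≤ r → T.ch (trunc j (u 0)) r = T.ch (trunc j (u m)) r := by
      apply T.ch_congr_above
      intro r hr i hi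
      unfold trunc
      by_cases hij : i < j
      · simp only [hij, if_true]
        have h6 : T.lam i t' ≤ T.lam i r := T.lam_mono hi hr
        rw [← rd_rd h6 (u 0 i), ← hagm i hij, rd_rd h6]
      · simp only [hij, if_false]
    have hdiff : |u 0 j - u m j| ≤ (3 : ℝ) ^ θ := by
      have : T.yh g₀ t j (u 0) - T.yh g₀ t j (u m) = u 0 j - u m j := by
        unfold yh
        rw [hch t htt'.le]
        ring
      have hd2 : |T.yh g₀ t j (u 0) - T.yh g₀ t j (u m)| ≤ (3 : ℝ) ^ θ := hd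
      rwa [this] at hd2
    have hdiff' : |u 0 j - u m j| ≤ (3 : ℝ) ^ E₁ * (3 : ℝ) ^ (T.lam j t') := by
      refine hdiff.trans ?_
      rw [← zpow_natCast, ← zpow_add₀ (by norm_num : (3 : ℝ) ≠ 0)]
      apply zpow_le_zpow_right₀ (by norm_num)
      have := hE₁ j t' hj
      push_cast at this
      omega
    have hrd : |rd (T.lam j t') (u m j) - rd (T.lam j t') (u 0 j)| ≤
        ((3 : ℝ) ^ E₁ + 1) * (3 : ℝ) ^ (T.w j * (t' : ℝ)) := by
      have h1 := abs_sub_rd_le (T.lam j t') (u m j)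
      have h2 := abs_sub_rd_le (T.lam j t') (u 0 j)
      have h3 := (T.lam_bounds j t').1
      have h4 : |rd (T.lam j t') (u m j) - rd (T.lam j t') (u 0 j)| ≤
          ((3 : ℝ) ^ E₁ + 1) * (3 : ℝ) ^ (T.lam j t') := by
        rw [abs_le] at h1 h2 hdiff' ⊢
        constructor <;> linarith [h1.1, h1.2, h2.1, h2.2, hdiff'.1, hdiff'.2]
      exact h4.trans (mul_le_mul_of_nonneg_left h3 (by positivity))
    have hone : ∀ (v v' : ℕ → ℝ), (T.ch (trunc j v) t' = T.ch (trunc j v') t') →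
        |rd (T.lam j t') (v' j) - rd (T.lam j t') (v j)| ≤
          ((3 : ℝ) ^ E₁ + 1) * (3 : ℝ) ^ (T.w j * (t' : ℝ)) →
        T.Low (j + 1) t' ((3 : ℝ) ^ E₁ + 1) ((T.ch v t')⁻¹ * T.ch v' t') := by
      intro v v' hvv' hb
      have e1 := T.ch_trunc hj v t'
      have e2 := T.ch_trunc hj v' t'
      rw [← hvv'] at e2
      have e3 := T.eqv_mul hj1 (T.eqv_inv hj1 e1) e2
      obtain ⟨f1, f2⟩ := T.eqv_conj_z hj (T.ch (trunc j v) t') (T.ch (trunc j v) t')
        (rd (T.lam j t') (v j)) (rd (T.lam j t') (v' j))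
      rw [inv_mul_cancel] at f1 f2
      rw [T.x_one j hj, zero_add] at f2
      apply T.low_congr (T.eqv_symm e3)
      intro i hi
      rcases Nat.lt_succ_iff_lt_or_eq.1 hi with hi | rfl
      · rw [f1 i hi, T.x_one i (by omega), abs_zero]
        positivity
      · rw [f2]
        exact hb
    have hcl : T.Close (j + 1) t' ((3 : ℝ) ^ E₁ + 1) (T.ch (u 0) t') (T.ch (u m) t') := by
      refine ⟨hone _ _ (hch t' le_rfl) hrd, hone _ _ (hch t' le_rfl).symm ?_⟩
      rw [abs_sub_comm]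
      exact hrd
    have hdig : ∀ l, l ≤ m → Wt (T.lam j t) (T.yh g₀ t j (u l)) ≤
        wi (T.lam j t - θ).toNat (mr θ (T.yh g₀ t j (u l))) + E' →
        T.Conn K (j + 1) (k + E') (T.rdl t' (u l)) (u l) := by
      intro l hl hw
      obtain ⟨sg, hsg⟩ := hgridyh l hl
      obtain ⟨S, hS, hS'⟩ := digit_set hθ.le hsg
      exact hround l hl t' htt'.le ⟨S, by omega, fun τ hτ' => hS' τ (by omega)⟩
    have c0 := hdig 0 (Nat.zero_le _) hw0
    have cm := hdig m le_rfl hwm
    have hcc : T.Conn K (j + 1) kB (T.rdl t' (u 0)) (T.rdl t' (u m)) := by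
      refine hkB (j + 1) t' _ _ hj1 (T.grid_rdl _ _ _) (T.grid_rdl _ _ _) ?_
      rw [T.ch_rdl (u 0) t' t' le_rfl, T.ch_rdl (u m) t' t' le_rfl]
      exact hcl
    exact conn_trans (conn_trans (conn_symm hj1 c0) (conn_mono (Nat.le_add_left kB kA) hcc) hj1)
      cm hj1

end Tower

end MP65
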