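import Pool.Agent.Work.MP_65b809_gt.KCore
import Pool.Agent.Work.MP_65b809_gt.BallB

/-! # KLem : the key lemma

`T.KLem K j` for `j < d`. Let `k`, `C` be the constants of `ball_nz`, `ball_bdd` for `R`; `C₀` the
constant of `yh_edge` for `k`, `max C 1`; `R'` that of `k_core`.
If `FB K j R b₀` is empty take `n = 0`.
Case 1 of `ball_cases` (`t`, `u₀`): `g₀ = ch u₀ t`, `n y = Wt (lam j t) (yh g₀ t j y)`. Every
edge of `G^(j+1)` between points of the ball has scale `≤ t` (`ball_edge_le`; the grid condition for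
`j+1` implies that for `j`). Lipschitz: `yh_edge`, `yh_grid`, `Wt_lip`. Components: `k_core` with
`A` = the ball.
Case 2: `NzLe j t k y` for all `t` and all `y` in the ball. `n y = WInf (y j)`. For an edge (or a
finite path of edges) choose `t` so large that all scales of the edges are `≤ t` and for each of the
finitely many points `u`: `ch u t = 1`, `ch (trunc j u) t = 1` (`ch_top`; for larger `t` too), and
`2 |u j| < 3^{lam j t}`. With `g₀ = 1`: `yh 1 t j u = u j` (`x_j 1 = 0`, `rd_zero'`),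
`WInf (u j) = Wt (lam j t) (u j)` (`WInf_eq`), `Close j t C 1 1`. Apply `yh_edge`, resp. `k_core` with
`A` = the set of points of the path.
-/

namespace MP65

private theorem klem_big {N : Type} [Group N] {d : ℕ} (T : Tower N d) {j : ℕ} (hj : j < d)
    (u : ℕ → ℝ) : ∃ T0 : ℤ, ∀ t, T0 ≤ t → T.ch u t = 1 ∧ T.ch (trunc j u) t = 1 ∧
      2 * |u j| < (3 : ℝ) ^ (T.lam j t) := by
  obtain ⟨T1, h1⟩ := T.ch_top u
  obtain ⟨T2, h2⟩ := T.ch_top (trunc j u)
  obtain ⟨n, hn⟩ := pow_unbounded_of_one_lt (2 * |u j|) (show (1 : ℝ) < 3 by norm_num)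
  refine ⟨max (max T1 T2) n, fun t ht => ?_⟩
  have ht1 : T1 ≤ t := le_trans (le_trans (le_max_left _ _) (le_max_left _ _)) ht
  have ht2 : T2 ≤ t := le_trans (le_trans (le_max_right _ _) (le_max_left _ _)) ht
  have ht3 : (n : ℤ) ≤ t := le_trans (le_max_right _ _) ht
  refine ⟨h1 t ht1, h2 t ht2, lt_of_lt_of_le hn ?_⟩
  rw [← zpow_natCast]
  apply zpow_le_zpow_right₀ (by norm_num)
  have h3 := T.lam_add hj 0 n
  have h4 : T.lam j 0 = 0 := by
    unfold Tower.lam
    simp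
  simp only [h4, zero_add] at h3
  exact h3.trans (T.lam_mono hj ht3)

private theorem klem_big_fin {N : Type} [Group N] {d : ℕ} (T : Tower N d) {j : ℕ} (hj : j < d)
    (A : Set (ℕ → ℝ)) (hA : A.Finite) : ∃ T0 : ℤ, ∀ t, T0 ≤ t → ∀ u ∈ A,
      T.ch u t = 1 ∧ T.ch (trunc j u) t = 1 ∧ 2 * |u j| < (3 : ℝ) ^ (T.lam j t) := by
  induction A, hA using Set.Finite.induction_on with
  | empty => exact ⟨0, fun t _ u hu => absurd hu (Set.notMem_empty u)⟩
  | @insert a s _ _ ih =>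
    obtain ⟨T1, h1⟩ := ih
    obtain ⟨T2, h2⟩ := klem_big T hj a
    refine ⟨max T1 T2, fun t ht u hu => ?_⟩
    rcases Set.mem_insert_iff.1 hu with rfl | hu
    · exact h2 t (le_trans (le_max_right _ _) ht)
    · exact h1 t (le_trans (le_max_left _ _) ht) u hu

private theorem klem_yh {N : Type} [Group N] {d : ℕ} (T : Tower N d) {j : ℕ} (hj : j < d)
    {t : ℤ} {u : ℕ → ℝ} (h : T.ch (trunc j u) t = 1) : T.yh 1 t j u = u j := by
  unfold Tower.yh
  rw [h, inv_one, one_mul, T.x_one j hj, rd_zero', add_zero]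

theorem Tower.kLem {N : Type} [Group N] {d : ℕ} (T : Tower N d) {K : ℝ} (hK : T.GoodK K)
    {j : ℕ} (hj : j < d) : T.KLem K j := by
  classical
  have hj0 : j ≤ d := hj.le
  have hj1 : j + 1 ≤ d := hj
  intro R
  obtain ⟨k, hk⟩ := T.ball_nz hK R
  obtain ⟨C, hC0, hC⟩ := T.ball_bdd hK R
  obtain ⟨C₁, hC₁⟩ := T.yh_edge hK k C
  refine ⟨C₁, fun W => ?_⟩
  obtain ⟨R', hR'⟩ := T.k_core hK hj k C W
  refine ⟨R', fun b₀ => ?_⟩
  by_cases hne : (T.FB K j R b₀).Nonempty
  swap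
  · rw [Set.not_nonempty_iff_eq_empty] at hne
    refine ⟨fun _ => 0, fun _ _ _ => rfl, ?_, ?_⟩
    · intro y hy
      rw [hne] at hy
      exact absurd hy (Set.notMem_empty y)
    · intro a y y' hy
      rw [hne] at hy
      exact absurd hy (Set.notMem_empty y)
  have hgrid : ∀ (t : ℤ) (y : ℕ → ℝ), y ∈ T.FB K j R b₀ → ∃ s : ℤ, s ≤ t ∧ T.Grid (j + 1) s y := by
    intro t y hy
    obtain ⟨s, hs⟩ := hy.1
    exact ⟨min s t, min_le_right _ _,
      T.grid_mono_j hj1 (T.grid_mono_s le_rfl (min_le_left _ _) hs)⟩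
  rcases T.ball_cases K hj0 R b₀ hne with ⟨t, ⟨u₀, hu₀, hgu₀⟩, hno⟩ | hall
  · -- case 1
    have hNz : ∀ y ∈ T.FB K j R b₀, T.NzLe j t k y := hk j b₀ t hj0 ⟨u₀, hu₀, hgu₀⟩
    have hCl : ∀ y ∈ T.FB K j R b₀, T.Close j t C (T.ch u₀ t) (T.ch y t) :=
      fun y hy => hC j b₀ t hj0 hno u₀ hu₀ y hy
    have hle : ∀ y ∈ T.FB K j R b₀, ∀ y', T.Edge K (j + 1) y y' → T.EdgeLe K (j + 1) t y y' := by
      rintro y hy y' ⟨s, h1, h2, h3⟩
      exact ⟨s, T.ball_edge_le (y' := y) hj0 hno hy (T.grid_mono_j (Nat.le_succ j) h1), h1, h2, h3⟩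
    refine ⟨fun y => Wt (T.lam j t) (T.yh (T.ch u₀ t) t j y), ?_, ?_, ?_⟩
    · intro y y' h
      simp only
      rw [T.yh_congr _ _ h]
    · intro y hy y' hy' hE
      obtain ⟨s, hst, h1, h2, h3⟩ := hle y hy y' hE
      have hd := hC₁ j (T.ch u₀ t) t s y y' hj (hNz y hy) (hCl y hy) (hCl y' hy') hst h1 h2 h3
      have hl := T.lam_mono hj hst
      have g1 := T.yh_grid (T.ch u₀ t) hst hj h1
      have g2 := T.yh_grid (T.ch u₀ t) hst hj h2
      refine ⟨Wt_lip hl g1 g2 hd, Wt_lip hl g2 g1 ?_⟩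
      rw [abs_sub_comm]
      exact hd
    · intro a y y' hy hpath
      refine hR' t (T.ch u₀ t) (T.FB K j R b₀) (fun y hy => ⟨hgrid t y hy, hNz y hy, hCl y hy⟩)
        a y y' hy ?_
      refine Relation.ReflTransGen.mono ?_ _ _ hpath
      rintro u v ⟨h1, h2, h3, h4, h5⟩
      exact ⟨h1, h2, hle u h1 v h3, h4, h5⟩
  · -- case 2
    have hNz : ∀ (t : ℤ), ∀ y ∈ T.FB K j R b₀, T.NzLe j t k y := fun t => hk j b₀ t hj0 (hall t)
    -- the weight of a point at a large scale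
    have hW : ∀ (t : ℤ) (u : ℕ → ℝ), u ∈ T.FB K j R b₀ → T.ch (trunc j u) t = 1 →
        2 * |u j| < (3 : ℝ) ^ (T.lam j t) → WInf (u j) = Wt (T.lam j t) (T.yh 1 t j u) := by
      intro t u hu h1 h2
      obtain ⟨s, hs⟩ := hu.1
      rw [klem_yh T hj h1]
      exact WInf_eq h2 (hs j hj)
    refine ⟨fun y => WInf (y j), ?_, ?_, ?_⟩
    · intro y y' h
      simp only
      rw [h j (Nat.lt_succ_self j)]
    · rintro y hy y' hy' ⟨s, h1, h2, h3⟩
      obtain ⟨T0, hT0⟩ := klem_big_fin T hj {y, y'} (Set.toFinite _)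
      have hb := hT0 (max T0 s) (le_max_left _ _)
      obtain ⟨t, ht⟩ : ∃ t, t = max T0 s := ⟨_, rfl⟩
      rw [← ht] at hb
      have hst : s ≤ t := by rw [ht]; exact le_max_right _ _
      obtain ⟨b1, b2, b3⟩ := hb y (by simp)
      obtain ⟨c1, c2, c3⟩ := hb y' (by simp)
      have cl : T.Close j t C 1 (T.ch y t) := by rw [b1]; exact T.close_refl hj0 _ hC0 _
      have cl' : T.Close j t C 1 (T.ch y' t) := by rw [c1]; exact T.close_refl hj0 _ hC0 _
      have hd := hC₁ j 1 t s y y' hj (hNz t y hy) cl cl' hst h1 h2 h3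
      have hl := T.lam_mono hj hst
      have g1 := T.yh_grid 1 hst hj h1
      have g2 := T.yh_grid 1 hst hj h2
      simp only
      rw [hW t y hy b2 b3, hW t y' hy' c2 c3]
      refine ⟨Wt_lip hl g1 g2 hd, Wt_lip hl g2 g1 ?_⟩
      rw [abs_sub_comm]
      exact hd
    · intro a y y' hy hpath
      -- a finite set of points and a top scale
      have key : ∃ (A : Set (ℕ → ℝ)) (T1 : ℤ), A.Finite ∧ A ⊆ T.FB K j R b₀ ∧ y ∈ A ∧ y' ∈ A ∧
          ∀ t, T1 ≤ t → Relation.ReflTransGen (fun u v => u ∈ A ∧ v ∈ A ∧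
            T.EdgeLe K (j + 1) t u v ∧ (a ≤ WInf (u j) ∧ WInf (u j) < a + W) ∧
            (a ≤ WInf (v j) ∧ WInf (v j) < a + W)) y y' := by
        induction hpath with
        | refl =>
          refine ⟨{y}, 0, Set.finite_singleton y, ?_, rfl, rfl, ?_⟩
          · intro z hz
            rw [Set.mem_singleton_iff] at hz
            rw [hz]
            exact hy
          · intro t _
            exact Relation.ReflTransGen.refl
        | @tail b c _ hbc ih =>
          obtain ⟨A, T1, hAf, hAs, hyA, hbA, hAp⟩ := ih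
          obtain ⟨hb, hc, ⟨s, h1, h2, h3⟩, h4, h5⟩ := hbc
          refine ⟨insert c A, max T1 s, hAf.insert c, ?_, Set.mem_insert_of_mem _ hyA,
            Set.mem_insert _ _, ?_⟩
          · intro z hz
            rcases Set.mem_insert_iff.1 hz with rfl | hz
            · exact hc
            · exact hAs hz
          · intro t ht
            refine Relation.ReflTransGen.tail (b := b) ?_ ?_
            · refine Relation.ReflTransGen.mono ?_ _ _ (hAp t (le_trans (le_max_left _ _) ht))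
              rintro u v ⟨g1, g2, g3⟩
              exact ⟨Set.mem_insert_of_mem _ g1, Set.mem_insert_of_mem _ g2, g3⟩
            · exact ⟨Set.mem_insert_of_mem _ hbA, Set.mem_insert _ _,
                ⟨s, le_trans (le_max_right _ _) ht, h1, h2, h3⟩, h4, h5⟩
      obtain ⟨A, T1, hAf, hAs, hyA, -, hAp⟩ := key
      obtain ⟨T0, hT0⟩ := klem_big_fin T hj A hAf
      have hb := hT0 (max T0 T1) (le_max_left _ _)
      have hp := hAp (max T0 T1) (le_max_right _ _)
      obtain ⟨t, ht⟩ : ∃ t, t = max T0 T1 := ⟨_, rfl⟩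
      rw [← ht] at hb hp
      refine hR' t 1 A (fun u hu => ⟨hgrid t u (hAs hu), hNz t u (hAs hu), ?_⟩) a y y' hyA ?_
      · rw [(hb u hu).1]
        exact T.close_refl hj0 _ hC0 _
      · refine Relation.ReflTransGen.mono ?_ _ _ hp
        rintro u v ⟨g1, g2, g3, g4, g5⟩
        rw [hW t u (hAs g1) (hb u g1).2.1 (hb u g1).2.2] at g4
        rw [hW t v (hAs g2) (hb v g2).2.1 (hb v g2).2.2] at g5
        exact ⟨g1, g2, g3, g4, g5⟩

end MP65
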