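import Pool.Agent.Work.MP_65b809_gt.TDefs

/-! # L1 : the `ℓ¹` norm of finitely supported functions, moving mass in order

`l1 μ = ∑ |μ v|` over the support; it equals the sum over any larger finite set.
* `l1_add_le`, `l1_smul`, `l1_neg`, `l1_sub_comm`, triangle inequality: from
  `Finsupp.sum_of_support_subset` with the union of the supports.
* `l1_map`: `Finsupp.mapDomain` does not increase `l1` (`φ_* μ (w) = ∑_{φ v = w} μ v`).
* `moved`. Fix a linear order on `I`. For `μ ≥ 0` and `c ≥ 0` let `S_v = ∑_{u ≥ v} μ u`,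
  `S'_v = ∑_{u > v} μ u` (over the support) and `moved μ c v = min c S_v - min c S'_v`. Then
  `0 ≤ moved ≤ μ v`, `moved v = 0` where `μ v = 0`, total mass `∑ moved = min c (∑ μ)` (telescoping
  sum over the support sorted by the order: induct on the support, removing the smallest element),
  at most one `v` has `0 < moved v < μ v` (that is `S'_v < c < S_v`: if it holds for `v < v'` then
  `S'_v ≥ S_{v'} > c`, contradiction).
  `moved_lip`: the supports of `μ, μ'` have at most `n` elements each; for `v` in the union of the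
  supports `|S_v - S_v'| ≤ l1 (μ - μ')`, same for `S'`, `min` is `1`-Lipschitz, so
  `|moved μ c v - moved μ' c' v| ≤ 2 (|c - c'| + l1 (μ - μ'))`, and there are at most `2n` such `v`.
-/

namespace MP65

theorem l1_nonneg {I : Type} (μ : I →₀ ℝ) : 0 ≤ l1 μ :=
  Finset.sum_nonneg fun _ _ => abs_nonneg _

theorem l1_eq_sum {I : Type} (μ : I →₀ ℝ) {s : Finset I} (h : μ.support ⊆ s) :
    l1 μ = ∑ v ∈ s, |μ v| :=
  Finsupp.sum_of_support_subset μ h _ (by simp)

theorem abs_le_l1 {I : Type} (μ : I →₀ ℝ) (v : I) : |μ v| ≤ l1 μ := by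
  classical
  rw [l1_eq_sum μ (s := insert v μ.support) (Finset.subset_insert _ _)]
  exact Finset.single_le_sum (f := fun v => |μ v|) (fun _ _ => abs_nonneg _)
    (Finset.mem_insert_self _ _)

theorem l1_zero {I : Type} : l1 (0 : I →₀ ℝ) = 0 := by
  simp [l1]

theorem l1_add_le {I : Type} (μ ν : I →₀ ℝ) : l1 (μ + ν) ≤ l1 μ + l1 ν := by
  classical
  have h1 : μ.support ⊆ μ.support ∪ ν.support := Finset.subset_union_left
  have h2 : ν.support ⊆ μ.support ∪ ν.support := Finset.subset_union_right
  rw [l1_eq_sum μ h1, l1_eq_sum ν h2, l1_eq_sum (μ + ν) Finsupp.support_add,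
    ← Finset.sum_add_distrib]
  exact Finset.sum_le_sum fun v _ => by
    rw [Finsupp.add_apply]
    exact abs_add_le _ _

theorem l1_neg' {I : Type} (μ : I →₀ ℝ) : l1 (-μ) = l1 μ := by
  have h : (-μ).support ⊆ μ.support := by
    rw [Finsupp.support_neg]
  rw [l1_eq_sum (-μ) h, l1_eq_sum μ (Finset.Subset.refl _)]
  exact Finset.sum_congr rfl fun v _ => by
    rw [Finsupp.neg_apply, abs_neg]

theorem l1_sub_le {I : Type} (μ ν ρ : I →₀ ℝ) : l1 (μ - ρ) ≤ l1 (μ - ν) + l1 (ν - ρ) := by
  have h : μ - ρ = (μ - ν) + (ν - ρ) := by abel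
  rw [h]
  exact l1_add_le _ _

theorem l1_sub_comm {I : Type} (μ ν : I →₀ ℝ) : l1 (μ - ν) = l1 (ν - μ) := by
  rw [← l1_neg' (μ - ν), neg_sub]

theorem l1_smul {I : Type} (c : ℝ) (μ : I →₀ ℝ) : l1 (c • μ) = |c| * l1 μ := by
  rw [l1_eq_sum (c • μ) (Finsupp.support_smul), l1_eq_sum μ (Finset.Subset.refl _),
    Finset.mul_sum]
  exact Finset.sum_congr rfl fun v _ => by
    rw [Finsupp.smul_apply, smul_eq_mul, abs_mul]

theorem l1_single' {I : Type} (v : I) (a : ℝ) : l1 (Finsupp.single v a) = |a| := by
  unfold l1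
  rw [Finsupp.sum_single_index]
  simp

theorem l1_sum_le' {I J : Type} (s : Finset J) (f : J → I →₀ ℝ) :
    l1 (∑ j ∈ s, f j) ≤ ∑ j ∈ s, l1 (f j) := by
  classical
  induction s using Finset.induction_on with
  | empty => simp [l1_zero]
  | insert a s ha ih =>
    rw [Finset.sum_insert ha, Finset.sum_insert ha]
    exact (l1_add_le _ _).trans (by linarith)

theorem l1_map {I J : Type} (φ : I → J) (μ : I →₀ ℝ) : l1 (μ.mapDomain φ) ≤ l1 μ := by
  unfold Finsupp.mapDomain Finsupp.sum
  refine (l1_sum_le' _ _).trans (le_of_eq ?_)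
  rw [l1_eq_sum μ (Finset.Subset.refl _)]
  exact Finset.sum_congr rfl fun v _ => l1_single' _ _

theorem l1_of_prob {I : Type} {D : ℕ} {μ : I →₀ ℝ} (h : Prob D μ) : l1 μ = 1 := by
  rw [← h.2.1]
  exact Finset.sum_congr rfl fun v _ => abs_of_nonneg (h.1 v)

theorem l1_embDomain_inl {I J : Type} (μ : I →₀ ℝ) :
    l1 (μ.mapDomain (Sum.inl : I → I ⊕ J)) = l1 μ := by
  unfold l1
  exact Finsupp.sum_mapDomain_index_inj Sum.inl_injective

/-- some entry of a probability vector is at least `1 / (D + 1)` -/
theorem exists_large {I : Type} {D : ℕ} {μ : I →₀ ℝ} (h : Prob D μ) :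
    ∃ v, 1 / ((D : ℝ) + 1) ≤ μ v := by
  by_contra hc
  push Not at hc
  have hD : (0 : ℝ) < (D : ℝ) + 1 := by positivity
  have hne : μ.support.Nonempty := by
    by_contra hne
    rw [Finset.not_nonempty_iff_eq_empty, Finsupp.support_eq_empty] at hne
    have := h.2.1
    rw [hne] at this
    simp at this
  have h1 : μ.sum (fun _ a => a) < ∑ v ∈ μ.support, (1 / ((D : ℝ) + 1)) :=
    Finset.sum_lt_sum_of_nonempty hne fun v _ => hc v
  rw [h.2.1, Finset.sum_const, nsmul_eq_mul] at h1
  have h2 : (μ.support.card : ℝ) ≤ (D : ℝ) + 1 := by exact_mod_cast h.2.2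
  have h3 : (μ.support.card : ℝ) * (1 / ((D : ℝ) + 1)) ≤ 1 := by
    rw [mul_one_div, div_le_one hD]
    exact h2
  linarith

section Moved

variable {I : Type} [LinearOrder I]

/-- mass at the indices `≥ v` -/
noncomputable def upS (μ : I →₀ ℝ) (v : I) : ℝ := ∑ u ∈ μ.support with v ≤ u, μ u

/-- mass at the indices `> v` -/
noncomputable def upS' (μ : I →₀ ℝ) (v : I) : ℝ := ∑ u ∈ μ.support with v < u, μ u

theorem upS_of_subset (μ : I →₀ ℝ) {s : Finset I} (h : μ.support ⊆ s) (v : I) :
    upS μ v = ∑ u ∈ s with v ≤ u, μ u := by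
  unfold upS
  refine Finset.sum_subset (Finset.filter_subset_filter _ h) ?_
  intro u hu hu'
  rw [Finset.mem_filter] at hu hu'
  by_contra hne
  exact hu' ⟨Finsupp.mem_support_iff.2 hne, hu.2⟩

theorem upS'_of_subset (μ : I →₀ ℝ) {s : Finset I} (h : μ.support ⊆ s) (v : I) :
    upS' μ v = ∑ u ∈ s with v < u, μ u := by
  unfold upS'
  refine Finset.sum_subset (Finset.filter_subset_filter _ h) ?_
  intro u hu hu'
  rw [Finset.mem_filter] at hu hu'
  by_contra hne
  exact hu' ⟨Finsupp.mem_support_iff.2 hne, hu.2⟩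

theorem upS_eq (μ : I →₀ ℝ) (v : I) : upS μ v = μ v + upS' μ v := by
  rw [upS_of_subset μ (Finset.subset_insert v μ.support),
    upS'_of_subset μ (Finset.subset_insert v μ.support)]
  have h : (insert v μ.support).filter (fun u => v ≤ u) =
      insert v ((insert v μ.support).filter (fun u => v < u)) := by
    ext u
    simp only [Finset.mem_filter, Finset.mem_insert]
    constructor
    · rintro ⟨h1, h2⟩
      rcases eq_or_lt_of_le h2 with h3 | h3
      · exact Or.inl h3.symm
      · exact Or.inr ⟨h1, h3⟩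
    · rintro (h1 | ⟨h1, h2⟩)
      · exact ⟨Or.inl h1, h1.symm.le⟩
      · exact ⟨h1, h2.le⟩
  rw [h, Finset.sum_insert]
  intro hv
  rw [Finset.mem_filter] at hv
  exact lt_irrefl _ hv.2

/-- the moved mass -/
noncomputable def movedV (μ : I →₀ ℝ) (c : ℝ) : I →₀ ℝ :=
  Finsupp.onFinset μ.support (fun v => min c (upS μ v) - min c (upS' μ v)) (by
    intro v hv
    rw [Finsupp.mem_support_iff]
    intro h0
    apply hv
    rw [upS_eq, h0, zero_add, sub_self])

theorem movedV_apply (μ : I →₀ ℝ) (c : ℝ) (v : I) :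
    movedV μ c v = min c (upS μ v) - min c (upS' μ v) := rfl

theorem movedV_support (μ : I →₀ ℝ) (c : ℝ) : (movedV μ c).support ⊆ μ.support :=
  Finsupp.support_onFinset_subset

theorem sum_telescope (c : ℝ) (f : I → ℝ) (s : Finset I) :
    ∑ v ∈ s, (min c (∑ u ∈ s with v ≤ u, f u) - min c (∑ u ∈ s with v < u, f u)) =
      min c (∑ u ∈ s, f u) - min c 0 := by
  induction s using Finset.induction_on_min with
  | empty => simp
  | insert a s ha ih =>
    have hnot : a ∉ s := fun h => lt_irrefl _ (ha a h)
    rw [Finset.sum_insert hnot]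
    have h1 : (insert a s).filter (fun u => a ≤ u) = insert a s := by
      apply Finset.filter_true_of_mem
      intro u hu
      rcases Finset.mem_insert.1 hu with h | h
      · exact h.symm.le
      · exact (ha u h).le
    have h2 : (insert a s).filter (fun u => a < u) = s := by
      ext u
      rw [Finset.mem_filter, Finset.mem_insert]
      constructor
      · rintro ⟨h | h, h'⟩
        · exact absurd h' (by rw [h]; exact lt_irrefl _)
        · exact h
      · intro h
        exact ⟨Or.inr h, ha u h⟩
    rw [h1, h2]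
    have h3 : ∑ v ∈ s, (min c (∑ u ∈ insert a s with v ≤ u, f u) -
        min c (∑ u ∈ insert a s with v < u, f u)) =
        ∑ v ∈ s, (min c (∑ u ∈ s with v ≤ u, f u) - min c (∑ u ∈ s with v < u, f u)) := by
      refine Finset.sum_congr rfl fun v hv => ?_
      have h4 : (insert a s).filter (fun u => v ≤ u) = s.filter (fun u => v ≤ u) := by
        rw [Finset.filter_insert, if_neg (not_le.2 (ha v hv))]
      have h5 : (insert a s).filter (fun u => v < u) = s.filter (fun u => v < u) := by
        rw [Finset.filter_insert, if_neg (not_lt.2 (ha v hv).le)]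
      rw [h4, h5]
    rw [h3, ih]
    ring

end Moved

/-- moving mass `c` in order (largest indices first) -/
theorem exists_moved (I : Type) : ∃ mv : (I →₀ ℝ) → ℝ → (I →₀ ℝ),
    (∀ μ c, (∀ v, 0 ≤ μ v) → 0 ≤ c →
      (∀ v, 0 ≤ mv μ c v ∧ mv μ c v ≤ μ v) ∧
      (mv μ c).sum (fun _ a => a) = min c (μ.sum fun _ a => a) ∧
      (∀ u v, 0 < mv μ c u → mv μ c u < μ u → 0 < mv μ c v → mv μ c v < μ v → u = v)) ∧
    ∀ (n : ℕ) μ μ' c c', (∀ v, 0 ≤ μ v) → (∀ v, 0 ≤ μ' v) → 0 ≤ c → 0 ≤ c' →
      μ.support.card ≤ n → μ'.support.card ≤ n →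
      l1 (mv μ c - mv μ' c') ≤ 4 * n * (|c - c'| + l1 (μ - μ')) := by
  classical
  obtain ⟨_, -⟩ := exists_wellFoundedLT I
  refine ⟨movedV, ?_, ?_⟩
  · intro μ c hμ hc
    refine ⟨fun v => ?_, ?_, ?_⟩
    · rw [movedV_apply, upS_eq]
      have h0 := hμ v
      constructor
      · have : min c (upS' μ v) ≤ min c (μ v + upS' μ v) :=
          min_le_min le_rfl (by linarith)
        linarith
      · rcases le_total c (upS' μ v) with h | h
        · rw [min_eq_left h, min_eq_left (by linarith)]
          linarith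
        · rw [min_eq_right h]
          have := min_le_right c (μ v + upS' μ v)
          linarith
    · have h1 : (movedV μ c).sum (fun _ a => a) = ∑ v ∈ μ.support, movedV μ c v :=
        Finsupp.sum_of_support_subset _ (movedV_support μ c) _ (by simp)
      rw [h1]
      have h2 := sum_telescope c (fun u => μ u) μ.support
      rw [min_eq_right hc, sub_zero] at h2
      exact h2
    · have key : ∀ u, 0 < movedV μ c u → movedV μ c u < μ u → upS' μ u < c ∧ c < upS μ u := by
        intro u h1 h2
        rw [movedV_apply] at h1 h2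
        have h3 := upS_eq μ u
        have h4 := hμ u
        constructor
        · by_contra h
          push Not at h
          rw [min_eq_left h, min_eq_left (by linarith)] at h1
          linarith
        · by_contra h
          push Not at h
          rw [min_eq_right h, min_eq_right (by linarith)] at h2
          linarith
      have mono : ∀ u v, u < v → upS μ v ≤ upS' μ u := by
        intro u v huv
        unfold upS upS'
        refine Finset.sum_le_sum_of_subset_of_nonneg ?_ (fun _ _ _ => hμ _)
        intro w hw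
        rw [Finset.mem_filter] at hw ⊢
        exact ⟨hw.1, lt_of_lt_of_le huv hw.2⟩
      intro u v h1 h2 h3 h4
      obtain ⟨a1, a2⟩ := key u h1 h2
      obtain ⟨b1, b2⟩ := key v h3 h4
      rcases lt_trichotomy u v with h | h | h
      · have := mono u v h
        linarith
      · exact h
      · have := mono v u h
        linarith
  · intro n μ μ' c c' hμ hμ' hc hc' hn hn'
    set T := μ.support ∪ μ'.support with hT
    have hs1 : μ.support ⊆ T := Finset.subset_union_left
    have hs2 : μ'.support ⊆ T := Finset.subset_union_right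
    have hsub : (movedV μ c - movedV μ' c').support ⊆ T := by
      refine (Finsupp.support_sub).trans ?_
      exact Finset.union_subset_union (movedV_support μ c) (movedV_support μ' c')
    have hdiffsub : (μ - μ').support ⊆ T := Finsupp.support_sub
    have hp : ∀ (p : I → Prop) [DecidablePred p], |∑ u ∈ T with p u, μ u - ∑ u ∈ T with p u, μ' u| ≤
        l1 (μ - μ') := by
      intro p _
      rw [← Finset.sum_sub_distrib, l1_eq_sum _ hdiffsub]
      refine (Finset.abs_sum_le_sum_abs _ _).trans ?_
      refine Finset.sum_le_sum_of_subset_of_nonneg (Finset.filter_subset _ _)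
        (fun _ _ _ => abs_nonneg _)
    have hpt : ∀ v, |movedV μ c v - movedV μ' c' v| ≤ 2 * (|c - c'| + l1 (μ - μ')) := by
      intro v
      have e1 : |upS μ v - upS μ' v| ≤ l1 (μ - μ') := by
        rw [upS_of_subset μ hs1, upS_of_subset μ' hs2]
        exact hp (fun u => v ≤ u)
      have e2 : |upS' μ v - upS' μ' v| ≤ l1 (μ - μ') := by
        rw [upS'_of_subset μ hs1, upS'_of_subset μ' hs2]
        exact hp (fun u => v < u)
      have hl := l1_nonneg (μ - μ')
      have hcc := abs_nonneg (c - c')
      have e3 : |min c (upS μ v) - min c' (upS μ' v)| ≤ |c - c'| + l1 (μ - μ') :=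
        (abs_min_sub_min_le_max _ _ _ _).trans (max_le (by linarith) (by linarith))
      have e4 : |min c (upS' μ v) - min c' (upS' μ' v)| ≤ |c - c'| + l1 (μ - μ') :=
        (abs_min_sub_min_le_max _ _ _ _).trans (max_le (by linarith) (by linarith))
      rw [movedV_apply, movedV_apply]
      have e5 : min c (upS μ v) - min c (upS' μ v) - (min c' (upS μ' v) - min c' (upS' μ' v)) =
          (min c (upS μ v) - min c' (upS μ' v)) - (min c (upS' μ v) - min c' (upS' μ' v)) := by
        ring
      rw [e5]
      refine (abs_sub _ _).trans ?_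
      linarith
    rw [l1_eq_sum _ hsub]
    have hcard : (T.card : ℝ) ≤ 2 * n := by
      have : T.card ≤ n + n := (Finset.card_union_le _ _).trans (add_le_add hn hn')
      have h' : (T.card : ℝ) ≤ ((n + n : ℕ) : ℝ) := by exact_mod_cast this
      push_cast at h'
      linarith
    calc ∑ v ∈ T, |(movedV μ c - movedV μ' c') v|
        ≤ ∑ v ∈ T, (2 * (|c - c'| + l1 (μ - μ'))) := by
          refine Finset.sum_le_sum fun v _ => ?_
          rw [Finsupp.sub_apply]
          exact hpt v
      _ = T.card * (2 * (|c - c'| + l1 (μ - μ'))) := by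
          rw [Finset.sum_const, nsmul_eq_mul]
      _ ≤ (2 * n) * (2 * (|c - c'| + l1 (μ - μ'))) := by
          refine mul_le_mul_of_nonneg_right hcard ?_
          have hl := l1_nonneg (μ - μ')
          have hcc := abs_nonneg (c - c')
          positivity
      _ = 4 * n * (|c - c'| + l1 (μ - μ')) := by ring

end MP65
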