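import Pool.Agent.Work.MP_65b809_gt.TDefs

/-! # MDefs : matrix groups `exp(n) exp(ℝ H)` (fixed definitions, do not edit) -/

namespace MP65

open Matrix NormedSpace

abbrev Mat (m : ℕ) : Type := Matrix (Fin m) (Fin m) ℝ

/-- `H` a nonzero vector, `n` a space of matrices supported on the entries `(i,j)` with `H j < H i`
(with a gap `≥ log 3`), normalised by `diag H`, and with `exp n` closed under multiplication. -/
structure BData (m : ℕ) where
  H : Fin m → ℝ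
  n : Submodule ℝ (Mat m)
  H_ne : H ≠ 0
  gap : ∀ i j, H j < H i → Real.log 3 ≤ H i - H j
  supp : ∀ Y ∈ n, ∀ i j, Y i j ≠ 0 → H j < H i
  ad : ∀ Y ∈ n, (Matrix.of fun i j => (H i - H j) * Y i j) ∈ n
  mul : ∀ Y ∈ n, ∀ Z ∈ n, ∃ W ∈ n, exp Y * exp Z = exp W

namespace BData

variable {m : ℕ} (B : BData m)

/-- the matrix `exp Y · diag(e^{τ H})` -/
noncomputable def mu (p : B.n × ℝ) : Mat m :=
  exp (p.1 : Mat m) * diagonal (fun i => Real.exp (p.2 * B.H i))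

/-- its inverse -/
noncomputable def muInv (p : B.n × ℝ) : Mat m :=
  diagonal (fun i => Real.exp (-(p.2 * B.H i))) * exp (-(p.1 : Mat m))

/-- the group `exp n` -/
def N : Subgroup (GL (Fin m) ℝ) where
  carrier := {g | ∃ Y ∈ B.n, (g : Mat m) = exp Y}
  mul_mem' := by
    rintro g g' ⟨Y, hY, hg⟩ ⟨Y', hY', hg'⟩
    obtain ⟨W, hW, h⟩ := B.mul Y hY Y' hY'
    exact ⟨W, hW, by rw [Units.val_mul, hg, hg', h]⟩
  one_mem' := ⟨0, B.n.zero_mem, by simp⟩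
  inv_mem' := by
    rintro g ⟨Y, hY, hg⟩
    refine ⟨-Y, B.n.neg_mem hY, ?_⟩
    rw [Matrix.exp_neg, ← hg]
    simp [Matrix.coe_units_inv]

end BData

/-- The requirements on a distance function on the solvable group `exp n exp(ℝ H)`: the entries of
`g⁻¹ h` and `h⁻¹ g` are at most `exp (c (d g h + 1))`, and `d g h` is small if `g⁻¹ h` is close to
the identity matrix. -/
def BData.GoodDist {m : ℕ} (B : BData m) (d : B.n × ℝ → B.n × ℝ → ℝ) : Prop :=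
  (∃ c : ℝ, 0 < c ∧ ∀ p p' i j, |(B.muInv p * B.mu p') i j| ≤ Real.exp (c * (d p p' + 1)) ∧
    |(B.muInv p' * B.mu p) i j| ≤ Real.exp (c * (d p p' + 1))) ∧
  ∀ ε : ℝ, 0 < ε → ∃ δ : ℝ, 0 < δ ∧ ∀ p p',
    (∀ i j, |(B.muInv p * B.mu p' - 1) i j| ≤ δ) → d p p' ≤ ε

/-- A tower structure on `exp n` adapted to `H`: smallness at the scale `s` means
`|g i j| = O(e^{s (H i - H j)})` for `H j < H i`. -/
def BData.Adapted {m : ℕ} (B : BData m) {d : ℕ} (T : Tower B.N d) : Prop :=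
  (∀ C : ℝ, ∃ C' : ℝ, 0 ≤ C' ∧ ∀ (s : ℝ) (g : B.N),
    (∀ i j, B.H j < B.H i → |((g : GL (Fin m) ℝ) : Mat m) i j| ≤ C * Real.exp (s * (B.H i - B.H j))) →
    T.Low d s C' g) ∧
  ∀ C : ℝ, ∃ C' : ℝ, 0 ≤ C' ∧ ∀ (s : ℝ) (g : B.N), T.Low d s C g →
    ∀ i j, B.H j < B.H i → |((g : GL (Fin m) ℝ) : Mat m) i j| ≤ C' * Real.exp (s * (B.H i - B.H j))

/-- support in the entries of weight `≥ w` -/
def Ge {m : ℕ} (H : Fin m → ℝ) (w : ℝ) (Y : Mat m) : Prop := ∀ i j, Y i j ≠ 0 → w ≤ H i - H j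

/-- support in the entries of weight `> w` -/
def Gt {m : ℕ} (H : Fin m → ℝ) (w : ℝ) (Y : Mat m) : Prop := ∀ i j, Y i j ≠ 0 → w < H i - H j

/-- truncated logarithm of a unipotent matrix -/
noncomputable def plog {m : ℕ} (g : Mat m) : Mat m :=
  ∑ k ∈ Finset.range m, ((-1 : ℝ) ^ k / (k + 1)) • (g - 1) ^ (k + 1)

end MP65
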