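import Pool.Agent.Work.MP_65b809_gt.PLog

/-! # MMul : exponentials and the weight filtration

* `exp_add_sub`: `X ∈ Gt 0`, `D ∈ Ge w`, `w > 0`: `exp(X+D) - exp X - D ∈ Gt w`. Use `exp_eq_sum`
  (`X`, `X+D` are `Gt 0`, nilpotent). For `k ≥ 2`: `(X+D)^k - X^k ∈ Gt w` by induction on `k ≥ 2`:
  `(X+D)^{k+1} - X^{k+1} = (X+D)((X+D)^k - X^k) + D X^k`, where `(X+D)^k - X^k ∈ Ge w` for all `k ≥ 1`
  (`k = 1`: `D`), so that `(X+D)·(Ge w) ∈ Gt w` and `D X^k ∈ Gt w` for `k ≥ 1`. The terms `k = 0, 1`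
  give `0` and `D`. (If `m = 0` or `m = 1` all matrices in `Gt 0` vanish.)
* `exp_sub_ge`: `Z, Z' ∈ Gt 0`, `exp Z' - exp Z ∈ Ge w`, `w > 0`. Let `D = Z' - Z`. Suppose
  `D i j ≠ 0` with `H i - H j < w`; choose such an entry with `v = H i - H j` minimal among all nonzero
  entries of `D` (finite); `0 < v < w`, `D ∈ Ge v`; by `exp_add_sub` the `(i,j)` entry of
  `exp Z' - exp Z` is `D i j ≠ 0`, contradiction. So `D ∈ Ge w`, and `exp_add_sub` again.
* `mul_dep`: with `D = X'-X`, `D' = Y'-Y`: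
  `e^{X'}e^{Y'} - e^X e^Y = (e^{X'} - e^X) e^{Y'} + e^X (e^{Y'} - e^Y)`, `e^{X'} - e^X = D + Gt w`,
  `(e^{X'} - e^X)(e^{Y'} - 1) ∈ Gt w` (`exp_sub_one_gt`), similarly for the second: total
  `D + D' + Gt w`. So `e^{Z'} - e^Z ∈ Ge w`, apply `exp_sub_ge`.
* `exp_surj`: every `g` with `g - 1 ∈ Gt H 0` is `exp Y` with `Gt H 0 Y`. Replace `H` by the integer
  valued `rk i = #{l : H l < H i}` (same order, `Gt H 0 ↔ Gt rk 0`). Show by induction on `k`: there is
  `Y_k ∈ Gt rk 0` with `g - exp Y_k ∈ Ge rk k` (`k ≥ 1`; `k = 1`: `Y = 0`):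
  `Y_{k+1} = Y_k + (g - exp Y_k)`, `exp_add_sub` with `w = k`, and `Gt rk k = Ge rk (k+1)` by
  integrality. For `k = m`: `Ge rk m` means zero.
-/

namespace MP65

open Matrix NormedSpace

variable {m : ℕ} {H : Fin m → ℝ} {w : ℝ}

private theorem ge_smul' {X : Mat m} (c : ℝ) (hX : Ge H w X) : Ge H w (c • X) := by
  intro i j h
  refine hX i j fun h0 => h ?_
  rw [Matrix.smul_apply, h0, smul_zero]

private theorem gt_zero' : Gt H w (0 : Mat m) := fun _ _ h => absurd rfl h

private theorem gt_sub' {X Y : Mat m} (hX : Gt H w X) (hY : Gt H w Y) : Gt H w (X - Y) := by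
  rw [sub_eq_add_neg]
  exact gt_add hX (gt_neg hY)

private theorem ge_sub' {X Y : Mat m} (hX : Ge H w X) (hY : Ge H w Y) : Ge H w (X - Y) := by
  rw [sub_eq_add_neg]
  exact ge_add hX (ge_neg hY)

private theorem gt_sum' {ι : Type*} (s : Finset ι) (f : ι → Mat m) (h : ∀ k ∈ s, Gt H w (f k)) :
    Gt H w (∑ k ∈ s, f k) := by
  classical
  induction s using Finset.induction_on with
  | empty =>
    intro i j h
    exact absurd (by simp) h
  | insert a s ha ih =>
    rw [Finset.sum_insert ha]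
    exact gt_add (h a (Finset.mem_insert_self _ _)) (ih fun k hk => h k (Finset.mem_insert_of_mem hk))

private theorem gt_pow' {Y : Mat m} (hY : Gt H 0 Y) (k : ℕ) : Gt H 0 (Y ^ (k + 1)) := by
  induction k with
  | zero => rwa [zero_add, pow_one]
  | succ k ih =>
    rw [pow_succ]
    exact gt_mul_gt ih hY

private theorem pow_diff (hw : 0 < w) {X D : Mat m} (hX : Gt H 0 X) (hD : Ge H w D) (k : ℕ) :
    Ge H w ((X + D) ^ (k + 1) - X ^ (k + 1)) ∧
      Gt H w ((X + D) ^ (k + 2) - X ^ (k + 2)) := by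
  have hXD : Gt H 0 (X + D) := gt_add hX (ge_gt_zero hw hD)
  have step : ∀ k, Ge H w ((X + D) ^ (k + 1) - X ^ (k + 1)) →
      Gt H w ((X + D) ^ (k + 2) - X ^ (k + 2)) := by
    intro k hk
    have e : (X + D) ^ (k + 2) - X ^ (k + 2) =
        (X + D) * ((X + D) ^ (k + 1) - X ^ (k + 1)) + D * X ^ (k + 1) := by
      rw [pow_succ' (X + D) (k + 1), pow_succ' X (k + 1)]
      noncomm_ring
    rw [e]
    exact gt_add (gt_mul_ge hXD hk) (ge_mul_gt hD (gt_pow' hX k))
  induction k with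
  | zero =>
    have h0 : Ge H w ((X + D) ^ (0 + 1) - X ^ (0 + 1)) := by
      rw [zero_add, pow_one, pow_one, add_sub_cancel_left]
      exact hD
    exact ⟨h0, step 0 h0⟩
  | succ k ih => exact ⟨gt_ge ih.2, step (k + 1) (gt_ge ih.2)⟩

theorem exp_add_sub (hw : 0 < w) {X D : Mat m} (hX : Gt H 0 X) (hD : Ge H w D) :
    Gt H w (exp (X + D) - exp X - D) := by
  have hXD : Gt H 0 (X + D) := gt_add hX (ge_gt_zero hw hD)
  rw [exp_eq_sum (gt_pow_eq_zero hXD), exp_eq_sum (gt_pow_eq_zero hX)]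
  rcases m with _ | _ | m
  · intro i
    exact i.elim0
  · have hz : ∀ Y : Mat 1, Gt H 0 Y → Y = 0 := by
      intro Y hY
      have := gt_pow_eq_zero hY
      simpa using this
    have hD0 : D = 0 := hz D (ge_gt_zero hw hD)
    rw [hD0, hz X hX]
    simp only [add_zero, sub_self]
    exact gt_zero'
  · rw [← Finset.sum_sub_distrib, Finset.sum_range_succ', Finset.sum_range_succ']
    have e : ∀ S A B C : Mat (m + 1 + 1), S + A + B - C = S + (A - C) + B := fun S A B C => by abel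
    rw [e]
    have h0 : (((0 : ℕ).factorial : ℝ)⁻¹) • (X + D) ^ 0 - (((0 : ℕ).factorial : ℝ)⁻¹) • X ^ 0 =
        (0 : Mat (m + 1 + 1)) := by
      rw [pow_zero, pow_zero, sub_self]
    have h1 : (((0 + 1 : ℕ).factorial : ℝ)⁻¹) • (X + D) ^ (0 + 1) -
        (((0 + 1 : ℕ).factorial : ℝ)⁻¹) • X ^ (0 + 1) - D = (0 : Mat (m + 1 + 1)) := by
      simp
    rw [h0, h1, add_zero, add_zero]
    refine gt_sum' _ _ fun k _ => ?_
    rw [← smul_sub]
    exact gt_smul _ (pow_diff hw hX hD k).2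

theorem exp_sub_ge (hw : 0 < w) {Z Z' : Mat m} (hZ : Gt H 0 Z) (hZ' : Gt H 0 Z')
    (h : Ge H w (exp Z' - exp Z)) :
    Ge H w (Z' - Z) ∧ Gt H w (exp Z' - exp Z - (Z' - Z)) := by
  have hmain : ∀ v : ℝ, 0 < v → Ge H v (Z' - Z) → Gt H v (exp Z' - exp Z - (Z' - Z)) := by
    intro v hv hD
    have := exp_add_sub hv hZ hD
    rwa [add_sub_cancel] at this
  have hD0 : Gt H 0 (Z' - Z) := gt_sub' hZ' hZ
  have key : Ge H w (Z' - Z) := by
    classical
    by_contra hcon
    -- a nonzero entry of minimal weight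
    let S : Finset (Fin m × Fin m) := Finset.univ.filter fun p => (Z' - Z) p.1 p.2 ≠ 0
    have hne : S.Nonempty := by
      by_contra hemp
      apply hcon
      intro i j hij
      exact absurd ⟨(i, j), Finset.mem_filter.2 ⟨Finset.mem_univ _, hij⟩⟩ hemp
    obtain ⟨p, hp, hmin⟩ := S.exists_min_image (fun p => H p.1 - H p.2) hne
    have hp' : (Z' - Z) p.1 p.2 ≠ 0 := (Finset.mem_filter.1 hp).2
    have hge : Ge H (H p.1 - H p.2) (Z' - Z) := fun i j hij =>
      hmin (i, j) (Finset.mem_filter.2 ⟨Finset.mem_univ _, hij⟩)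
    have hpos : 0 < H p.1 - H p.2 := hD0 p.1 p.2 hp'
    have hlt : H p.1 - H p.2 < w := by
      by_contra hnl
      apply hcon
      intro i j hij
      exact (not_lt.1 hnl).trans (hge i j hij)
    have h1 := hmain _ hpos hge
    have h2 : (exp Z' - exp Z - (Z' - Z)) p.1 p.2 = 0 := by
      by_contra hn
      exact lt_irrefl _ (h1 p.1 p.2 hn)
    have h3 : (exp Z' - exp Z) p.1 p.2 = 0 := by
      by_contra hn
      exact absurd (h p.1 p.2 hn) (not_le.2 hlt)
    rw [Matrix.sub_apply, h3, zero_sub, neg_eq_zero] at h2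
    exact hp' h2
  exact ⟨key, hmain w hw key⟩

theorem mul_dep (hw : 0 < w) {X Y Z X' Y' Z' : Mat m} (hX : Gt H 0 X) (hY : Gt H 0 Y)
    (hZ : Gt H 0 Z) (hX' : Gt H 0 X') (hY' : Gt H 0 Y') (hZ' : Gt H 0 Z')
    (h : exp X * exp Y = exp Z) (h' : exp X' * exp Y' = exp Z')
    (h1 : Ge H w (X' - X)) (h2 : Ge H w (Y' - Y)) :
    Ge H w (Z' - Z) ∧ Gt H w ((Z' - X' - Y') - (Z - X - Y)) := by
  have a1 : Gt H w (exp X' - exp X - (X' - X)) := by
    have := exp_add_sub hw hX h1
    rwa [add_sub_cancel] at this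
  have a2 : Gt H w (exp Y' - exp Y - (Y' - Y)) := by
    have := exp_add_sub hw hY h2
    rwa [add_sub_cancel] at this
  have b1 : Ge H w (exp X' - exp X) := by
    have := ge_add (gt_ge a1) h1
    rwa [sub_add_cancel] at this
  have b2 : Ge H w (exp Y' - exp Y) := by
    have := ge_add (gt_ge a2) h2
    rwa [sub_add_cancel] at this
  have c1 : Gt H w ((exp X' - exp X) * (exp Y' - 1)) := ge_mul_gt b1 (exp_sub_one_gt hY')
  have c2 : Gt H w ((exp X - 1) * (exp Y' - exp Y)) := gt_mul_ge (exp_sub_one_gt hX) b2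
  have e1 : exp Z' - exp Z = (exp X' - exp X) * (exp Y' - 1) + (exp X - 1) * (exp Y' - exp Y) +
      (exp X' - exp X) + (exp Y' - exp Y) := by
    rw [← h, ← h']
    noncomm_ring
  have d1 : Ge H w (exp Z' - exp Z) := by
    rw [e1]
    exact ge_add (ge_add (ge_add (gt_ge c1) (gt_ge c2)) b1) b2
  obtain ⟨f1, f2⟩ := exp_sub_ge hw hZ hZ' d1
  refine ⟨f1, ?_⟩
  have e2 : (Z' - X' - Y') - (Z - X - Y) =
      (exp X' - exp X) * (exp Y' - 1) + (exp X - 1) * (exp Y' - exp Y) +
      (exp X' - exp X - (X' - X)) + (exp Y' - exp Y - (Y' - Y)) -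
      (exp Z' - exp Z - (Z' - Z)) := by
    rw [e1]
    abel
  rw [e2]
  exact gt_sub' (gt_add (gt_add (gt_add c1 c2) a1) a2) f2

theorem exp_surj {g : Mat m} (hg : Gt H 0 (g - 1)) : ∃ Y : Mat m, Gt H 0 Y ∧ exp Y = g := by
  classical
  obtain ⟨rk, hrk⟩ : ∃ rk : Fin m → ℕ, rk = fun i =>
    (Finset.univ.filter fun l => H l < H i).card := ⟨_, rfl⟩
  have h1 : ∀ i j, H j < H i → rk j < rk i := by
    intro i j hij
    rw [hrk]
    refine Finset.card_lt_card ⟨?_, ?_⟩
    · intro l hl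
      rw [Finset.mem_filter] at hl ⊢
      exact ⟨hl.1, hl.2.trans hij⟩
    · intro hsub
      have : j ∈ Finset.univ.filter fun l => H l < H j :=
        hsub (Finset.mem_filter.2 ⟨Finset.mem_univ _, hij⟩)
      exact lt_irrefl _ (Finset.mem_filter.1 this).2
  have h1' : ∀ i j, rk j < rk i → H j < H i := by
    intro i j hij
    by_contra hcon
    rcases lt_or_eq_of_le (not_lt.1 hcon) with h | h
    · exact absurd (h1 j i h) (not_lt.2 hij.le)
    · rw [hrk] at hij
      simp only [h] at hij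
      exact lt_irrefl _ hij
  have h2 : ∀ i, rk i < m := by
    intro i
    rw [hrk]
    have : (Finset.univ.filter fun l => H l < H i).card < (Finset.univ : Finset (Fin m)).card := by
      refine Finset.card_lt_card ⟨Finset.filter_subset _ _, ?_⟩
      intro hsub
      have : i ∈ Finset.univ.filter fun l => H l < H i := hsub (Finset.mem_univ i)
      exact lt_irrefl _ (Finset.mem_filter.1 this).2
    simpa using this
  obtain ⟨R, hR⟩ : ∃ R : Fin m → ℝ, R = fun i => (rk i : ℝ) := ⟨_, rfl⟩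
  have hRi : ∀ i, R i = rk i := fun i => by rw [hR]
  have heq : ∀ Y : Mat m, Gt H 0 Y ↔ Gt R 0 Y := by
    intro Y
    constructor
    · intro h i j hij
      have := h1 i j (by have := h i j hij; linarith)
      rw [hRi, hRi]
      have h3 : (rk j : ℝ) < rk i := by exact_mod_cast this
      linarith
    · intro h i j hij
      have h3 := h i j hij
      rw [hRi, hRi] at h3
      have h4 : rk j < rk i := by
        have : (rk j : ℝ) < rk i := by linarith
        exact_mod_cast this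
      have := h1' i j h4
      linarith
  have hgtge : ∀ (k : ℕ) (Y : Mat m), Gt R k Y → Ge R ((k + 1 : ℕ) : ℝ) Y := by
    intro k Y h i j hij
    have h3 := h i j hij
    rw [hRi, hRi] at h3 ⊢
    have h4 : k + rk j < rk i := by
      have : (k : ℝ) + rk j < rk i := by linarith
      exact_mod_cast this
    have h4' : k + 1 + rk j ≤ rk i := by omega
    have h5 : ((k + 1 + rk j : ℕ) : ℝ) ≤ rk i := by exact_mod_cast h4'
    push_cast at h5 ⊢
    linarith
  have hg' : Gt R 0 (g - 1) := (heq _).1 hg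
  have hind : ∀ k : ℕ, ∃ Y : Mat m, Gt R 0 Y ∧ Ge R ((k + 1 : ℕ) : ℝ) (g - exp Y) := by
    intro k
    induction k with
    | zero =>
      refine ⟨0, gt_zero', ?_⟩
      rw [NormedSpace.exp_zero]
      exact hgtge 0 _ (by rw [Nat.cast_zero]; exact hg')
    | succ k ih =>
      obtain ⟨Y, hY, hgY⟩ := ih
      have hk : (0 : ℝ) < ((k + 1 : ℕ) : ℝ) := by positivity
      refine ⟨Y + (g - exp Y), gt_add hY (ge_gt_zero hk hgY), ?_⟩
      have h3 := exp_add_sub hk hY hgY
      have e : g - exp (Y + (g - exp Y)) = -(exp (Y + (g - exp Y)) - exp Y - (g - exp Y)) := by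
        abel
      rw [e]
      exact hgtge (k + 1) _ (gt_neg h3)
  obtain ⟨Y, hY, hgY⟩ := hind m
  refine ⟨Y, (heq Y).2 hY, ?_⟩
  have hz : g - exp Y = 0 := by
    ext i j
    by_contra hn
    have h3 := hgY i j hn
    rw [hRi, hRi] at h3
    have h4 : ((m + 1 : ℕ) : ℝ) + rk j ≤ rk i := by linarith
    have h5 : m + 1 + rk j ≤ rk i := by exact_mod_cast h4
    have h6 := h2 i
    omega
  exact (sub_eq_zero.1 hz).symm

end MP65
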