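import Pool.Agent.Work.MP_65b809_gt.MMul
import Pool.Agent.Work.MP_65b809_gt.HBas

/-! # MTow : the tower structure on `exp n`

For `g ∈ B.N` let `Y(g) = plog g`; it is the unique element of `n` with `exp Y = g` (`plog_exp`,
`gt_pow_eq_zero`, `supp`). With `e, v, x` from `exists_basis`: coordinates
`x_k(g) = x k (Y(g))` for `k < d` (`0` otherwise), weights `w_k = v k / log 3 ≥ 1`,
`z k ρ = exp (ρ e_k)` (as an element of `B.N`; `1` for `k ≥ d`).
* `dep`: if the coordinates `< j` of `u, u'` agree then `Y(u') - Y(u) ∈ Ge (v j)`; `mul_dep` with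
  `w = v j > 0` gives that `(Y(u'v') - Y(u') - Y(v')) - (Y(uv) - Y(u) - Y(v)) ∈ Gt (v j)`, in `n`, so its
  `j`-th coordinate is `0`.
* scaling: for `s : ℝ`, `Y ∈ n`, the matrix `(e^{-s (H i - H j)} Y i j)` is in `n` (`fun_mem`) and
  is `D Y D⁻¹`, `D = diag(e^{-sH})`; `exp (D Y D⁻¹) = D (exp Y) D⁻¹` (`Matrix.exp_conj`); so
  `δ_s g = D g D⁻¹` maps `B.N` to itself, is multiplicative, `Y(δ_s g) = D Y(g) D⁻¹`,
  `x_k(δ_s g) = e^{-s v k} x_k(g)` (as `D e_k D⁻¹ = e^{-s v_k} e_k`), and `3^{w_k s} = e^{s v_k}`.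
  So `Low j s C g ↔ Low j 0 C (δ_s g)`, and the entries satisfy
  `|g i j| ≤ C e^{s(H i - H j)} ↔ |(δ_s g) i j| ≤ C`.
* `bd` at `s = 0`: let `|x_i u|, |x_i v| ≤ C` for `i < j`. By `dep` we may replace `u` by
  `exp (∑_{i<j} x_i(u) e_i)` and `v` similarly (same coordinates `< j`, and the coordinate `j` of the
  new `u`, `v` is `0`): then all entries of the logarithms are bounded, so the entries of `u`, `v`,
  `u v` (`exp_bdd`, `mul_bdd`), of `Y(uv) = plog (uv)` (`plog_bdd`), and `x j (Y(uv))` (a linear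
  functional is bounded by a multiple of the largest entry).
* `Adapted` at `s = 0`: entries of `g` in the positions `H j < H i` bounded by `C`; the other entries are
  those of the identity (`exp_sub_one_gt`); `plog_bdd`. Conversely `exp_bdd`.
-/

namespace MP65

open Matrix NormedSpace

/-- A linear functional is bounded by a multiple of the largest entry. -/
private theorem lin_bdd {m : ℕ} (f : Mat m →ₗ[ℝ] ℝ) : ∃ L : ℝ, 0 ≤ L ∧ ∀ (Y : Mat m) (C : ℝ),
    (∀ i j, |Y i j| ≤ C) → |f Y| ≤ L * |C| := by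
  refine ⟨∑ p, ∑ q, |f (Matrix.single p q 1)|, by positivity, fun Y C hY => ?_⟩
  have h1 : f Y = ∑ p, ∑ q, Y p q * f (Matrix.single p q 1) := by
    conv_lhs => rw [Matrix.matrix_eq_sum_single Y]
    rw [map_sum]
    refine Finset.sum_congr rfl fun p _ => ?_
    rw [map_sum]
    refine Finset.sum_congr rfl fun q _ => ?_
    rw [← smul_eq_mul, ← map_smul, Matrix.smul_single, smul_eq_mul, mul_one]
  rw [h1, Finset.sum_mul]
  refine (Finset.abs_sum_le_sum_abs _ _).trans (Finset.sum_le_sum fun p _ => ?_)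
  rw [Finset.sum_mul]
  refine (Finset.abs_sum_le_sum_abs _ _).trans (Finset.sum_le_sum fun q _ => ?_)
  rw [abs_mul, mul_comm]
  exact mul_le_mul_of_nonneg_left ((hY p q).trans (le_abs_self C)) (abs_nonneg _)

/-- A linear combination with bounded coefficients has bounded entries. -/
private theorem comb_bdd {m d : ℕ} (e : Fin d → Mat m) : ∃ M : ℝ, 0 ≤ M ∧
    ∀ (a : Fin d → ℝ) (C : ℝ), (∀ k, |a k| ≤ C) → ∀ i j, |(∑ k, a k • e k) i j| ≤ M * |C| := by
  refine ⟨∑ p, ∑ q, ∑ k, |e k p q|, by positivity, fun a C ha i j => ?_⟩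
  rw [Matrix.sum_apply]
  calc |∑ k, (a k • e k) i j| ≤ ∑ k, |(a k • e k) i j| := Finset.abs_sum_le_sum_abs _ _
    _ ≤ ∑ k, |e k i j| * |C| := Finset.sum_le_sum fun k _ => by
        rw [Matrix.smul_apply, smul_eq_mul, abs_mul, mul_comm]
        exact mul_le_mul_of_nonneg_left ((ha k).trans (le_abs_self C)) (abs_nonneg _)
    _ = (∑ k, |e k i j|) * |C| := by rw [Finset.sum_mul]
    _ ≤ (∑ p, ∑ q, ∑ k, |e k p q|) * |C| := by
        refine mul_le_mul_of_nonneg_right ?_ (abs_nonneg _)
        calc ∑ k, |e k i j| ≤ ∑ q, ∑ k, |e k i q| := Finset.single_le_sum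
              (f := fun q => ∑ k, |e k i q|)
              (fun _ _ => Finset.sum_nonneg fun _ _ => abs_nonneg _) (Finset.mem_univ j)
          _ ≤ ∑ p, ∑ q, ∑ k, |e k p q| := Finset.single_le_sum
              (f := fun p => ∑ q, ∑ k, |e k p q|)
              (fun _ _ => Finset.sum_nonneg fun _ _ => Finset.sum_nonneg fun _ _ => abs_nonneg _)
              (Finset.mem_univ i)

section

variable {m : ℕ} (B : BData m)

private theorem n_gt {Y : Mat m} (hY : Y ∈ B.n) : Gt B.H 0 Y := fun i j h => by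
  have := B.supp Y hY i j h
  linarith

private theorem n_pow {Y : Mat m} (hY : Y ∈ B.n) : Y ^ m = 0 := gt_pow_eq_zero (n_gt B hY)

/-- The element `exp Y` of the group. -/
private noncomputable def mkN (Y : Mat m) (hY : Y ∈ B.n) : B.N :=
  ⟨(Matrix.isUnit_exp Y).unit, Y, hY, rfl⟩

private theorem mkN_val (Y : Mat m) (hY : Y ∈ B.n) :
    ((mkN B Y hY : GL (Fin m) ℝ) : Mat m) = exp Y := rfl

/-- The logarithm of a group element. -/
private noncomputable def lg (g : B.N) : Mat m := plog ((g : GL (Fin m) ℝ) : Mat m)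

private theorem lg_spec (g : B.N) :
    lg B g ∈ B.n ∧ exp (lg B g) = ((g : GL (Fin m) ℝ) : Mat m) := by
  obtain ⟨Y, hY, hg⟩ := g.2
  have h1 : lg B g = Y := by
    unfold lg
    rw [hg, plog_exp (n_pow B hY)]
  rw [h1]
  exact ⟨hY, hg.symm⟩

private theorem lg_mkN (Y : Mat m) (hY : Y ∈ B.n) : lg B (mkN B Y hY) = Y := by
  unfold lg
  rw [mkN_val, plog_exp (n_pow B hY)]

private theorem lg_one : lg B 1 = 0 := by
  unfold lg
  have h1 : (((1 : B.N) : GL (Fin m) ℝ) : Mat m) = exp (0 : Mat m) := by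
    rw [NormedSpace.exp_zero]
    rfl
  rw [h1, plog_exp (n_pow B B.n.zero_mem)]

private theorem lg_mul (u v : B.N) : exp (lg B u) * exp (lg B v) = exp (lg B (u * v)) := by
  rw [(lg_spec B u).2, (lg_spec B v).2, (lg_spec B (u * v)).2]
  rfl

/-- The scaling of matrices. -/
private noncomputable def scl (H : Fin m → ℝ) (s : ℝ) (Y : Mat m) : Mat m :=
  Matrix.of fun i j => Real.exp (-(s * (H i - H j))) * Y i j

private theorem scl_eq (H : Fin m → ℝ) (s : ℝ) (Y : Mat m) :
    scl H s Y = diagonal (fun i => Real.exp (-(s * H i))) * Y *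
      (diagonal (fun i => Real.exp (-(s * H i))))⁻¹ := by
  have hinv : (diagonal (fun i => Real.exp (-(s * H i))) : Mat m)⁻¹ =
      diagonal (fun i => Real.exp (s * H i)) := by
    apply Matrix.inv_eq_right_inv
    rw [Matrix.diagonal_mul_diagonal]
    have : (fun i => Real.exp (-(s * H i)) * Real.exp (s * H i)) = fun _ => (1 : ℝ) := by
      funext i
      rw [← Real.exp_add, neg_add_cancel, Real.exp_zero]
    rw [this, Matrix.diagonal_one]
  rw [hinv]
  ext i j
  rw [Matrix.mul_diagonal, Matrix.diagonal_mul]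
  show Real.exp (-(s * (H i - H j))) * Y i j = _
  have : -(s * (H i - H j)) = -(s * H i) + s * H j := by ring
  rw [this, Real.exp_add]
  ring

private theorem isUnit_diag (H : Fin m → ℝ) (s : ℝ) :
    IsUnit (diagonal (fun i => Real.exp (-(s * H i))) : Mat m) := by
  rw [Matrix.isUnit_diagonal, Pi.isUnit_iff]
  exact fun i => (Real.exp_pos _).ne'.isUnit

private theorem exp_scl (H : Fin m → ℝ) (s : ℝ) (Y : Mat m) :
    exp (scl H s Y) = scl H s (exp Y) := by
  rw [scl_eq, scl_eq, Matrix.exp_conj _ _ (isUnit_diag H s)]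

private theorem scl_mul (H : Fin m → ℝ) (s : ℝ) (X Y : Mat m) :
    scl H s (X * Y) = scl H s X * scl H s Y := by
  rw [scl_eq, scl_eq, scl_eq]
  have h := Matrix.nonsing_inv_mul (diagonal (fun i => Real.exp (-(s * H i))) : Mat m)
    ((Matrix.isUnit_iff_isUnit_det _).1 (isUnit_diag H s))
  simp only [Matrix.mul_assoc]
  rw [← Matrix.mul_assoc (diagonal _)⁻¹ (diagonal _) (Y * _), h, Matrix.one_mul]

private theorem scl_mem (s : ℝ) {Y : Mat m} (hY : Y ∈ B.n) : scl B.H s Y ∈ B.n :=
  fun_mem B.H B.n B.ad (fun t => Real.exp (-(s * t))) hY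

/-- The scaling of group elements. -/
private noncomputable def dl (s : ℝ) (g : B.N) : B.N :=
  mkN B (scl B.H s (lg B g)) (scl_mem B s (lg_spec B g).1)

private theorem dl_val (s : ℝ) (g : B.N) :
    ((dl B s g : GL (Fin m) ℝ) : Mat m) = scl B.H s ((g : GL (Fin m) ℝ) : Mat m) := by
  unfold dl
  rw [mkN_val, exp_scl, (lg_spec B g).2]

private theorem dl_mul (s : ℝ) (u v : B.N) : dl B s (u * v) = dl B s u * dl B s v := by
  apply Subtype.ext
  apply Units.ext
  have h1 : (((u * v : B.N) : GL (Fin m) ℝ) : Mat m) =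
    ((u : GL (Fin m) ℝ) : Mat m) * ((v : GL (Fin m) ℝ) : Mat m) := rfl
  have h2 : (((dl B s u * dl B s v : B.N) : GL (Fin m) ℝ) : Mat m) =
    ((dl B s u : GL (Fin m) ℝ) : Mat m) * ((dl B s v : GL (Fin m) ℝ) : Mat m) := rfl
  rw [h2, dl_val, dl_val, dl_val, h1, scl_mul]

private theorem lg_dl (s : ℝ) (g : B.N) : lg B (dl B s g) = scl B.H s (lg B g) := lg_mkN B _ _

end

theorem exists_tower {m : ℕ} (B : BData m) :
    ∃ T : Tower B.N (Module.finrank ℝ B.n), B.Adapted T := by
  obtain ⟨e, v, x, hmono, hemem, hehom, hdual, hsum, hgt, hge, hv3⟩ := exists_basis B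
  have hl3 : 0 < Real.log 3 := Real.log_pos (by norm_num)
  have hvpos : ∀ k, 0 < v k := fun k => lt_of_lt_of_le hl3 (hv3 k)
  -- scaling of the coordinates
  have hsclx : ∀ (s : ℝ) (k) (Y : Mat m), Y ∈ B.n →
      x k (scl B.H s Y) = Real.exp (-(s * v k)) * x k Y := by
    intro s k Y hY
    have h1 : scl B.H s Y = ∑ l, (x l Y * Real.exp (-(s * v l))) • e l := by
      ext i j
      show Real.exp (-(s * (B.H i - B.H j))) * Y i j = _
      conv_lhs => rw [hsum Y hY]
      rw [Matrix.sum_apply, Matrix.sum_apply, Finset.mul_sum]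
      refine Finset.sum_congr rfl fun l _ => ?_
      rw [Matrix.smul_apply, Matrix.smul_apply, smul_eq_mul, smul_eq_mul]
      by_cases hz : e l i j = 0
      · rw [hz]; ring
      · rw [hehom l i j hz]; ring
    rw [h1, map_sum, Finset.sum_eq_single k]
    · rw [map_smul, hdual, if_pos rfl, smul_eq_mul, mul_one, mul_comm]
    · intro l _ hl
      rw [map_smul, hdual, if_neg (Ne.symm hl), smul_zero]
    · intro h
      exact absurd (Finset.mem_univ k) h
  have hpow3 : ∀ (s : ℝ) (k), (3 : ℝ) ^ (v k / Real.log 3 * s) = Real.exp (s * v k) := by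
    intro s k
    rw [Real.rpow_def_of_pos (by norm_num)]
    congr 1
    field_simp
  -- dependence, for elements of `n`
  have hdep : ∀ (j : Fin (Module.finrank ℝ B.n)) (u u' w w' : B.N),
      (∀ i, i < j → x i (lg B u) = x i (lg B u')) → (∀ i, i < j → x i (lg B w) = x i (lg B w')) →
      x j (lg B (u * w)) - x j (lg B u) - x j (lg B w) =
        x j (lg B (u' * w')) - x j (lg B u') - x j (lg B w') := by
    intro j u u' w w' hu hw
    have a1 : Ge B.H (v j) (lg B u' - lg B u) :=
      hge _ (B.n.sub_mem (lg_spec B u').1 (lg_spec B u).1) j fun i hi => by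
        rw [map_sub, hu i hi, sub_self]
    have a2 : Ge B.H (v j) (lg B w' - lg B w) :=
      hge _ (B.n.sub_mem (lg_spec B w').1 (lg_spec B w).1) j fun i hi => by
        rw [map_sub, hw i hi, sub_self]
    have a3 := (mul_dep (hvpos j) (n_gt B (lg_spec B u).1) (n_gt B (lg_spec B w).1)
      (n_gt B (lg_spec B (u * w)).1) (n_gt B (lg_spec B u').1) (n_gt B (lg_spec B w').1)
      (n_gt B (lg_spec B (u' * w')).1) (lg_mul B u w) (lg_mul B u' w') a1 a2).2
    have a4 := hgt _ (B.n.sub_mem
      (B.n.sub_mem (B.n.sub_mem (lg_spec B (u' * w')).1 (lg_spec B u').1) (lg_spec B w').1)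
      (B.n.sub_mem (B.n.sub_mem (lg_spec B (u * w)).1 (lg_spec B u).1) (lg_spec B w).1))
      (v j) a3 j le_rfl
    simp only [map_sub] at a4
    linarith
  -- boundedness at scale `0`
  have hbd0 : ∀ C : ℝ, ∃ C' : ℝ, ∀ (j : Fin (Module.finrank ℝ B.n)) (u w : B.N),
      (∀ i, i < j → |x i (lg B u)| ≤ C) → (∀ i, i < j → |x i (lg B w)| ≤ C) →
      |x j (lg B (u * w)) - x j (lg B u) - x j (lg B w)| ≤ C' := by
    intro C
    obtain ⟨M, hM0, hM⟩ := comb_bdd e
    obtain ⟨C1, hC1, h1⟩ := exp_bdd m (M * |(|C|)|)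
    obtain ⟨C2, hC2, h2⟩ := mul_bdd m C1
    obtain ⟨C3, hC3, h3⟩ := plog_bdd m C2
    choose L hL0 hL using fun k => lin_bdd (x k)
    refine ⟨∑ k, L k * |C3|, fun j u w hu hw => ?_⟩
    let red : B.N → Mat m := fun g => ∑ i, (if i < j then x i (lg B g) else 0) • e i
    have red_mem : ∀ g, red g ∈ B.n := fun g =>
      B.n.sum_mem fun i _ => B.n.smul_mem _ (hemem i)
    have red_x : ∀ g k, x k (red g) = if k < j then x k (lg B g) else 0 := by
      intro g k
      show x k (∑ i, (if i < j then x i (lg B g) else 0) • e i) = _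
      rw [map_sum, Finset.sum_eq_single k]
      · rw [map_smul, hdual, if_pos rfl, smul_eq_mul, mul_one]
      · intro l _ hl
        rw [map_smul, hdual, if_neg (Ne.symm hl), smul_zero]
      · intro h
        exact absurd (Finset.mem_univ k) h
    have red_b : ∀ g, (∀ i, i < j → |x i (lg B g)| ≤ C) →
        ∀ p q, |(exp (red g) : Mat m) p q| ≤ C1 := by
      intro g hg
      refine h1 _ (n_pow B (red_mem g)) ?_
      refine hM (fun i => if i < j then x i (lg B g) else 0) |C| fun k => ?_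
      by_cases hk : k < j
      · simp only [if_pos hk]
        exact (hg k hk).trans (le_abs_self C)
      · simp only [if_neg hk, abs_zero]
        exact abs_nonneg C
    have e1 := hdep j u (mkN B (red u) (red_mem u)) w (mkN B (red w) (red_mem w))
      (fun i hi => by rw [lg_mkN, red_x, if_pos hi]) (fun i hi => by rw [lg_mkN, red_x, if_pos hi])
    rw [e1]
    have e2 : x j (lg B (mkN B (red u) (red_mem u))) = 0 := by
      rw [lg_mkN, red_x, if_neg (lt_irrefl j)]
    have e3 : x j (lg B (mkN B (red w) (red_mem w))) = 0 := by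
      rw [lg_mkN, red_x, if_neg (lt_irrefl j)]
    rw [e2, e3, sub_zero, sub_zero]
    have e4 : lg B (mkN B (red u) (red_mem u) * mkN B (red w) (red_mem w)) =
        plog (exp (red u) * exp (red w)) := rfl
    rw [e4]
    refine (hL j _ C3 (h3 _ (h2 _ _ (red_b u hu) (red_b w hw)))).trans ?_
    exact Finset.single_le_sum (f := fun k => L k * |C3|)
      (fun k _ => mul_nonneg (hL0 k) (abs_nonneg _)) (Finset.mem_univ j)
  have hxd : ∀ (s : ℝ) (k) (g : B.N),
      x k (lg B g) = Real.exp (s * v k) * x k (lg B (dl B s g)) := by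
    intro s k g
    rw [lg_dl, hsclx s k _ (lg_spec B g).1, ← mul_assoc, ← Real.exp_add, add_neg_cancel,
      Real.exp_zero, one_mul]
  have hxbd : ∀ (s C : ℝ) (k) (g : B.N), |x k (lg B g)| ≤ C * Real.exp (s * v k) ↔
      |x k (lg B (dl B s g))| ≤ C := by
    intro s C k g
    rw [hxd s k g, abs_mul, abs_of_pos (Real.exp_pos _), mul_comm C]
    exact mul_le_mul_iff_right₀ (Real.exp_pos _)
  let T : Tower B.N (Module.finrank ℝ B.n) :=
    { x := fun k g => if h : k < Module.finrank ℝ B.n then x ⟨k, h⟩ (lg B g) else 0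
      w := fun k => if h : k < Module.finrank ℝ B.n then v ⟨k, h⟩ / Real.log 3 else 1
      z := fun k ρ => if h : k < Module.finrank ℝ B.n then
        mkN B (ρ • e ⟨k, h⟩) (B.n.smul_mem _ (hemem _)) else 1
      one_le_w := fun j hj => by
        rw [dif_pos hj, one_le_div hl3]
        exact hv3 _
      x_one := fun j hj => by
        rw [dif_pos hj, lg_one, map_zero]
      dep := fun j hj u u' w w' hu hw => by
        simp only [dif_pos hj]
        refine hdep ⟨j, hj⟩ u u' w w' (fun i hi => ?_) (fun i hi => ?_)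
        · have := hu i hi
          simpa only [dif_pos i.2] using this
        · have := hw i hi
          simpa only [dif_pos i.2] using this
      bd := fun C => by
        obtain ⟨C', hC'⟩ := hbd0 C
        refine ⟨C', fun j hj s u w hu hw => ?_⟩
        simp only [dif_pos hj]
        rw [hpow3]
        have h1 := hC' ⟨j, hj⟩ (dl B s u) (dl B s w) (fun i hi => ?_) (fun i hi => ?_)
        · rw [← dl_mul] at h1
          rw [hxd s ⟨j, hj⟩ (u * w), hxd s ⟨j, hj⟩ u, hxd s ⟨j, hj⟩ w, ← mul_sub, ← mul_sub, abs_mul,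
            abs_of_pos (Real.exp_pos _), mul_comm C']
          exact mul_le_mul_of_nonneg_left h1 (Real.exp_pos _).le
        · have h2 := hu i hi
          simp only [dif_pos i.2, hpow3] at h2
          exact (hxbd s C i u).1 h2
        · have h2 := hw i hi
          simp only [dif_pos i.2, hpow3] at h2
          exact (hxbd s C i w).1 h2
      z_zero := fun j hj => by
        rw [dif_pos hj]
        apply Subtype.ext
        apply Units.ext
        rw [mkN_val, zero_smul, NormedSpace.exp_zero]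
        rfl
      x_z := fun j hj ρ => by
        rw [dif_pos hj, dif_pos hj, lg_mkN, map_smul, hdual, if_pos rfl, smul_eq_mul, mul_one]
      x_z_ne := fun j i hj hi hij ρ => by
        rw [dif_pos hj, dif_pos hi, lg_mkN, map_smul, hdual, if_neg, smul_zero]
        intro h
        exact hij (Fin.mk.inj_iff.1 h) }
  have hTx : ∀ (k : Fin (Module.finrank ℝ B.n)) (g : B.N), T.x k g = x k (lg B g) :=
    fun k g => dif_pos k.2
  have hTw : ∀ (k : Fin (Module.finrank ℝ B.n)), T.w k = v k / Real.log 3 := fun k => dif_pos k.2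
  have hentry : ∀ (s : ℝ) (g : B.N) (i j : Fin m), ((g : GL (Fin m) ℝ) : Mat m) i j =
      Real.exp (s * (B.H i - B.H j)) * ((dl B s g : GL (Fin m) ℝ) : Mat m) i j := by
    intro s g i j
    rw [dl_val]
    show _ = Real.exp (s * (B.H i - B.H j)) *
      (Real.exp (-(s * (B.H i - B.H j))) * ((g : GL (Fin m) ℝ) : Mat m) i j)
    rw [← mul_assoc, ← Real.exp_add, add_neg_cancel, Real.exp_zero, one_mul]
  refine ⟨T, ?_, ?_⟩
  · intro C
    obtain ⟨C1, hC1, h1⟩ := plog_bdd m (max C 1)
    choose L hL0 hL using fun k => lin_bdd (x k)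
    refine ⟨∑ k, L k * |C1|, Finset.sum_nonneg fun k _ => mul_nonneg (hL0 k) (abs_nonneg _),
      fun s g hg i hi => ?_⟩
    have hlow := hTx ⟨i, hi⟩ g
    have hw := hTw ⟨i, hi⟩
    simp only at hlow hw
    rw [hlow, hw, hpow3, hxbd]
    have hent : ∀ p q, |((dl B s g : GL (Fin m) ℝ) : Mat m) p q| ≤ max C 1 := by
      intro p q
      by_cases hpq : B.H q < B.H p
      · have h2 := hg p q hpq
        rw [hentry s g p q, abs_mul, abs_of_pos (Real.exp_pos _), mul_comm C] at h2
        exact (le_of_mul_le_mul_left h2 (Real.exp_pos _)).trans (le_max_left _ _)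
      · have h2 := exp_sub_one_gt (n_gt B (lg_spec B (dl B s g)).1)
        rw [(lg_spec B (dl B s g)).2] at h2
        have h3 : (((dl B s g : GL (Fin m) ℝ) : Mat m) - 1) p q = 0 := by
          by_contra hn
          have := h2 p q hn
          apply hpq
          linarith
        rw [Matrix.sub_apply, sub_eq_zero] at h3
        rw [h3]
        refine le_trans ?_ (le_max_right C 1)
        rw [Matrix.one_apply]
        split_ifs
        · rw [abs_one]
        · rw [abs_zero]
          exact zero_le_one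
    refine (hL ⟨i, hi⟩ _ C1 (h1 _ hent)).trans ?_
    exact Finset.single_le_sum (f := fun k => L k * |C1|)
      (fun k _ => mul_nonneg (hL0 k) (abs_nonneg _)) (Finset.mem_univ (⟨i, hi⟩ : Fin _))
  · intro C
    obtain ⟨M, hM0, hM⟩ := comb_bdd e
    obtain ⟨C1, hC1, h1⟩ := exp_bdd m (M * |C|)
    refine ⟨C1, hC1, fun s g hg i j _ => ?_⟩
    rw [hentry s g i j, abs_mul, abs_of_pos (Real.exp_pos _), mul_comm C1]
    refine mul_le_mul_of_nonneg_left ?_ (Real.exp_pos _).le
    rw [← (lg_spec B (dl B s g)).2]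
    refine h1 _ (n_pow B (lg_spec B (dl B s g)).1) ?_ i j
    rw [hsum _ (lg_spec B (dl B s g)).1]
    refine hM (fun k => x k (lg B (dl B s g))) C fun k => ?_
    have h2 := hg k k.2
    rw [hTx, hTw, hpow3, hxbd] at h2
    exact h2

end MP65
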