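import Pool.Agent.Work.MP_65b809_gt.Defs

/-! # NetFin : from `PolyDim` to the asymptotic dimensions of a net

Let `PolyDim d D` on `Y` and `Z ⊆ Y` with distinct points of `Z` at distance `≥ 1`. For `r ≥ 0` apply
`PolyDim` with `r`, `ε = 1/2`, `q = D + 1`. `X i = {z ∈ Z : f i z ≠ none}`: cover as at most `D` of the
`D + 1` colours miss `z` (`Set.ncard`). `P i` = the set of the nonempty sets
`{z : f i z = some a}`; `Y` = the union of the `P i`. Two different members of `P i`: `d > r`.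
Growth: for `z` in a member, `ρ ≥ 0`: with `n = ⌈ρ⌉₊`, the code `g` is injective on the points of the
member at distance `≤ ρ` (equal codes give `d ≤ 1/2 < 1`, so equal), with values `< C (n+1)^e`,
`n + 1 ≤ ρ + 2`; and `C (ρ+2)^e ≤ C' (C' ρ)^(e+1) + C'` with `C' = C 4^(e+1) + 1`, for instance
(`ρ ≤ 1`: `(ρ+2)^e ≤ 3^e`; `ρ ≥ 1`: `(ρ+2)^e ≤ (3ρ)^(e+1)`).
`PolyFamily → SubexpFamily` with `V ρ = ρ^e`: `log(ρ^e)/ρ = e log ρ/ρ → 0`
(`Real.isLittleO_log_id_atTop` or `Real.tendsto_pow_log_div_mul_add_atTop`).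
-/

namespace MP65

open Set Filter Topology

theorem subexp_of_poly {Z : Type*} {d : Z → Z → ℝ} {Y : Set (Set Z)} (h : PolyFamily d Y) :
    SubexpFamily d Y := by
  obtain ⟨e, he, hg⟩ := h
  refine ⟨fun r => r ^ e, ?_, fun r hr => pow_nonneg hr e, ?_, hg⟩
  · intro a ha b _ hab
    exact pow_le_pow_left₀ ha hab e
  · have h1 : Tendsto (fun r : ℝ => (e : ℝ) * (Real.log r / r)) atTop (𝓝 ((e : ℝ) * 0)) :=
      (Real.isLittleO_log_id_atTop.tendsto_div_nhds_zero).const_mul (e : ℝ)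
    rw [mul_zero] at h1
    refine h1.congr fun r => ?_
    rw [Real.log_pow]
    ring

theorem asdimSe_le_poly {Z : Type*} (d : Z → Z → ℝ) : asdimSe d ≤ asdimPoly d := by
  unfold asdimSe asdimPoly asdimOf
  refine le_iInf₂ fun n hn => iInf₂_le n ?_
  intro r hr
  obtain ⟨Y, hY, hX⟩ := hn r hr
  exact ⟨Y, subexp_of_poly hY, hX⟩

private lemma nf_bound (C e : ℕ) (ρ : ℝ) (hρ : 0 ≤ ρ) :
    (C : ℝ) * (ρ + 2) ^ e ≤ ((C : ℝ) * 4 ^ (e + 1) + 1) * ((((C : ℝ) * 4 ^ (e + 1) + 1) * ρ) ^ (e + 1))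
      + ((C : ℝ) * 4 ^ (e + 1) + 1) := by
  have hC : (0 : ℝ) ≤ C := Nat.cast_nonneg C
  set C' : ℝ := (C : ℝ) * 4 ^ (e + 1) + 1 with hC'
  have hC'1 : 1 ≤ C' := by
    have : 0 ≤ (C : ℝ) * 4 ^ (e + 1) := by positivity
    linarith
  have h34 : (3 : ℝ) ^ (e + 1) ≤ 4 ^ (e + 1) := pow_le_pow_left₀ (by norm_num) (by norm_num) _
  rcases le_total ρ 1 with h | h
  · have h1 : (ρ + 2) ^ e ≤ 4 ^ (e + 1) := by
      calc (ρ + 2) ^ e ≤ 3 ^ e := pow_le_pow_left₀ (by linarith) (by linarith) _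
        _ ≤ 3 ^ (e + 1) := pow_le_pow_right₀ (by norm_num) (by omega)
        _ ≤ 4 ^ (e + 1) := h34
    have h2 : (C : ℝ) * (ρ + 2) ^ e ≤ C' := by
      calc (C : ℝ) * (ρ + 2) ^ e ≤ (C : ℝ) * 4 ^ (e + 1) := mul_le_mul_of_nonneg_left h1 hC
        _ ≤ C' := by linarith
    have h3 : 0 ≤ C' * (C' * ρ) ^ (e + 1) := by positivity
    linarith
  · have h1 : (ρ + 2) ^ e ≤ 4 ^ (e + 1) * ρ ^ (e + 1) := by
      calc (ρ + 2) ^ e ≤ (3 * ρ) ^ e := pow_le_pow_left₀ (by linarith) (by linarith) _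
        _ ≤ (3 * ρ) ^ (e + 1) := pow_le_pow_right₀ (by linarith) (by omega)
        _ = 3 ^ (e + 1) * ρ ^ (e + 1) := mul_pow _ _ _
        _ ≤ 4 ^ (e + 1) * ρ ^ (e + 1) := mul_le_mul_of_nonneg_right h34 (by positivity)
    have h2 : (C : ℝ) * (ρ + 2) ^ e ≤ C' * ρ ^ (e + 1) := by
      calc (C : ℝ) * (ρ + 2) ^ e ≤ (C : ℝ) * (4 ^ (e + 1) * ρ ^ (e + 1)) :=
            mul_le_mul_of_nonneg_left h1 hC
        _ = ((C : ℝ) * 4 ^ (e + 1)) * ρ ^ (e + 1) := by ring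
        _ ≤ C' * ρ ^ (e + 1) := mul_le_mul_of_nonneg_right (by linarith) (by positivity)
    have h3 : ρ ^ (e + 1) ≤ (C' * ρ) ^ (e + 1) := by
      apply pow_le_pow_left₀ hρ
      nlinarith
    have h4 : C' * ρ ^ (e + 1) ≤ C' * (C' * ρ) ^ (e + 1) :=
      mul_le_mul_of_nonneg_left h3 (by linarith)
    linarith

theorem asdimPoly_le {Y : Type} {d : Y → Y → ℝ} {D : ℕ} (h : PolyDim d D) {Z : Set Y}
    (hZ : ∀ x ∈ Z, ∀ y ∈ Z, x ≠ y → 1 ≤ d x y) :
    asdimPoly (fun a b : Z => d a.1 b.1) ≤ (D : ℕ∞) := by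
  unfold asdimPoly asdimOf
  refine iInf₂_le D ?_
  intro r hr
  obtain ⟨Λ, f, C, e, f1, f2, f3⟩ := h r (1 / 2) (D + 1) (by norm_num)
  let P : Fin (D + 1) → Set (Set Z) := fun i =>
    {A | A.Nonempty ∧ ∃ a, A = {z : Z | f i z.1 = some a}}
  refine ⟨⋃ i, P i, ?_, fun i => {z : Z | f i z.1 ≠ none}, ?_, ?_⟩
  · -- growth
    refine ⟨e + 1, by omega, (C : ℝ) * 4 ^ (e + 1) + 1, ?_, ?_⟩
    · have : 0 ≤ (C : ℝ) * 4 ^ (e + 1) := by positivity
      linarith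
    · intro A hA z hz ρ hρ
      rw [Set.mem_iUnion] at hA
      obtain ⟨i, -, a, rfl⟩ := hA
      obtain ⟨g, hg1, hg2⟩ := f3 i z.1 a ⌈ρ⌉₊ hz
      set n := ⌈ρ⌉₊ with hn
      have hρn : ρ ≤ n := Nat.le_ceil ρ
      have hnρ : (n : ℝ) + 1 ≤ ρ + 2 := by
        have := Nat.ceil_lt_add_one hρ
        linarith
      set S : Set Z := {x | x ∈ {z : Z | f i z.1 = some a} ∧ d z.1 x.1 ≤ ρ} with hS
      have hmaps : Set.MapsTo (fun x : Z => g x.1) S (Set.Iio (C * (n + 1) ^ e)) :=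
        fun x _ => hg1 x.1
      have hinj : Set.InjOn (fun x : Z => g x.1) S := by
        intro x hx y hy hxy
        by_contra hne
        have h1 := hg2 x.1 y.1 hx.1 hy.1 (hx.2.trans hρn) (hy.2.trans hρn) hxy
        have h2 := hZ x.1 x.2 y.1 y.2 (fun h => hne (Subtype.ext h))
        linarith
      have hfin : S.Finite := Set.Finite.of_injOn hmaps hinj (Set.finite_Iio _)
      refine ⟨hfin, ?_⟩
      have hcard : S.ncard ≤ C * (n + 1) ^ e := by
        have := Set.ncard_le_ncard_of_injOn (fun x : Z => g x.1) hmaps hinj (Set.finite_Iio _)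
        have h2 : (Set.Iio (C * (n + 1) ^ e)).ncard = C * (n + 1) ^ e := by
          rw [← Nat.card_coe_set_eq]
          simp
        rwa [h2] at this
      calc (S.ncard : ℝ) ≤ ((C * (n + 1) ^ e : ℕ) : ℝ) := by exact_mod_cast hcard
        _ = (C : ℝ) * ((n : ℝ) + 1) ^ e := by push_cast; ring
        _ ≤ (C : ℝ) * (ρ + 2) ^ e := by
            apply mul_le_mul_of_nonneg_left _ (Nat.cast_nonneg C)
            exact pow_le_pow_left₀ (by positivity) hnρ e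
        _ ≤ _ := nf_bound C e ρ hρ
  · -- cover
    rw [Set.eq_univ_iff_forall]
    intro z
    by_contra hcon
    have h1 : ({i | f i z.1 = none} : Set (Fin (D + 1))) = Set.univ := by
      rw [Set.eq_univ_iff_forall]
      intro i
      by_contra hi
      exact hcon (Set.mem_iUnion.2 ⟨i, hi⟩)
    have h2 := f1 z.1
    rw [h1, Set.ncard_univ, Nat.card_eq_fintype_card, Fintype.card_fin] at h2
    omega
  · intro i
    refine ⟨P i, Set.subset_iUnion P i, ?_, ?_⟩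
    · ext z
      simp only [Set.mem_sUnion]
      constructor
      · rintro ⟨A, ⟨_, a, rfl⟩, hz⟩
        have hz' : f i z.1 = some a := hz
        show f i z.1 ≠ none
        rw [hz']; simp
      · intro hz
        have hz' : f i z.1 ≠ none := hz
        obtain ⟨a, ha⟩ := Option.ne_none_iff_exists'.1 hz'
        exact ⟨{w : Z | f i w.1 = some a}, ⟨⟨z, ha⟩, a, rfl⟩, ha⟩
    · rintro A ⟨_, a, rfl⟩ B ⟨_, b, rfl⟩ hAB x hx y hy
      by_contra hcon
      push Not at hcon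
      have := f2 i x.1 y.1 a b hcon.le hx hy
      apply hAB
      rw [this]

end MP65
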