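import Pool.Agent.Work.MP_65b809_gt.PDBase

/-! # PDEucl : Euclidean space has `PolyDim 0`

One label `()`, no missed colours. Cover: the ball of radius `n` about `x`: code of `y` = the vector of
`⌊(y i - x i) / η⌋ + ⌈n/η⌉ + 1`, `η = ε / (k+1)`, in a box of side `≤ 2(n/η + 2)`, encoded as a
natural number `< C (n+1)^k`. Two points with the same code: `|y i - z i| ≤ η`, so
`dist y z ≤ √k η ≤ ε` (`EuclideanSpace.dist_eq`).
-/

namespace MP65

private lemma pde_real : PolyDim (fun x y : ℝ => |x - y|) 0 := by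
  intro r ε q hε
  set c : ℕ := ⌈1 / ε⌉₊ with hc
  have hcε : 1 / ε ≤ c := Nat.le_ceil _
  refine ⟨Unit, fun _ _ => some (), 2 * c + 1, 1, ?_, ?_, ?_⟩
  · intro x; simp
  · intro i x y a b _ _ _; rfl
  · intro i x a n _
    classical
    have hnc : (n : ℝ) / ε ≤ n * c := by
      calc (n : ℝ) / ε = n * (1 / ε) := by ring
        _ ≤ n * c := mul_le_mul_of_nonneg_left hcε (Nat.cast_nonneg n)
    refine ⟨fun y => if |x - y| ≤ n then (⌊(y - x) / ε⌋ + (n * c : ℕ)).toNat else 0, ?_, ?_⟩
    · intro y
      simp only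
      split_ifs with h
      · rw [abs_le] at h
        have h1 : (y - x) / ε ≤ n * c := by
          refine le_trans ?_ hnc
          apply div_le_div_of_nonneg_right _ hε.le
          linarith
        have h2 : (⌊(y - x) / ε⌋ : ℤ) ≤ ((n * c : ℕ) : ℤ) := by
          have : ((⌊(y - x) / ε⌋ : ℤ) : ℝ) ≤ (((n * c : ℕ) : ℤ) : ℝ) := by
            refine (Int.floor_le _).trans ?_
            push_cast
            exact h1
          exact_mod_cast this
        have h3 : (⌊(y - x) / ε⌋ + (n * c : ℕ)).toNat ≤ 2 * (n * c) := by omega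
        calc (⌊(y - x) / ε⌋ + (n * c : ℕ)).toNat ≤ 2 * (n * c) := h3
          _ < (2 * c + 1) * (n + 1) ^ 1 := by nlinarith
      · positivity
    · intro y z _ _ hy hz hyz
      simp only at hyz hy hz
      rw [if_pos hy, if_pos hz] at hyz
      have key : ∀ w, |x - w| ≤ n → 0 ≤ ⌊(w - x) / ε⌋ + ((n * c : ℕ) : ℤ) := by
        intro w hw
        rw [abs_le] at hw
        have h1 : -((n : ℝ) * c) ≤ (w - x) / ε := by
          have h2 : -((n : ℝ) / ε) ≤ (w - x) / ε := by
            rw [← neg_div]
            apply div_le_div_of_nonneg_right _ hε.le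
            linarith
          linarith
        have h3 : -((n * c : ℕ) : ℤ) ≤ ⌊(w - x) / ε⌋ := by
          rw [Int.le_floor]
          push_cast
          exact h1
        linarith
      have h1 := key y hy
      have h2 := key z hz
      have h3 : ⌊(y - x) / ε⌋ = ⌊(z - x) / ε⌋ := by omega
      have h4 := Int.abs_sub_lt_one_of_floor_eq_floor h3
      have h5 : (y - x) / ε - (z - x) / ε = (y - z) / ε := by ring
      rw [h5, abs_div, abs_of_pos hε, div_lt_one hε] at h4
      exact h4.le

theorem polyDim_eucl (k : ℕ) : PolyDim (fun x y : EuclideanSpace ℝ (Fin k) => dist x y) 0 := by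
  have hp := PolyDim.pi (n := k) (X := fun _ => ℝ) (d := fun _ => fun x y : ℝ => |x - y|)
    (D := fun _ => 0) (fun _ x x' => abs_nonneg _) (fun _ => pde_real)
  have h0 : ∑ _i : Fin k, 0 = 0 := by simp
  rw [h0] at hp
  have hdist : ∀ x y : EuclideanSpace ℝ (Fin k), dist x y ≤ ∑ i, |x i - y i| := by
    intro x y
    rw [EuclideanSpace.dist_eq]
    apply Real.sqrt_le_iff.2
    refine ⟨Finset.sum_nonneg (fun i _ => abs_nonneg _), ?_⟩
    have h1 : ∀ i, dist (x i) (y i) ^ 2 = |x i - y i| ^ 2 := by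
      intro i; rw [Real.dist_eq]
    simp only [h1]
    exact Finset.sum_sq_le_sq_sum_of_nonneg (fun i _ => abs_nonneg _)
  refine PolyDim.comap (fun (x : EuclideanSpace ℝ (Fin k)) (i : Fin k) => x i) ⟨k, ?_⟩ ?_ hp
  · intro x x'
    have h1 : ∀ i ∈ Finset.univ, |x i - x' i| ≤ dist x x' := by
      intro i _
      rw [← Real.dist_eq, EuclideanSpace.dist_eq]
      apply Real.le_sqrt_of_sq_le
      exact Finset.single_le_sum (f := fun i => dist (x i) (x' i) ^ 2)
        (fun j _ => sq_nonneg _) (Finset.mem_univ i)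
    calc ∑ i, |x i - x' i| ≤ ∑ _i : Fin k, dist x x' := Finset.sum_le_sum h1
      _ = k * dist x x' := by simp
      _ ≤ k * (dist x x' + 1) := by
          apply mul_le_mul_of_nonneg_left _ (Nat.cast_nonneg k)
          linarith
  · intro ε hε
    exact ⟨ε, hε, fun x x' hx => (hdist x x').trans hx⟩

end MP65
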