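import Pool.Agent.Work.MP_65b809_gt.PDBase

/-! # PDTree : the 3-regular tree has `PolyDim 1`

Fix a root `o` (if `V` is empty everything is trivial), `|v| = T.dist o v`. For `v ≠ o` choose a neighbour
`par v` with `|par v| = |v| - 1`; `par o = o`. In a tree every edge `v ~ w` has `w = par v` or `v = par w`
(`IsTree.dist_ne_of_adj`: `|w| = |v| ± 1`; a vertex `v ≠ o` has only one neighbour closer to `o`, by
uniqueness of paths `IsTree.existsUnique_path`/`IsAcyclic.path_unique`: two such neighbours would give
two different shortest paths from `o` to `v`).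
Given `r, q`: `R = ⌈max r 0⌉₊`, `L = R + 1`. Colour `i` misses `v` iff `(|v| / L) % q = i`. For a vertex
`v` not missed by `i` let its window be the maximal interval of blocks `|v|/L` without a block
`≡ i mod q` containing its block: index `k(v) = (|v|/L + q - 1 - i) / q` (natural division; two
non-missed blocks have the same index iff there is no missed block between them); let
`lo = max 0 ((first block of the window) L - R)` (a function of `k(v)`, `i`) and label
`(k(v), anc v)`, `anc v = par^{|v| - lo} v`.
Adjacency: if `T.dist v w ≤ R` and both not missed: levels differ by `≤ R < L` so the blocks differ by at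
most one and the windows agree; a shortest path from `v` to `w` stays at levels `≥ lo`, and for an
edge `u ~ u'` with both levels `≥ lo`, `par^{|u|-lo} u = par^{|u'|-lo} u'` as `u' = par u` or
`u = par u'`.
Pieces: the vertices with a given label are at distance `≤ q L + R` from `anc v`; every vertex has `3`
neighbours, so there are at most `4^{qL+R+1}` such vertices (number of vertices at distance `≤ k` is
`≤ 4^k`, induction on `k`). So with an injective code on this finite set `g y = g z → y = z`,
`T.dist = 0 ≤ ε`. `e = 0`.
-/

namespace MP65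

open SimpleGraph

private lemma pdt_exists_par {V : Type} (T : SimpleGraph V) (hT : T.IsTree) (o v : V)
    (hv : v ≠ o) : ∃ u, T.Adj u v ∧ T.dist o u + 1 = T.dist o v := by
  obtain ⟨p, hp⟩ := hT.connected.exists_walk_length_eq_dist o v
  have hnil : ¬ p.Nil := SimpleGraph.Walk.not_nil_of_ne hv.symm
  refine ⟨p.penultimate, p.adj_penultimate hnil, ?_⟩
  have h1 := T.dist_le p.dropLast
  have h2 := SimpleGraph.Walk.length_dropLast_add_one hnil
  have h3 := (p.adj_penultimate hnil).diff_dist_adj (u := o)
  omega

private lemma pdt_unique_par {V : Type} (T : SimpleGraph V) (hT : T.IsTree) (o v u u' : V)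
    (h1 : T.Adj u v) (h2 : T.dist o u + 1 = T.dist o v)
    (h1' : T.Adj u' v) (h2' : T.dist o u' + 1 = T.dist o v) : u = u' := by
  obtain ⟨p, hp⟩ := hT.connected.exists_walk_length_eq_dist o u
  obtain ⟨p', hp'⟩ := hT.connected.exists_walk_length_eq_dist o u'
  have hq : (p.concat h1).IsPath := by
    apply SimpleGraph.Walk.isPath_of_length_eq_dist
    rw [SimpleGraph.Walk.length_concat, hp, h2]
  have hq' : (p'.concat h1').IsPath := by
    apply SimpleGraph.Walk.isPath_of_length_eq_dist
    rw [SimpleGraph.Walk.length_concat, hp', h2']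
  have heq := (hT.existsUnique_path o v).unique hq hq'
  have := congrArg SimpleGraph.Walk.penultimate heq
  rwa [SimpleGraph.Walk.penultimate_concat, SimpleGraph.Walk.penultimate_concat] at this

open Classical in
private noncomputable def pdt_par {V : Type} (T : SimpleGraph V) (hT : T.IsTree) (o v : V) : V :=
  if h : v = o then o else Classical.choose (pdt_exists_par T hT o v h)

private lemma pdt_par_spec {V : Type} (T : SimpleGraph V) (hT : T.IsTree) (o v : V)
    (hv : v ≠ o) : T.Adj (pdt_par T hT o v) v ∧ T.dist o (pdt_par T hT o v) + 1 = T.dist o v := by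
  unfold pdt_par
  rw [dif_neg hv]
  exact Classical.choose_spec (pdt_exists_par T hT o v hv)

private lemma pdt_par_or {V : Type} (T : SimpleGraph V) (hT : T.IsTree) (o v : V) :
    pdt_par T hT o v = o ∨ T.Adj (pdt_par T hT o v) v := by
  by_cases hv : v = o
  · left; unfold pdt_par; rw [dif_pos hv]
  · right; exact (pdt_par_spec T hT o v hv).1

private lemma pdt_edge {V : Type} (T : SimpleGraph V) (hT : T.IsTree) (o u v : V)
    (h : T.Adj u v) :
    (u = pdt_par T hT o v ∧ T.dist o u + 1 = T.dist o v) ∨
    (v = pdt_par T hT o u ∧ T.dist o v + 1 = T.dist o u) := by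
  have key : ∀ u v : V, T.Adj u v → T.dist o u + 1 = T.dist o v → u = pdt_par T hT o v := by
    intro u v h h1
    have hv : v ≠ o := by
      rintro rfl
      rw [SimpleGraph.dist_self] at h1
      omega
    have h2 := pdt_par_spec T hT o v hv
    exact pdt_unique_par T hT o v u _ h h1 h2.1 h2.2
  have h1 := hT.dist_ne_of_adj o h
  have h2 := h.diff_dist_adj (u := o)
  have h3 : T.dist o u + 1 = T.dist o v ∨ T.dist o v + 1 = T.dist o u := by omega
  rcases h3 with h3 | h3
  · left; exact ⟨key u v h h3, h3⟩
  · right; exact ⟨key v u h.symm h3, h3⟩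

private lemma pdt_anc_walk {V : Type} (T : SimpleGraph V) (hT : T.IsTree) (o : V) (lo : ℕ)
    {v w : V} (p : T.Walk v w) (hp : ∀ x ∈ p.support, lo ≤ T.dist o x) :
    (pdt_par T hT o)^[T.dist o v - lo] v = (pdt_par T hT o)^[T.dist o w - lo] w := by
  induction p with
  | nil => rfl
  | @cons a b c h p ih =>
    rw [← ih (fun x hx => hp x (by rw [SimpleGraph.Walk.support_cons]; exact List.mem_cons_of_mem _ hx))]
    have ha : lo ≤ T.dist o a := hp a (by simp)
    have hb : lo ≤ T.dist o b := hp b (by simp)
    rcases pdt_edge T hT o a b h with ⟨h1, h2⟩ | ⟨h1, h2⟩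
    · have h3 : T.dist o b - lo = (T.dist o a - lo) + 1 := by omega
      rw [h3, Function.iterate_succ_apply, ← h1]
    · have h3 : T.dist o a - lo = (T.dist o b - lo) + 1 := by omega
      rw [h3, Function.iterate_succ_apply, ← h1]

private lemma pdt_desc {V : Type} (T : SimpleGraph V) (hT : T.IsTree)
    (h3 : ∀ v, (T.neighborSet v).ncard = 3) (o : V) (m : ℕ) (u : V) :
    ∃ S : Finset V, S.card ≤ 4 ^ m ∧ ∀ y, (pdt_par T hT o)^[m] y = u → y ∈ S := by
  classical
  induction m with
  | zero =>
    exact ⟨{u}, by simp, fun y hy => by simpa using hy⟩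
  | succ m ih =>
    obtain ⟨S, hS, hS2⟩ := ih
    have hfin : ∀ v, (T.neighborSet v).Finite := fun v =>
      Set.finite_of_ncard_ne_zero (by rw [h3 v]; norm_num)
    refine ⟨S.biUnion (fun x => insert o (hfin x).toFinset), ?_, ?_⟩
    · calc (S.biUnion (fun x => insert o (hfin x).toFinset)).card ≤ S.card * 4 := by
            apply Finset.card_biUnion_le_card_mul
            intro x _
            refine (Finset.card_insert_le _ _).trans ?_
            rw [← Set.ncard_eq_toFinset_card (T.neighborSet x) (hfin x), h3 x]
        _ ≤ 4 ^ m * 4 := Nat.mul_le_mul_right _ hS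
        _ = 4 ^ (m + 1) := by ring
    · intro y hy
      rw [Function.iterate_succ_apply] at hy
      rw [Finset.mem_biUnion]
      refine ⟨pdt_par T hT o y, hS2 _ hy, ?_⟩
      rw [Finset.mem_insert]
      by_cases hyo : y = o
      · left; exact hyo
      · right
        rw [Set.Finite.mem_toFinset]
        exact (pdt_par_spec T hT o y hyo).1

private lemma pdt_code {V : Type} (S : Finset V) (C : ℕ) (hC : 1 ≤ C) (hS : S.card ≤ C) :
    ∃ g : V → ℕ, (∀ y, g y < C) ∧ ∀ y ∈ S, ∀ z ∈ S, g y = g z → y = z := by
  classical
  refine ⟨fun y => if h : y ∈ S then (S.equivFin ⟨y, h⟩ : Fin S.card).val else 0, ?_, ?_⟩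
  · intro y
    simp only
    split_ifs with h
    · exact lt_of_lt_of_le (Fin.is_lt _) hS
    · omega
  · intro y hy z hz hyz
    simp only [dif_pos hy, dif_pos hz] at hyz
    have := S.equivFin.injective (Fin.ext hyz)
    exact congrArg Subtype.val this

theorem polyDim_tree {V : Type} (T : SimpleGraph V) (hT : T.IsTree)
    (h3 : ∀ v, (T.neighborSet v).ncard = 3) : PolyDim (fun x y : V => (T.dist x y : ℝ)) 1 := by
  classical
  obtain ⟨o⟩ := hT.connected.nonempty
  intro r ε q hε
  set R : ℕ := ⌈r⌉₊ with hR
  set L : ℕ := R + 1 with hL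
  have hL0 : 0 < L := by omega
  set M : ℕ := q * L + R with hM
  -- index of the window and lowest level
  let kk : Fin q → V → ℕ := fun i v => (T.dist o v / L + (q - 1 - i)) / q
  let lo : Fin q → ℕ → ℕ := fun i k => (k * q - (q - 1 - i)) * L - R
  let f : Fin q → V → Option (ℕ × V) := fun i v =>
    if (T.dist o v / L) % q = i then none
    else some (kk i v, (pdt_par T hT o)^[T.dist o v - lo i (kk i v)] v)
  -- arithmetic facts about the window
  have hwin : ∀ (i : Fin q) (v : V), (T.dist o v / L) % q ≠ i →
      (kk i v * q - (q - 1 - i)) ≤ T.dist o v / L ∧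
      T.dist o v / L + 1 ≤ (kk i v * q - (q - 1 - i)) + q := by
    intro i v _
    have hq : 0 < q := lt_of_le_of_lt (Nat.zero_le _) i.2
    have hi := i.2
    have h1 : kk i v * q ≤ T.dist o v / L + (q - 1 - i) := Nat.div_mul_le_self _ _
    have h2 : T.dist o v / L + (q - 1 - i) < (kk i v + 1) * q := by
      have := Nat.lt_div_mul_add hq (a := T.dist o v / L + (q - 1 - i))
      calc T.dist o v / L + (q - 1 - i) < (T.dist o v / L + (q - 1 - i)) / q * q + q := this
        _ = (kk i v + 1) * q := by simp only [kk]; ring
    rw [add_mul, one_mul] at h2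
    have aux : ∀ b kq s q : ℕ, kq ≤ b + s → b + s < kq + q → kq - s ≤ b ∧ b + 1 ≤ kq - s + q := by
      intro b kq s q h1 h2
      omega
    exact aux _ _ _ _ h1 h2
  have hlow : ∀ (i : Fin q) (v : V), (T.dist o v / L) % q ≠ i →
      lo i (kk i v) + R ≤ T.dist o v ∨ (lo i (kk i v) = 0) := by
    intro i v hv
    have h1 := (hwin i v hv).1
    have h2 : (kk i v * q - (q - 1 - i)) * L ≤ T.dist o v :=
      (Nat.mul_le_mul_right L h1).trans (Nat.div_mul_le_self _ _)
    simp only [lo]
    omega
  have hhigh : ∀ (i : Fin q) (v : V), (T.dist o v / L) % q ≠ i →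
      T.dist o v - lo i (kk i v) ≤ M := by
    intro i v hv
    have h1 := (hwin i v hv).2
    have h2 : T.dist o v < (T.dist o v / L + 1) * L := by
      have := Nat.lt_div_mul_add hL0 (a := T.dist o v)
      calc T.dist o v < T.dist o v / L * L + L := this
        _ = (T.dist o v / L + 1) * L := by ring
    have h4 : (T.dist o v / L + 1) * L ≤ (kk i v * q - (q - 1 - i)) * L + q * L := by
      rw [← add_mul]
      exact Nat.mul_le_mul_right L h1
    simp only [lo]
    omega
  refine ⟨ℕ × V, f, (M + 1) * 4 ^ M, 0, ?_, ?_, ?_⟩
  · intro x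
    rw [Set.ncard_le_one (Set.toFinite _)]
    intro a ha b hb
    have key : ∀ c : Fin q, f c x = none → (T.dist o x / L) % q = c := by
      intro c hc
      by_contra hcon
      simp only [f, if_neg hcon] at hc
      exact absurd hc (by simp)
    apply Fin.ext
    rw [← key a ha, ← key b hb]
  · intro i x y a b hxy ha hb
    have hxm : (T.dist o x / L) % q ≠ i := by
      intro h; simp only [f, if_pos h] at ha; exact absurd ha (by simp)
    have hym : (T.dist o y / L) % q ≠ i := by
      intro h; simp only [f, if_pos h] at hb; exact absurd hb (by simp)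
    simp only [f, if_neg hxm, Option.some.injEq] at ha
    simp only [f, if_neg hym, Option.some.injEq] at hb
    have hd : T.dist x y ≤ R := by
      have h1 : (T.dist x y : ℝ) ≤ (R : ℝ) := hxy.trans (Nat.le_ceil r)
      exact_mod_cast h1
    have ht1 : T.dist o y ≤ T.dist o x + T.dist x y := hT.connected.dist_triangle
    have ht2 : T.dist o x ≤ T.dist o y + T.dist x y := by
      have := hT.connected.dist_triangle (u := o) (v := y) (w := x)
      rwa [T.dist_comm (u := y) (v := x)] at this
    have hkey : ∀ x y : V, (T.dist o x / L) % q ≠ i → (T.dist o y / L) % q ≠ i →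
        T.dist o y ≤ T.dist o x + R → T.dist o x ≤ T.dist o y → kk i x = kk i y := by
      intro x y hx hy h1 h2
      have hq : 0 < q := lt_of_le_of_lt (Nat.zero_le _) i.2
      have hi := i.2
      have hb1 : T.dist o x / L ≤ T.dist o y / L := Nat.div_le_div_right h2
      have hb2 : T.dist o y / L ≤ T.dist o x / L + 1 := by
        rw [Nat.div_le_iff_le_mul_add_pred hL0]
        have := Nat.lt_div_mul_add hL0 (a := T.dist o x)
        have h5 : L * (T.dist o x / L + 1) = T.dist o x / L * L + L := by ring
        rw [h5]
        omega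
      rcases Nat.lt_or_ge (T.dist o x / L) (T.dist o y / L) with hlt | hge
      · have hb3 : T.dist o y / L = T.dist o x / L + 1 := by omega
        simp only [kk]
        rw [hb3]
        -- (b + s) % q ≠ q - 1
        set b := T.dist o x / L with hbdef
        have h6 : (b + (q - 1 - i)) % q ≠ q - 1 := by
          intro h7
          apply hx
          have h8 := Nat.div_add_mod (b + (q - 1 - i)) q
          have h9 : b = q * ((b + (q - 1 - i)) / q) + i := by omega
          rw [h9, Nat.mul_add_mod]
          exact Nat.mod_eq_of_lt hi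
        have h7 : b + 1 + (q - 1 - i) = (b + (q - 1 - i)) + 1 := by omega
        rw [h7]
        have h8 := Nat.div_add_mod (b + (q - 1 - i)) q
        have h9 := Nat.mod_lt (b + (q - 1 - i)) hq
        symm
        rw [Nat.div_eq_iff hq]
        constructor
        · rw [mul_comm]; omega
        · rw [mul_comm]; omega
      · have hb3 : T.dist o x / L = T.dist o y / L := by omega
        simp only [kk]
        rw [hb3]
    have hk : kk i x = kk i y := by
      rcases le_total (T.dist o x) (T.dist o y) with h | h
      · exact hkey x y hxm hym (by omega) h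
      · exact (hkey y x hym hxm (by omega) h).symm
    rw [← ha, ← hb, hk]
    congr 1
    obtain ⟨p, hp⟩ := hT.connected.exists_walk_length_eq_dist x y
    apply pdt_anc_walk T hT o _ p
    intro z hz
    rcases hlow i x hxm with h | h
    · have h5 : T.dist x z ≤ R := by
        have h6 := T.dist_le (p.takeUntil z hz)
        have h7 := p.length_takeUntil_le_length hz
        omega
      have h6 : T.dist o x ≤ T.dist o z + T.dist x z := by
        have := hT.connected.dist_triangle (u := o) (v := z) (w := x)
        rwa [T.dist_comm (u := z) (v := x)] at this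
      rw [hk] at h
      omega
    · rw [hk] at h
      omega
  · intro i x a n _
    have hdesc := fun m => pdt_desc T hT h3 o m a.2
    choose S hS1 hS2 using hdesc
    have hcard : ((Finset.range (M + 1)).biUnion S).card ≤ (M + 1) * 4 ^ M := by
      refine (Finset.card_biUnion_le_card_mul _ _ (4 ^ M) ?_).trans (by rw [Finset.card_range])
      intro m hm
      rw [Finset.mem_range] at hm
      exact (hS1 m).trans (Nat.pow_le_pow_right (by norm_num) (by omega))
    obtain ⟨g, hg1, hg2⟩ := pdt_code ((Finset.range (M + 1)).biUnion S) ((M + 1) * 4 ^ M)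
      (Nat.one_le_iff_ne_zero.2 (by positivity)) hcard
    refine ⟨g, ?_, ?_⟩
    · intro y
      rw [pow_zero, mul_one]
      exact hg1 y
    · intro y z hy hz _ _ hyz
      have hmem : ∀ w, f i w = some a → w ∈ (Finset.range (M + 1)).biUnion S := by
        intro w hw
        have hwm : (T.dist o w / L) % q ≠ i := by
          intro h; simp only [f, if_pos h] at hw; exact absurd hw (by simp)
        simp only [f, if_neg hwm, Option.some.injEq] at hw
        rw [Finset.mem_biUnion]
        refine ⟨T.dist o w - lo i (kk i w), ?_, ?_⟩
        · rw [Finset.mem_range]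
          have := hhigh i w hwm
          omega
        · apply hS2
          rw [← hw]
      have := hg2 y (hmem y hy) z (hmem z hz) hyz
      show (T.dist y z : ℝ) ≤ ε
      rw [this, SimpleGraph.dist_self]
      simpa using hε.le

end MP65
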