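import Pool.Agent.Work.MP_65b809_gt.SymMain
import Pool.Agent.Work.MP_65b809_gt.PDEucl
import Pool.Agent.Work.MP_65b809_gt.PDTree
import Pool.Agent.Work.MP_65b809_gt.NetFin

/-! # Main : final assembly

`PolyDim.pi` for the rank one spaces, `polyDim_eucl`, `PolyDim.pi` for the trees, `PolyDim.prod`, then
`PolyDim.comap id`: with `S x y = ∑ rdist_i + dist + ∑ T.dist`:
`rdist_i ≤ totalDist / c_i`, `dist ≤ totalDist`, `T.dist ≤ totalDist`; and conversely
`totalDist ≤ ∑ c_i rdist_i + dist + ∑ T.dist` (`√(∑ a²) ≤ ∑ |a|`), so `totalDist` is small if `S` is.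
-/

namespace MP65

private theorem main_rdist_nonneg {m : ℕ} (x y : GL (Fin m) ℝ) : 0 ≤ rdist x y := Real.sqrt_nonneg _

theorem polyDim_total {n : ℕ} {m : Fin n → ℕ} (G : ∀ i, AlgGroup (m i)) (c : Fin n → ℝ)
    (k l : ℕ) {V : Type} (T : SimpleGraph V) (hc : ∀ i, 0 < c i) (hr : ∀ i, rankX (G i) = 1)
    (hT : T.IsTree) (h3 : ∀ v, (T.neighborSet v).ncard = 3) :
    PolyDim (totalDist G c k l T) (∑ i, (dimX (G i) - rankX (G i)) + l) := by
  have A := PolyDim.pi (X := fun i => SymSpace (G i)) (d := fun i x y => rdist x.1 y.1)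
    (D := fun i => dimX (G i) - rankX (G i)) (fun i x y => main_rdist_nonneg x.1 y.1)
    (fun i => polyDim_sym (G i) (hr i))
  have B := polyDim_eucl k
  have C := PolyDim.pi (X := fun _ : Fin l => V) (d := fun _ x y => (T.dist x y : ℝ))
    (D := fun _ => 1) (fun i x y => Nat.cast_nonneg _) (fun i => polyDim_tree T hT h3)
  have BC := PolyDim.prod (fun x y => dist_nonneg)
    (fun x y => Finset.sum_nonneg fun i _ => Nat.cast_nonneg _) B C
  have ABC := PolyDim.prod (fun x y => Finset.sum_nonneg fun i _ => main_rdist_nonneg _ _)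
    (fun x y => add_nonneg dist_nonneg (Finset.sum_nonneg fun i _ => Nat.cast_nonneg _)) A BC
  have hD : ∑ i, (dimX (G i) - rankX (G i)) + (0 + ∑ _i : Fin l, 1) =
      ∑ i, (dimX (G i) - rankX (G i)) + l := by simp
  rw [hD] at ABC
  have hr0 : ∀ (x y : Total G k l V) (i : Fin n), 0 ≤ rdist (x.1 i).1 (y.1 i).1 :=
    fun x y i => main_rdist_nonneg _ _
  refine PolyDim.comap (Y := Total G k l V) id ?_ ?_ ABC
  · refine ⟨⌈∑ i, 1 / c i + 2⌉₊, fun x y => ?_⟩
    have hL := Nat.le_ceil (∑ i, 1 / c i + 2)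
    have hs := Real.sqrt_nonneg (∑ i, (c i * rdist (x.1 i).1 (y.1 i).1) ^ 2 + dist x.2.1 y.2.1 ^ 2)
    have ht : (0 : ℝ) ≤ ∑ j, (T.dist (x.2.2 j) (y.2.2 j) : ℝ) :=
      Finset.sum_nonneg fun i _ => Nat.cast_nonneg _
    have h1 : ∀ i, rdist (x.1 i).1 (y.1 i).1 ≤ 1 / c i * totalDist G c k l T x y := by
      intro i
      have h2 : c i * rdist (x.1 i).1 (y.1 i).1 ≤
          Real.sqrt (∑ i, (c i * rdist (x.1 i).1 (y.1 i).1) ^ 2 + dist x.2.1 y.2.1 ^ 2) := by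
        apply Real.le_sqrt_of_sq_le
        have := Finset.single_le_sum (f := fun i => (c i * rdist (x.1 i).1 (y.1 i).1) ^ 2)
          (fun i _ => sq_nonneg _) (Finset.mem_univ i)
        nlinarith [sq_nonneg (dist x.2.1 y.2.1)]
      have h3 : c i * rdist (x.1 i).1 (y.1 i).1 ≤ totalDist G c k l T x y := by
        unfold totalDist; linarith
      rw [div_mul_eq_mul_div, one_mul, le_div_iff₀ (hc i)]
      linarith
    have h4 : dist x.2.1 y.2.1 ≤
        Real.sqrt (∑ i, (c i * rdist (x.1 i).1 (y.1 i).1) ^ 2 + dist x.2.1 y.2.1 ^ 2) := by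
      apply Real.le_sqrt_of_sq_le
      have : 0 ≤ ∑ i, (c i * rdist (x.1 i).1 (y.1 i).1) ^ 2 :=
        Finset.sum_nonneg fun i _ => sq_nonneg _
      linarith
    have h5 : ∑ i, rdist (x.1 i).1 (y.1 i).1 ≤ (∑ i, 1 / c i) * totalDist G c k l T x y := by
      rw [Finset.sum_mul]
      exact Finset.sum_le_sum fun i _ => h1 i
    have h6 : 0 ≤ totalDist G c k l T x y := by unfold totalDist; linarith
    have h7 : dist x.2.1 y.2.1 + ∑ j, (T.dist (x.2.2 j) (y.2.2 j) : ℝ) ≤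
        2 * totalDist G c k l T x y := by unfold totalDist; linarith
    show ∑ i, rdist (x.1 i).1 (y.1 i).1 + (dist x.2.1 y.2.1 +
      ∑ j, (T.dist (x.2.2 j) (y.2.2 j) : ℝ)) ≤ _
    calc _ ≤ (∑ i, 1 / c i + 2) * totalDist G c k l T x y := by linarith
      _ ≤ (⌈∑ i, 1 / c i + 2⌉₊ : ℝ) * totalDist G c k l T x y :=
        mul_le_mul_of_nonneg_right hL h6
      _ ≤ _ := by
        apply mul_le_mul_of_nonneg_left (by linarith) (Nat.cast_nonneg _)
  · intro ε hε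
    have hcs : 0 ≤ ∑ i, c i := Finset.sum_nonneg fun i _ => (hc i).le
    refine ⟨ε / (∑ i, c i + 1), by positivity, fun x y hxy => ?_⟩
    rw [le_div_iff₀ (by positivity)] at hxy
    replace hxy : (∑ i, rdist (x.1 i).1 (y.1 i).1 + (dist x.2.1 y.2.1 +
      ∑ j, (T.dist (x.2.2 j) (y.2.2 j) : ℝ))) * (∑ i, c i + 1) ≤ ε := hxy
    refine le_trans ?_ hxy
    have ht : (0 : ℝ) ≤ ∑ j, (T.dist (x.2.2 j) (y.2.2 j) : ℝ) :=
      Finset.sum_nonneg fun i _ => Nat.cast_nonneg _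
    have hS : 0 ≤ ∑ i, c i * rdist (x.1 i).1 (y.1 i).1 :=
      Finset.sum_nonneg fun i _ => mul_nonneg (hc i).le (hr0 x y i)
    have hR : 0 ≤ ∑ i, rdist (x.1 i).1 (y.1 i).1 :=
      Finset.sum_nonneg fun i _ => (hr0 x y i)
    have h1 : Real.sqrt (∑ i, (c i * rdist (x.1 i).1 (y.1 i).1) ^ 2 + dist x.2.1 y.2.1 ^ 2) ≤
        ∑ i, c i * rdist (x.1 i).1 (y.1 i).1 + dist x.2.1 y.2.1 := by
      apply Real.sqrt_le_iff.2 ⟨by positivity, ?_⟩
      have h2 : ∑ i, (c i * rdist (x.1 i).1 (y.1 i).1) ^ 2 ≤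
          (∑ i, c i * rdist (x.1 i).1 (y.1 i).1) ^ 2 :=
        Finset.sum_sq_le_sq_sum_of_nonneg fun i _ => mul_nonneg (hc i).le (hr0 x y i)
      nlinarith [dist_nonneg (x := x.2.1) (y := y.2.1), mul_nonneg hS (dist_nonneg (x := x.2.1) (y := y.2.1))]
    have h3 : ∑ i, c i * rdist (x.1 i).1 (y.1 i).1 ≤
        (∑ i, c i) * ∑ i, rdist (x.1 i).1 (y.1 i).1 := by
      rw [Finset.sum_mul]
      refine Finset.sum_le_sum fun i _ => mul_le_mul_of_nonneg_left ?_ (hc i).le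
      exact Finset.single_le_sum (f := fun i => rdist (x.1 i).1 (y.1 i).1)
          (fun i _ => hr0 x y i) (Finset.mem_univ i)
    have hd := dist_nonneg (x := x.2.1) (y := y.2.1)
    unfold totalDist
    nlinarith [mul_nonneg hcs hd, mul_nonneg hcs ht, mul_nonneg hcs hR]

theorem main {n : ℕ} {m : Fin n → ℕ} (G : ∀ i, AlgGroup (m i)) (c : Fin n → ℝ)
    (k l : ℕ) {V : Type} (T : SimpleGraph V) (hc : ∀ i, 0 < c i) (hr : ∀ i, rankX (G i) = 1)
    (hT : T.IsTree) (h3 : ∀ v, (T.neighborSet v).ncard = 3) (Z : Set (Total G k l V))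
    (hZ : IsNet (totalDist G c k l T) Z) :
    asdimSe (fun a b : Z => totalDist G c k l T a.1 b.1) ≤
        asdimPoly (fun a b : Z => totalDist G c k l T a.1 b.1) ∧
      asdimPoly (fun a b : Z => totalDist G c k l T a.1 b.1) ≤
        ((∑ i, (dimX (G i) - rankX (G i)) + l : ℕ) : ℕ∞) :=
  ⟨asdimSe_le_poly _, asdimPoly_le (polyDim_total G c k l T hc hr hT h3) hZ.1⟩

end MP65
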