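import Pool.Agent.Work.MP_65b809_gt.L1

/-! # Mass : interpolation between two structures by moving mass

`Y` any set with a relation `E`; `F ⊆ Y`; `lam : Y → [0,1]`. On `F ∩ {lam < 1}` there is a
`D`-structure `μA`, on `F ∩ {lam > 0}` a `D`-structure `μB`, and `φ y : IA → IB` with
`μA y v ≠ 0 → μB y (φ y v) ≠ 0`. With `mv` from `exists_moved IA` put, for `y ∈ F`,
`m y = mv (μA y) (2 lam y)` if `lam y < 1`, `κ y = max 0 (2 lam y - 1)`,
* `α y = μA y - m y` if `lam y < 1/2`, `0` otherwise,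
* `β y = (1 - κ y) • (m y).mapDomain (φ y) + κ y • μB y` if `0 < lam y < 1`; `β y = μB y` if
  `lam y = 1`; `β y = 0` if `lam y = 0`,
* `μ y = (α y).mapDomain inl + (β y).mapDomain inr`.
Total mass `1`: `∑ m y = min (2 lam y) 1`.
Support: for `lam y ≥ 1/2`: only `inr w` with `μB y w ≠ 0` (`w = φ y v` with `m y v > 0` implies
`μA y v ≠ 0`), at most `D + 1`. For `lam y < 1/2`: `card supp α + card φ(supp m) ≤ card supp α + card supp m ≤
card supp μA + 1 ≤ D + 2` since at most one `v` has `0 < m v < μA v`.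
Lipschitz: for `E`-related `y, y' ∈ F` (`|lam y - lam y'| ≤ δ`):
* both `lam < 1`, both `> 0`: `φ y = φ y'`. `l1 (m y - m y') ≤ 4 (D+1) (2δ + δ)`;
  `l1 (α y - α y') ≤ δ + 12 (D+1) δ` if both `lam < 1/2`; if `lam y < 1/2 ≤ lam y'` then
  `m y' = μA y'` (moved mass `≥ 1` = everything, so formula `α = μA - m` holds for `y'` too).
  `l1 (β y - β y') ≤ |κ y - κ y'| (1 + 1) + l1 (m y - m y') + δ ≤ 4δ + 12(D+1)δ + δ`
  (`l1 (m y) ≤ 1`).
* `lam y < 1`, `lam y' = 1`: then `1 - lam y ≤ δ`. If `δ ≥ 1/4` the bound is trivial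
  (`l1 (μ y - μ y') ≤ 2 ≤ 30 (D+1) δ`). Otherwise `lam y > 1/2`,
  `μ y - μ y' = (1-κ)(φ_* m - μB y') + κ (μB y - μB y')`, `1 - κ y = 2 (1 - lam y) ≤ 2δ`:
  `≤ 4δ + δ`.
* `lam y = 0 < lam y' ≤ δ`: if `δ ≥ 1/4` trivial. Otherwise `κ y' = 0`,
  `μ y = inl_* μA y` (`m y = 0`), `μ y' = inl_*(μA y' - m y') + inr_* φ_* m y'`:
  `≤ δ + 2·(2 lam y') ≤ 5 δ`.
* both `lam = 0` or both `= 1`: `≤ δ`. `lam y = 0`, `lam y' = 1`: `δ ≥ 1`, trivial.
-/

namespace MP65

theorem l1_eq_sum_of_nonneg {I : Type} {μ : I →₀ ℝ} (h : ∀ v, 0 ≤ μ v) :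
    l1 μ = μ.sum (fun _ a => a) :=
  Finset.sum_congr rfl fun v _ => abs_of_nonneg (h v)

theorem sumAdd' {I : Type} (μ ν : I →₀ ℝ) :
    (μ + ν).sum (fun _ a => a) = μ.sum (fun _ a => a) + ν.sum (fun _ a => a) :=
  Finsupp.sum_add_index' (fun _ => rfl) (fun _ _ _ => rfl)

theorem sumSub' {I : Type} (μ ν : I →₀ ℝ) :
    (μ - ν).sum (fun _ a => a) = μ.sum (fun _ a => a) - ν.sum (fun _ a => a) :=
  Finsupp.sum_sub_index (fun _ _ _ => rfl)

theorem sumSmul' {I : Type} (c : ℝ) (μ : I →₀ ℝ) :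
    (c • μ).sum (fun _ a => a) = c * μ.sum (fun _ a => a) := by
  rw [Finsupp.sum_smul_index (fun _ => rfl), Finsupp.mul_sum]

theorem sumMap' {I J : Type} (φ : I → J) (μ : I →₀ ℝ) :
    (μ.mapDomain φ).sum (fun _ a => a) = μ.sum (fun _ a => a) :=
  Finsupp.sum_mapDomain_index (fun _ => rfl) (fun _ _ _ => rfl)

theorem mapNonneg' {I J : Type} (φ : I → J) {μ : I →₀ ℝ} (h : ∀ v, 0 ≤ μ v) (w : J) :
    0 ≤ μ.mapDomain φ w := by
  classical
  unfold Finsupp.mapDomain Finsupp.sum
  rw [Finsupp.finsetSum_apply]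
  refine Finset.sum_nonneg fun v _ => ?_
  rw [Finsupp.single_apply]
  split
  · exact h v
  · exact le_rfl

theorem map_ne_zero' {I J : Type} (φ : I → J) {μ : I →₀ ℝ} {w : J}
    (h : μ.mapDomain φ w ≠ 0) : ∃ v, μ v ≠ 0 ∧ φ v = w := by
  classical
  have h1 := Finsupp.mapDomain_support (f := φ) (s := μ) (Finsupp.mem_support_iff.2 h)
  rw [Finset.mem_image] at h1
  obtain ⟨v, hv, hw⟩ := h1
  exact ⟨v, Finsupp.mem_support_iff.1 hv, hw⟩

theorem map_inl_inr' {I J : Type} (μ : I →₀ ℝ) (w : J) :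
    μ.mapDomain (Sum.inl : I → I ⊕ J) (Sum.inr w) = 0 := by
  by_contra h
  obtain ⟨v, -, hv⟩ := map_ne_zero' _ h
  exact absurd hv (by simp)

theorem map_inr_inl' {I J : Type} (μ : J →₀ ℝ) (v : I) :
    μ.mapDomain (Sum.inr : J → I ⊕ J) (Sum.inl v) = 0 := by
  by_contra h
  obtain ⟨w, -, hw⟩ := map_ne_zero' _ h
  exact absurd hw (by simp)

/-- properties of the moved mass -/
def MvProp {IA : Type} (mv : (IA →₀ ℝ) → ℝ → (IA →₀ ℝ)) : Prop :=
  (∀ μ c, (∀ v, 0 ≤ μ v) → 0 ≤ c →
      (∀ v, 0 ≤ mv μ c v ∧ mv μ c v ≤ μ v) ∧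
      (mv μ c).sum (fun _ a => a) = min c (μ.sum fun _ a => a) ∧
      (∀ u v, 0 < mv μ c u → mv μ c u < μ u → 0 < mv μ c v → mv μ c v < μ v → u = v)) ∧
    ∀ (n : ℕ) μ μ' c c', (∀ v, 0 ≤ μ v) → (∀ v, 0 ≤ μ' v) → 0 ≤ c → 0 ≤ c' →
      μ.support.card ≤ n → μ'.support.card ≤ n →
      l1 (mv μ c - mv μ' c') ≤ 4 * n * (|c - c'| + l1 (μ - μ'))

/-- the two pieces of the interpolated vector -/
noncomputable def alphaV {IA : Type} (mv : (IA →₀ ℝ) → ℝ → (IA →₀ ℝ)) (l : ℝ) (a : IA →₀ ℝ) :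
    IA →₀ ℝ := if l < 1 / 2 then a - mv a (2 * l) else 0

noncomputable def betaV {IA IB : Type} (mv : (IA →₀ ℝ) → ℝ → (IA →₀ ℝ)) (l : ℝ) (a : IA →₀ ℝ)
    (b : IB →₀ ℝ) (φ : IA → IB) : IB →₀ ℝ :=
  if l = 0 then 0 else if l = 1 then b else
    (1 - max 0 (2 * l - 1)) • (mv a (2 * l)).mapDomain φ + max 0 (2 * l - 1) • b

theorem sum_eq_zero' {I : Type} {μ : I →₀ ℝ} (h : ∀ v, 0 ≤ μ v)
    (hs : μ.sum (fun _ a => a) = 0) : μ = 0 := by
  ext v
  have h1 := abs_le_l1 μ v
  rw [l1_eq_sum_of_nonneg h, hs] at h1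
  rw [Finsupp.zero_apply]
  exact abs_nonpos_iff.1 h1

section

variable {IA : Type} {mv : (IA →₀ ℝ) → ℝ → (IA →₀ ℝ)}

theorem mv_full (hmv : MvProp mv) {D : ℕ} {a : IA →₀ ℝ} (ha : Prob D a) {c : ℝ} (hc : 1 ≤ c) :
    mv a c = a := by
  obtain ⟨h1, h2, -⟩ := hmv.1 a c ha.1 (by linarith)
  have h3 : a - mv a c = 0 := by
    refine sum_eq_zero' (fun v => ?_) ?_
    · rw [Finsupp.sub_apply]
      linarith [(h1 v).2]
    · rw [sumSub', h2, ha.2.1, min_eq_right hc, sub_self]
  exact (sub_eq_zero.1 h3).symm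

theorem mv_zero (hmv : MvProp mv) {D : ℕ} {a : IA →₀ ℝ} (ha : Prob D a) : mv a 0 = 0 := by
  obtain ⟨h1, h2, -⟩ := hmv.1 a 0 ha.1 le_rfl
  refine sum_eq_zero' (fun v => (h1 v).1) ?_
  rw [h2, ha.2.1, min_eq_left zero_le_one]

theorem alphaV_eq (hmv : MvProp mv) {D : ℕ} {a : IA →₀ ℝ} (ha : Prob D a) (l : ℝ) :
    alphaV mv l a = a - mv a (2 * l) := by
  unfold alphaV
  split
  · rfl
  · rw [mv_full hmv ha (by linarith), sub_self]

theorem l1_mv (hmv : MvProp mv) {D : ℕ} {a : IA →₀ ℝ} (ha : Prob D a) {c : ℝ} (hc : 0 ≤ c) :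
    l1 (mv a c) = min c 1 := by
  obtain ⟨h1, h2, -⟩ := hmv.1 a c ha.1 hc
  rw [l1_eq_sum_of_nonneg (fun v => (h1 v).1), h2, ha.2.1]

theorem l1_mv_sub (hmv : MvProp mv) {D : ℕ} {a a' : IA →₀ ℝ} (ha : Prob D a) (ha' : Prob D a')
    {l l' δ : ℝ} (hl : 0 ≤ l) (hl' : 0 ≤ l') (hll : |l - l'| ≤ δ) (haa : l1 (a - a') ≤ δ) :
    l1 (mv a (2 * l) - mv a' (2 * l')) ≤ 12 * (D + 1) * δ := by
  have h := hmv.2 (D + 1) a a' (2 * l) (2 * l') ha.1 ha'.1 (by linarith) (by linarith)
    ha.2.2 ha'.2.2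
  refine h.trans ?_
  have h1 : |2 * l - 2 * l'| ≤ 2 * δ := by
    rw [← mul_sub, abs_mul, abs_of_pos (by norm_num : (0 : ℝ) < 2)]
    linarith
  have h2 : (0 : ℝ) ≤ 4 * ((D + 1 : ℕ) : ℝ) := by positivity
  have h3 := mul_le_mul_of_nonneg_left (add_le_add h1 haa) h2
  refine h3.trans (le_of_eq ?_)
  push_cast
  ring

theorem l1_alpha (hmv : MvProp mv) {D : ℕ} {a a' : IA →₀ ℝ} (ha : Prob D a) (ha' : Prob D a')
    {l l' δ : ℝ} (hl : 0 ≤ l) (hl' : 0 ≤ l') (hll : |l - l'| ≤ δ) (haa : l1 (a - a') ≤ δ) :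
    l1 (alphaV mv l a - alphaV mv l' a') ≤ δ + 12 * (D + 1) * δ := by
  rw [alphaV_eq hmv ha, alphaV_eq hmv ha']
  have h1 : a - mv a (2 * l) - (a' - mv a' (2 * l')) =
      (a - a') + (mv a' (2 * l') - mv a (2 * l)) := by abel
  rw [h1]
  refine (l1_add_le _ _).trans ?_
  rw [l1_sub_comm (mv a' (2 * l'))]
  have := l1_mv_sub hmv ha ha' hl hl' hll haa
  linarith

variable {IB : Type}

theorem betaV_mid {l : ℝ} (h0 : 0 < l) (h1 : l < 1) (a : IA →₀ ℝ) (b : IB →₀ ℝ) (φ : IA → IB) :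
    betaV mv l a b φ =
      (1 - max 0 (2 * l - 1)) • (mv a (2 * l)).mapDomain φ + max 0 (2 * l - 1) • b := by
  unfold betaV
  rw [if_neg h0.ne', if_neg h1.ne]

theorem l1_beta_mid (hmv : MvProp mv) {D : ℕ} {a a' : IA →₀ ℝ} (ha : Prob D a) (ha' : Prob D a')
    {b b' : IB →₀ ℝ} (hb' : Prob D b') (φ : IA → IB)
    {l l' δ : ℝ} (hl : 0 < l) (hl' : 0 < l') (hl1 : l < 1) (hl1' : l' < 1) (hll : |l - l'| ≤ δ)
    (haa : l1 (a - a') ≤ δ) (hbb : l1 (b - b') ≤ δ) :
    l1 (betaV mv l a b φ - betaV mv l' a' b' φ) ≤ 12 * (D + 1) * δ + 5 * δ := by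
  have hδ : 0 ≤ δ := (abs_nonneg _).trans hll
  rw [betaV_mid hl hl1, betaV_mid hl' hl1']
  set κ := max 0 (2 * l - 1) with hκ
  set κ' := max 0 (2 * l' - 1) with hκ'
  set M := (mv a (2 * l)).mapDomain φ with hM
  set M' := (mv a' (2 * l')).mapDomain φ with hM'
  have e : (1 - κ) • M + κ • b - ((1 - κ') • M' + κ' • b') =
      ((1 - κ) • (M - M') + (κ' - κ) • M') + (κ • (b - b') + (κ - κ') • b') := by
    simp only [smul_sub, sub_smul, one_smul]
    abel
  have k0 : 0 ≤ κ := le_max_left _ _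
  have k1 : κ ≤ 1 := max_le zero_le_one (by linarith)
  have kk : |κ - κ'| ≤ 2 * δ := by
    refine (abs_max_sub_max_le_max _ _ _ _).trans (max_le (by simpa using (by linarith : (0:ℝ) ≤ 2 * δ)) ?_)
    have : 2 * l - 1 - (2 * l' - 1) = 2 * (l - l') := by ring
    rw [this, abs_mul, abs_of_pos (by norm_num : (0 : ℝ) < 2)]
    linarith
  have hMM : l1 (M - M') ≤ 12 * (D + 1) * δ := by
    have h1 : M - M' = (mv a (2 * l) - mv a' (2 * l')).mapDomain φ := by
      rw [hM, hM']
      exact ((Finsupp.mapDomain.addMonoidHom (M := ℝ) φ).map_sub _ _).symm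
    rw [h1]
    exact (l1_map _ _).trans (l1_mv_sub hmv ha ha' hl.le hl'.le hll haa)
  have hM1 : l1 M' ≤ 1 := by
    refine (l1_map _ _).trans ?_
    rw [l1_mv hmv ha' (by linarith)]
    exact min_le_right _ _
  have hMM0 := l1_nonneg (M - M')
  have hM10 := l1_nonneg M'
  have hbb0 := l1_nonneg (b - b')
  rw [e]
  refine (l1_add_le _ _).trans ?_
  have t1 := l1_add_le ((1 - κ) • (M - M')) ((κ' - κ) • M')
  have t2 := l1_add_le (κ • (b - b')) ((κ - κ') • b')
  rw [l1_smul, l1_smul, abs_sub_comm κ' κ, abs_of_nonneg (by linarith : 0 ≤ 1 - κ)] at t1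
  rw [l1_smul, l1_smul, l1_of_prob hb', abs_of_nonneg k0] at t2
  have u1 : (1 - κ) * l1 (M - M') ≤ 1 * l1 (M - M') :=
    mul_le_mul_of_nonneg_right (by linarith) hMM0
  have u2 : |κ - κ'| * l1 M' ≤ (2 * δ) * 1 :=
    mul_le_mul kk hM1 hM10 (by linarith)
  have u3 : κ * l1 (b - b') ≤ 1 * l1 (b - b') := mul_le_mul_of_nonneg_right k1 hbb0
  linarith

/-- the main estimate -/
theorem mass_core (hmv : MvProp mv) {D : ℕ} {a a' : IA →₀ ℝ} {b b' : IB →₀ ℝ} {φ φ' : IA → IB}
    {l l' δ : ℝ} (hl : 0 ≤ l) (hl1 : l' ≤ 1) (hle : l ≤ l') (hll : l' - l ≤ δ) (hδ : δ < 1 / 4)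
    (ha : l < 1 → Prob D a) (ha' : l' < 1 → Prob D a') (hb : 0 < l → Prob D b)
    (hb' : 0 < l' → Prob D b') (haa : l < 1 → l' < 1 → l1 (a - a') ≤ δ)
    (hbb : 0 < l → 0 < l' → l1 (b - b') ≤ δ) (hφ : 0 < l → 0 < l' → φ = φ') :
    l1 (alphaV mv l a - alphaV mv l' a') + l1 (betaV mv l a b φ - betaV mv l' a' b' φ') ≤
      30 * (D + 1) * δ := by
  have hδ0 : 0 ≤ δ := by linarith
  have hll' : |l - l'| ≤ δ := by
    rw [abs_sub_comm, abs_of_nonneg (by linarith)]
    exact hll
  have hDδ : δ ≤ (D + 1) * δ := by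
    have : (0 : ℝ) ≤ (D : ℝ) * δ := mul_nonneg (Nat.cast_nonneg _) hδ0
    linarith
  rcases eq_or_lt_of_le hl1 with h1 | h1
  · -- l' = 1
    have hl34 : 3 / 4 < l := by linarith
    have hlpos : 0 < l := by linarith
    have hl'pos : 0 < l' := by linarith
    have e1 : alphaV mv l a = 0 := by
      unfold alphaV
      rw [if_neg (by linarith)]
    have e2 : alphaV mv l' a' = 0 := by
      unfold alphaV
      rw [if_neg (by linarith)]
    have e3 : betaV mv l' a' b' φ' = b' := by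
      unfold betaV
      rw [if_neg (by linarith), if_pos h1]
    have hbb1 := hbb hlpos hl'pos
    have hbp := hb' hl'pos
    rw [e1, e2, e3, sub_self, l1_zero, zero_add]
    rcases eq_or_lt_of_le (hle.trans hl1) with h2 | h2
    · have e4 : betaV mv l a b φ = b := by
        unfold betaV
        rw [if_neg (by linarith), if_pos h2]
      rw [e4]
      nlinarith
    · rw [betaV_mid hlpos h2]
      have hk : max 0 (2 * l - 1) = 2 * l - 1 := max_eq_right (by linarith)
      rw [hk]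
      have hap := ha h2
      set M := (mv a (2 * l)).mapDomain φ with hM
      have e5 : (1 - (2 * l - 1)) • M + (2 * l - 1) • b - b' =
          (2 * (1 - l)) • (M - b') + (2 * l - 1) • (b - b') := by
        have e6 : (1 - (2 * l - 1)) = 2 * (1 - l) := by ring
        have e7 : b' = (2 * (1 - l)) • b' + (2 * l - 1) • b' := by
          rw [← add_smul]
          have : 2 * (1 - l) + (2 * l - 1) = 1 := by ring
          rw [this, one_smul]
        rw [e6, smul_sub, smul_sub]
        nth_rewrite 1 [e7]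
        abel
      rw [e5]
      refine (l1_add_le _ _).trans ?_
      rw [l1_smul, l1_smul, abs_of_nonneg (by linarith : 0 ≤ 2 * (1 - l)),
        abs_of_nonneg (by linarith : 0 ≤ 2 * l - 1)]
      have hM1 : l1 M ≤ 1 := by
        refine (l1_map _ _).trans ?_
        rw [l1_mv hmv hap (by linarith)]
        exact min_le_right _ _
      have hMb : l1 (M - b') ≤ 2 := by
        have h4 := l1_sub_le M 0 b'
        rw [sub_zero, zero_sub, l1_neg', l1_of_prob hbp] at h4
        linarith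
      have hMb0 := l1_nonneg (M - b')
      have hbb0 := l1_nonneg (b - b')
      have u1 : 2 * (1 - l) * l1 (M - b') ≤ (2 * δ) * 2 :=
        mul_le_mul (by linarith) hMb hMb0 (by linarith)
      have u2 : (2 * l - 1) * l1 (b - b') ≤ 1 * l1 (b - b') :=
        mul_le_mul_of_nonneg_right (by linarith) hbb0
      linarith
  · have h1l : l < 1 := lt_of_le_of_lt hle h1
    have hap := ha h1l
    have hap' := ha' h1
    have haa1 := haa h1l h1
    have hα := l1_alpha hmv hap hap' hl (hl.trans hle) hll' haa1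
    rcases eq_or_lt_of_le hl with h0 | h0
    · -- l = 0
      have e1 : betaV mv l a b φ = 0 := by
        unfold betaV
        rw [if_pos h0.symm]
      rw [e1, zero_sub, l1_neg']
      rcases eq_or_lt_of_le (hl.trans hle) with h2 | h2
      · have e2 : betaV mv l' a' b' φ' = 0 := by
          unfold betaV
          rw [if_pos h2.symm]
        rw [e2, l1_zero]
        linarith
      · rw [betaV_mid h2 h1]
        have hk : max 0 (2 * l' - 1) = 0 := max_eq_left (by linarith)
        rw [hk, sub_zero, one_smul, zero_smul, add_zero]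
        have h3 : l1 ((mv a' (2 * l')).mapDomain φ') ≤ 2 * δ := by
          refine (l1_map _ _).trans ?_
          rw [l1_mv hmv hap' (by linarith)]
          exact (min_le_left _ _).trans (by linarith)
        linarith
    · have h0' : 0 < l' := lt_of_lt_of_le h0 hle
      have hβ := l1_beta_mid hmv hap hap' (hb' h0') φ h0 h0' h1l h1 hll' haa1 (hbb h0 h0')
      rw [← hφ h0 h0']
      linarith

theorem prob_out (hmv : MvProp mv) {D : ℕ} {a : IA →₀ ℝ} {b : IB →₀ ℝ} {φ : IA → IB} {l : ℝ}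
    (hl : 0 ≤ l) (hl1 : l ≤ 1) (ha : l < 1 → Prob D a) (hb : 0 < l → Prob D b)
    (hφ : l < 1 → 0 < l → ∀ v, a v ≠ 0 → b (φ v) ≠ 0) :
    (∀ v, 0 ≤ alphaV mv l a v) ∧ (∀ w, 0 ≤ betaV mv l a b φ w) ∧
    (alphaV mv l a).sum (fun _ x => x) + (betaV mv l a b φ).sum (fun _ x => x) = 1 ∧
    (alphaV mv l a).support.card + (betaV mv l a b φ).support.card ≤ D + 2 ∧
    (∀ v, alphaV mv l a v ≠ 0 → l < 1 ∧ a v ≠ 0) ∧
    (∀ w, betaV mv l a b φ w ≠ 0 → 0 < l ∧ b w ≠ 0) := by
  classical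
  rcases eq_or_lt_of_le hl1 with h1 | h1
  · have e1 : alphaV mv l a = 0 := by
      unfold alphaV
      rw [if_neg (by linarith)]
    have e2 : betaV mv l a b φ = b := by
      unfold betaV
      rw [if_neg (by linarith), if_pos h1]
    have hbp := hb (by linarith)
    rw [e1, e2]
    refine ⟨fun v => le_rfl, hbp.1, ?_, ?_, ?_, ?_⟩
    · rw [hbp.2.1, Finsupp.sum_zero_index, zero_add]
    · rw [Finsupp.support_zero, Finset.card_empty]
      have := hbp.2.2
      omega
    · intro v hv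
      exact absurd rfl hv
    · intro w hw
      exact ⟨by linarith, hw⟩
  · have hap := ha h1
    obtain ⟨m1, m2, m3⟩ := hmv.1 a (2 * l) hap.1 (by linarith)
    rw [hap.2.1] at m2
    have hane : ∀ v, mv a (2 * l) v ≠ 0 → a v ≠ 0 := by
      intro v hv h0
      have := m1 v
      rw [h0] at this
      exact hv (le_antisymm this.2 this.1)
    have eα := alphaV_eq hmv hap l
    have hα0 : ∀ v, 0 ≤ alphaV mv l a v := by
      intro v
      rw [eα, Finsupp.sub_apply]
      linarith [(m1 v).2]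
    have hαs : (alphaV mv l a).sum (fun _ x => x) = 1 - min (2 * l) 1 := by
      rw [eα, sumSub', m2, hap.2.1]
    have hαn : ∀ v, alphaV mv l a v ≠ 0 → l < 1 ∧ a v ≠ 0 := by
      intro v hv
      refine ⟨h1, fun h0 => hv ?_⟩
      have := m1 v
      rw [h0] at this
      rw [eα, Finsupp.sub_apply, h0, le_antisymm this.2 this.1, sub_zero]
    rcases eq_or_lt_of_le hl with h0 | h0
    · have e2 : betaV mv l a b φ = 0 := by
        unfold betaV
        rw [if_pos h0.symm]
      rw [e2]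
      refine ⟨hα0, fun w => le_rfl, ?_, ?_, hαn, ?_⟩
      · rw [hαs, ← h0, Finsupp.sum_zero_index, mul_zero, min_eq_left zero_le_one]
        norm_num
      · rw [Finsupp.support_zero, Finset.card_empty, add_zero]
        have h3 : (alphaV mv l a).support ⊆ a.support := by
          intro v hv
          rw [Finsupp.mem_support_iff] at hv ⊢
          exact (hαn v hv).2
        have := Finset.card_le_card h3
        have := hap.2.2
        omega
      · intro w hw
        exact absurd rfl hw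
    · have hbp := hb h0
      have hφ1 := hφ h1 h0
      rw [betaV_mid h0 h1]
      set κ := max 0 (2 * l - 1) with hκ
      have k0 : 0 ≤ κ := le_max_left _ _
      have k1 : κ ≤ 1 := max_le zero_le_one (by linarith)
      have hM0 := mapNonneg' φ (fun v => (m1 v).1)
      have hMne : ∀ w, (mv a (2 * l)).mapDomain φ w ≠ 0 → b w ≠ 0 := by
        intro w hw
        obtain ⟨v, hv, hvw⟩ := map_ne_zero' φ hw
        rw [← hvw]
        exact hφ1 v (hane v hv)
      have hne : ∀ w, ((1 - κ) • (mv a (2 * l)).mapDomain φ + κ • b) w ≠ 0 → b w ≠ 0 := by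
        intro w hw hb0
        apply hw
        rw [Finsupp.add_apply, Finsupp.smul_apply, Finsupp.smul_apply, hb0]
        have : (mv a (2 * l)).mapDomain φ w = 0 := by
          by_contra hc
          exact hMne w hc hb0
        rw [this, smul_zero, smul_zero, add_zero]
      refine ⟨hα0, fun w => ?_, ?_, ?_, hαn, fun w hw => ⟨h0, hne w hw⟩⟩
      · rw [Finsupp.add_apply, Finsupp.smul_apply, Finsupp.smul_apply, smul_eq_mul, smul_eq_mul]
        exact add_nonneg (mul_nonneg (by linarith) (hM0 w)) (mul_nonneg k0 (hbp.1 w))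
      · rw [hαs, sumAdd', sumSmul', sumSmul', sumMap', m2, hbp.2.1]
        rcases le_total (2 * l) 1 with h2 | h2
        · have hk : κ = 0 := max_eq_left (by linarith)
          rw [min_eq_left h2, hk]
          ring
        · rw [min_eq_right h2]
          ring
      · rcases lt_or_ge l (1 / 2) with h2 | h2
        · have hk : κ = 0 := max_eq_left (by linarith)
          rw [hk, sub_zero, one_smul, zero_smul, add_zero]
          have h3 : ((mv a (2 * l)).mapDomain φ).support.card ≤ (mv a (2 * l)).support.card :=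
            (Finset.card_le_card Finsupp.mapDomain_support).trans Finset.card_image_le
          have h4 : ((alphaV mv l a).support ∩ (mv a (2 * l)).support).card ≤ 1 := by
            rw [Finset.card_le_one]
            intro u hu v hv
            rw [Finset.mem_inter, Finsupp.mem_support_iff, Finsupp.mem_support_iff] at hu hv
            rw [eα, Finsupp.sub_apply] at hu hv
            refine m3 u v ?_ ?_ ?_ ?_
            · exact lt_of_le_of_ne (m1 u).1 (Ne.symm hu.2)
            · exact lt_of_le_of_ne (m1 u).2 (fun h => hu.1 (by rw [h, sub_self]))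
            · exact lt_of_le_of_ne (m1 v).1 (Ne.symm hv.2)
            · exact lt_of_le_of_ne (m1 v).2 (fun h => hv.1 (by rw [h, sub_self]))
          have h5 : (alphaV mv l a).support ∪ (mv a (2 * l)).support ⊆ a.support := by
            intro v hv
            rw [Finset.mem_union, Finsupp.mem_support_iff, Finsupp.mem_support_iff] at hv
            rw [Finsupp.mem_support_iff]
            rcases hv with hv | hv
            · exact (hαn v hv).2
            · exact hane v hv
          have h6 := Finset.card_le_card h5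
          have h7 := Finset.card_union_add_card_inter (alphaV mv l a).support
            (mv a (2 * l)).support
          have h8 := hap.2.2
          omega
        · have e1 : alphaV mv l a = 0 := by
            unfold alphaV
            rw [if_neg (by linarith)]
          rw [e1, Finsupp.support_zero, Finset.card_empty, zero_add]
          have h3 : ((1 - κ) • (mv a (2 * l)).mapDomain φ + κ • b).support ⊆ b.support := by
            intro w hw
            rw [Finsupp.mem_support_iff] at hw ⊢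
            exact hne w hw
          have := Finset.card_le_card h3
          have := hbp.2.2
          omega

end

theorem mass_step {Y : Type} (E : Y → Y → Prop) (F : Set Y) (lam : Y → ℝ) (D : ℕ) (δ : ℝ)
    (IA IB : Type) (μA : Y → IA →₀ ℝ) (μB : Y → IB →₀ ℝ) (φ : Y → IA → IB)
    (hlam : ∀ y, 0 ≤ lam y ∧ lam y ≤ 1)
    (hlamL : ∀ y ∈ F, ∀ y' ∈ F, E y y' → |lam y - lam y'| ≤ δ)
    (hA : ∀ y ∈ F, lam y < 1 → Prob D (μA y))
    (hB : ∀ y ∈ F, 0 < lam y → Prob D (μB y))
    (hAL : ∀ y ∈ F, ∀ y' ∈ F, E y y' → lam y < 1 → lam y' < 1 → l1 (μA y - μA y') ≤ δ)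
    (hBL : ∀ y ∈ F, ∀ y' ∈ F, E y y' → 0 < lam y → 0 < lam y' → l1 (μB y - μB y') ≤ δ)
    (hφE : ∀ y ∈ F, ∀ y' ∈ F, E y y' → 0 < lam y → 0 < lam y' → φ y = φ y')
    (hφ : ∀ y ∈ F, lam y < 1 → 0 < lam y → ∀ v, μA y v ≠ 0 → μB y (φ y v) ≠ 0) :
    ∃ μ : Y → (IA ⊕ IB) →₀ ℝ, (∀ y ∈ F, Prob (D + 1) (μ y)) ∧
      (∀ y ∈ F, ∀ y' ∈ F, E y y' → l1 (μ y - μ y') ≤ 30 * (D + 1) * δ) ∧
      (∀ y ∈ F, ∀ v, μ y (Sum.inl v) ≠ 0 → lam y < 1 ∧ μA y v ≠ 0) ∧
      (∀ y ∈ F, ∀ w, μ y (Sum.inr w) ≠ 0 → 0 < lam y ∧ μB y w ≠ 0) := by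
  classical
  obtain ⟨mv, hmv⟩ := exists_moved IA
  have hmv' : MvProp mv := hmv
  set α : Y → IA →₀ ℝ := fun y => alphaV mv (lam y) (μA y) with hα
  set β : Y → IB →₀ ℝ := fun y => betaV mv (lam y) (μA y) (μB y) (φ y) with hβ
  set μ : Y → (IA ⊕ IB) →₀ ℝ := fun y => (α y).mapDomain Sum.inl + (β y).mapDomain Sum.inr
    with hμ
  have hout : ∀ y ∈ F, _ := fun y hy =>
    prob_out hmv' (b := μB y) (φ := φ y) (hlam y).1 (hlam y).2 (hA y hy) (hB y hy) (hφ y hy)
  have hinl : ∀ y v, μ y (Sum.inl v) = α y v := by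
    intro y v
    simp only [hμ]
    rw [Finsupp.add_apply, map_inr_inl', add_zero, Finsupp.mapDomain_apply Sum.inl_injective]
  have hinr : ∀ y w, μ y (Sum.inr w) = β y w := by
    intro y w
    simp only [hμ]
    rw [Finsupp.add_apply, map_inl_inr', zero_add, Finsupp.mapDomain_apply Sum.inr_injective]
  have hprob : ∀ y ∈ F, Prob (D + 1) (μ y) := by
    intro y hy
    obtain ⟨p1, p2, p3, p4, -, -⟩ := hout y hy
    refine ⟨?_, ?_, ?_⟩
    · rintro (v | w)
      · rw [hinl]
        exact p1 v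
      · rw [hinr]
        exact p2 w
    · simp only [hμ]
      rw [sumAdd', sumMap', sumMap']
      exact p3
    · have h1 : (μ y).support ⊆ (α y).support.image Sum.inl ∪ (β y).support.image Sum.inr := by
        simp only [hμ]
        refine Finsupp.support_add.trans ?_
        exact Finset.union_subset_union Finsupp.mapDomain_support Finsupp.mapDomain_support
      refine (Finset.card_le_card h1).trans ((Finset.card_union_le _ _).trans ?_)
      have h2 : ((α y).support.image (Sum.inl : IA → IA ⊕ IB)).card ≤ (α y).support.card :=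
        Finset.card_image_le
      have h3 : ((β y).support.image (Sum.inr : IB → IA ⊕ IB)).card ≤ (β y).support.card :=
        Finset.card_image_le
      have h4 : (α y).support.card + (β y).support.card ≤ D + 2 := p4
      omega
  refine ⟨μ, hprob, ?_, ?_, ?_⟩
  · intro y hy y' hy' hE
    have hll := hlamL y hy y' hy' hE
    have hδ0 : 0 ≤ δ := (abs_nonneg _).trans hll
    rcases lt_or_ge δ (1 / 4) with hδ | hδ
    · have h1 : l1 (μ y - μ y') ≤ l1 (α y - α y') + l1 (β y - β y') := by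
        have e1 : μ y - μ y' = (α y - α y').mapDomain Sum.inl + (β y - β y').mapDomain Sum.inr := by
          have e2 : (α y - α y').mapDomain (Sum.inl : IA → IA ⊕ IB) =
              (α y).mapDomain Sum.inl - (α y').mapDomain Sum.inl :=
            (Finsupp.mapDomain.addMonoidHom (M := ℝ) Sum.inl).map_sub _ _
          have e3 : (β y - β y').mapDomain (Sum.inr : IB → IA ⊕ IB) =
              (β y).mapDomain Sum.inr - (β y').mapDomain Sum.inr :=
            (Finsupp.mapDomain.addMonoidHom (M := ℝ) Sum.inr).map_sub _ _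
          rw [e2, e3]
          simp only [hμ]
          abel
        rw [e1]
        exact (l1_add_le _ _).trans (add_le_add (l1_map _ _) (l1_map _ _))
      refine h1.trans ?_
      rw [abs_le] at hll
      rcases le_total (lam y) (lam y') with hle | hle
      · exact mass_core hmv' (hlam y).1 (hlam y').2 hle (by linarith [hll.1]) hδ (hA y hy)
          (hA y' hy') (hB y hy) (hB y' hy') (fun a b => hAL y hy y' hy' hE a b)
          (fun a b => hBL y hy y' hy' hE a b) (fun a b => hφE y hy y' hy' hE a b)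
      · rw [l1_sub_comm (α y), l1_sub_comm (β y)]
        exact mass_core hmv' (hlam y').1 (hlam y).2 hle (by linarith [hll.2]) hδ (hA y' hy')
          (hA y hy) (hB y' hy') (hB y hy)
          (fun a b => by rw [l1_sub_comm]; exact hAL y hy y' hy' hE b a)
          (fun a b => by rw [l1_sub_comm]; exact hBL y hy y' hy' hE b a)
          (fun a b => (hφE y hy y' hy' hE b a).symm)
    · have h1 := l1_sub_le (μ y) 0 (μ y')
      rw [sub_zero, zero_sub, l1_neg', l1_of_prob (hprob y hy), l1_of_prob (hprob y' hy')] at h1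
      have h2 : (0 : ℝ) ≤ (D : ℝ) * δ := mul_nonneg (Nat.cast_nonneg _) hδ0
      linarith
  · intro y hy v hv
    rw [hinl] at hv
    exact (hout y hy).2.2.2.2.1 v hv
  · intro y hy w hw
    rw [hinr] at hw
    exact (hout y hy).2.2.2.2.2 w hw

end MP65
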