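import Pool.Agent.Work.MP_65b809_gt.Graph

/-! # Merge : merging of chains above a gap, number of nonzero levels along edges

`merge0`. Let `w, w'` be tuples with `Grid j a w`, `Grid j a w'`, `Close j a C (ch w a) (ch w' a)`, and
suppose `Grid j (a + c) w` (`c = c(C)` large). Then `rd (lam i (a+c)) (w' i) = w i` for all `i < j`.
Proof: induction on `i ≤ j` of the statement: there are constants `c_i ∈ ℕ`, `D_i ≥ 0` (depending on
`C` only) such that, if `Grid j (a+c) w` with `c ≥ c_i`, then for all `i' < i`: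
`|w' i' - w i'| ≤ D_i 3^{w_{i'} a}` and `rd (lam i' u) (w' i') = w i'` for all `u ∈ [a + c_i, a + c]`.
Step: let `b = a + c_i`. The chains `ch (trunc i w) u` and `ch (trunc i w') u` agree modulo the
coordinates `≥ i`, even exactly, for `u = b` (`ch_congr_above` for the truncated tuples: the
roundings at scales `≥ b` agree: for `u ≥ b`, `rd_u(w' i') = rd_u (rd_b (w' i')) = rd_u (w i')`).
Let `g = ch (trunc i w) b`. As `w` is a grid tuple of level `a + c ≥ b`, `ch (trunc i w) a = g`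
exactly (`ch_below`). And `ch (trunc i w') a = g u'`, `u' = (ch (trunc i w') b)⁻¹ ch (trunc i w') a`,
`Low d b C₁ u'` by `close_ch`, so `|x_i u'| ≤ C₁ 3^{w_i b} = C' 3^{w_i a}`.
By `ch_trunc`, `ch w a ~_{i+1} g z_i(w i)`, `ch w' a ~_{i+1} g u' z_i(w' i)`, so by `eqv_conj_z`
`x_i((ch w a)⁻¹ ch w' a) = x_i(u') + w' i - w i`, hence `|w' i - w i| ≤ (C + C') 3^{w_i a}`.
Since `w i` is a multiple of `3^{lam i (a+c)}` and `3^{lam i u} ≥ 3^{w_i u}/3 ≥ 3^{u-a-1} 3^{w_i a}`,
`rd_near` gives `rd (lam i u) (w' i) = w i` for `a + c_{i+1} ≤ u ≤ a + c`.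

`nz_edge`. Let `Edge K j y y'` (scale `σ`) and `NzLe j t k y`. If `σ ≥ t` then `y'` is a grid tuple of
level `t` and `NzLe j t 0 y'`. Otherwise consider the `k + 1` blocks `[σ + l c, σ + (l+1) c)`,
`l = 0..k`. If the union `[σ, σ + (k+1)c)` is not contained in `[.., t)` then
`S' = Ico σ t` has less than `(k+1) c` elements and contains all nonzero levels of `y'` below `t`
(below `σ` the tuple `y'` has none). Otherwise one of the blocks contains no element of `S`: put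
`a = σ + l c`; then `rdl a y` agrees with `rdl (a+c) y` on `< j`; apply `merge0` to `w = rdl a y`,
`w' = rdl a y'` (closeness at the scale `a`: `ch y a` and `ch y' a` are close at scale `a`, from
`close_ch` and the edge, constant independent of everything). So the roundings of `y` and `y'`
agree at `a + c`, hence at all scales `≥ a + c`, and `S' = Ico σ (a+c) ∪ S`.
-/

namespace MP65

namespace Tower

variable {N : Type} [Group N] {d : ℕ} (T : Tower N d)

private theorem merge_core (C : ℝ) (n : ℕ) : ∃ c₀ : ℕ, ∀ (j : ℕ) (a : ℤ) (c : ℕ) (w w' : ℕ → ℝ),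
    j ≤ d → T.Grid j a w → T.Grid j a w' → T.Close j a C (T.ch w a) (T.ch w' a) → c₀ ≤ c →
    T.Grid j (a + c) w → ∀ i, i < n → i < j → ∀ u : ℤ, a + c₀ ≤ u → u ≤ a + c →
    rd (T.lam i u) (w' i) = w i := by
  induction n with
  | zero => exact ⟨0, fun _ _ _ _ _ _ _ _ _ _ _ i hi => absurd hi (by omega)⟩
  | succ n ih =>
    obtain ⟨c₀, h0⟩ := ih
    obtain ⟨C₁, hC₁, h1⟩ := T.close_ch
    obtain ⟨D, hD⟩ : ∃ D : ℝ, D = |C| + C₁ * 3 ^ (T.w n * (c₀ : ℝ)) := ⟨_, rfl⟩
    obtain ⟨p, hp⟩ := pow_unbounded_of_one_lt (6 * D) (by norm_num : (1 : ℝ) < 3)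
    refine ⟨max c₀ p, fun j a c w w' hj hw hw' hc hcc hwc i hi hij u hu hu' => ?_⟩
    have hc0 : c₀ ≤ c := (le_max_left _ _).trans hcc
    have hcp : p ≤ c := (le_max_right _ _).trans hcc
    have hm1 : ((c₀ : ℕ) : ℤ) ≤ ((max c₀ p : ℕ) : ℤ) := by exact_mod_cast le_max_left _ _
    have hm2 : ((p : ℕ) : ℤ) ≤ ((max c₀ p : ℕ) : ℤ) := by exact_mod_cast le_max_right _ _
    by_cases hin : i < n
    · exact h0 j a c w w' hj hw hw' hc hc0 hwc i hin hij u (by omega) hu'
    have hin' : i = n := by omega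
    subst hin'
    have hid : i < d := by omega
    obtain ⟨b, hb⟩ : ∃ b : ℤ, b = a + c₀ := ⟨_, rfl⟩
    have hbc : b ≤ a + c := by omega
    have hab : a ≤ b := by omega
    -- the truncated tuples
    have hgv : T.Grid d (a + c) (trunc i w) := by
      intro i' hi'
      unfold trunc
      split_ifs with h
      · exact hwc i' (by omega)
      · exact rd_zero' _
    have hcong : T.ch (trunc i w) b = T.ch (trunc i w') b := by
      refine T.ch_congr_above (s := b) (fun t ht i' hi' => ?_) b le_rfl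
      unfold trunc
      split_ifs with h
      · have e1 := h0 j a c w w' hj hw hw' hc hc0 hwc i' h (by omega) b (by omega) hbc
        rw [← rd_rd (T.lam_mono hi' ht) (w' i'), e1]
      · rfl
    have hva : T.ch (trunc i w) a = T.ch (trunc i w) b := by
      rw [T.ch_below hgv a (by omega), T.ch_below hgv b hbc]
    have hlow := (h1 (trunc i w') a b hab).1
    have t1 := T.ch_trunc hid w a
    have t2 := T.ch_trunc hid w' a
    rw [hw i hij] at t1
    rw [hw' i hij] at t2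
    rw [hva] at t1
    have t3 := (T.eqv_conj_z hid (T.ch (trunc i w) b) (T.ch (trunc i w') a) (w i) (w' i)).2
    have t4 : T.Eqv (i + 1) ((T.ch w a)⁻¹ * T.ch w' a)
        ((T.ch (trunc i w) b * T.z i (w i))⁻¹ * (T.ch (trunc i w') a * T.z i (w' i))) :=
      T.eqv_mul (by omega) (T.eqv_inv (by omega) t1) t2
    have t5 := t4 i (by omega)
    rw [t3] at t5
    rw [hcong] at t5
    have t6 := hlow i hid
    have t7 := hc.1 i hij
    have hpos : (0 : ℝ) < 3 ^ (T.w i * (a : ℝ)) := Real.rpow_pos_of_pos (by norm_num) _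
    have hest : |w' i - w i| ≤ D * 3 ^ (T.w i * (a : ℝ)) := by
      have e1 : w' i - w i = T.x i ((T.ch w a)⁻¹ * T.ch w' a) -
          T.x i ((T.ch (trunc i w') b)⁻¹ * T.ch (trunc i w') a) := by
        rw [t5]; ring
      have e2 : (3 : ℝ) ^ (T.w i * (b : ℝ)) =
          3 ^ (T.w i * (a : ℝ)) * 3 ^ (T.w i * (c₀ : ℝ)) := by
        rw [← Real.rpow_add (by norm_num), hb]
        congr 1
        push_cast
        ring
      rw [e1]
      refine (abs_sub _ _).trans ((add_le_add t7 t6).trans ?_)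
      rw [e2, hD]
      have := mul_le_mul_of_nonneg_right (le_abs_self C) hpos.le
      nlinarith
    have hD0 : 0 ≤ D := by
      rw [hD]
      positivity
    have hw1 : 1 ≤ T.w i := T.one_le_w i hid
    have hau : (a : ℝ) + (p : ℝ) ≤ (u : ℝ) := by
      have : a + (p : ℤ) ≤ u := by omega
      exact_mod_cast this
    have f1 := (T.lam_bounds i u).2
    have f2 : (3 : ℝ) ^ (T.w i * (a : ℝ)) * 3 ^ p ≤ 3 ^ (T.w i * (u : ℝ)) := by
      rw [← Real.rpow_natCast, ← Real.rpow_add (by norm_num)]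
      refine Real.rpow_le_rpow_of_exponent_le (by norm_num) ?_
      have hp0 : (0 : ℝ) ≤ p := Nat.cast_nonneg p
      nlinarith
    have f3 : (3 : ℝ) ^ (T.w i * (a : ℝ)) * (6 * D) < 3 ^ (T.w i * (a : ℝ)) * 3 ^ p :=
      mul_lt_mul_of_pos_left hp hpos
    refine rd_near (rd_fix_mono (T.lam_mono hid hu') (hwc i hij)) ?_
    linarith

theorem merge0 (C : ℝ) : ∃ c : ℕ, 0 < c ∧ ∀ (j : ℕ) (a : ℤ) (w w' : ℕ → ℝ), j ≤ d →
    T.Grid j a w → T.Grid j a w' → T.Close j a C (T.ch w a) (T.ch w' a) →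
    T.Grid j (a + c) w → ∀ i, i < j → rd (T.lam i (a + c)) (w' i) = w i := by
  obtain ⟨c₀, h0⟩ := merge_core T C d
  refine ⟨c₀ + 1, Nat.succ_pos _, fun j a w w' hj hw hw' hc hwc i hi => ?_⟩
  exact h0 j a (c₀ + 1) w w' hj hw hw' hc (Nat.le_succ _) hwc i (by omega) hi _
    (by push_cast; omega) le_rfl

/-- merging for an edge: if `y` has no nonzero level in `[a, a+c)`, `σ ≤ a`, then the roundings of
`y` and `y'` agree at `a + c` -/
theorem merge_edge {K : ℝ} (hK : T.GoodK K) : ∃ c : ℕ, 0 < c ∧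
    ∀ (j : ℕ) (σ a : ℤ) (y y' : ℕ → ℝ), j ≤ d →
    T.Grid j σ y → T.Grid j σ y' → T.Close j σ K (T.ch y σ) (T.ch y' σ) → σ ≤ a →
    (∀ i, i < j → rd (T.lam i a) (y i) = rd (T.lam i (a + c)) (y i)) →
    ∀ i, i < j → rd (T.lam i (a + c)) (y' i) = rd (T.lam i (a + c)) (y i) := by
  obtain ⟨C₁, hC₁, h1⟩ := T.close_ch
  obtain ⟨C₂, hC₂, h2⟩ := T.close_trans C₁ K
  obtain ⟨C₃, hC₃, h3⟩ := T.close_trans C₂ C₁
  obtain ⟨c, hc, h4⟩ := T.merge0 C₃
  refine ⟨c, hc, fun j σ a y y' hj hy hy' hcl hσ hrd i hi => ?_⟩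
  have e1 : T.ch (T.rdl a y) a = T.ch y a := T.ch_rdl y a a le_rfl
  have e2 : T.ch (T.rdl a y') a = T.ch y' a := T.ch_rdl y' a a le_rfl
  have hσ' : (σ : ℝ) ≤ (a : ℝ) := by exact_mod_cast hσ
  have a1 := T.close_mono_j hj (h1 y σ a hσ)
  have a2 := T.close_mono_j hj (h1 y' σ a hσ)
  have a3 := T.close_mono_s hj hK.1 hσ' hcl
  have a4 := h3 j a _ _ _ hj (h2 j a _ _ _ hj a1 a3) (T.close_symm a2)
  rw [← e1, ← e2] at a4
  have a5 : T.Grid j (a + c) (T.rdl a y) := by
    intro i' hi'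
    show rd (T.lam i' (a + c)) (rd (T.lam i' a) (y i')) = rd (T.lam i' a) (y i')
    rw [hrd i' hi']
    exact rd_fix _ _
  have a6 := h4 j a _ _ hj (T.grid_rdl j a y) (T.grid_rdl j a y') a4 a5 i hi
  have hid : i < d := by omega
  have a7 : rd (T.lam i (a + c)) (rd (T.lam i a) (y' i)) = rd (T.lam i (a + c)) (y' i) :=
    rd_rd (T.lam_mono hid (by omega)) _
  have a8 : rd (T.lam i (a + c)) (rd (T.lam i a) (y' i)) = rd (T.lam i a) (y i) := a6
  rw [← a7, a8]
  exact hrd i hi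

/-- the roundings of the two ends of an edge of scale `σ` agree `M` levels above `σ`, if there is
room below `t` -/
theorem merge_nz {K : ℝ} (hK : T.GoodK K) (k : ℕ) : ∃ M : ℕ,
    ∀ (j : ℕ) (σ t : ℤ) (y y' : ℕ → ℝ), j ≤ d →
    T.Grid j σ y → T.Grid j σ y' → T.Close j σ K (T.ch y σ) (T.ch y' σ) →
    T.NzLe j t k y → σ + M ≤ t → ∀ i, i < j →
    rd (T.lam i (σ + M)) (y' i) = rd (T.lam i (σ + M)) (y i) := by
  obtain ⟨c, hc, h1⟩ := T.merge_edge hK
  refine ⟨(k + 1) * c, fun j σ t y y' hj hy hy' hcl hnz ht i hi => ?_⟩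
  obtain ⟨S, hS, hnz⟩ := hnz
  have hcard : (S.image fun v => ((v - σ) / (c : ℤ)).toNat).card < (Finset.range (k + 1)).card := by
    rw [Finset.card_range]
    exact Nat.lt_succ_of_le (Finset.card_image_le.trans hS)
  obtain ⟨l, hl, hlS⟩ := Finset.exists_mem_notMem_of_card_lt_card hcard
  rw [Finset.mem_range] at hl
  have hcz : (0 : ℤ) < (c : ℤ) := by exact_mod_cast hc
  have hlc : ((l : ℤ) + 1) * c ≤ ((k : ℤ) + 1) * c := by
    have : (l : ℤ) + 1 ≤ (k : ℤ) + 1 := by omega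
    exact mul_le_mul_of_nonneg_right this hcz.le
  have hl0 : (0 : ℤ) ≤ (l : ℤ) * c := by positivity
  have hM : (((k + 1) * c : ℕ) : ℤ) = ((k : ℤ) + 1) * c := by push_cast; ring
  rw [hM] at ht ⊢
  have hlc' : (l : ℤ) * c + c ≤ ((k : ℤ) + 1) * c := by linarith
  obtain ⟨a, ha⟩ : ∃ a : ℤ, a = σ + (l : ℤ) * c := ⟨_, rfl⟩
  have hnot : ∀ v : ℤ, a ≤ v → v < a + c → v ∉ S := by
    intro v hv hv' hvS
    refine hlS (Finset.mem_image.2 ⟨v, hvS, ?_⟩)
    have : (v - σ) / (c : ℤ) = l := by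
      rw [Int.ediv_eq_iff_of_pos hcz]
      constructor <;> linarith
    rw [this]
    exact Int.toNat_natCast l
  have hstep : ∀ (n : ℕ), n ≤ c → ∀ i, i < j → rd (T.lam i a) (y i) = rd (T.lam i (a + n)) (y i) := by
    intro n
    induction n with
    | zero => intro _ i _; simp
    | succ n ih =>
      intro hn i hi
      rw [ih (by omega) i hi]
      have e := hnz (a + n) (by omega) (hnot (a + n) (by omega) (by omega)) i hi
      rw [e]
      congr 2
      push_cast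
      ring
  have h2 := h1 j σ a y y' hj hy hy' hcl (by omega) (hstep c le_rfl)
  have hid : i < d := by omega
  have hle : a + c ≤ σ + ((k : ℤ) + 1) * c := by omega
  rw [← rd_rd (T.lam_mono hid hle) (y' i), h2 i hi, rd_rd (T.lam_mono hid hle)]

theorem nz_edge {K : ℝ} (hK : T.GoodK K) (k : ℕ) : ∃ k' : ℕ,
    ∀ (j : ℕ) (t : ℤ) (y y' : ℕ → ℝ), j ≤ d →
    T.Edge K j y y' → T.NzLe j t k y → T.NzLe j t k' y' := by
  obtain ⟨M, hM⟩ := T.merge_nz hK k
  refine ⟨M + k, fun j t y y' hj he hnz => ?_⟩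
  obtain ⟨σ, hy, hy', hcl⟩ := he
  have hgrid : ∀ v : ℤ, v < σ → ∀ i, i < j → rd (T.lam i v) (y' i) = rd (T.lam i (v + 1)) (y' i) := by
    intro v hv i hi
    rw [T.grid_mono_s hj (by omega : v ≤ σ) hy' i hi,
      T.grid_mono_s hj (by omega : v + 1 ≤ σ) hy' i hi]
  by_cases h1 : t ≤ σ
  · exact ⟨∅, by simp, fun v hv _ i hi => hgrid v (by omega) i hi⟩
  push Not at h1
  by_cases h2 : σ + M ≤ t
  · have hm := hM j σ t y y' hj hy hy' hcl hnz h2
    obtain ⟨S, hS, hnz⟩ := hnz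
    refine ⟨Finset.Ico σ (σ + M) ∪ S, ?_, fun v hv hvS i hi => ?_⟩
    · refine (Finset.card_union_le _ _).trans (add_le_add ?_ hS)
      rw [Int.card_Ico]
      omega
    · rw [Finset.mem_union, Finset.mem_Ico, not_or] at hvS
      by_cases hvσ : v < σ
      · exact hgrid v hvσ i hi
      have hv' : σ + M ≤ v := by
        by_contra hcon
        exact hvS.1 ⟨by omega, by omega⟩
      have hid : i < d := by omega
      have e := hnz v hv hvS.2 i hi
      rw [← rd_rd (T.lam_mono hid hv') (y' i), hm i hi, rd_rd (T.lam_mono hid hv'),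
        ← rd_rd (T.lam_mono hid (by omega : σ + M ≤ v + 1)) (y' i), hm i hi,
        rd_rd (T.lam_mono hid (by omega : σ + M ≤ v + 1))]
      exact e
  · refine ⟨Finset.Ico σ t, ?_, fun v hv hvS i hi => ?_⟩
    · rw [Int.card_Ico]
      omega
    · rw [Finset.mem_Ico] at hvS
      exact hgrid v (by omega) i hi

private theorem merge_nzmono {j : ℕ} {t : ℤ} {k k' : ℕ} (h : k ≤ k') {y : ℕ → ℝ}
    (hy : T.NzLe j t k y) : T.NzLe j t k' y := by
  obtain ⟨S, hS, h1⟩ := hy
  exact ⟨S, hS.trans h, h1⟩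

private theorem merge_nzcongr {j : ℕ} {t : ℤ} {k : ℕ} {y y' : ℕ → ℝ} (h : EqOn j y y')
    (hy : T.NzLe j t k y) : T.NzLe j t k y' := by
  obtain ⟨S, hS, h1⟩ := hy
  exact ⟨S, hS, fun v hv hvS i hi => by rw [← h i hi]; exact h1 v hv hvS i hi⟩

theorem nz_conn {K : ℝ} (hK : T.GoodK K) (k R : ℕ) : ∃ k' : ℕ,
    ∀ (j : ℕ) (t : ℤ) (y y' : ℕ → ℝ), j ≤ d →
    T.Conn K j R y y' → T.NzLe j t k y → T.NzLe j t k' y' := by
  induction R with
  | zero => exact ⟨k, fun j t y y' _ h hn => merge_nzcongr T h hn⟩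
  | succ R ih =>
    obtain ⟨k₁, h1⟩ := ih
    obtain ⟨k₂, h2⟩ := T.nz_edge hK k₁
    refine ⟨max k₁ k₂, fun j t y y' hj hc hn => ?_⟩
    obtain ⟨u, hu, he | he⟩ := hc
    · exact merge_nzmono T (le_max_left _ _) (merge_nzcongr T he (h1 j t y u hj hu hn))
    · exact merge_nzmono T (le_max_right _ _) (h2 j t u y' hj he (h1 j t y u hj hu hn))

end Tower

end MP65
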