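import Pool.Agent.Work.MP_65b809_gt.L1

/-! # Thr : colours from probability vectors by thresholds

`thresholds`. For `q` colours put `η = 1 / ((q+1)(D+1))` and `θ_c = (c+1) η`, `c = 0..q-1`; so
`θ_c ≤ q η < 1/(D+1)`. Colour `c` misses `μ` if there is `v` with `|μ v - θ_c| < η/2` (and `μ v ≠ 0`,
automatic since `θ_c ≥ η`). Label = the finite set `{v : μ v ≥ θ_c}`, nonempty by `exists_large`.
* missed colours: every `v` blocks at most one `c` (`|θ_c - θ_c'| ≥ η`), `v` with `μ v = 0` blocks
  none, and a `v₀` with `μ v₀ ≥ 1/(D+1) = θ_{q-1} + η`, or larger, blocks none. So at most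
  `(D+1) - 1 = D` colours are missed (injection from the missed colours to `support \ {v₀}`).
* if `l1 (μ - μ') ≤ η/2`... : for `|μ v - μ' v| ≤ η/4` and both not missed: `μ v ≥ θ_c` implies
  `μ v ≥ θ_c + η/2` so `μ' v ≥ θ_c`. Hence equal labels if `l1 (μ - μ') ≤ η / 4`.
-/

namespace MP65

theorem thresholds (D q : ℕ) : ∃ η : ℝ, 0 < η ∧ ∀ I : Type,
    ∃ f : Fin q → (I →₀ ℝ) → Option (Finset I),
      (∀ μ, Prob D μ → ({i | f i μ = none} : Set (Fin q)).ncard ≤ D) ∧
      (∀ i μ μ' a b, Prob D μ → Prob D μ' → l1 (μ - μ') ≤ η → f i μ = some a → f i μ' = some b →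
        a = b) ∧
      (∀ i μ a, Prob D μ → f i μ = some a → ∃ v, v ∈ a) ∧
      (∀ i μ a v, f i μ = some a → v ∈ a → μ v ≠ 0) := by
  classical
  have hD : (0 : ℝ) < (D : ℝ) + 1 := by positivity
  have hq : (0 : ℝ) < (q : ℝ) + 1 := by positivity
  set η : ℝ := 1 / (((q : ℝ) + 1) * ((D : ℝ) + 1)) with hη
  have hη0 : 0 < η := by positivity
  have hηD : ((q : ℝ) + 1) * η = 1 / ((D : ℝ) + 1) := by
    rw [hη]
    field_simp
  refine ⟨η / 4, by positivity, fun I => ?_⟩
  set th : Fin q → ℝ := fun c => ((c : ℕ) + 1 : ℝ) * η with hth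
  have hth0 : ∀ c, η ≤ th c := by
    intro c
    have : (0 : ℝ) ≤ ((c : ℕ) : ℝ) := Nat.cast_nonneg _
    have h1 : 0 ≤ ((c : ℕ) : ℝ) * η := mul_nonneg this hη0.le
    simp only [hth]
    linarith
  have hth1 : ∀ c, th c + η ≤ 1 / ((D : ℝ) + 1) := by
    intro c
    rw [← hηD]
    have h1 : ((c : ℕ) : ℝ) + 1 ≤ q := by exact_mod_cast c.2
    simp only [hth]
    have h2 : (((c : ℕ) : ℝ) + 1) * η ≤ q * η := mul_le_mul_of_nonneg_right h1 hη0.le
    linarith
  set bad : Fin q → (I →₀ ℝ) → Prop := fun c μ => ∃ v, |μ v - th c| < η / 2 with hbad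
  refine ⟨fun c μ => if bad c μ then none else some (μ.support.filter (fun v => th c ≤ μ v)),
    ?_, ?_, ?_, ?_⟩
  · intro μ hμ
    obtain ⟨v₀, hv₀⟩ := exists_large hμ
    have hset : ({i | (if bad i μ then none else
        some (μ.support.filter (fun v => th i ≤ μ v)) : Option (Finset I)) = none} :
        Set (Fin q)) = {i | bad i μ} := by
      ext i
      simp only [Set.mem_setOf_eq]
      by_cases h : bad i μ
      · simp [h]
      · simp [h]
    rw [hset]
    have hch : ∀ i : Fin q, ∃ v, bad i μ → |μ v - th i| < η / 2 := by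
      intro i
      by_cases h : bad i μ
      · obtain ⟨v, hv⟩ := h
        exact ⟨v, fun _ => hv⟩
      · exact ⟨v₀, fun h' => absurd h' h⟩
    choose g hg using hch
    have hmem : v₀ ∈ μ.support := by
      rw [Finsupp.mem_support_iff]
      intro h0
      rw [h0] at hv₀
      have : 0 < 1 / ((D : ℝ) + 1) := by positivity
      linarith
    have h1 : ({i | bad i μ} : Set (Fin q)).ncard ≤
        ((μ.support.erase v₀ : Finset I) : Set I).ncard := by
      refine Set.ncard_le_ncard_of_injOn g ?_ ?_ (Finset.finite_toSet _)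
      · intro i hi
        have h2 := hg i hi
        rw [abs_lt] at h2
        have h3 := hth0 i
        have h4 := hth1 i
        rw [Finset.mem_coe, Finset.mem_erase, Finsupp.mem_support_iff]
        constructor
        · intro he
          rw [he] at h2
          linarith [h2.2]
        · intro h0
          rw [h0] at h2
          linarith [h2.1]
      · intro i hi j hj hij
        have h2 := hg i hi
        have h3 := hg j hj
        rw [← hij, abs_lt] at h3
        rw [abs_lt] at h2
        by_contra hne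
        have h5 : (i : ℕ) ≠ (j : ℕ) := fun h => hne (Fin.ext h)
        rcases lt_or_gt_of_ne h5 with h | h
        · have h6 : ((i : ℕ) : ℝ) + 1 ≤ ((j : ℕ) : ℝ) := by exact_mod_cast h
          have h7 : (((i : ℕ) : ℝ) + 1) * η ≤ ((j : ℕ) : ℝ) * η :=
            mul_le_mul_of_nonneg_right h6 hη0.le
          simp only [hth] at h2 h3
          linarith [h2.1, h2.2, h3.1, h3.2]
        · have h6 : ((j : ℕ) : ℝ) + 1 ≤ ((i : ℕ) : ℝ) := by exact_mod_cast h
          have h7 : (((j : ℕ) : ℝ) + 1) * η ≤ ((i : ℕ) : ℝ) * η :=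
            mul_le_mul_of_nonneg_right h6 hη0.le
          simp only [hth] at h2 h3
          linarith [h2.1, h2.2, h3.1, h3.2]
    refine h1.trans ?_
    rw [Set.ncard_coe_finset, Finset.card_erase_of_mem hmem]
    have := hμ.2.2
    omega
  · intro i μ μ' a b hμ hμ' hl ha hb
    by_cases h1 : bad i μ
    · simp [h1] at ha
    by_cases h2 : bad i μ'
    · simp [h2] at hb
    simp only [h1, if_false, Option.some.injEq] at ha
    simp only [h2, if_false, Option.some.injEq] at hb
    rw [← ha, ← hb]
    have hd : ∀ v, |μ v - μ' v| ≤ η / 4 := by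
      intro v
      have := abs_le_l1 (μ - μ') v
      rw [Finsupp.sub_apply] at this
      exact this.trans hl
    have hn1 : ∀ v, η / 2 ≤ |μ v - th i| := by
      intro v
      by_contra h
      exact h1 ⟨v, not_le.1 h⟩
    have hn2 : ∀ v, η / 2 ≤ |μ' v - th i| := by
      intro v
      by_contra h
      exact h2 ⟨v, not_le.1 h⟩
    have hpos := hth0 i
    ext v
    rw [Finset.mem_filter, Finset.mem_filter, Finsupp.mem_support_iff, Finsupp.mem_support_iff]
    have h3 := hd v
    have h4 := hn1 v
    have h5 := hn2 v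
    rw [abs_le] at h3
    constructor
    · rintro ⟨-, h⟩
      rw [abs_of_nonneg (by linarith)] at h4
      have h6 : th i ≤ μ' v := by linarith [h3.1, h3.2]
      exact ⟨fun h0 => by rw [h0] at h6; linarith, h6⟩
    · rintro ⟨-, h⟩
      rw [abs_of_nonneg (by linarith)] at h5
      have h6 : th i ≤ μ v := by linarith [h3.1, h3.2]
      exact ⟨fun h0 => by rw [h0] at h6; linarith, h6⟩
  · intro i μ a hμ ha
    by_cases h1 : bad i μ
    · simp [h1] at ha
    simp only [h1, if_false, Option.some.injEq] at ha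
    obtain ⟨v, hv⟩ := exists_large hμ
    refine ⟨v, ?_⟩
    rw [← ha, Finset.mem_filter, Finsupp.mem_support_iff]
    have h3 := hth0 i
    have h4 := hth1 i
    exact ⟨fun h0 => by rw [h0] at hv; linarith, by linarith⟩
  · intro i μ a v ha hv
    by_cases h1 : bad i μ
    · simp [h1] at ha
    simp only [h1, if_false, Option.some.injEq] at ha
    rw [← ha, Finset.mem_filter, Finsupp.mem_support_iff] at hv
    exact hv.1

end MP65
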