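import Pool.Agent.Work.MP_65b809_gt.PInd
import Pool.Agent.Work.MP_65b809_gt.KLem
import Pool.Agent.Work.MP_65b809_gt.Thr
import Pool.Agent.Work.MP_65b809_gt.GL

/-! # NPart : assembly for the group part

Let `R`, `q` be given. `K` from `exists_goodK`. Choose for every `(g,t)` a tuple `y(g,t)` with
`Grid d t y`, `Close d t C_r (ch y t) g` (`exists_round`).
Adjacency: if `|t - t'| ≤ R` and `Low d (max t t') R (g⁻¹g')` then `Conn K d k₁ (y(g,t)) (y(g',t'))` with
`k₁` depending on `R` only: say `t ≤ t'` (the other case is symmetric); both tuples are grid tuples of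
the scale `t`; `ch y t` is close to `g` at `t`, `g` to `g'` at the scale `t'`, `g'` to
`ch y' t' = ch y' t` at the scale `t'` (`ch_below`); closeness at the scale `t' ≤ t + R` is closeness
at the scale `t` with another constant (`low_down` with `p = ⌈R⌉`, monotone in the scale); then
`close_conn`.
`thresholds d q` gives `η`; `exists_str` with `δ = η / (k₁ + 1)` gives `I, μ, Ro`. Labels
`f i g t = f_i (μ (y(g,t)))`. Missed: clear. Same label: along a path of `k₁` edges (through vertices;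
steps `EqOn d` are edges by `edge_refl`) `μ` changes by at most `k₁ δ ≤ η` in `l1`.
Counting: points of the label `a` (for the colour `i`): choose `v ∈ a` (if the label occurs); then
`μ (y(g,t)) v ≠ 0` for all points of the label, so any two of the tuples are `Conn K d Ro`. Fix
`i, a, t₀ ≤ t₁, g₀`. If no point satisfies the conditions take `code = 0`. Otherwise fix one, `(g*,t*)`,
`y₀ = y(g*,t*)`, `s = t₀`: `Grid d t₀ y₀`. For another such point `(g,t)`: `y = y(g,t)` is in `Grid d t₀`,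
`Conn K d Ro y₀ y`, and `ch y₀ t₀ = ch y₀ t*` is close to `g*` (scale `t* ≤ t₁`), `g*` to `g₀`, `g₀` to `g`
(scale `t₁`, constant `R'`), `g` to `ch y t = ch y t₀`. So `gl` applies. Code: the pair
`((t - t₀).toNat, code of y)`, bounded by `(t₁-t₀+1) · C'(t₁-t₀+1)^e`. Equal codes: `t = t'`,
`EqOn d y y'` so `ch y = ch y'` (`ch_congr`), and `g, g'` are both close to `ch y t` at the scale `t`.
-/

namespace MP65

namespace Tower

variable {N : Type} [Group N] {d : ℕ} (T : Tower N d) {K : ℝ}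

private theorem npart_down (C : ℝ) (hC : 0 ≤ C) (R : ℝ) : ∃ C' : ℝ, 0 ≤ C' ∧
    ∀ (t t' : ℤ) (a b : N), (t' : ℝ) - t ≤ R → T.Close d t' C a b → T.Close d t C' a b := by
  obtain ⟨p, hp⟩ := exists_nat_ge R
  obtain ⟨C', hC', h⟩ := T.low_down C p
  refine ⟨C', hC', fun t t' a b htt hc => ?_⟩
  have h1 : (t' : ℝ) ≤ (t : ℝ) + p := by linarith
  have h2 := T.close_mono_s le_rfl hC h1 hc
  exact ⟨h d t _ le_rfl h2.1, h d t _ le_rfl h2.2⟩

/-- the adjacency statement for the chosen tuples -/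
private theorem npart_adj (hK : T.GoodK K) {Cr : ℝ} (hCr : 0 ≤ Cr) (R R₁ : ℝ) (hR₁ : 0 ≤ R₁) :
    ∃ k₁ : ℕ, ∀ (g g' : N) (t t' : ℤ) (Y Y' : ℕ → ℝ), T.Grid d t Y → T.Grid d t' Y' →
      T.Close d t Cr (T.ch Y t) g → T.Close d t' Cr (T.ch Y' t') g' →
      |(t : ℝ) - t'| ≤ R → T.Close d (max (t : ℝ) t') R₁ g g' → T.Conn K d k₁ Y Y' := by
  obtain ⟨C₂, hC₂, h2⟩ := T.close_trans Cr R₁
  obtain ⟨C₃, hC₃, h3⟩ := T.close_trans C₂ Cr
  obtain ⟨C₄, hC₄, h4⟩ := npart_down T C₃ hC₃ R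
  obtain ⟨k, hk⟩ := close_conn hK C₄
  have main : ∀ (g g' : N) (t t' : ℤ) (Y Y' : ℕ → ℝ), T.Grid d t Y → T.Grid d t' Y' →
      T.Close d t Cr (T.ch Y t) g → T.Close d t' Cr (T.ch Y' t') g' →
      |(t : ℝ) - t'| ≤ R → T.Close d (max (t : ℝ) t') R₁ g g' → t ≤ t' → T.Conn K d k Y Y' := by
    intro g g' t t' Y Y' hY hY' hc hc' hR hg htt
    have htt' : (t : ℝ) ≤ (t' : ℝ) := by exact_mod_cast htt
    rw [max_eq_right htt'] at hg
    have a1 := T.close_mono_s le_rfl hCr htt' hc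
    have a2 := h3 d t' _ _ _ le_rfl (h2 d t' _ _ _ le_rfl a1 hg) (T.close_symm hc')
    have a3 := h4 t t' _ _ (by rw [abs_le] at hR; linarith) a2
    rw [← T.ch_below hY' t htt] at a3
    exact hk d t Y Y' le_rfl hY (T.grid_mono_s le_rfl htt hY') a3
  refine ⟨k, fun g g' t t' Y Y' hY hY' hc hc' hR hg => ?_⟩
  rcases le_total t t' with htt | htt
  · exact main g g' t t' Y Y' hY hY' hc hc' hR hg htt
  · refine conn_symm le_rfl (main g' g t' t Y' Y hY' hY hc' hc ?_ ?_ htt)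
    · rw [abs_sub_comm]; exact hR
    · rw [max_comm]; exact T.close_symm hg

private theorem npart_lip (hK : T.GoodK K) {I : Type} {μ : (ℕ → ℝ) → I →₀ ℝ} {δ : ℝ}
    (hμ : ∀ y ∈ {y | T.V y}, ∀ y' ∈ {y | T.V y}, T.Edge K d y y' → l1 (μ y - μ y') ≤ δ)
    (k : ℕ) : ∀ y y' : ℕ → ℝ, T.V y → T.V y' → T.Conn K d k y y' →
    l1 (μ y - μ y') ≤ ((k : ℝ) + 1) * δ := by
  have hE : ∀ y y' : ℕ → ℝ, T.V y → EqOn d y y' → l1 (μ y - μ y') ≤ δ := by
    intro y y' hy he
    obtain ⟨s, hs⟩ := id hy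
    exact hμ y hy y' (T.v_congr he hy) (edge_refl hK le_rfl hs he)
  induction k with
  | zero =>
    intro y y' hy _ h
    have := hE y y' hy h
    simpa using this
  | succ k ih =>
    intro y y' hy hy' h
    obtain ⟨u, hu, h1⟩ := h
    have hVu : T.V u := by
      rcases h1 with h1 | h1
      · exact T.v_congr (EqOn.symm h1) hy'
      · obtain ⟨s, hs, -⟩ := h1
        exact ⟨s, hs⟩
    have h2 : l1 (μ u - μ y') ≤ δ := by
      rcases h1 with h1 | h1
      · exact hE u y' hVu h1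
      · exact hμ u hVu y' hy' h1
    have h3 := ih y u hy hVu hu
    have h4 := l1_sub_le (μ y) (μ u) (μ y')
    push_cast
    linarith

end Tower

theorem Tower.nPart {N : Type} [Group N] {d : ℕ} (T : Tower N d) : T.NPart := by
  classical
  intro R q
  obtain ⟨K, hK⟩ := T.exists_goodK
  obtain ⟨Cr, hCr, hround⟩ := T.exists_round
  choose Y hYg hYc using hround
  obtain ⟨R₁, hR₁, hlow⟩ := T.close_of_low R
  obtain ⟨k₁, hk₁⟩ := npart_adj T hK hCr R R₁ hR₁
  obtain ⟨η, hη, hthr⟩ := thresholds d q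
  have hk1 : (0 : ℝ) < (k₁ : ℝ) + 1 := by positivity
  obtain ⟨Ro, I, μ, hprob, hlip, hsupp⟩ :=
    T.exists_str hK (fun j hj => T.kLem hK hj) (η / ((k₁ : ℝ) + 1)) (by positivity)
  obtain ⟨f, hf1, hf2, hf3, hf4⟩ := hthr I
  have hV : ∀ g t, T.V (Y g t) := fun g t => ⟨t, hYg g t⟩
  obtain ⟨C₂, hC₂, h2⟩ := T.close_trans Cr Cr
  refine ⟨Finset I, fun i g t => f i (μ (Y g t)), C₂, ?_, ?_, ?_⟩
  · intro g t
    exact hf1 _ (hprob _ (hV g t))
  · intro i g t g' t' a b hR hg ha hb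
    refine hf2 i _ _ a b (hprob _ (hV g t)) (hprob _ (hV g' t')) ?_ ha hb
    have hc := hk₁ g g' t t' _ _ (hYg g t) (hYg g' t') (hYc g t) (hYc g' t') hR
      (hlow d _ _ _ le_rfl hg)
    have h3 := npart_lip T hK hlip k₁ _ _ (hV g t) (hV g' t') hc
    refine h3.trans (le_of_eq ?_)
    field_simp
  · intro R'
    obtain ⟨R₂, hR₂, hlow'⟩ := T.close_of_low R'
    obtain ⟨C₃, hC₃, h3⟩ := T.close_trans Cr R₂
    obtain ⟨C₄, hC₄, h4⟩ := T.close_trans C₃ R₂
    obtain ⟨C₅, hC₅, h5⟩ := T.close_trans C₄ Cr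
    obtain ⟨C', e, hgl⟩ := T.gl hK Ro C₅
    refine ⟨C', e + 1, fun i a t₀ t₁ g₀ ht => ?_⟩
    by_cases hne : ∃ (g : N) (t : ℤ), f i (μ (Y g t)) = some a ∧ t₀ ≤ t ∧ t ≤ t₁ ∧
        T.Low d t₁ R' (g₀⁻¹ * g)
    · obtain ⟨gs, ts, hs1, hs2, hs3, hs4⟩ := hne
      have hg0 : T.Grid d t₀ (Y gs ts) := T.grid_mono_s le_rfl hs2 (hYg gs ts)
      obtain ⟨code, hc1, hc2⟩ := hgl t₀ t₁ t₀ (Y gs ts) ht le_rfl hg0
      obtain ⟨v, hv⟩ := hf3 i _ a (hprob _ (hV gs ts)) hs1
      have hts1 : (ts : ℝ) ≤ (t₁ : ℝ) := by exact_mod_cast hs3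
      have hmem : ∀ g t, f i (μ (Y g t)) = some a → t₀ ≤ t → t ≤ t₁ →
          T.Low d t₁ R' (g₀⁻¹ * g) → Y g t ∈ {y | T.Grid d t₀ y ∧ T.Conn K d Ro (Y gs ts) y ∧
            T.Close d t₁ C₅ (T.ch (Y gs ts) t₀) (T.ch y t₀)} := by
        intro g t h1 h2' h3' h4'
        have ht1 : (t : ℝ) ≤ (t₁ : ℝ) := by exact_mod_cast h3'
        refine ⟨T.grid_mono_s le_rfl h2' (hYg g t), ?_, ?_⟩
        · exact hsupp v _ (hV gs ts) _ (hV g t) (hf4 i _ a v hs1 hv) (hf4 i _ a v h1 hv)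
        · rw [T.ch_below (hYg gs ts) t₀ hs2, T.ch_below (hYg g t) t₀ h2']
          have b1 := T.close_mono_s le_rfl hCr hts1 (hYc gs ts)
          have b2 := T.close_symm (hlow' d t₁ _ _ le_rfl hs4)
          have b3 := hlow' d t₁ _ _ le_rfl h4'
          have b4 := T.close_symm (T.close_mono_s le_rfl hCr ht1 (hYc g t))
          exact h5 d t₁ _ _ _ le_rfl (h4 d t₁ _ _ _ le_rfl (h3 d t₁ _ _ _ le_rfl b1 b2) b3) b4
      obtain ⟨L, hL⟩ : ∃ L : ℕ, L = (t₁ - t₀).toNat + 1 := ⟨_, rfl⟩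
      rw [← hL] at hc1 ⊢
      refine ⟨fun g t => (t - t₀).toNat * (C' * L ^ e) + code (Y g t), ?_, ?_⟩
      · intro g t h1 h2' h3' h4'
        have b1 := hc1 _ (hmem g t h1 h2' h3' h4')
        have b2 : (t - t₀).toNat + 1 ≤ L := by omega
        calc (t - t₀).toNat * (C' * L ^ e) + code (Y g t)
            < (t - t₀).toNat * (C' * L ^ e) + C' * L ^ e := by omega
          _ = ((t - t₀).toNat + 1) * (C' * L ^ e) := by ring
          _ ≤ L * (C' * L ^ e) := Nat.mul_le_mul_right _ b2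
          _ = C' * L ^ (e + 1) := by ring
      · intro g t g' t' ha hb p1 p2 p3 p4 p5 p6 hcode
        have b1 := hc1 _ (hmem g t ha p1 p2 p5)
        have b2 := hc1 _ (hmem g' t' hb p3 p4 p6)
        have hpos : 0 < C' * L ^ e := by omega
        have e1 : (t - t₀).toNat = (t' - t₀).toNat := by
          have a1 : ((t - t₀).toNat * (C' * L ^ e) + code (Y g t)) / (C' * L ^ e) =
              (t - t₀).toNat := by
            rw [mul_comm, Nat.mul_add_div hpos, Nat.div_eq_of_lt b1, add_zero]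
          have a2 : ((t' - t₀).toNat * (C' * L ^ e) + code (Y g' t')) / (C' * L ^ e) =
              (t' - t₀).toNat := by
            rw [mul_comm, Nat.mul_add_div hpos, Nat.div_eq_of_lt b2, add_zero]
          rw [← a1, ← a2]
          exact congrArg (· / (C' * L ^ e)) hcode
        have e2 : code (Y g t) = code (Y g' t') := by
          have hcode' : (t - t₀).toNat * (C' * L ^ e) + code (Y g t) =
            (t' - t₀).toNat * (C' * L ^ e) + code (Y g' t') := hcode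
          rw [e1] at hcode'
          omega
        have htt : t = t' := by omega
        refine ⟨htt, ?_⟩
        have e3 := hc2 _ (hmem g t ha p1 p2 p5) _ (hmem g' t' hb p3 p4 p6) e2
        have c1 := hYc g t
        have c2 := hYc g' t'
        rw [← htt] at c2
        rw [← htt] at e3
        rw [← T.ch_congr e3] at c2
        exact (h2 d t _ _ _ le_rfl (T.close_symm c1) c2).1
    · refine ⟨fun _ _ => 0, fun g t h1 h2' h3' h4' => absurd ⟨g, t, h1, h2', h3', h4'⟩ hne, ?_⟩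
      intro g t g' t' ha hb p1 p2 p3 p4 p5 p6 hcode
      exact absurd ⟨g, t, ha, p1, p2, p5⟩ hne

end MP65
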