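import Pool.Agent.Work.MP_65b809_gt.Defs

/-! # PDBase : `PolyDim` under maps and products

* `PolyDim.mono`: clear.
* `PolyDim.comap`: for `r, ε, q`: use `dY` with `r' = L (|r| + 1)`, the `δ` of `ε`; colours `f i ∘ φ`. Ball:
  `dX x y ≤ n` implies `dY ≤ L (n+1)`, a natural number `n' = L(n+1)`,
  `C (n'+1)^e ≤ C' (n+1)^e` (`C' = C (L+1)^e`).
* `PolyDim.prod`, `PolyDim.pi`: use the same `r`, `q` for all factors and `ε / (number of factors + 1)`.
  `f c x = some (fun i => label)` if no factor is missed, `none` otherwise; the set of missed colours is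
  the union of those of the factors (`Set.ncard_union_le`, `Finset` union bound). Each `d i ≤` the
  sum as all are `≥ 0`. The codes: finite products of codes, encode `Fin n → Fin N` (for `pi`) by
  induction on `n` or by a `Fintype.equivFin`; number `∏ C_i (n+1)^{e_i}`. (`pi` may be proved from
  `prod` by induction on `n` with `Fin.consEquiv`/`Fin.succ`, using `comap`.)
-/

namespace MP65

theorem PolyDim.mono {X : Type} {d : X → X → ℝ} {D D' : ℕ} (h : D ≤ D') (hd : PolyDim d D) :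
    PolyDim d D' := by
  intro r ε q hε
  obtain ⟨Λ, f, C, e, h1, h2, h3⟩ := hd r ε q hε
  exact ⟨Λ, f, C, e, fun x => (h1 x).trans h, h2, h3⟩

theorem PolyDim.comap {X Y : Type} {dX : X → X → ℝ} {dY : Y → Y → ℝ} {D : ℕ} (φ : X → Y)
    (h1 : ∃ L : ℕ, ∀ x x', dY (φ x) (φ x') ≤ L * (dX x x' + 1))
    (h2 : ∀ ε : ℝ, 0 < ε → ∃ δ : ℝ, 0 < δ ∧ ∀ x x', dY (φ x) (φ x') ≤ δ → dX x x' ≤ ε)
    (hY : PolyDim dY D) : PolyDim dX D := by
  intro r ε q hε
  obtain ⟨L, hL⟩ := h1
  obtain ⟨δ, hδ, hδ2⟩ := h2 ε hε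
  obtain ⟨Λ, f, C, e, g1, g2, g3⟩ := hY (L * (|r| + 1)) δ q hδ
  refine ⟨Λ, fun i x => f i (φ x), C * (L + 1) ^ e, e, fun x => g1 (φ x), ?_, ?_⟩
  · intro i x y a b hxy ha hb
    refine g2 i (φ x) (φ y) a b ?_ ha hb
    refine (hL x y).trans ?_
    apply mul_le_mul_of_nonneg_left _ (Nat.cast_nonneg L)
    have := le_abs_self r
    linarith
  · intro i x a n ha
    obtain ⟨g, hg1, hg2⟩ := g3 i (φ x) a (L * (n + 1)) ha
    refine ⟨fun y => g (φ y), ?_, ?_⟩
    · intro y
      refine lt_of_lt_of_le (hg1 (φ y)) ?_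
      rw [mul_assoc, ← mul_pow]
      apply Nat.mul_le_mul_left
      apply Nat.pow_le_pow_left
      nlinarith
    · intro y z hy hz hxy hxz hyz
      apply hδ2
      have key : ∀ w, dX x w ≤ n → dY (φ x) (φ w) ≤ ((L * (n + 1) : ℕ) : ℝ) := by
        intro w hw
        refine (hL x w).trans ?_
        push_cast
        apply mul_le_mul_of_nonneg_left _ (Nat.cast_nonneg L)
        linarith
      exact hg2 (φ y) (φ z) hy hz (key y hxy) (key z hxz) hyz

theorem PolyDim.prod {X Y : Type} {dX : X → X → ℝ} {dY : Y → Y → ℝ} {D D' : ℕ}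
    (h0 : ∀ x x', 0 ≤ dX x x') (h0' : ∀ y y', 0 ≤ dY y y')
    (hX : PolyDim dX D) (hY : PolyDim dY D') :
    PolyDim (fun p p' : X × Y => dX p.1 p'.1 + dY p.2 p'.2) (D + D') := by
  intro r ε q hε
  obtain ⟨Λ, f, C, e, f1, f2, f3⟩ := hX r (ε / 2) q (half_pos hε)
  obtain ⟨Λ', f', C', e', f1', f2', f3'⟩ := hY r (ε / 2) q (half_pos hε)
  have hsome : ∀ (i : Fin q) (p : X × Y) (a : Λ × Λ'),
      ((f i p.1).bind (fun a => (f' i p.2).map (fun b => (a, b)))) = some a ↔
        f i p.1 = some a.1 ∧ f' i p.2 = some a.2 := by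
    intro i p a
    rcases h : f i p.1 with _ | u <;> rcases h' : f' i p.2 with _ | v
    · simp
    · simp
    · simp
    · simp only [Option.bind_some, Option.map_some, Option.some.injEq]
      constructor
      · intro h; rw [← h]; exact ⟨rfl, rfl⟩
      · intro h; rw [h.1, h.2]
  refine ⟨Λ × Λ', fun i p => (f i p.1).bind (fun a => (f' i p.2).map (fun b => (a, b))),
    C * C', e + e', ?_, ?_, ?_⟩
  · intro p
    have hsub : ({i | ((f i p.1).bind (fun a => (f' i p.2).map (fun b => (a, b)))) = none} :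
        Set (Fin q)) ⊆ {i | f i p.1 = none} ∪ {i | f' i p.2 = none} := by
      intro i hi
      by_contra hcon
      simp only [Set.mem_union, Set.mem_ofPred_eq, not_or] at hcon
      obtain ⟨u, hu⟩ := Option.ne_none_iff_exists'.1 hcon.1
      obtain ⟨v, hv⟩ := Option.ne_none_iff_exists'.1 hcon.2
      simp only [Set.mem_ofPred_eq] at hi
      rw [hu, hv] at hi
      simp at hi
    refine (Set.ncard_le_ncard hsub (Set.toFinite _)).trans ?_
    refine (Set.ncard_union_le _ _).trans ?_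
    exact Nat.add_le_add (f1 p.1) (f1' p.2)
  · intro i x y a b hxy ha hb
    rw [hsome] at ha hb
    have e1 := f2 i x.1 y.1 a.1 b.1 (by linarith [h0' x.2 y.2]) ha.1 hb.1
    have e2 := f2' i x.2 y.2 a.2 b.2 (by linarith [h0 x.1 y.1]) ha.2 hb.2
    exact Prod.ext e1 e2
  · intro i x a n ha
    rw [hsome] at ha
    obtain ⟨g, hg1, hg2⟩ := f3 i x.1 a.1 n ha.1
    obtain ⟨g', hg1', hg2'⟩ := f3' i x.2 a.2 n ha.2
    refine ⟨fun p => g p.1 * (C' * (n + 1) ^ e') + g' p.2, ?_, ?_⟩
    · intro y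
      have e1 := hg1 y.1
      have e2 := hg1' y.2
      calc g y.1 * (C' * (n + 1) ^ e') + g' y.2
          < g y.1 * (C' * (n + 1) ^ e') + (C' * (n + 1) ^ e') := by omega
        _ = (g y.1 + 1) * (C' * (n + 1) ^ e') := by ring
        _ ≤ (C * (n + 1) ^ e) * (C' * (n + 1) ^ e') := Nat.mul_le_mul_right _ e1
        _ = C * C' * (n + 1) ^ (e + e') := by ring
    · intro y z hy hz hxy hxz hyz
      rw [hsome] at hy hz
      have hN : 0 < C' * (n + 1) ^ e' := lt_of_le_of_lt (Nat.zero_le _) (hg1' y.2)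
      have hmod : g' y.2 = g' z.2 := by
        have h1 := congrArg (fun t => t % (C' * (n + 1) ^ e')) hyz
        simp only [Nat.mul_add_mod_self_right] at h1
        rwa [Nat.mod_eq_of_lt (hg1' y.2), Nat.mod_eq_of_lt (hg1' z.2)] at h1
      have hdiv : g y.1 = g z.1 := by
        simp only [hmod, Nat.add_right_cancel_iff] at hyz
        exact Nat.eq_of_mul_eq_mul_right hN hyz
      have e1 := hg2 y.1 z.1 hy.1 hz.1 (by linarith [h0' x.2 y.2]) (by linarith [h0' x.2 z.2]) hdiv
      have e2 := hg2' y.2 z.2 hy.2 hz.2 (by linarith [h0 x.1 y.1]) (by linarith [h0 x.1 z.1]) hmod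
      show dX y.1 z.1 + dY y.2 z.2 ≤ ε
      linarith

theorem PolyDim.pi {n : ℕ} {X : Fin n → Type} {d : ∀ i, X i → X i → ℝ} {D : Fin n → ℕ}
    (h0 : ∀ i x x', 0 ≤ d i x x') (h : ∀ i, PolyDim (d i) (D i)) :
    PolyDim (fun x x' : ∀ i, X i => ∑ i, d i (x i) (x' i)) (∑ i, D i) := by
  induction n with
  | zero =>
    intro r ε q hε
    refine ⟨Unit, fun _ _ => some (), 1, 0, ?_, ?_, ?_⟩
    · intro x; simp
    · intro i x y a b _ _ _; rfl
    · intro i x a n _
      refine ⟨fun _ => 0, fun y => by simp, ?_⟩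
      intro y z _ _ _ _ _
      simp [hε.le]
  | succ n ih =>
    have ih' := ih (X := fun i => X i.succ) (d := fun i => d i.succ) (D := fun i => D i.succ)
      (fun i => h0 i.succ) (fun i => h i.succ)
    have hp := PolyDim.prod (h0 0) (fun (y y' : ∀ i : Fin n, X i.succ) =>
      Finset.sum_nonneg (fun i _ => h0 i.succ (y i) (y' i))) (h 0) ih'
    rw [Fin.sum_univ_succ]
    refine PolyDim.comap (fun x : (∀ i, X i) => (x 0, fun i : Fin n => x i.succ)) ⟨1, ?_⟩ ?_ hp
    · intro x x'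
      simp only [Nat.cast_one, one_mul]
      rw [Fin.sum_univ_succ]
      linarith
    · intro ε hε
      refine ⟨ε, hε, ?_⟩
      intro x x' hx
      rw [Fin.sum_univ_succ]
      exact hx

end MP65
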