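import Pool.Agent.Work.MP_65b809_gt.Mass
import Pool.Agent.Work.MP_65b809_gt.Graph

/-! # PInd : downward induction, structures on the whole vertex set

`PStr K d`: `F = FB K d R b₀`; `I = Unit`, `μ y` = the Dirac mass; any two points of `F` are joined by
a path of at most `2R` edges. So `Ro = 2R`, dimension `d - d = 0`, differences `0`.

`PStr K (j+1) → PStr K j` (`j < d`), using `T.KLem K j`. Let `R`, `δ` be given, `D = d - j - 1`,
`δ₁ = min (δ / (30 (D+1))) 1`. `C₀` from the key lemma for `R`. Choose `W ≥ 1` natural with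
`C₀ / W ≤ δ₁`, `C₀ < W`; `R'` from the key lemma for the window length `3 W`. Let `b₀` be given and `n` the
function of the key lemma. `lam y = Λ(n y)` with `Λ : ℕ → ℝ` the `4W`-periodic piecewise linear
function `Λ = 0` on `[0,W]`, from `0` to `1` on `[W,2W]`, `1` on `[2W,3W]`, from `1` to `0` on
`[3W,4W]`; it is `1/W`-Lipschitz. `F = FB K j R b₀`.
Blocks: `{lam < 1}`: `n y mod 4W ∉ [2W, 3W]`, i.e. `n y` in one of the windows
`(4kW - W, 4kW + 2W)`; `{lam > 0}`: windows `(4kW + W, 4kW + 4W)`. All have length `≤ 3W` and two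
different windows of the same kind are at distance `≥ W > C₀`, so an edge of `G^(j+1)` inside
`F ∩ {lam < 1}` stays in one window. Components: the equivalence relation on
`F ∩ {lam < 1}` generated by the edges of `G^(j+1)` (as points of `F ∩ {lam<1}`) and by `EqOn (j+1)`
(equality of the first `j+1` entries implies an edge, `edge_refl`); choose a representative `c(y)`
in each class. By the key lemma (third part; the generated equivalence relation is the reflexive
transitive closure as edges are symmetric) `Conn K (j+1) R' (c y) y`. So `y ∈ FB K (j+1) R' (c y)`.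
`A`-structure: `PStr K (j+1)` for `(R', δ₁)` gives `RA` and for every `c` a structure `(I_c, μ_c)` on
`FB K (j+1) R' c`; `IA = Σ c, I_c`, `μA y = (μ_{c y} y).mapDomain (Sigma.mk (c y))`. Edges of `G^(d)` are
edges of `G^(j+1)` (`edge_mono_j`), so the ends of an edge inside `{lam<1}` have the same `c`.
`B`-structure: components of `F ∩ {lam > 0}` in the same way, representatives `c'(y)`; now
`PStr K (j+1)` for `(R' + RA + 1, δ₂)`, `δ₂ = min δ₁ (1 / (2 (D+1) (RA+1)))`, gives `RB`,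
`IB = Σ c, I'_c`, `μB`. Definition of `φ y (c,v)` (depends on `y` only through `c' = c'(y)`): choose a
point `x` of `F ∩ {lam > 0} ∩ {lam < 1}` with `c'(x) = c'` and `μA x (c,v) ≠ 0` (if there is one; otherwise any
value, the index type being inhabited as probability vectors are nonzero) and then `w ∈ I'_{c'}`
with `μ'_{c'} x w ≥ 1/(D+1)` (`exists_large`).
`hφ`: let `y` be another such point: `μA y (c,v) ≠ 0`, `c'(y) = c'`. Then `Conn K d RA x y`; the
points of such a path are vertices (up to `EqOn d`), and they are in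
`FB K (j+1) (R' + RA) c'` (`conn_mono_j`, `conn_trans`), where `μ'_{c'}` is `δ₂`-Lipschitz along edges; so
`μ'_{c'} y w ≥ 1/(D+1) - RA δ₂ > 0` (steps `EqOn d` between vertices are also edges, `edge_refl`).
`mass_step` gives `μ` with at most `D + 2 = (d - j) + 1` entries, `30 (D+1) δ₁ ≤ δ`. Supports:
`inl (c,v)`: `RA`; `inr`: `RB`. `Ro = max RA RB`.

`exists_str`: `PStr K 0` for `R = 0`: `FB K 0 0 b₀` is the set of all vertices.
-/

namespace MP65

theorem prob_map {I J : Type} {D : ℕ} {μ : I →₀ ℝ} (h : Prob D μ) (f : I → J) :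
    Prob D (μ.mapDomain f) := by
  classical
  refine ⟨mapNonneg' f h.1, ?_, ?_⟩
  · rw [sumMap']
    exact h.2.1
  · exact ((Finset.card_le_card Finsupp.mapDomain_support).trans Finset.card_image_le).trans h.2.2

/-- a vector indexed by `I b`, seen in `Option (Σ b, I b)` -/
noncomputable def sigV {B : Type} {I : B → Type} (b : B) (μ : I b →₀ ℝ) :
    Option (Σ b, I b) →₀ ℝ := μ.mapDomain (fun v => some ⟨b, v⟩)

theorem sigV_inj {B : Type} {I : B → Type} (b : B) :
    Function.Injective (fun v : I b => (some ⟨b, v⟩ : Option (Σ b, I b))) := by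
  intro v v' h
  have h1 := Option.some.inj h
  exact eq_of_heq (Sigma.mk.inj h1).2

theorem sigV_apply {B : Type} {I : B → Type} (b : B) (μ : I b →₀ ℝ) (v : I b) :
    sigV b μ (some ⟨b, v⟩) = μ v :=
  Finsupp.mapDomain_apply (sigV_inj b) μ v

theorem sigV_ne {B : Type} {I : B → Type} {b : B} {μ : I b →₀ ℝ} {i : Option (Σ b, I b)}
    (h : sigV b μ i ≠ 0) : ∃ v, μ v ≠ 0 ∧ i = some ⟨b, v⟩ := by
  obtain ⟨v, hv, hi⟩ := map_ne_zero' _ h
  exact ⟨v, hv, hi.symm⟩

theorem sigV_sub {B : Type} {I : B → Type} (b : B) (μ ν : I b →₀ ℝ) :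
    l1 (sigV b μ - sigV b ν) ≤ l1 (μ - ν) := by
  have h : sigV b μ - sigV b ν = (μ - ν).mapDomain (fun v => some ⟨b, v⟩) :=
    ((Finsupp.mapDomain.addMonoidHom (M := ℝ)
      (fun v : I b => (some ⟨b, v⟩ : Option (Σ b, I b)))).map_sub _ _).symm
  rw [h]
  exact l1_map _ _

/-- the periodic profile -/
noncomputable def prof (W n : ℕ) : ℝ :=
  max 0 (min 1 (3 / 2 - |((n % (4 * W) : ℕ) : ℝ) / W - 5 / 2|))

theorem prof_bd (W n : ℕ) : 0 ≤ prof W n ∧ prof W n ≤ 1 :=
  ⟨le_max_left _ _, max_le zero_le_one (min_le_left _ _)⟩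

theorem prof_lip_aux {x y e : ℝ} (h : |x - y| ≤ e) :
    |max 0 (min 1 (3 / 2 - |x - 5 / 2|)) - max 0 (min 1 (3 / 2 - |y - 5 / 2|))| ≤ e := by
  have he : 0 ≤ e := (abs_nonneg _).trans h
  refine (abs_max_sub_max_le_max _ _ _ _).trans (max_le (by simpa using he) ?_)
  refine (abs_min_sub_min_le_max _ _ _ _).trans (max_le (by simpa using he) ?_)
  have h1 : 3 / 2 - |x - 5 / 2| - (3 / 2 - |y - 5 / 2|) = |y - 5 / 2| - |x - 5 / 2| := by ring
  rw [h1]
  refine (abs_abs_sub_abs_le _ _).trans ?_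
  have h2 : y - 5 / 2 - (x - 5 / 2) = y - x := by ring
  rw [h2, abs_sub_comm]
  exact h

theorem prof_lip' {W C₀ m n : ℕ} (hW : C₀ < W) (hmn : m ≤ n) (hn : n ≤ m + C₀) :
    |prof W m - prof W n| ≤ (C₀ : ℝ) / W := by
  have hW0 : 0 < W := by omega
  have hWr : (0 : ℝ) < W := by exact_mod_cast hW0
  have h4 : 0 < 4 * W := by omega
  have em := Nat.div_add_mod m (4 * W)
  have en := Nat.div_add_mod n (4 * W)
  have lm := Nat.mod_lt m h4
  have ln := Nat.mod_lt n h4
  have hdiv : m / (4 * W) ≤ n / (4 * W) := Nat.div_le_div_right hmn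
  rcases eq_or_lt_of_le hdiv with hd | hd
  · unfold prof
    apply prof_lip_aux
    rw [← sub_div, abs_div, abs_of_pos hWr]
    apply div_le_div_of_nonneg_right _ hWr.le
    rw [hd] at em
    have h1 : m % (4 * W) ≤ n % (4 * W) := by omega
    have h2 : n % (4 * W) ≤ m % (4 * W) + C₀ := by omega
    have h1' : ((m % (4 * W) : ℕ) : ℝ) ≤ ((n % (4 * W) : ℕ) : ℝ) := by exact_mod_cast h1
    have h2' : ((n % (4 * W) : ℕ) : ℝ) ≤ ((m % (4 * W) : ℕ) : ℝ) + C₀ := by exact_mod_cast h2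
    rw [abs_le]
    constructor <;> linarith
  · have h5 : 4 * W * (m / (4 * W)) + 4 * W ≤ 4 * W * (n / (4 * W)) := by
      have := Nat.mul_le_mul_left (4 * W) hd
      rw [Nat.mul_succ] at this
      exact this
    have h6 : 4 * W ≤ m % (4 * W) + C₀ := by omega
    have h7 : n % (4 * W) ≤ C₀ := by omega
    have h6' : (4 : ℝ) * W ≤ ((m % (4 * W) : ℕ) : ℝ) + C₀ := by exact_mod_cast h6
    have h7' : ((n % (4 * W) : ℕ) : ℝ) ≤ C₀ := by exact_mod_cast h7
    have hCW : (C₀ : ℝ) < W := by exact_mod_cast hW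
    have hz : prof W n = 0 := by
      unfold prof
      apply max_eq_left
      refine (min_le_right _ _).trans ?_
      have h8 : ((n % (4 * W) : ℕ) : ℝ) / W ≤ 1 := by
        rw [div_le_one hWr]
        linarith
      rw [abs_of_nonpos (by linarith)]
      linarith
    have hm : prof W m ≤ (C₀ : ℝ) / W := by
      unfold prof
      refine max_le (by positivity) ((min_le_right _ _).trans ?_)
      have h8 : 4 - (C₀ : ℝ) / W ≤ ((m % (4 * W) : ℕ) : ℝ) / W := by
        rw [le_div_iff₀ hWr, sub_mul, div_mul_cancel₀ _ hWr.ne']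
        linarith
      have h9 := le_abs_self (((m % (4 * W) : ℕ) : ℝ) / W - 5 / 2)
      linarith
    rw [hz, sub_zero, abs_of_nonneg (prof_bd W m).1]
    exact hm

theorem prof_lip {W C₀ m n : ℕ} (hW : C₀ < W) (h1 : m ≤ n + C₀) (h2 : n ≤ m + C₀) :
    |prof W m - prof W n| ≤ (C₀ : ℝ) / W := by
  rcases le_total m n with h | h
  · exact prof_lip' hW h h2
  · rw [abs_sub_comm]
    exact prof_lip' hW h h1

/-- start of the window for `prof < 1` -/
def winA (W n : ℕ) : ℕ := 4 * W * ((n + W) / (4 * W)) - W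

/-- start of the window for `0 < prof` -/
def winB (W n : ℕ) : ℕ := 4 * W * (n / (4 * W)) + W

theorem winA_aux {W n : ℕ} (hW : 0 < W) (h : prof W n < 1) :
    (n + W) % (4 * W) < 3 * W := by
  by_contra hc
  push Not at hc
  have h4 : 0 < 4 * W := by omega
  have hWr : (0 : ℝ) < W := by exact_mod_cast hW
  have e1 := Nat.div_add_mod (n + W) (4 * W)
  have l1 := Nat.mod_lt (n + W) h4
  have hr : n % (4 * W) = (n + W) % (4 * W) - W := by
    have e2 : n = ((n + W) % (4 * W) - W) + 4 * W * ((n + W) / (4 * W)) := by omega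
    conv_lhs => rw [e2]
    rw [Nat.add_mul_mod_self_left, Nat.mod_eq_of_lt (by omega)]
  have h2 : 2 * W ≤ n % (4 * W) := by omega
  have h3 : n % (4 * W) < 3 * W := by omega
  have h2' : 2 * (W : ℝ) ≤ ((n % (4 * W) : ℕ) : ℝ) := by exact_mod_cast h2
  have h3' : ((n % (4 * W) : ℕ) : ℝ) ≤ 3 * (W : ℝ) := by exact_mod_cast h3.le
  have h5 : 2 ≤ ((n % (4 * W) : ℕ) : ℝ) / W := by
    rw [le_div_iff₀ hWr]
    exact h2'
  have h6 : ((n % (4 * W) : ℕ) : ℝ) / W ≤ 3 := by
    rw [div_le_iff₀ hWr]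
    exact h3'
  have h7 : |((n % (4 * W) : ℕ) : ℝ) / W - 5 / 2| ≤ 1 / 2 := by
    rw [abs_le]
    constructor <;> linarith
  have h8 : prof W n = 1 := by
    unfold prof
    rw [min_eq_left (by linarith), max_eq_right zero_le_one]
  linarith

theorem winB_aux {W n : ℕ} (hW : 0 < W) (h : 0 < prof W n) : W ≤ n % (4 * W) := by
  by_contra hc
  push Not at hc
  have hWr : (0 : ℝ) < W := by exact_mod_cast hW
  have hc' : ((n % (4 * W) : ℕ) : ℝ) ≤ (W : ℝ) := by exact_mod_cast hc.le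
  have h5 : ((n % (4 * W) : ℕ) : ℝ) / W ≤ 1 := by
    rw [div_le_one hWr]
    exact hc'
  have h8 : prof W n = 0 := by
    unfold prof
    apply max_eq_left
    refine (min_le_right _ _).trans ?_
    rw [abs_of_nonpos (by linarith)]
    linarith
  linarith

theorem winA_bd {W n : ℕ} (hW : 0 < W) (h : prof W n < 1) :
    winA W n ≤ n ∧ n < winA W n + 3 * W := by
  have h1 := winA_aux hW h
  have e1 := Nat.div_add_mod (n + W) (4 * W)
  unfold winA
  constructor <;> omega

theorem winB_bd {W n : ℕ} (hW : 0 < W) (h : 0 < prof W n) :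
    winB W n ≤ n ∧ n < winB W n + 3 * W := by
  have h1 := winB_aux hW h
  have h4 : 0 < 4 * W := by omega
  have e1 := Nat.div_add_mod n (4 * W)
  have l1 := Nat.mod_lt n h4
  unfold winB
  constructor <;> omega

theorem winA_same' {W C₀ m n : ℕ} (hW : C₀ < W) (hmn : m ≤ n) (hn : n ≤ m + C₀)
    (hm1 : prof W m < 1) : winA W m = winA W n := by
  have hW0 : 0 < W := by omega
  have a1 := winA_aux hW0 hm1
  have e1 := Nat.div_add_mod (m + W) (4 * W)
  have e2 := Nat.div_add_mod (n + W) (4 * W)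
  have h : (m + W) / (4 * W) = (n + W) / (4 * W) := by
    have hle : (m + W) / (4 * W) ≤ (n + W) / (4 * W) := Nat.div_le_div_right (by omega)
    rcases eq_or_lt_of_le hle with h | h
    · exact h
    · exfalso
      have := Nat.mul_le_mul_left (4 * W) h
      rw [Nat.mul_succ] at this
      omega
  unfold winA
  rw [h]

theorem winA_same {W C₀ m n : ℕ} (hW : C₀ < W) (h1 : m ≤ n + C₀) (h2 : n ≤ m + C₀)
    (hm1 : prof W m < 1) (hn1 : prof W n < 1) : winA W m = winA W n := by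
  rcases le_total m n with h | h
  · exact winA_same' hW h h2 hm1
  · exact (winA_same' hW h h1 hn1).symm

theorem winB_same' {W C₀ m n : ℕ} (hW : C₀ < W) (hmn : m ≤ n) (hn : n ≤ m + C₀)
    (hn1 : 0 < prof W n) : winB W m = winB W n := by
  have hW0 : 0 < W := by omega
  have h4 : 0 < 4 * W := by omega
  have a1 := winB_aux hW0 hn1
  have e1 := Nat.div_add_mod m (4 * W)
  have e2 := Nat.div_add_mod n (4 * W)
  have l1 := Nat.mod_lt m h4
  have h : m / (4 * W) = n / (4 * W) := by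
    have hle : m / (4 * W) ≤ n / (4 * W) := Nat.div_le_div_right hmn
    rcases eq_or_lt_of_le hle with h | h
    · exact h
    · exfalso
      have := Nat.mul_le_mul_left (4 * W) h
      rw [Nat.mul_succ] at this
      omega
  unfold winB
  rw [h]

theorem winB_same {W C₀ m n : ℕ} (hW : C₀ < W) (h1 : m ≤ n + C₀) (h2 : n ≤ m + C₀)
    (hm1 : 0 < prof W m) (hn1 : 0 < prof W n) : winB W m = winB W n := by
  rcases le_total m n with h | h
  · exact winB_same' hW h h2 hn1
  · exact (winB_same' hW h h1 hm1).symm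

namespace Tower

variable {N : Type} [Group N] {d : ℕ} (T : Tower N d) {K : ℝ}

theorem pStr_top (hK : T.GoodK K) : T.PStr K d := by
  intro R δ hδ
  refine ⟨R + R, fun b₀ => ⟨Unit, fun _ => Finsupp.single () 1, ?_, ?_, ?_⟩⟩
  · intro y _
    refine ⟨fun v => ?_, ?_, ?_⟩
    · rw [Finsupp.single_apply]
      split
      · exact zero_le_one
      · exact le_rfl
    · rw [Finsupp.sum_single_index rfl]
    · refine (Finset.card_le_card (Finsupp.support_single_subset)).trans ?_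
      simp
  · intro y _ y' _ _
    rw [sub_self, l1_zero]
    exact hδ.le
  · intro v y hy y' hy' _ _
    exact conn_trans (conn_symm le_rfl hy.2) hy'.2 le_rfl

/-- components -/
theorem comp_rep {j : ℕ} {F : Set (ℕ → ℝ)} {n : (ℕ → ℝ) → ℕ} {P : (ℕ → ℝ) → Prop}
    {aw : (ℕ → ℝ) → ℕ} {W3 R' : ℕ}
    (hwin : ∀ y ∈ F, P y → aw y ≤ n y ∧ n y < aw y + W3)
    (hsame : ∀ y ∈ F, ∀ y' ∈ F, P y → P y' → T.Edge K (j + 1) y y' → aw y = aw y')
    (hcomp : ∀ (a : ℕ) (y y' : ℕ → ℝ), y ∈ F →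
      Relation.ReflTransGen (fun u v => u ∈ F ∧ v ∈ F ∧
        T.Edge K (j + 1) u v ∧ (a ≤ n u ∧ n u < a + W3) ∧ (a ≤ n v ∧ n v < a + W3)) y y' →
      T.Conn K (j + 1) R' y y') :
    ∃ c : (ℕ → ℝ) → (ℕ → ℝ), (∀ y ∈ F, P y → T.Conn K (j + 1) R' (c y) y) ∧
      ∀ y ∈ F, ∀ y' ∈ F, P y → P y' → T.Edge K (j + 1) y y' → c y = c y' := by
  set r : (ℕ → ℝ) → (ℕ → ℝ) → Prop := fun u v => u ∈ F ∧ v ∈ F ∧ T.Edge K (j + 1) u v ∧
    P u ∧ P v with hr
  have hsym : ∀ u v, r u v → r v u := fun u v h => ⟨h.2.1, h.1, edge_symm h.2.2.1, h.2.2.2.2,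
    h.2.2.2.1⟩
  have hsymS : ∀ u v, Relation.ReflTransGen r u v → Relation.ReflTransGen r v u := by
    intro u v h
    induction h with
    | refl => exact Relation.ReflTransGen.refl
    | tail _ h2 ih => exact Relation.ReflTransGen.head (hsym _ _ h2) ih
  let S : Setoid (ℕ → ℝ) := ⟨Relation.ReflTransGen r, fun _ => Relation.ReflTransGen.refl,
    fun {u v} h => hsymS u v h, fun {_ _ _} h1 h2 => h1.trans h2⟩
  refine ⟨fun y => (Quotient.mk S y).out, ?_, ?_⟩
  · intro y hy hPy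
    have h1 : Relation.ReflTransGen r (Quotient.mk S y).out y := Quotient.exact (Quotient.out_eq (Quotient.mk S y))
    set z := (Quotient.mk S y).out with hz
    have h2 : z ∈ F ∧ P z := by
      rcases Relation.ReflTransGen.cases_head h1 with h | ⟨u, h, -⟩
      · rw [h]
        exact ⟨hy, hPy⟩
      · exact ⟨h.1, h.2.2.2.1⟩
    refine hcomp (aw z) z y h2.1 ?_
    have h3 : ∀ x, Relation.ReflTransGen r z x → Relation.ReflTransGen (fun u v => u ∈ F ∧ v ∈ F ∧
        T.Edge K (j + 1) u v ∧ (aw z ≤ n u ∧ n u < aw z + W3) ∧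
        (aw z ≤ n v ∧ n v < aw z + W3)) z x ∧ aw x = aw z := by
      intro x hx
      induction hx with
      | refl => exact ⟨Relation.ReflTransGen.refl, rfl⟩
      | tail _ h ih =>
        rename_i u v _
        have h4 := hsame u h.1 v h.2.1 h.2.2.2.1 h.2.2.2.2 h.2.2.1
        have h5 : aw v = aw z := by rw [← h4, ih.2]
        refine ⟨ih.1.tail ⟨h.1, h.2.1, h.2.2.1, ?_, ?_⟩, h5⟩
        · have := hwin u h.1 h.2.2.2.1
          rw [ih.2] at this
          exact this
        · have := hwin v h.2.1 h.2.2.2.2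
          rw [h5] at this
          exact this
    exact (h3 y h1).1
  · intro y hy y' hy' hP hP' hE
    have h1 : Quotient.mk S y = Quotient.mk S y' :=
      Quotient.sound (Relation.ReflTransGen.single ⟨hy, hy', hE, hP, hP'⟩)
    show (Quotient.mk S y).out = (Quotient.mk S y').out
    rw [h1]

theorem edge_v {y y' : ℕ → ℝ} (h : T.Edge K d y y') : T.V y ∧ T.V y' := by
  obtain ⟨s, h1, h2, -⟩ := h
  exact ⟨⟨s, h1⟩, ⟨s, h2⟩⟩

theorem lip_path (hK : T.GoodK K) {j : ℕ} (hj : j + 1 ≤ d) {R' RA : ℕ} {b x : ℕ → ℝ} {I : Type}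
    {mu : (ℕ → ℝ) → I →₀ ℝ} {δ : ℝ}
    (hx : T.Conn K (j + 1) R' b x)
    (hL : ∀ y ∈ T.FB K (j + 1) (R' + RA + 1) b, ∀ y' ∈ T.FB K (j + 1) (R' + RA + 1) b,
      T.Edge K d y y' → l1 (mu y - mu y') ≤ δ) :
    ∀ (k : ℕ), k ≤ RA → ∀ y, T.V y → T.Conn K d k x y →
      T.V x ∧ l1 (mu x - mu y) ≤ (k + 1) * δ := by
  have hstep : ∀ (k : ℕ), k ≤ RA → ∀ u y, T.V u → T.V y → T.Conn K d k x u →
      (EqOn d u y ∨ T.Edge K d u y) → l1 (mu u - mu y) ≤ δ := by
    intro k hk u y hu hy hc huy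
    have hE : T.Edge K d u y := by
      rcases huy with h | h
      · obtain ⟨s, hs⟩ := hu
        exact edge_refl hK le_rfl hs h
      · exact h
    have h1 : T.Conn K (j + 1) (R' + k) b u := conn_trans hx (conn_mono_j hj hc) hj
    have h2 : T.Conn K (j + 1) (R' + k + 1) b y :=
      conn_trans h1 (conn_mono_j hj (conn_of_edge hE)) hj
    exact hL u ⟨hu, conn_mono (by omega) h1⟩ y ⟨hy, conn_mono (by omega) h2⟩ hE
  intro k
  induction k with
  | zero =>
    intro hk y hy hc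
    have hc' : EqOn d x y := hc
    have hV : T.V x := T.v_congr hc'.symm hy
    refine ⟨hV, ?_⟩
    have h := hstep 0 hk x y hV hy (conn_refl _ _ _) (Or.inl hc')
    simpa using h
  | succ k ih =>
    intro hk y hy hc
    obtain ⟨u, hu, huy⟩ := hc
    have hVu : T.V u := by
      rcases huy with h | h
      · exact T.v_congr h.symm hy
      · exact (T.edge_v h).1
    obtain ⟨hVx, hl⟩ := ih (by omega) u hVu hu
    refine ⟨hVx, ?_⟩
    have h := hstep k (by omega) u y hVu hy hu huy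
    refine (l1_sub_le _ (mu u) _).trans ?_
    push_cast
    linarith

theorem pStr_step (hK : T.GoodK K) {j : ℕ} (hj : j < d) (hkl : T.KLem K j)
    (h : T.PStr K (j + 1)) : T.PStr K j := by
  classical
  intro R δ hδ
  set D := d - (j + 1) with hD
  have hDj : d - j = D + 1 := by omega
  have hD1 : (0 : ℝ) < (D : ℝ) + 1 := by positivity
  set δ₁ : ℝ := δ / (30 * (D + 1)) with hδ₁
  have hδ₁0 : 0 < δ₁ := by positivity
  obtain ⟨C₀, hC₀⟩ := hkl R
  obtain ⟨W0, hW0⟩ := exists_nat_gt ((C₀ : ℝ) / δ₁)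
  set W : ℕ := max W0 (C₀ + 1) with hW
  have hCW : C₀ < W := by
    have := le_max_right W0 (C₀ + 1)
    omega
  have hWpos : 0 < W := by omega
  have hWr : (0 : ℝ) < W := by exact_mod_cast hWpos
  have hCW1 : (C₀ : ℝ) / W ≤ δ₁ := by
    rw [div_le_iff₀ hWr]
    rw [div_lt_iff₀ hδ₁0] at hW0
    have h1 : (W0 : ℝ) ≤ W := by exact_mod_cast le_max_left W0 (C₀ + 1)
    have h2 := mul_le_mul_of_nonneg_right h1 hδ₁0.le
    linarith
  obtain ⟨R', hR'⟩ := hC₀ (3 * W)
  obtain ⟨RA, hRA⟩ := h R' δ₁ hδ₁0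
  set δ₂ : ℝ := min δ₁ (1 / (2 * (D + 1) * (RA + 1))) with hδ₂
  have hδ₂0 : 0 < δ₂ := lt_min hδ₁0 (by positivity)
  obtain ⟨RB, hRB⟩ := h (R' + RA + 1) δ₂ hδ₂0
  choose IA muA hA1 hA2 hA3 using hRA
  choose IB muB hB1 hB2 hB3 using hRB
  refine ⟨max RA RB, fun b₀ => ?_⟩
  obtain ⟨n, -, hn2, hn3⟩ := hR' b₀
  set F := T.FB K j R b₀ with hF
  set lam : (ℕ → ℝ) → ℝ := fun y => prof W (n y) with hlam
  obtain ⟨cA, cA1, cA2⟩ := T.comp_rep (K := K) (j := j) (F := F) (n := n)
    (P := fun y => lam y < 1) (aw := fun y => winA W (n y)) (W3 := 3 * W) (R' := R')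
    (fun y _ hP => winA_bd hWpos hP)
    (fun y hy y' hy' hP hP' hE => winA_same hCW (hn2 y hy y' hy' hE).1 (hn2 y hy y' hy' hE).2
      hP hP')
    (fun a y y' hy hr => hn3 a y y' hy hr)
  obtain ⟨cB, cB1, cB2⟩ := T.comp_rep (K := K) (j := j) (F := F) (n := n)
    (P := fun y => 0 < lam y) (aw := fun y => winB W (n y)) (W3 := 3 * W) (R' := R')
    (fun y _ hP => winB_bd hWpos hP)
    (fun y hy y' hy' hP hP' hE => winB_same hCW (hn2 y hy y' hy' hE).1 (hn2 y hy y' hy' hE).2
      hP hP')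
    (fun a y y' hy hr => hn3 a y y' hy hr)
  have hFA : ∀ y ∈ F, lam y < 1 → y ∈ T.FB K (j + 1) R' (cA y) :=
    fun y hy hP => ⟨hy.1, cA1 y hy hP⟩
  have hFB : ∀ y ∈ F, 0 < lam y → y ∈ T.FB K (j + 1) (R' + RA + 1) (cB y) :=
    fun y hy hP => ⟨hy.1, conn_mono (by omega) (cB1 y hy hP)⟩
  set μA : (ℕ → ℝ) → Option (Σ b, IA b) →₀ ℝ := fun y => sigV (cA y) (muA (cA y) y) with hμA
  set μB : (ℕ → ℝ) → Option (Σ b, IB b) →₀ ℝ := fun y => sigV (cB y) (muB (cB y) y) with hμB
  have hAsup : ∀ y ∈ F, ∀ y' ∈ F, lam y < 1 → lam y' < 1 → ∀ i, μA y i ≠ 0 → μA y' i ≠ 0 →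
      T.Conn K d RA y y' := by
    intro y hy y' hy' hl hl' i hi hi'
    obtain ⟨v, hv, hiv⟩ := sigV_ne hi
    obtain ⟨v', hv', hiv'⟩ := sigV_ne hi'
    rw [hiv] at hiv'
    have h1 := Sigma.mk.inj (Option.some.inj hiv')
    have hm := hFA y hy hl
    have hm' := hFA y' hy' hl'
    obtain ⟨h2, h3⟩ := h1
    revert v' hv' hm'
    rw [← h2]
    intro v' hv' _ hm' h3
    rw [← eq_of_heq h3] at hv'
    exact hA3 (cA y) v y hm y' hm' hv hv'
  have hBsup : ∀ y ∈ F, ∀ y' ∈ F, 0 < lam y → 0 < lam y' → ∀ i, μB y i ≠ 0 → μB y' i ≠ 0 →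
      T.Conn K d RB y y' := by
    intro y hy y' hy' hl hl' i hi hi'
    obtain ⟨v, hv, hiv⟩ := sigV_ne hi
    obtain ⟨v', hv', hiv'⟩ := sigV_ne hi'
    rw [hiv] at hiv'
    have h1 := Sigma.mk.inj (Option.some.inj hiv')
    have hm := hFB y hy hl
    have hm' := hFB y' hy' hl'
    obtain ⟨h2, h3⟩ := h1
    revert v' hv' hm'
    rw [← h2]
    intro v' hv' _ hm' h3
    rw [← eq_of_heq h3] at hv'
    exact hB3 (cB y) v y hm y' hm' hv hv'
  set Q : (ℕ → ℝ) → Option (Σ b, IA b) → ((ℕ → ℝ) × Option (Σ b, IB b)) → Prop :=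
    fun b i p => p.1 ∈ F ∧ lam p.1 < 1 ∧ 0 < lam p.1 ∧ cB p.1 = b ∧ μA p.1 i ≠ 0 ∧
      1 / ((D : ℝ) + 1) ≤ μB p.1 p.2 with hQ
  set φ₀ : (ℕ → ℝ) → Option (Σ b, IA b) → Option (Σ b, IB b) :=
    fun b i => if hh : ∃ p, Q b i p then hh.choose.2 else none with hφ₀
  obtain ⟨μ, hμ1, hμ2, hμ3, hμ4⟩ := mass_step (T.Edge K d) F lam D δ₁ (Option (Σ b, IA b))
    (Option (Σ b, IB b)) μA μB (fun y => φ₀ (cB y)) (fun y => prof_bd W (n y))
    (fun y hy y' hy' hE => by
      have hE' := edge_mono_j (by omega : j + 1 ≤ d) hE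
      obtain ⟨e1, e2⟩ := hn2 y hy y' hy' hE'
      exact (prof_lip hCW e1 e2).trans hCW1)
    (fun y hy hl => prob_map (hA1 (cA y) y (hFA y hy hl)) _)
    (fun y hy hl => prob_map (hB1 (cB y) y (hFB y hy hl)) _)
    (fun y hy y' hy' hE hl hl' => by
      have hE' := edge_mono_j (by omega : j + 1 ≤ d) hE
      have hc := cA2 y hy y' hy' hl hl' hE'
      have hm := hFA y hy hl
      have hm' := hFA y' hy' hl'
      simp only [hμA]
      rw [← hc] at hm' ⊢
      exact (sigV_sub _ _ _).trans (hA2 (cA y) y hm y' hm' hE))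
    (fun y hy y' hy' hE hl hl' => by
      have hE' := edge_mono_j (by omega : j + 1 ≤ d) hE
      have hc := cB2 y hy y' hy' hl hl' hE'
      have hm := hFB y hy hl
      have hm' := hFB y' hy' hl'
      simp only [hμB]
      rw [← hc] at hm' ⊢
      exact ((sigV_sub _ _ _).trans (hB2 (cB y) y hm y' hm' hE)).trans (min_le_left _ _))
    (fun y hy y' hy' hE hl hl' => by
      have hE' := edge_mono_j (by omega : j + 1 ≤ d) hE
      have hc := cB2 y hy y' hy' hl hl' hE'
      show φ₀ (cB y) = φ₀ (cB y')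
      rw [hc])
    (fun y hy hl hl' i hi => by
      have hex : ∃ p, Q (cB y) i p := by
        obtain ⟨v, hv⟩ := exists_large (hB1 (cB y) y (hFB y hy hl'))
        refine ⟨(y, some ⟨cB y, v⟩), hy, hl, hl', rfl, hi, ?_⟩
        show 1 / ((D : ℝ) + 1) ≤ sigV (cB y) (muB (cB y) y) (some ⟨cB y, v⟩)
        rw [sigV_apply]
        exact hv
      have hφe : φ₀ (cB y) i = hex.choose.2 := by
        simp only [hφ₀]
        rw [dif_pos hex]
      obtain ⟨q1, q2, q3, q4, q5, q6⟩ := hex.choose_spec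
      rw [hφe]
      set x := hex.choose.1 with hx
      set k := hex.choose.2 with hk
      have hconn := hAsup x q1 y hy q2 hl i q5 hi
      have hpath := T.lip_path hK (j := j) (by omega) (R' := R') (RA := RA) (b := cB y) (x := x)
        (mu := muB (cB y)) (δ := δ₂) (by
          have := cB1 x q1 q3
          rw [q4] at this
          exact this) (fun u hu v hv hE => hB2 (cB y) u hu v hv hE) RA le_rfl y hy.1 hconn
      have hl2 := hpath.2
      have h1 : l1 (μB x - μB y) ≤ (RA + 1) * δ₂ := by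
        simp only [hμB]
        rw [q4]
        exact (sigV_sub _ _ _).trans hl2
      have h2 := abs_le_l1 (μB x - μB y) k
      rw [Finsupp.sub_apply] at h2
      have h3 : (RA + 1 : ℝ) * δ₂ ≤ 1 / (2 * (D + 1)) := by
        have h4 : δ₂ ≤ 1 / (2 * (D + 1) * (RA + 1)) := min_le_right _ _
        have hRA1 : (0 : ℝ) < (RA : ℝ) + 1 := by positivity
        calc (RA + 1 : ℝ) * δ₂ ≤ (RA + 1) * (1 / (2 * (D + 1) * (RA + 1))) :=
              mul_le_mul_of_nonneg_left h4 hRA1.le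
          _ = 1 / (2 * (D + 1)) := by
              field_simp
      intro h0
      rw [h0, sub_zero] at h2
      have h5 : 1 / (2 * ((D : ℝ) + 1)) < 1 / ((D : ℝ) + 1) := by
        apply one_div_lt_one_div_of_lt hD1
        linarith
      have h6 := le_abs_self (μB x k)
      linarith)
  rw [hDj]
  refine ⟨Option (Σ b, IA b) ⊕ Option (Σ b, IB b), μ, hμ1, ?_, ?_⟩
  · intro y hy y' hy' hE
    refine (hμ2 y hy y' hy' hE).trans (le_of_eq ?_)
    rw [hδ₁]
    field_simp
  · rintro (v | w) y hy y' hy' hv hv'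
    · obtain ⟨l1', e1⟩ := hμ3 y hy v hv
      obtain ⟨l2', e2⟩ := hμ3 y' hy' v hv'
      exact conn_mono (le_max_left _ _) (hAsup y hy y' hy' l1' l2' v e1 e2)
    · obtain ⟨l1', e1⟩ := hμ4 y hy w hv
      obtain ⟨l2', e2⟩ := hμ4 y' hy' w hv'
      exact conn_mono (le_max_right _ _) (hBsup y hy y' hy' l1' l2' w e1 e2)

theorem exists_str (hK : T.GoodK K) (hkl : ∀ j, j < d → T.KLem K j) (δ : ℝ) (hδ : 0 < δ) :
    ∃ Ro : ℕ, T.HasStr K {y | T.V y} d δ Ro := by
  have key : ∀ k : ℕ, k ≤ d → T.PStr K (d - k) := by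
    intro k
    induction k with
    | zero => intro _; simpa using T.pStr_top hK
    | succ k ih =>
      intro hk
      have h1 : d - (k + 1) < d := by omega
      have h2 : d - (k + 1) + 1 = d - k := by omega
      exact T.pStr_step hK h1 (hkl _ h1) (by rw [h2]; exact ih (by omega))
  have h0 : T.PStr K 0 := by simpa using key d le_rfl
  obtain ⟨Ro, hRo⟩ := h0 0 δ hδ
  refine ⟨Ro, ?_⟩
  have h := hRo (fun _ => 0)
  have hF : T.FB K 0 0 (fun _ => 0) = {y | T.V y} := by
    ext y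
    constructor
    · intro hy
      exact hy.1
    · intro hy
      exact ⟨hy, fun i hi => absurd hi (Nat.not_lt_zero i)⟩
  rw [hF] at h
  simpa using h

end Tower

end MP65
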