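import Pool.Agent.Work.MP_65b809_gt.MDefs

/-! # PLog : the truncated logarithm of a unipotent matrix, support patterns

(For norms/derivatives use `open scoped Matrix.Norms.Operator` or a local instance such as
`Matrix.linftyOpNormedAlgebra`; `Matrix.exp_*` lemmas of Mathlib avoid norms.)

* Patterns: `Gt H 0` = strictly `H`-triangular. `ge_mul_gt`: `(YX) i j = ∑_k Y i k X k j`, a nonzero term has
  `H i - H j = (H i - H k) + (H k - H j) > w`.
* `gt_pow_eq_zero`: `Gt H 0 Y → Y ^ m = 0` (`m` = size): rank function `#{l : H l < H i}`,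
  which drops by at least one along each nonzero entry: `(Y^k) i j ≠ 0 → rk j + k ≤ rk i`, and
  `rk < m`.
* `exp_sub_one_gt`: `exp Y - 1 = ∑_{k≥1} Y^k/k!` (finite sum).
* `plog_exp`: in `ℝ[X]`, with `E = ∑_{k<m} X^k/k!`, `u = E - 1`, `P = ∑_{k<m} (-1)^k/(k+1) u^(k+1)`:
  `P' = (∑_{k<m} (-u)^k) E' ≡ 1 mod X^(m-1)`, so `P ≡ X mod X^m`; evaluate at `Z`.
* `plog_bdd`: finite sums of powers of a matrix with bounded entries (compactness).
-/

namespace MP65

open Matrix NormedSpace

variable {m : ℕ} {H : Fin m → ℝ} {w : ℝ}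

theorem ge_add {X Y : Mat m} (hX : Ge H w X) (hY : Ge H w Y) : Ge H w (X + Y) := by
  intro i j h
  by_cases h1 : X i j = 0
  · by_cases h2 : Y i j = 0
    · exact absurd (by rw [Matrix.add_apply, h1, h2, add_zero]) h
    · exact hY i j h2
  · exact hX i j h1

theorem gt_add {X Y : Mat m} (hX : Gt H w X) (hY : Gt H w Y) : Gt H w (X + Y) := by
  intro i j h
  by_cases h1 : X i j = 0
  · by_cases h2 : Y i j = 0
    · exact absurd (by rw [Matrix.add_apply, h1, h2, add_zero]) h
    · exact hY i j h2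
  · exact hX i j h1

theorem ge_neg {X : Mat m} (hX : Ge H w X) : Ge H w (-X) := by
  intro i j h
  refine hX i j fun h0 => h ?_
  rw [Matrix.neg_apply, h0, neg_zero]

theorem gt_neg {X : Mat m} (hX : Gt H w X) : Gt H w (-X) := by
  intro i j h
  refine hX i j fun h0 => h ?_
  rw [Matrix.neg_apply, h0, neg_zero]

theorem gt_smul {X : Mat m} (c : ℝ) (hX : Gt H w X) : Gt H w (c • X) := by
  intro i j h
  refine hX i j fun h0 => h ?_
  rw [Matrix.smul_apply, h0, smul_zero]

theorem gt_ge {X : Mat m} (hX : Gt H w X) : Ge H w X := fun i j h => (hX i j h).le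

theorem ge_gt_zero {X : Mat m} (hw : 0 < w) (hX : Ge H w X) : Gt H 0 X := fun i j h =>
  lt_of_lt_of_le hw (hX i j h)

private theorem mul_ne {X Y : Mat m} {i j : Fin m} (h : (X * Y) i j ≠ 0) :
    ∃ k, X i k ≠ 0 ∧ Y k j ≠ 0 := by
  rw [Matrix.mul_apply] at h
  obtain ⟨k, -, hk⟩ := Finset.exists_ne_zero_of_sum_ne_zero h
  exact ⟨k, left_ne_zero_of_mul hk, right_ne_zero_of_mul hk⟩

theorem ge_mul_gt {X Y : Mat m} (hX : Ge H w X) (hY : Gt H 0 Y) : Gt H w (X * Y) := by
  intro i j h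
  obtain ⟨k, h1, h2⟩ := mul_ne h
  have := hX i k h1
  have := hY k j h2
  linarith

theorem gt_mul_ge {X Y : Mat m} (hX : Gt H 0 X) (hY : Ge H w Y) : Gt H w (X * Y) := by
  intro i j h
  obtain ⟨k, h1, h2⟩ := mul_ne h
  have := hX i k h1
  have := hY k j h2
  linarith

theorem gt_mul_gt {X Y : Mat m} (hX : Gt H 0 X) (hY : Gt H 0 Y) : Gt H 0 (X * Y) :=
  ge_mul_gt (gt_ge hX) hY

theorem gt_pow_eq_zero {Y : Mat m} (hY : Gt H 0 Y) : Y ^ m = 0 := by
  classical
  obtain ⟨rk, hrk⟩ : ∃ rk : Fin m → ℕ, rk = fun i =>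
    (Finset.univ.filter fun l => H l < H i).card := ⟨_, rfl⟩
  have h1 : ∀ i j, H j < H i → rk j < rk i := by
    intro i j hij
    rw [hrk]
    refine Finset.card_lt_card ⟨?_, ?_⟩
    · intro l hl
      rw [Finset.mem_filter] at hl ⊢
      exact ⟨hl.1, hl.2.trans hij⟩
    · intro hsub
      have : j ∈ Finset.univ.filter fun l => H l < H j :=
        hsub (Finset.mem_filter.2 ⟨Finset.mem_univ _, hij⟩)
      exact lt_irrefl _ (Finset.mem_filter.1 this).2
  have h2 : ∀ i, rk i < m := by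
    intro i
    rw [hrk]
    have : (Finset.univ.filter fun l => H l < H i).card < (Finset.univ : Finset (Fin m)).card := by
      refine Finset.card_lt_card ⟨Finset.filter_subset _ _, ?_⟩
      intro hsub
      have : i ∈ Finset.univ.filter fun l => H l < H i := hsub (Finset.mem_univ i)
      exact lt_irrefl _ (Finset.mem_filter.1 this).2
    simpa using this
  have h3 : ∀ k : ℕ, ∀ i j, (Y ^ k) i j ≠ 0 → rk j + k ≤ rk i := by
    intro k
    induction k with
    | zero =>
      intro i j h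
      rw [pow_zero, Matrix.one_apply] at h
      have : i = j := by
        by_contra hij
        exact h (if_neg hij)
      rw [this]
      simp
    | succ k ih =>
      intro i j h
      rw [pow_succ] at h
      obtain ⟨l, hl1, hl2⟩ := mul_ne h
      have a := ih i l hl1
      have b := h1 l j (by have := hY l j hl2; linarith)
      omega
  ext i j
  by_contra h
  have a := h3 m i j h
  have b := h2 i
  omega

/-- the exponential of a nilpotent matrix is a finite sum -/
theorem exp_eq_sum {Y : Mat m} (hY : Y ^ m = 0) :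
    exp Y = ∑ k ∈ Finset.range m, ((k.factorial : ℝ)⁻¹) • Y ^ k := by
  rw [NormedSpace.exp_eq_tsum ℝ]
  refine tsum_eq_sum fun k hk => ?_
  have hk' : m ≤ k := by simpa using hk
  rw [show Y ^ k = Y ^ m * Y ^ (k - m) by rw [← pow_add]; congr 1; omega, hY, zero_mul, smul_zero]

private theorem gt_sum {ι : Type*} (s : Finset ι) (f : ι → Mat m) (h : ∀ k ∈ s, Gt H w (f k)) :
    Gt H w (∑ k ∈ s, f k) := by
  classical
  induction s using Finset.induction_on with
  | empty =>
    intro i j h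
    exact absurd (by simp) h
  | insert a s ha ih =>
    rw [Finset.sum_insert ha]
    exact gt_add (h a (Finset.mem_insert_self _ _)) (ih fun k hk => h k (Finset.mem_insert_of_mem hk))

private theorem gt_pow {Y : Mat m} (hY : Gt H 0 Y) (k : ℕ) : Gt H 0 (Y ^ (k + 1)) := by
  induction k with
  | zero => rwa [zero_add, pow_one]
  | succ k ih =>
    rw [pow_succ]
    exact gt_mul_gt ih hY

theorem exp_sub_one_gt {Y : Mat m} (hY : Gt H 0 Y) : Gt H 0 (exp Y - 1) := by
  rw [exp_eq_sum (gt_pow_eq_zero hY)]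
  rcases m with _ | m
  · intro i
    exact i.elim0
  rw [Finset.sum_range_succ']
  simp only [Nat.factorial_zero, Nat.cast_one, inv_one, pow_zero, one_smul, add_sub_cancel_right]
  exact gt_sum _ _ fun k _ => gt_smul _ (gt_pow hY k)

open Polynomial in
/-- The truncated exponential polynomial. -/
private noncomputable def eP (m : ℕ) : ℝ[X] := ∑ k ∈ Finset.range m, C ((k.factorial : ℝ)⁻¹) * X ^ k

open Polynomial in
private theorem eP_succ (m : ℕ) : eP (m + 1) = eP m + C ((m.factorial : ℝ)⁻¹) * X ^ m := by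
  unfold eP
  rw [Finset.sum_range_succ]

open Polynomial in
private theorem eP_deriv (m : ℕ) : derivative (eP (m + 1)) = eP m := by
  unfold eP
  rw [Finset.sum_range_succ', derivative_add, derivative_sum]
  have h0 : derivative (C (((0 : ℕ).factorial : ℝ)⁻¹) * X ^ 0 : ℝ[X]) = 0 := by
    rw [pow_zero, mul_one, derivative_C]
  rw [h0, add_zero]
  refine Finset.sum_congr rfl fun k _ => ?_
  rw [derivative_C_mul, derivative_X_pow, Nat.add_sub_cancel, ← mul_assoc, ← C_mul]
  congr 2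
  rw [Nat.factorial_succ]
  have h1 : ((k : ℝ) + 1) ≠ 0 := by positivity
  have h2 : ((k.factorial : ℕ) : ℝ) ≠ 0 := by positivity
  push_cast
  field_simp

open Polynomial in
private theorem eP_dvd (m : ℕ) : X ∣ eP (m + 1) - 1 := by
  unfold eP
  rw [Finset.sum_range_succ']
  have h0 : (C (((0 : ℕ).factorial : ℝ)⁻¹) * X ^ 0 : ℝ[X]) = 1 := by
    rw [pow_zero, mul_one, Nat.factorial_zero, Nat.cast_one, inv_one, C_1]
  rw [h0, add_sub_cancel_right]
  refine Finset.dvd_sum fun k _ => ?_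
  exact Dvd.dvd.mul_left (dvd_pow_self X (Nat.succ_ne_zero k)) _

open Polynomial in
/-- The composition of the truncated logarithm and the truncated exponential. -/
private noncomputable def lP (m : ℕ) : ℝ[X] :=
  ∑ k ∈ Finset.range m, C ((-1 : ℝ) ^ k / (k + 1)) * (eP m - 1) ^ (k + 1)

open Polynomial in
private theorem lP_dvd (m : ℕ) : X ^ (m + 1) ∣ lP (m + 1) - X := by
  obtain ⟨u, hu⟩ : ∃ u : ℝ[X], u = eP (m + 1) - 1 := ⟨_, rfl⟩
  have hXu : X ∣ u := by rw [hu]; exact eP_dvd m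
  have hu' : derivative u = 1 + u - C ((m.factorial : ℝ)⁻¹) * X ^ m := by
    rw [hu, derivative_sub, eP_deriv, derivative_one, eP_succ]
    ring
  have hd : derivative (lP (m + 1)) = (∑ k ∈ Finset.range (m + 1), (-u) ^ k) * derivative u := by
    unfold lP
    rw [← hu, derivative_sum, Finset.sum_mul]
    refine Finset.sum_congr rfl fun k _ => ?_
    rw [derivative_C_mul, derivative_pow, Nat.add_sub_cancel, ← mul_assoc, ← mul_assoc]
    congr 1
    have h1 : (C ((-1 : ℝ) ^ k / (k + 1)) * C (((k + 1 : ℕ) : ℝ)) : ℝ[X]) = (-1) ^ k := by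
      rw [← C_mul]
      have h2 : ((k : ℝ) + 1) ≠ 0 := by positivity
      have h3 : (-1 : ℝ) ^ k / (k + 1) * ((k + 1 : ℕ) : ℝ) = (-1) ^ k := by
        push_cast
        field_simp
      rw [h3, C_pow, C_neg, C_1]
    rw [h1, ← neg_one_mul u, mul_pow]
  have hd1 : X ^ m ∣ derivative (lP (m + 1)) - 1 := by
    have h1 : derivative (lP (m + 1)) - 1 = -(-u) ^ (m + 1) -
        (∑ k ∈ Finset.range (m + 1), (-u) ^ k) * C ((m.factorial : ℝ)⁻¹) * X ^ m := by
      rw [hd, hu']
      have h2 := geom_sum_mul (-u) (m + 1)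
      linear_combination -h2
    rw [h1]
    refine dvd_sub ?_ (dvd_mul_left _ _)
    rw [dvd_neg]
    have h3 : X ^ m ∣ (-u) ^ m := pow_dvd_pow_of_dvd ((dvd_neg).2 hXu) m
    exact h3.trans (pow_dvd_pow _ (Nat.le_succ m))
  rw [X_pow_dvd_iff] at hd1 ⊢
  intro j hj
  rcases j with _ | j
  · have h1 : X ∣ lP (m + 1) - X := by
      refine dvd_sub ?_ dvd_rfl
      unfold lP
      rw [← hu]
      refine Finset.dvd_sum fun k _ => ?_
      exact Dvd.dvd.mul_left (hXu.trans (dvd_pow_self u (Nat.succ_ne_zero k))) _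
    exact X_dvd_iff.1 h1
  · have h2 := hd1 j (by omega)
    have h3 : derivative (lP (m + 1)) - 1 = derivative (lP (m + 1) - X) := by
      rw [derivative_sub, derivative_X]
    rw [h3, coeff_derivative] at h2
    have h4 : ((j : ℝ) + 1) ≠ 0 := by positivity
    exact (mul_eq_zero.1 h2).resolve_right h4

theorem plog_exp {Z : Mat m} (hZ : Z ^ m = 0) : plog (exp Z) = Z := by
  rcases m with _ | m
  · exact Subsingleton.elim _ _
  have hE : Polynomial.aeval Z (eP (m + 1)) = exp Z := by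
    rw [exp_eq_sum hZ]
    unfold eP
    rw [map_sum]
    refine Finset.sum_congr rfl fun k _ => ?_
    rw [map_mul, map_pow, Polynomial.aeval_X, Polynomial.aeval_C, Algebra.smul_def]
  have hP : Polynomial.aeval Z (lP (m + 1)) = plog (exp Z) := by
    unfold lP plog
    rw [map_sum]
    refine Finset.sum_congr rfl fun k _ => ?_
    rw [map_mul, map_pow, Polynomial.aeval_C, map_sub, hE, map_one, Algebra.smul_def]
  obtain ⟨q, hq⟩ := lP_dvd m
  have h1 : Polynomial.aeval Z (lP (m + 1)) - Z = 0 := by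
    have h2 := congrArg (Polynomial.aeval Z) hq
    rw [map_sub, Polynomial.aeval_X, map_mul, map_pow, Polynomial.aeval_X, hZ, zero_mul] at h2
    exact h2
  rw [← hP]
  exact sub_eq_zero.1 h1

theorem exp_inj {Z Z' : Mat m} (hZ : Z ^ m = 0) (hZ' : Z' ^ m = 0) (h : exp Z = exp Z') :
    Z = Z' := by
  rw [← plog_exp hZ, ← plog_exp hZ', h]

private theorem bdd_of_cont {f : Mat m → Mat m} (hf : Continuous f) (C : ℝ) :
    ∃ C' : ℝ, 0 ≤ C' ∧ ∀ g : Mat m, (∀ i j, |g i j| ≤ C) → ∀ i j, |f g i j| ≤ C' := by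
  have hK : IsCompact (Set.univ.pi fun _ : Fin m => Set.univ.pi fun _ : Fin m => Set.Icc (-C) C) :=
    isCompact_univ_pi fun _ => isCompact_univ_pi fun _ => isCompact_Icc
  have h1 : ∀ i j, ∃ c : ℝ, ∀ g : Mat m, (∀ i j, |g i j| ≤ C) → |f g i j| ≤ c := by
    intro i j
    have hc : Continuous fun g : Mat m => f g i j := hf.matrix_elem i j
    obtain ⟨c, hc⟩ := hK.exists_bound_of_continuousOn (f := fun g : Mat m => f g i j)
      hc.continuousOn
    refine ⟨c, fun g hg => ?_⟩
    have := hc g (fun i _ j _ => abs_le.1 (hg i j))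
    rwa [Real.norm_eq_abs] at this
  choose c hc using h1
  refine ⟨∑ i, ∑ j, |c i j|, by positivity, fun g hg i j => ?_⟩
  calc |f g i j| ≤ c i j := hc i j g hg
    _ ≤ |c i j| := le_abs_self _
    _ ≤ ∑ j, |c i j| := Finset.single_le_sum (f := fun j => |c i j|)
        (fun _ _ => abs_nonneg _) (Finset.mem_univ j)
    _ ≤ ∑ i, ∑ j, |c i j| := Finset.single_le_sum (f := fun i => ∑ j, |c i j|)
        (fun _ _ => Finset.sum_nonneg fun _ _ => abs_nonneg _) (Finset.mem_univ i)

theorem plog_bdd (m : ℕ) (C : ℝ) : ∃ C' : ℝ, 0 ≤ C' ∧ ∀ g : Mat m, (∀ i j, |g i j| ≤ C) →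
    ∀ i j, |plog g i j| ≤ C' := by
  refine bdd_of_cont ?_ C
  unfold plog
  refine continuous_finsetSum _ fun k _ => ?_
  have h1 : Continuous fun g : Mat m => (g - 1) ^ (k + 1) :=
    (continuous_id.sub continuous_const).pow (k + 1)
  exact h1.const_smul ((-1 : ℝ) ^ k / (k + 1))

theorem exp_bdd (m : ℕ) (C : ℝ) : ∃ C' : ℝ, 0 ≤ C' ∧ ∀ Y : Mat m, Y ^ m = 0 →
    (∀ i j, |Y i j| ≤ C) → ∀ i j, |(exp Y : Mat m) i j| ≤ C' := by
  obtain ⟨C', h0, h1⟩ := bdd_of_cont (m := m)
    (f := fun Y => ∑ k ∈ Finset.range m, ((k.factorial : ℝ)⁻¹) • Y ^ k)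
    (continuous_finsetSum _ fun k _ => by
      have h1 : Continuous fun g : Mat m => g ^ k := continuous_id.pow k
      exact h1.const_smul ((k.factorial : ℝ)⁻¹)) C
  refine ⟨C', h0, fun Y hY hb i j => ?_⟩
  rw [exp_eq_sum hY]
  exact h1 Y hb i j

theorem mul_bdd (m : ℕ) (C : ℝ) : ∃ C' : ℝ, 0 ≤ C' ∧ ∀ X Y : Mat m, (∀ i j, |X i j| ≤ C) →
    (∀ i j, |Y i j| ≤ C) → ∀ i j, |(X * Y) i j| ≤ C' := by
  refine ⟨m * (|C| * |C|), by positivity, fun X Y hX hY i j => ?_⟩
  rw [Matrix.mul_apply]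
  calc |∑ k, X i k * Y k j| ≤ ∑ k, |X i k * Y k j| := Finset.abs_sum_le_sum_abs _ _
    _ ≤ ∑ _k : Fin m, |C| * |C| := Finset.sum_le_sum fun k _ => by
        rw [abs_mul]
        exact mul_le_mul ((hX i k).trans (le_abs_self C)) ((hY k j).trans (le_abs_self C))
          (abs_nonneg _) (abs_nonneg _)
    _ = m * (|C| * |C|) := by simp

end MP65
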