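import Pool.Agent.Work.MP_65b809_gt.PLog
import Pool.Agent.Work.MP_65b809_gt.IDefs

/-! # PolyU : unipotent elements of algebraic groups

Let `Y^m = 0` and `exp Y ∈ G`, `G` the zero set of polynomials `P`. The entries of
`exp(tY) = ∑_{k<m} t^k/k! Y^k` (`exp_eq_sum` applied to `t • Y`) are polynomials in `t`; for `p ∈ P` the
function `t ↦ p(entries of exp(tY))` is a polynomial `q(t)` (construct `q` in `Polynomial ℝ` by
`MvPolynomial.aeval` with values in `Polynomial ℝ`, and evaluate). For natural `k`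
`exp(kY) = (exp Y)^k ∈ G` (`Matrix.exp_nsmul`), so `q(k) = 0` for all `k ∈ ℕ`; `q` has
infinitely many roots, so `q = 0` (`Polynomial.eq_zero_of_infinite_isRoot`). Hence `exp(tY) ∈ G` (it is
invertible, `Matrix.isUnit_exp`).
-/

namespace MP65

open Matrix NormedSpace

theorem alg_nilp {m : ℕ} (G : AlgGroup m) {Y : Mat m} (hY : Y ^ m = 0)
    (h : ∃ g ∈ G.G, (g : Mat m) = exp Y) : Y ∈ lieSet G.G := by
  obtain ⟨P, hP⟩ := G.alg
  obtain ⟨g₀, hg₀, hgY⟩ := h
  have hpow : ∀ t : ℝ, (t • Y) ^ m = 0 := fun t => by rw [smul_pow, hY, smul_zero]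
  -- the entries of `exp (t Y)` as polynomials in `t`
  let ent : Fin m × Fin m → Polynomial ℝ := fun ij =>
    ∑ k ∈ Finset.range m, Polynomial.C (((k.factorial : ℝ)⁻¹) * (Y ^ k) ij.1 ij.2) * Polynomial.X ^ k
  have hent : ∀ (t : ℝ) (ij : Fin m × Fin m),
      (ent ij).eval t = (exp (t • Y) : Mat m) ij.1 ij.2 := by
    intro t ij
    rw [exp_eq_sum (hpow t)]
    show Polynomial.eval t (∑ k ∈ Finset.range m,
      Polynomial.C (((k.factorial : ℝ)⁻¹) * (Y ^ k) ij.1 ij.2) * Polynomial.X ^ k) = _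
    rw [Polynomial.eval_finsetSum, Matrix.sum_apply]
    refine Finset.sum_congr rfl fun k _ => ?_
    rw [Polynomial.eval_mul, Polynomial.eval_C, Polynomial.eval_pow, Polynomial.eval_X, smul_pow,
      Matrix.smul_apply, Matrix.smul_apply, smul_eq_mul, smul_eq_mul]
    ring
  have hq : ∀ (p : MvPolynomial (Fin m × Fin m) ℝ) (t : ℝ),
      (MvPolynomial.aeval ent p : Polynomial ℝ).eval t =
        MvPolynomial.eval (fun ij => (exp (t • Y) : Mat m) ij.1 ij.2) p := by
    intro p t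
    have h1 : ((Polynomial.evalRingHom t).comp
        (MvPolynomial.aeval ent : MvPolynomial (Fin m × Fin m) ℝ →ₐ[ℝ] Polynomial ℝ).toRingHom) =
        MvPolynomial.eval (fun ij => (exp (t • Y) : Mat m) ij.1 ij.2) := by
      apply MvPolynomial.ringHom_ext
      · intro r
        simp
      · intro ij
        simp [hent]
    exact RingHom.congr_fun h1 p
  have hmem : ∀ k : ℕ, ∀ p ∈ P,
      MvPolynomial.eval (fun ij => (exp ((k : ℝ) • Y) : Mat m) ij.1 ij.2) p = 0 := by
    intro k p hp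
    have h1 : ((g₀ ^ k : GL (Fin m) ℝ) : Mat m) = exp ((k : ℝ) • Y) := by
      rw [Units.val_pow_eq_pow_val, hgY, ← Matrix.exp_nsmul, Nat.cast_smul_eq_nsmul]
    have h2 := (hP (g₀ ^ k)).1 (G.G.pow_mem hg₀ k) p hp
    rwa [h1] at h2
  have hzero : ∀ p ∈ P, (MvPolynomial.aeval ent p : Polynomial ℝ) = 0 := by
    intro p hp
    apply Polynomial.eq_zero_of_infinite_isRoot
    refine Set.Infinite.mono (s := Set.range fun k : ℕ => (k : ℝ)) ?_
      (Set.infinite_range_of_injective Nat.cast_injective)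
    rintro _ ⟨k, rfl⟩
    show Polynomial.IsRoot _ _
    rw [Polynomial.IsRoot, hq]
    exact hmem k p hp
  intro t
  obtain ⟨g, hg⟩ := Matrix.isUnit_exp (t • Y)
  refine ⟨g, (hP g).2 fun p hp => ?_, hg⟩
  have h1 := hq p t
  rw [hzero p hp, Polynomial.eval_zero] at h1
  rw [hg]
  exact h1.symm

end MP65
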