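import Pool.Agent.Work.MP_65b809_gt.MDefs

/-! # RDist : the Riemannian distance in terms of `u = g⁻¹ h`

* `rdist_eq`: for `x = g gᵀ`, `y = h hᵀ`, `u = g⁻¹ h`: `x⁻¹ y = g⁻ᵀ g⁻¹ h hᵀ` has the same characteristic
  polynomial as `g⁻¹ h hᵀ g⁻ᵀ = u uᵀ` (`Matrix.charpoly_mul_comm`). So `rdist x y = rr u`,
  `rr u = √(∑ over the roots of charpoly(u uᵀ) of (log λ)²)`.
* `u uᵀ` is symmetric positive definite; the roots of its characteristic polynomial are its eigenvalues
  (`Matrix.IsHermitian.roots_charpoly_eq_eigenvalues` or similar), all positive. For an eigenvalue `λ`: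
  `|log λ| ≤ rr u`, so `λ ≤ e^{rr u}`, `λ ≥ e^{-rr u}`.
* `entry_le`: `(u uᵀ) i i = ∑_j (u i j)² ≤ λ_max ≤ e^{rr u}` (`(uuᵀ) i i = ∑_k |Q i k|² λ_k`,
  `∑_k |Q i k|² = 1`), so `|u i j| ≤ e^{rr u/2} ≤ e^{rr u}`. For the inverse:
  `(u⁻¹)ᵀ u⁻¹ = (u uᵀ)⁻¹` has eigenvalues `1/λ`.
* `rr_small`: given `ε`: if `|u i j - 1 i j| ≤ δ` for all `i, j` then the entries of `u uᵀ - 1` are small
  (`≤ m(2δ + δ²)`), so `|λ - 1| ≤ m² (2δ+δ²)` for all eigenvalues (unit eigenvector `v`:
  `|λ - 1| = |vᵀ (uuᵀ - 1) v| ≤ m · max entry`), `|log λ|` small, and there are `m` of them.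
* `rdist_conj`: `rdist (q x q⁻¹) (q y q⁻¹) = rdist x y` (similar matrices).
-/

namespace MP65

open Matrix NormedSpace

theorem rdist_nonneg {m : ℕ} (x y : GL (Fin m) ℝ) : 0 ≤ rdist x y := Real.sqrt_nonneg _

theorem rdist_conj {m : ℕ} (q x y : GL (Fin m) ℝ) :
    rdist (q * x * q⁻¹) (q * y * q⁻¹) = rdist x y := by
  have h1 : (q * x * q⁻¹)⁻¹ * (q * y * q⁻¹) = q * (x⁻¹ * y) * q⁻¹ := by group
  have h2 : (((q * x * q⁻¹)⁻¹ * (q * y * q⁻¹) : GL (Fin m) ℝ) : Mat m).charpoly =
      ((x⁻¹ * y : GL (Fin m) ℝ) : Mat m).charpoly := by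
    rw [h1, Units.val_mul, Matrix.charpoly_mul_comm, ← Units.val_mul]
    congr 2
    group
  unfold rdist
  rw [h2]

private theorem rd_diag {m : ℕ} (S : Mat m) (hS : S.PosDef) :
    ∃ (O : Mat m) (l : Fin m → ℝ), O * O.transpose = 1 ∧ O.transpose * O = 1 ∧
      S = O * diagonal l * O.transpose ∧ (∀ k, 0 < l k) ∧
      S.charpoly.roots = Finset.univ.val.map l := by
  have hu := (hS.1.eigenvectorUnitary).2
  rw [Matrix.mem_unitaryGroup_iff, Matrix.star_eq_conjTranspose,
    Matrix.conjTranspose_eq_transpose_of_trivial] at hu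
  refine ⟨(hS.1.eigenvectorUnitary : Mat m), hS.1.eigenvalues, hu, ?_, ?_,
    fun k => hS.eigenvalues_pos k, ?_⟩
  · exact mul_eq_one_comm.1 hu
  · have h := hS.1.spectral_theorem
    rw [Unitary.conjStarAlgAut_apply, Matrix.star_eq_conjTranspose,
      Matrix.conjTranspose_eq_transpose_of_trivial] at h
    exact h
  · exact hS.1.roots_charpoly_eq_eigenvalues

private theorem rd_key {m : ℕ} (x y g h : GL (Fin m) ℝ)
    (hx : (x : Mat m) = (g : Mat m) * (g : Mat m).transpose)
    (hy : (y : Mat m) = (h : Mat m) * (h : Mat m).transpose) :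
    ∃ (O : Mat m) (l : Fin m → ℝ), O * O.transpose = 1 ∧ O.transpose * O = 1 ∧
      ((g⁻¹ * h : GL (Fin m) ℝ) : Mat m) * ((g⁻¹ * h : GL (Fin m) ℝ) : Mat m).transpose =
        O * diagonal l * O.transpose ∧ (∀ k, 0 < l k) ∧
      rdist x y = Real.sqrt (∑ k, Real.log (l k) ^ 2) := by
  set u : GL (Fin m) ℝ := g⁻¹ * h with hu
  have hS : ((u : Mat m) * (u : Mat m).transpose).PosDef := by
    have h1 := Matrix.PosDef.mul_conjTranspose_self (u : Mat m) (by
      have h2 : Function.LeftInverse (fun v : Fin m → ℝ => v ᵥ* ((u⁻¹ : GL (Fin m) ℝ) : Mat m))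
          (fun v => v ᵥ* (u : Mat m)) := by
        intro v
        simp only [Matrix.vecMul_vecMul]
        rw [← Units.val_mul, mul_inv_cancel, Units.val_one, Matrix.vecMul_one]
      exact h2.injective)
    rwa [Matrix.conjTranspose_eq_transpose_of_trivial] at h1
  obtain ⟨O, l, h1, h2, h3, h4, h5⟩ := rd_diag _ hS
  refine ⟨O, l, h1, h2, h3, h4, ?_⟩
  have hxi : ((x⁻¹ : GL (Fin m) ℝ) : Mat m) =
      ((g⁻¹ : GL (Fin m) ℝ) : Mat m).transpose * ((g⁻¹ : GL (Fin m) ℝ) : Mat m) := by
    have e1 : ((g⁻¹ : GL (Fin m) ℝ) : Mat m).transpose * ((g⁻¹ : GL (Fin m) ℝ) : Mat m) *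
        (x : Mat m) = 1 := by
      rw [hx]
      have e2 : ((g⁻¹ : GL (Fin m) ℝ) : Mat m) * (g : Mat m) = 1 := by
        rw [← Units.val_mul, inv_mul_cancel, Units.val_one]
      have e3 : (g : Mat m) * ((g⁻¹ : GL (Fin m) ℝ) : Mat m) = 1 := by
        rw [← Units.val_mul, mul_inv_cancel, Units.val_one]
      calc _ = ((g⁻¹ : GL (Fin m) ℝ) : Mat m).transpose *
          (((g⁻¹ : GL (Fin m) ℝ) : Mat m) * (g : Mat m)) * (g : Mat m).transpose := by
            simp only [Matrix.mul_assoc]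
        _ = 1 := by
            rw [e2, Matrix.mul_one, ← Matrix.transpose_mul, e3, Matrix.transpose_one]
    have e4 : (x : Mat m) * ((x⁻¹ : GL (Fin m) ℝ) : Mat m) = 1 := by
      rw [← Units.val_mul, mul_inv_cancel, Units.val_one]
    calc ((x⁻¹ : GL (Fin m) ℝ) : Mat m) = (((g⁻¹ : GL (Fin m) ℝ) : Mat m).transpose *
          ((g⁻¹ : GL (Fin m) ℝ) : Mat m) * (x : Mat m)) * ((x⁻¹ : GL (Fin m) ℝ) : Mat m) := by
            rw [e1, Matrix.one_mul]
      _ = _ := by rw [Matrix.mul_assoc _ (x : Mat m), e4, Matrix.mul_one]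
  have hchar : ((x⁻¹ * y : GL (Fin m) ℝ) : Mat m).charpoly =
      ((u : Mat m) * (u : Mat m).transpose).charpoly := by
    rw [Units.val_mul, hxi, hy, Matrix.mul_assoc, Matrix.charpoly_mul_comm, hu, Units.val_mul,
      Matrix.transpose_mul]
    simp only [Matrix.mul_assoc]
  unfold rdist
  rw [hchar, h5, Multiset.map_map]
  rfl

private theorem rd_log {m : ℕ} (l : Fin m → ℝ) (k : Fin m) :
    |Real.log (l k)| ≤ Real.sqrt (∑ k, Real.log (l k) ^ 2) := by
  refine Real.abs_le_sqrt ?_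
  exact Finset.single_le_sum (f := fun k => Real.log (l k) ^ 2) (fun i _ => sq_nonneg _)
    (Finset.mem_univ k)

private theorem rd_entry {m : ℕ} (O : Mat m) (c : Fin m → ℝ) (hO : O * O.transpose = 1)
    (M : ℝ) (hc : ∀ k, c k ≤ M) (i : Fin m) :
    (O * diagonal c * O.transpose) i i ≤ M := by
  have h1 : (O * diagonal c * O.transpose) i i = ∑ k, O i k * O i k * c k := by
    rw [Matrix.mul_apply]
    refine Finset.sum_congr rfl fun k _ => ?_
    rw [Matrix.mul_diagonal, Matrix.transpose_apply]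
    ring
  have h2 : ∑ k, O i k * O i k = 1 := by
    have h := congrFun (congrFun hO i) i
    rw [Matrix.mul_apply, Matrix.one_apply_eq] at h
    exact h
  rw [h1]
  calc ∑ k, O i k * O i k * c k ≤ ∑ k, O i k * O i k * M :=
        Finset.sum_le_sum fun k _ => mul_le_mul_of_nonneg_left (hc k) (mul_self_nonneg _)
    _ = M := by rw [← Finset.sum_mul, h2, one_mul]

/-- `x = g gᵀ`, `y = h hᵀ`: the entries of `g⁻¹ h` and `h⁻¹ g` are at most `exp (rdist x y)` -/
theorem entry_le {m : ℕ} (x y g h : GL (Fin m) ℝ)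
    (hx : (x : Mat m) = (g : Mat m) * (g : Mat m).transpose)
    (hy : (y : Mat m) = (h : Mat m) * (h : Mat m).transpose) (i j : Fin m) :
    |((g⁻¹ * h : GL (Fin m) ℝ) : Mat m) i j| ≤ Real.exp (rdist x y) ∧
    |((h⁻¹ * g : GL (Fin m) ℝ) : Mat m) i j| ≤ Real.exp (rdist x y) := by
  obtain ⟨O, l, h1, h2, h3, h4, h5⟩ := rd_key x y g h hx hy
  have hr : ∀ k, |Real.log (l k)| ≤ rdist x y := fun k => by
    rw [h5]
    exact rd_log l k
  have hr0 : 0 ≤ rdist x y := rdist_nonneg x y
  have hfin : ∀ a : ℝ, a * a ≤ Real.exp (rdist x y) → |a| ≤ Real.exp (rdist x y) := by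
    intro a ha
    have e1 : 1 ≤ Real.exp (rdist x y) := Real.one_le_exp hr0
    refine abs_le_of_sq_le_sq' ?_ (Real.exp_pos _).le |> abs_le.2
    nlinarith
  constructor
  · refine hfin _ ?_
    have e1 := rd_entry O l h1 (Real.exp (rdist x y)) (fun k => by
      have := (abs_le.1 (hr k)).2
      calc l k = Real.exp (Real.log (l k)) := (Real.exp_log (h4 k)).symm
        _ ≤ _ := Real.exp_le_exp.2 this) i
    rw [← h3, Matrix.mul_apply] at e1
    refine le_trans ?_ e1
    exact Finset.single_le_sum (f := fun j => ((g⁻¹ * h : GL (Fin m) ℝ) : Mat m) i j *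
      ((g⁻¹ * h : GL (Fin m) ℝ) : Mat m).transpose j i) (fun j _ => mul_self_nonneg _)
      (Finset.mem_univ j)
  · refine hfin _ ?_
    set u : GL (Fin m) ℝ := g⁻¹ * h with hu
    have hui : h⁻¹ * g = u⁻¹ := by rw [hu]; group
    rw [hui]
    have hdi : diagonal l * diagonal (fun k => (l k)⁻¹) = (1 : Mat m) := by
      rw [Matrix.diagonal_mul_diagonal, ← Matrix.diagonal_one]
      congr 1
      funext k
      exact mul_inv_cancel₀ (h4 k).ne'
    have hinv : ((u⁻¹ : GL (Fin m) ℝ) : Mat m).transpose * ((u⁻¹ : GL (Fin m) ℝ) : Mat m) =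
        O * diagonal (fun k => (l k)⁻¹) * O.transpose := by
      have a1 : ((u⁻¹ : GL (Fin m) ℝ) : Mat m).transpose * ((u⁻¹ : GL (Fin m) ℝ) : Mat m) *
          ((u : Mat m) * (u : Mat m).transpose) = 1 := by
        have e2 : ((u⁻¹ : GL (Fin m) ℝ) : Mat m) * (u : Mat m) = 1 := by
          rw [← Units.val_mul, inv_mul_cancel, Units.val_one]
        have e3 : (u : Mat m) * ((u⁻¹ : GL (Fin m) ℝ) : Mat m) = 1 := by
          rw [← Units.val_mul, mul_inv_cancel, Units.val_one]
        calc _ = ((u⁻¹ : GL (Fin m) ℝ) : Mat m).transpose *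
            (((u⁻¹ : GL (Fin m) ℝ) : Mat m) * (u : Mat m)) * (u : Mat m).transpose := by
              simp only [Matrix.mul_assoc]
          _ = 1 := by
              rw [e2, Matrix.mul_one, ← Matrix.transpose_mul, e3, Matrix.transpose_one]
      have a2 : ((u : Mat m) * (u : Mat m).transpose) *
          (O * diagonal (fun k => (l k)⁻¹) * O.transpose) = 1 := by
        rw [h3]
        calc _ = O * (diagonal l * (O.transpose * O) * diagonal (fun k => (l k)⁻¹)) *
            O.transpose := by simp only [Matrix.mul_assoc]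
          _ = 1 := by rw [h2, Matrix.mul_one, hdi, Matrix.mul_one, h1]
      exact left_inv_eq_right_inv a1 a2
    have e1 := rd_entry O (fun k => (l k)⁻¹) h1 (Real.exp (rdist x y)) (fun k => by
      have := (abs_le.1 (hr k)).1
      calc (l k)⁻¹ = Real.exp (-Real.log (l k)) := by rw [Real.exp_neg, Real.exp_log (h4 k)]
        _ ≤ _ := Real.exp_le_exp.2 (by linarith)) j
    rw [← hinv, Matrix.mul_apply] at e1
    refine le_trans ?_ e1
    exact Finset.single_le_sum (f := fun i => ((u⁻¹ : GL (Fin m) ℝ) : Mat m).transpose j i *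
      ((u⁻¹ : GL (Fin m) ℝ) : Mat m) i j) (fun i _ => mul_self_nonneg _)
      (Finset.mem_univ i)

private theorem rd_logsmall (x η : ℝ) (hη : η ≤ 1 / 2) (hx : |x - 1| ≤ η) :
    |Real.log x| ≤ 2 * η := by
  have h1 := abs_le.1 hx
  have hx0 : 1 / 2 ≤ x := by linarith
  have hx1 : 0 < x := by linarith
  have h2 : Real.log x ≤ x - 1 := Real.log_le_sub_one_of_pos hx1
  have h3 : 1 - x⁻¹ ≤ Real.log x := Real.one_sub_inv_le_log_of_pos hx1
  rw [abs_le]
  constructor
  · have h4 : x⁻¹ ≤ 1 + 2 * η := by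
      rw [inv_le_comm₀ hx1 (by linarith [abs_nonneg (x - 1)])]
      rw [inv_le_iff_one_le_mul₀ (by linarith [abs_nonneg (x - 1)])]
      nlinarith [abs_nonneg (x - 1)]
    linarith
  · linarith [abs_nonneg (x - 1)]

theorem rdist_small (m : ℕ) (ε : ℝ) (hε : 0 < ε) : ∃ δ : ℝ, 0 < δ ∧ ∀ x y g h : GL (Fin m) ℝ,
    (x : Mat m) = (g : Mat m) * (g : Mat m).transpose →
    (y : Mat m) = (h : Mat m) * (h : Mat m).transpose →
    (∀ i j, |(((g⁻¹ * h : GL (Fin m) ℝ) : Mat m) - 1) i j| ≤ δ) → rdist x y ≤ ε := by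
  set η : ℝ := min (1 / 2) (ε / (2 * (m + 1))) with hη
  have hm0 : (0 : ℝ) ≤ m := Nat.cast_nonneg m
  have hη0 : 0 < η := lt_min (by norm_num) (by positivity)
  have hK : (0 : ℝ) < m * m * (2 + m) + 1 := by positivity
  refine ⟨min 1 (η / (m * m * (2 + m) + 1)), lt_min one_pos (by positivity), ?_⟩
  intro x y g h hx hy hsm
  obtain ⟨O, l, h1, h2, h3, h4, h5⟩ := rd_key x y g h hx hy
  set u : Mat m := ((g⁻¹ * h : GL (Fin m) ℝ) : Mat m) with hu
  set δ : ℝ := min 1 (η / (m * m * (2 + m) + 1)) with hδ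
  have hδ0 : 0 ≤ δ := le_min zero_le_one (by positivity)
  have hδ1 : δ ≤ 1 := min_le_left _ _
  have hS : ∀ i j, |(u * u.transpose - 1) i j| ≤ (2 + m) * δ := by
    intro i j
    have e1 : u * u.transpose - 1 = (u - 1) + (u - 1).transpose + (u - 1) * (u - 1).transpose := by
      rw [Matrix.transpose_sub, Matrix.transpose_one]
      noncomm_ring
    rw [e1, Matrix.add_apply, Matrix.add_apply, Matrix.mul_apply]
    have e2 : |∑ k, (u - 1) i k * (u - 1).transpose k j| ≤ m * δ := by
      calc |∑ k, (u - 1) i k * (u - 1).transpose k j|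
          ≤ ∑ k, |(u - 1) i k * (u - 1).transpose k j| := Finset.abs_sum_le_sum_abs _ _
        _ ≤ ∑ _k : Fin m, δ := by
            refine Finset.sum_le_sum fun k _ => ?_
            rw [abs_mul, Matrix.transpose_apply]
            calc |(u - 1) i k| * |(u - 1) j k| ≤ δ * 1 :=
                  mul_le_mul (hsm i k) ((hsm j k).trans hδ1) (abs_nonneg _) hδ0
              _ = δ := mul_one δ
        _ = m * δ := by simp
    have e3 := hsm i j
    have e4 := hsm j i
    calc |(u - 1) i j + (u - 1).transpose i j + ∑ k, (u - 1) i k * (u - 1).transpose k j|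
        ≤ |(u - 1) i j| + |(u - 1).transpose i j| +
          |∑ k, (u - 1) i k * (u - 1).transpose k j| := abs_add_three _ _ _
      _ ≤ δ + δ + m * δ := add_le_add (add_le_add e3 e4) e2
      _ = (2 + m) * δ := by ring
  have hO1 : ∀ i k, |O i k| ≤ 1 := by
    intro i k
    have h := congrFun (congrFun h1 i) i
    rw [Matrix.mul_apply, Matrix.one_apply_eq] at h
    have h6 : O i k * O i k ≤ 1 := by
      rw [← h]
      exact Finset.single_le_sum (f := fun k => O i k * O.transpose k i)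
        (fun k _ => mul_self_nonneg _) (Finset.mem_univ k)
    refine abs_le_of_sq_le_sq' ?_ zero_le_one |> abs_le.2
    nlinarith
  have hl : ∀ k, |l k - 1| ≤ η := by
    intro k
    have e1 : O.transpose * (u * u.transpose - 1) * O = diagonal l - 1 := by
      rw [h3, Matrix.mul_sub, Matrix.sub_mul, Matrix.mul_one, h2]
      congr 1
      calc _ = (O.transpose * O) * diagonal l * (O.transpose * O) := by
            simp only [Matrix.mul_assoc]
        _ = diagonal l := by rw [h2, Matrix.one_mul, Matrix.mul_one]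
    have e2 : l k - 1 = ∑ j, (∑ i, O i k * (u * u.transpose - 1) i j) * O j k := by
      have h := congrFun (congrFun e1 k) k
      rw [Matrix.sub_apply, Matrix.diagonal_apply_eq, Matrix.one_apply_eq, Matrix.mul_apply] at h
      rw [← h]
      refine Finset.sum_congr rfl fun j _ => ?_
      rw [Matrix.mul_apply]
      rfl
    rw [e2]
    calc |∑ j, (∑ i, O i k * (u * u.transpose - 1) i j) * O j k|
        ≤ ∑ j, |(∑ i, O i k * (u * u.transpose - 1) i j) * O j k| :=
          Finset.abs_sum_le_sum_abs _ _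
      _ ≤ ∑ _j : Fin m, (m * ((2 + m) * δ)) := by
          refine Finset.sum_le_sum fun j _ => ?_
          rw [abs_mul]
          have e5 : |∑ i, O i k * (u * u.transpose - 1) i j| ≤ m * ((2 + m) * δ) := by
            calc |∑ i, O i k * (u * u.transpose - 1) i j|
                ≤ ∑ i, |O i k * (u * u.transpose - 1) i j| := Finset.abs_sum_le_sum_abs _ _
              _ ≤ ∑ _i : Fin m, ((2 + m) * δ) := by
                  refine Finset.sum_le_sum fun i _ => ?_
                  rw [abs_mul]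
                  calc |O i k| * |(u * u.transpose - 1) i j| ≤ 1 * ((2 + m) * δ) :=
                        mul_le_mul (hO1 i k) (hS i j) (abs_nonneg _) zero_le_one
                    _ = _ := one_mul _
              _ = m * ((2 + m) * δ) := by simp
          calc |∑ i, O i k * (u * u.transpose - 1) i j| * |O j k|
              ≤ (m * ((2 + m) * δ)) * 1 :=
                mul_le_mul e5 (hO1 j k) (abs_nonneg _) (by positivity)
            _ = _ := mul_one _
      _ = (m * m * (2 + m)) * δ := by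
          simp only [Finset.sum_const, Finset.card_univ, Fintype.card_fin, nsmul_eq_mul]
          ring
      _ ≤ (m * m * (2 + m)) * (η / (m * m * (2 + m) + 1)) := by
          refine mul_le_mul_of_nonneg_left (min_le_right _ _) (by positivity)
      _ ≤ η := by
          rw [← mul_div_assoc, div_le_iff₀ hK]
          nlinarith
  have hη2 : η ≤ 1 / 2 := min_le_left _ _
  have hη3 : η ≤ ε / (2 * (m + 1)) := min_le_right _ _
  rw [h5]
  refine Real.sqrt_le_iff.2 ⟨hε.le, ?_⟩
  calc ∑ k, Real.log (l k) ^ 2 ≤ ∑ _k : Fin m, (2 * η) ^ 2 := by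
        refine Finset.sum_le_sum fun k _ => ?_
        exact sq_le_sq' (by linarith [(abs_le.1 (rd_logsmall _ _ hη2 (hl k))).1])
          (abs_le.1 (rd_logsmall _ _ hη2 (hl k))).2
    _ = m * (2 * η) ^ 2 := by simp
    _ ≤ (m + 1) ^ 2 * (2 * η) ^ 2 := by
        refine mul_le_mul_of_nonneg_right ?_ (by positivity)
        nlinarith
    _ = ((2 * (m + 1)) * η) ^ 2 := by ring
    _ ≤ ε ^ 2 := by
        refine pow_le_pow_left₀ (by positivity) ?_ 2
        rw [le_div_iff₀ (by positivity)] at hη3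
        linarith

end MP65
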