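import Pool.Agent.Work.MP_65b809_gt.Graph

/-! # RoundNB : rounding of group elements, bounded number of grid tuples near a point

`exists_round`: for every `g` and `s` there is a tuple `y` with `Grid d s y` and
`Close d s C (ch y s) g`. Construct `y` coordinate by coordinate: given `y` with `Grid d s y` (all
coordinates `≥ j` zero) and `|x_i ((ch y s)⁻¹ g)| ≤ 3^{w_i s}` for `i < j`, put
`y' = y` with `y' j = rd (lam j s) (x_j ((ch y s)⁻¹ g))`. By `ch_trunc` and `ch_eqv_trunc`
(`trunc j y' = y`): `ch y' s ~_{j+1} ch y s * z_j(y' j)`, so `(ch y' s)⁻¹ g` agrees with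
`(ch y s)⁻¹ g` in the coordinates `< j` and its `j`-th coordinate is
`x_j((ch y s)⁻¹ g) - y' j`, of absolute value `≤ 3^{lam j s}/2 ≤ 3^{w_j s}` (use `eqv_conj_z` with
`ρ' = 0`, `z_zero`). At the end `Low d s 1 ((ch y s)⁻¹ g)`, and `close_of_low`.

`cnt_near`: for fixed `g` the set of the grid tuples `y` of level `s` with `Close d s C g (ch y s)` has
at most `W(C)` elements up to `EqOn d`. Show by induction on `j ≤ d` that
`Cnt j {y | Grid j s y ∧ Close j s C g (ch y s)} W_j`. Step: if `y, y'` agree on the coordinates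
`< j` then, with `h = (ch (trunc j y) s)` (same for `y'` up to equality, `trunc j y = trunc j y'`),
`x_j((ch y s)⁻¹ g) = x_j(h⁻¹ g) - y j` and the same for `y'`, so
`|y j - y' j| ≤ 2C 3^{w_j s} ≤ 6 C 3^{lam j s}`. Both are multiples of `3^{lam j s}`. Code of `y`:
the pair (code of the first `j` coordinates, `⌊·⌋` of `(y j - y₀ j)/3^{lam j s}` shifted by `⌈6C⌉`,
`y₀` a chosen representative with the same first code), encoded as `code * (2⌈6C⌉+1) + ...`.
(`Cnt d A n` is the statement at `j = d`.)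
The `Cnt` lemmas (`mono`, `union`, `biUnion`) are elementary encodings.
-/

namespace MP65

theorem Cnt.mono {d : ℕ} {A B : Set (ℕ → ℝ)} {m n : ℕ} (hAB : A ⊆ B) (hmn : m ≤ n)
    (h : Cnt d B m) : Cnt d A n := by
  obtain ⟨code, h1, h2⟩ := h
  exact ⟨code, fun y hy => lt_of_lt_of_le (h1 y (hAB hy)) hmn,
    fun y hy y' hy' => h2 y (hAB hy) y' (hAB hy')⟩

theorem Cnt.union {d : ℕ} {A B : Set (ℕ → ℝ)} {m n : ℕ} (h : Cnt d A m) (h' : Cnt d B n) :
    Cnt d (A ∪ B) (m + n) := by
  classical
  obtain ⟨c, h1, h2⟩ := h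
  obtain ⟨c', h1', h2'⟩ := h'
  refine ⟨fun y => if y ∈ A then c y else m + c' y, ?_, ?_⟩
  · intro y hy
    by_cases hA : y ∈ A
    · simp only [if_pos hA]
      have := h1 y hA
      omega
    · simp only [if_neg hA]
      have := h1' y (hy.resolve_left hA)
      omega
  · intro y hy y' hy' he
    by_cases hA : y ∈ A
    · by_cases hA' : y' ∈ A
      · simp only [if_pos hA, if_pos hA'] at he
        exact h2 y hA y' hA' he
      · simp only [if_pos hA, if_neg hA'] at he
        have := h1 y hA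
        omega
    · by_cases hA' : y' ∈ A
      · simp only [if_neg hA, if_pos hA'] at he
        have := h1 y' hA'
        omega
      · simp only [if_neg hA, if_neg hA'] at he
        exact h2' y (hy.resolve_left hA) y' (hy'.resolve_left hA') (by omega)

/-- if the elements of `A` are coded by fewer than `m` first codes, and each class is `Cnt n` -/
theorem Cnt.fibre {d : ℕ} {A : Set (ℕ → ℝ)} {m n : ℕ} (f : (ℕ → ℝ) → ℕ) (hf : ∀ y ∈ A, f y < m)
    (h : ∀ c, c < m → Cnt d {y | y ∈ A ∧ f y = c} n) : Cnt d A (m * n) := by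
  classical
  have h' : ∀ c, ∃ code : (ℕ → ℝ) → ℕ, c < m → (∀ y ∈ {y | y ∈ A ∧ f y = c}, code y < n) ∧
      ∀ y ∈ {y | y ∈ A ∧ f y = c}, ∀ y' ∈ {y | y ∈ A ∧ f y = c}, code y = code y' →
        EqOn d y y' := by
    intro c
    by_cases hc : c < m
    · obtain ⟨code, h1, h2⟩ := h c hc
      exact ⟨code, fun _ => ⟨h1, h2⟩⟩
    · exact ⟨fun _ => 0, fun hc' => absurd hc' hc⟩
  choose code hcode using h'
  refine ⟨fun y => f y * n + code (f y) y, ?_, ?_⟩
  · intro y hy
    have h1 := (hcode (f y) (hf y hy)).1 y ⟨hy, rfl⟩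
    have h2 := hf y hy
    calc f y * n + code (f y) y < f y * n + n := by omega
      _ = (f y + 1) * n := by ring
      _ ≤ m * n := Nat.mul_le_mul_right n h2
  · intro y hy y' hy' he
    have h1 := (hcode (f y) (hf y hy)).1 y ⟨hy, rfl⟩
    have h1' := (hcode (f y') (hf y' hy')).1 y' ⟨hy', rfl⟩
    have hn : 0 < n := by omega
    have e1 : f y = f y' := by
      have a1 : (f y * n + code (f y) y) / n = f y := by
        rw [mul_comm, Nat.mul_add_div hn, Nat.div_eq_of_lt h1, add_zero]
      have a2 : (f y' * n + code (f y') y') / n = f y' := by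
        rw [mul_comm, Nat.mul_add_div hn, Nat.div_eq_of_lt h1', add_zero]
      rw [← a1, ← a2]
      exact congrArg (· / n) he
    have e2 : code (f y) y = code (f y) y' := by
      have he' : f y * n + code (f y) y = f y' * n + code (f y') y' := he
      rw [← e1] at he'
      omega
    exact (hcode (f y) (hf y hy)).2 y ⟨hy, rfl⟩ y' ⟨hy', e1.symm⟩ e2

/-- indexed unions: `A ⊆ ⋃_{u ∈ U} B u` with `Cnt d' U m`, where `B u` only depends on `u` up to
`EqOn d'` and `Cnt d (B u) n` -/
theorem Cnt.bind {d d' : ℕ} {A U : Set (ℕ → ℝ)} {m n : ℕ} (B : (ℕ → ℝ) → Set (ℕ → ℝ))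
    (hU : Cnt d' U m) (hB : ∀ u ∈ U, Cnt d (B u) n)
    (hcong : ∀ u ∈ U, ∀ u' ∈ U, EqOn d' u u' → B u ⊆ B u')
    (hA : ∀ y ∈ A, ∃ u ∈ U, y ∈ B u) : Cnt d A (m * n) := by
  classical
  obtain ⟨cu, h1, h2⟩ := hU
  have hA' : ∀ y, ∃ u, y ∈ A → u ∈ U ∧ y ∈ B u := by
    intro y
    by_cases hy : y ∈ A
    · obtain ⟨u, hu, hyu⟩ := hA y hy
      exact ⟨u, fun _ => ⟨hu, hyu⟩⟩
    · exact ⟨y, fun h => absurd h hy⟩
  choose u hu using hA'
  refine Cnt.fibre (fun y => cu (u y)) (fun y hy => h1 _ (hu y hy).1) fun c _ => ?_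
  by_cases hne : ∃ y₀, y₀ ∈ A ∧ cu (u y₀) = c
  · obtain ⟨y₀, hy₀, hc₀⟩ := hne
    refine Cnt.mono (fun y hy => ?_) le_rfl (hB (u y₀) (hu y₀ hy₀).1)
    have e : EqOn d' (u y) (u y₀) :=
      h2 _ (hu y hy.1).1 _ (hu y₀ hy₀).1 (hy.2.trans hc₀.symm)
    exact hcong _ (hu y hy.1).1 _ (hu y₀ hy₀).1 e (hu y hy.1).2
  · refine ⟨fun _ => 0, fun y hy => absurd ⟨y, hy⟩ hne, fun y hy => absurd ⟨y, hy⟩ hne⟩

namespace Tower

variable {N : Type} [Group N] {d : ℕ} (T : Tower N d)

theorem exists_round : ∃ C : ℝ, 0 ≤ C ∧ ∀ (g : N) (s : ℤ), ∃ y : ℕ → ℝ, T.Grid d s y ∧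
    T.Close d s C (T.ch y s) g := by
  classical
  obtain ⟨C, hC, h⟩ := T.close_of_low 1
  refine ⟨C, hC, fun g s => ?_⟩
  have key : ∀ j, j ≤ d → ∃ y : ℕ → ℝ, T.Grid d s y ∧ (∀ i, j ≤ i → y i = 0) ∧
      T.Low j s 1 ((T.ch y s)⁻¹ * g) := by
    intro j
    induction j with
    | zero =>
      intro _
      refine ⟨fun _ => 0, fun i _ => rd_zero' _, fun _ _ => rfl, fun i hi => absurd hi (by omega)⟩
    | succ j ih =>
      intro hj
      obtain ⟨y, hy, hy0, hlow⟩ := ih (by omega)
      obtain ⟨ρ, hρ⟩ : ∃ ρ, ρ = rd (T.lam j s) (T.x j ((T.ch y s)⁻¹ * g)) := ⟨_, rfl⟩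
      have hρ' : rd (T.lam j s) ρ = ρ := by rw [hρ]; exact rd_fix _ _
      obtain ⟨y', hy'⟩ : ∃ y' : ℕ → ℝ, y' = Function.update y j ρ := ⟨_, rfl⟩
      have hyj : y' j = ρ := by rw [hy', Function.update_self]
      have hyi : ∀ i, i ≠ j → y' i = y i := fun i hi => by
        rw [hy', Function.update_of_ne hi]
      have htr : trunc j y' = y := by
        funext i
        unfold trunc
        split_ifs with hi
        · exact hyi i (by omega)
        · exact (hy0 i (by omega)).symm
      have h1 := T.ch_trunc (by omega : j < d) y' s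
      rw [htr, hyj, hρ'] at h1
      have h2 := T.eqv_conj_z (by omega : j < d) (T.ch y s) g ρ 0
      rw [T.z_zero j (by omega), mul_one, add_zero] at h2
      have h3 : T.Eqv (j + 1) ((T.ch y' s)⁻¹ * g) ((T.ch y s * T.z j ρ)⁻¹ * g) :=
        T.eqv_mul hj (T.eqv_inv hj h1) (T.eqv_refl _ _)
      refine ⟨y', fun i hi => ?_, fun i hi => ?_, fun i hi => ?_⟩
      · by_cases hij : i = j
        · rw [hij, hyj]
          exact hρ'
        · rw [hyi i hij]
          exact hy i hi
      · rw [hyi i (by omega)]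
        exact hy0 i (by omega)
      · rw [h3 i hi]
        by_cases hij : i < j
        · rw [h2.1 i hij]
          exact hlow i hij
        · have hij' : i = j := by omega
          rw [hij', h2.2, hρ]
          have a1 := abs_sub_rd_le (T.lam j s) (T.x j ((T.ch y s)⁻¹ * g))
          have a2 := (T.lam_bounds j s).1
          have a3 : (0 : ℝ) < (3 : ℝ) ^ (T.lam j s) := zpow_pos (by norm_num) _
          linarith
  obtain ⟨y, hy, -, hlow⟩ := key d le_rfl
  exact ⟨y, hy, h d s _ _ le_rfl hlow⟩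

theorem cnt_near (C : ℝ) : ∃ W : ℕ, ∀ (g : N) (s : ℤ),
    Cnt d {y | T.Grid d s y ∧ T.Close d s C g (T.ch y s)} W := by
  classical
  have key : ∀ j, j ≤ d → ∃ W : ℕ, ∀ (g : N) (s : ℤ),
      Cnt j {y | T.Grid j s y ∧ T.Close j s C g (T.ch y s)} W := by
    intro j
    induction j with
    | zero =>
      intro _
      exact ⟨1, fun g s => ⟨fun _ => 0, fun _ _ => Nat.one_pos,
        fun _ _ _ _ _ i hi => absurd hi (by omega)⟩⟩
    | succ j ih =>
      intro hj
      obtain ⟨W, hW⟩ := ih (by omega)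
      obtain ⟨M, hM⟩ : ∃ M : ℕ, 6 * C ≤ M := exists_nat_ge _
      refine ⟨W * (2 * M + 1), fun g s => ?_⟩
      obtain ⟨code, h1, h2⟩ := hW g s
      have hsub : ∀ y, T.Grid (j + 1) s y → T.Close (j + 1) s C g (T.ch y s) →
          y ∈ {y | T.Grid j s y ∧ T.Close j s C g (T.ch y s)} := fun y hy hc =>
        ⟨T.grid_mono_j (Nat.le_succ j) hy, T.close_mono_j (Nat.le_succ j) hc⟩
      refine Cnt.fibre code (fun y hy => h1 y (hsub y hy.1 hy.2)) fun c _ => ?_
      by_cases hne : ∃ y₀, (T.Grid (j + 1) s y₀ ∧ T.Close (j + 1) s C g (T.ch y₀ s)) ∧ code y₀ = c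
      · obtain ⟨y₀, hy₀, hc₀⟩ := hne
        -- coordinate estimate
        have hest : ∀ y, (T.Grid (j + 1) s y ∧ T.Close (j + 1) s C g (T.ch y s)) ∧ code y = c →
            EqOn j y y₀ ∧ |mr (T.lam j s) (y j) - mr (T.lam j s) (y₀ j)| ≤ (M : ℤ) ∧
              y j = (3 : ℝ) ^ (T.lam j s) * mr (T.lam j s) (y j) := by
          rintro y ⟨hy, hc⟩
          have he : EqOn j y y₀ :=
            h2 y (hsub y hy.1 hy.2) y₀ (hsub y₀ hy₀.1 hy₀.2) (hc.trans hc₀.symm)
          have htr : trunc j y = trunc j y₀ := by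
            funext i
            unfold trunc
            split_ifs with hi
            · exact he i hi
            · rfl
          have hx : ∀ z, T.Grid (j + 1) s z →
              T.x j (g⁻¹ * T.ch z s) = T.x j (g⁻¹ * T.ch (trunc j z) s) + z j := by
            intro z hz
            have a1 := T.ch_trunc (by omega : j < d) z s
            rw [hz j (by omega)] at a1
            have a2 : T.Eqv (j + 1) (g⁻¹ * T.ch z s) (g⁻¹ * (T.ch (trunc j z) s * T.z j (z j))) :=
              T.eqv_mul hj (T.eqv_refl _ _) a1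
            rw [a2 j (by omega), ← mul_assoc, T.x_mul_z (by omega : j < d)]
          have b1 := hx y hy.1
          have b2 := hx y₀ hy₀.1
          rw [← htr] at b2
          have c1 := hy.2.1 j (by omega)
          have c2 := hy₀.2.1 j (by omega)
          have c3 := (T.lam_bounds j s).2
          have c4 : (0 : ℝ) < (3 : ℝ) ^ (T.lam j s) := zpow_pos (by norm_num) _
          have e1 : y j = (3 : ℝ) ^ (T.lam j s) * mr (T.lam j s) (y j) := (hy.1 j (by omega)).symm
          have e2 : y₀ j = (3 : ℝ) ^ (T.lam j s) * mr (T.lam j s) (y₀ j) :=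
            (hy₀.1 j (by omega)).symm
          refine ⟨he, ?_, e1⟩
          have c5 : |y j - y₀ j| ≤ 2 * (C * 3 ^ (T.w j * (s : ℝ))) := by
            have : y j - y₀ j = T.x j (g⁻¹ * T.ch y s) - T.x j (g⁻¹ * T.ch y₀ s) := by
              rw [b1, b2]; ring
            rw [this]
            refine (abs_sub _ _).trans ?_
            linarith
          have hC : 0 ≤ C := by
            have c6 : 0 ≤ C * 3 ^ (T.w j * (s : ℝ)) := (abs_nonneg _).trans c1
            have c7 : (0 : ℝ) < 3 ^ (T.w j * (s : ℝ)) := Real.rpow_pos_of_pos (by norm_num) _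
            exact nonneg_of_mul_nonneg_left c6 c7
          have c8 : |y j - y₀ j| ≤ (M : ℝ) * (3 : ℝ) ^ (T.lam j s) := by
            refine c5.trans ?_
            calc 2 * (C * 3 ^ (T.w j * (s : ℝ))) ≤ 2 * (C * (3 * (3 : ℝ) ^ (T.lam j s))) := by
                  have := mul_le_mul_of_nonneg_left c3 hC
                  linarith
              _ = (6 * C) * (3 : ℝ) ^ (T.lam j s) := by ring
              _ ≤ M * (3 : ℝ) ^ (T.lam j s) := mul_le_mul_of_nonneg_right hM c4.le
          have c9 : |((mr (T.lam j s) (y j) - mr (T.lam j s) (y₀ j) : ℤ) : ℝ)| ≤ M := by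
            have e3 : y j - y₀ j = (3 : ℝ) ^ (T.lam j s) *
                ((mr (T.lam j s) (y j) - mr (T.lam j s) (y₀ j) : ℤ) : ℝ) := by
              push_cast
              linear_combination e1 - e2
            rw [e3, abs_mul, abs_of_pos c4, mul_comm] at c8
            exact le_of_mul_le_mul_right c8 c4
          exact_mod_cast c9
        refine ⟨fun y => (mr (T.lam j s) (y j) - mr (T.lam j s) (y₀ j) + M).toNat, ?_, ?_⟩
        · intro y hy
          obtain ⟨-, h3, -⟩ := hest y hy
          rw [abs_le] at h3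
          show (mr (T.lam j s) (y j) - mr (T.lam j s) (y₀ j) + M).toNat < 2 * M + 1
          omega
        · intro y hy y' hy' he i hi
          obtain ⟨h3, h4, h5⟩ := hest y hy
          obtain ⟨h3', h4', h5'⟩ := hest y' hy'
          by_cases hij : i < j
          · rw [h3 i hij, h3' i hij]
          · have hij' : i = j := by omega
            rw [hij', h5, h5']
            rw [abs_le] at h4 h4'
            have he' : (mr (T.lam j s) (y j) - mr (T.lam j s) (y₀ j) + M).toNat =
              (mr (T.lam j s) (y' j) - mr (T.lam j s) (y₀ j) + M).toNat := he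
            have : mr (T.lam j s) (y j) = mr (T.lam j s) (y' j) := by omega
            rw [this]
      · refine ⟨fun _ => 0, fun y hy => absurd ⟨y, hy⟩ hne, fun y hy => absurd ⟨y, hy⟩ hne⟩
  exact key d le_rfl

end Tower

end MP65
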