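import Pool.Agent.Work.MP_65b809_gt.PLog

/-! # SMain : from the group part to the solvable group `exp n exp(ℝ H)`

Let `T` be an adapted tower on `B.N` with `T.NPart`, `D = finrank n`, `dist` a good distance function
on `B.n × ℝ`. Let `r, ε, q` be given; `c` from `GoodDist`. For a point `p = (Y, τ)` let `g(p) ∈ B.N` be
the element with matrix `exp Y` and `t(p) = ⌊τ⌋`.
(1) If `dist p p' ≤ r`: the matrix `M = muInv p * mu p'` is
`diag(e^{-τH}) exp(-Y) exp(Y') diag(e^{τ'H})`, `u = exp(-Y) exp(Y')` is the matrix of `g(p)⁻¹g(p')`, `u - 1 ∈ Gt H 0`, so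
`M i i = e^{(τ'-τ) H i}`. With `H i ≠ 0` for some `i` and the same for `p', p`:
`|τ - τ'| |H i| ≤ c (r+1)`, so `|τ - τ'| ≤ R₁`. Off the diagonal
`|u i j| = e^{τ H i} |M i j| e^{-τ' H j} ≤ e^{c(r+1)} e^{τ(H i - H j)} e^{(τ-τ')H j} ≤ C e^{τ(H i - H j)}`
and `τ ≤ t(p) + 1`, so `|u i j| ≤ C' e^{t (H i - H j)}` where `t = max t(p) t(p')`. By `Adapted`,
`Low d (max ..) R (g(p)⁻¹ g(p'))`. Take `R` larger than this constant and `R₁ + 1`; `NPart` for `R, q`
gives `f`, `C₂`. Put `f_i p = f i (g(p)) (t(p))`. This gives the first two properties.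
(2) Counting: let `f_i p₀ = some a`, `n : ℕ`; put `R₂(n) = c₁ (n+1)` such that `dist p₀ p ≤ n` implies
`|τ - τ₀| ≤ R₂(n)` and `|u i j| ≤ e^{c₂(n+1)} e^{τ₀(H i - H j)}` for `u = g(p₀)⁻¹g(p)` (same computation).
Let `t₀ = ⌊τ₀⌋ - K(n+1)`, `t₁ = ⌊τ₀⌋ + K(n+1)` with a natural number `K` such that
`e^{c₂(n+1)} ≤ e^{(K(n+1) - 1)(H i - H j)}` for `H j < H i` (the gap is `≥ log 3 > 1`) and
`R₂(n) + 1 ≤ K (n+1)`. Then `Low d t₁ R' (g(p₀)⁻¹ g(p))` with `R'` = the `Adapted` constant of `1`. So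
`NPart` (third part) gives `code`, bounded by `C (2K(n+1)+1)^e ≤ C' (n+1)^e`. Two points with the same
code have the same `t` and `u = g(p)⁻¹g(p')` satisfies `|u i j| ≤ C₃ e^{t(H i - H j)}` (`Adapted`).
(3) Small pieces: choose for every code value `k` a point `p_k` of the piece with that code
(if any). For `p` with code `k`, `t = t(p_k)`: the matrix `Q(p) = muInv (p_k) * mu p` has entries
bounded by a constant `C₄` (`= e^{-τ_k H i} u i j e^{τ H j}`, `τ_k, τ ∈ [t,t+1)`), and so has its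
inverse `muInv p * mu p_k`. For two such points `p, p'`:
`muInv p * mu p' - 1 = (Q(p))⁻¹ (Q(p') - Q(p))`, entries `≤ m C₄ max |Q(p') - Q(p)|`. Let `δ` be the
constant of `GoodDist` for `ε`; divide `[-C₄, C₄]` into intervals of length `≤ δ/(m C₄ + 1)` and let the second code of
`p` be the function `(i,j) ↦` index of the interval of `Q(p) i j` (finitely many, number independent
of `n`). Final code: pair (k, second code).
-/

namespace MP65

open Matrix NormedSpace

/-- the element of `exp n` with matrix `exp Y` -/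
private noncomputable def smg {m : ℕ} (B : BData m) (Y : B.n) : B.N :=
  ⟨(Matrix.isUnit_exp (Y : Mat m)).unit, Y, Y.2, rfl⟩

private theorem smg_coe {m : ℕ} (B : BData m) (Y : B.n) :
    ((smg B Y : GL (Fin m) ℝ) : Mat m) = exp (Y : Mat m) := rfl

private theorem smg_inv {m : ℕ} (B : BData m) (Y : B.n) :
    ((((smg B Y)⁻¹ : B.N) : GL (Fin m) ℝ) : Mat m) = exp (-(Y : Mat m)) := by
  rw [Subgroup.coe_inv, Matrix.coe_units_inv, smg_coe, Matrix.exp_neg]

private theorem sm_muInv_mu {m : ℕ} (B : BData m) (p : B.n × ℝ) : B.muInv p * B.mu p = 1 := by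
  have h1 : exp (-(p.1 : Mat m)) * exp (p.1 : Mat m) = 1 := by
    rw [← smg_inv, ← smg_coe, ← Units.val_mul, ← Subgroup.coe_mul, inv_mul_cancel,
      Subgroup.coe_one, Units.val_one]
  have h2 : diagonal (fun i => Real.exp (-(p.2 * B.H i))) * diagonal (fun i => Real.exp (p.2 * B.H i))
      = (1 : Mat m) := by
    rw [Matrix.diagonal_mul_diagonal, ← Matrix.diagonal_one]
    congr 1
    funext i
    rw [← Real.exp_add, neg_add_cancel, Real.exp_zero]
  calc B.muInv p * B.mu p = diagonal (fun i => Real.exp (-(p.2 * B.H i))) *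
      (exp (-(p.1 : Mat m)) * exp (p.1 : Mat m)) * diagonal (fun i => Real.exp (p.2 * B.H i)) := by
        simp only [BData.muInv, BData.mu, Matrix.mul_assoc]
    _ = 1 := by rw [h1, Matrix.mul_one, h2]

private theorem sm_mu_muInv {m : ℕ} (B : BData m) (p : B.n × ℝ) : B.mu p * B.muInv p = 1 :=
  mul_eq_one_comm.1 (sm_muInv_mu B p)

/-- entries of `muInv p * mu p'` -/
private theorem sm_entry {m : ℕ} (B : BData m) (p p' : B.n × ℝ) (i j : Fin m) :
    (B.muInv p * B.mu p') i j = Real.exp (-(p.2 * B.H i)) *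
      ((((smg B p.1)⁻¹ * smg B p'.1 : B.N) : GL (Fin m) ℝ) : Mat m) i j *
        Real.exp (p'.2 * B.H j) := by
  have h1 : B.muInv p * B.mu p' = diagonal (fun i => Real.exp (-(p.2 * B.H i))) *
      ((((smg B p.1)⁻¹ * smg B p'.1 : B.N) : GL (Fin m) ℝ) : Mat m) *
        diagonal (fun i => Real.exp (p'.2 * B.H i)) := by
    rw [Subgroup.coe_mul, Units.val_mul, smg_inv, smg_coe]
    simp only [BData.muInv, BData.mu, Matrix.mul_assoc]
  rw [h1, Matrix.mul_diagonal, Matrix.diagonal_mul]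

private theorem sm_gt {m : ℕ} (B : BData m) (g : B.N) :
    Gt B.H 0 (((g : GL (Fin m) ℝ) : Mat m) - 1) := by
  obtain ⟨W, hW, hg⟩ := g.2
  rw [hg]
  refine exp_sub_one_gt fun i j h => ?_
  have := B.supp W hW i j h
  linarith

private theorem sm_diag {m : ℕ} (B : BData m) (g : B.N) (i : Fin m) :
    ((g : GL (Fin m) ℝ) : Mat m) i i = 1 := by
  by_contra h
  have h1 : (((g : GL (Fin m) ℝ) : Mat m) - 1) i i ≠ 0 := by
    rw [Matrix.sub_apply, Matrix.one_apply_eq, sub_ne_zero]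
    exact h
  have := sm_gt B g i i h1
  linarith

private theorem sm_zero {m : ℕ} (B : BData m) (g : B.N) (i j : Fin m) (hij : i ≠ j)
    (hH : ¬ B.H j < B.H i) : ((g : GL (Fin m) ℝ) : Mat m) i j = 0 := by
  by_contra h
  have h1 : (((g : GL (Fin m) ℝ) : Mat m) - 1) i j ≠ 0 := by
    rw [Matrix.sub_apply, Matrix.one_apply_ne hij, sub_zero]
    exact h
  have := sm_gt B g i j h1
  exact hH (by linarith)

/-- a finite code for matrices with bounded entries -/
private theorem sm_code (m : ℕ) (C η : ℝ) (hη : 0 < η) : ∃ (L : ℕ) (F : Mat m → ℕ),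
    (∀ Q, F Q < L) ∧ ∀ Q Q' : Mat m, (∀ i j, |Q i j| ≤ C) → (∀ i j, |Q' i j| ≤ C) →
      F Q = F Q' → ∀ i j, |Q i j - Q' i j| ≤ η := by
  set c : ℕ := ⌈C / η⌉₊ with hc
  set G : Mat m → (Fin m × Fin m → Fin (2 * (c + 1) + 1)) := fun Q ij =>
    Fin.ofNat _ (⌊Q ij.1 ij.2 / η⌋ + (c + 1)).toNat with hG
  refine ⟨Fintype.card (Fin m × Fin m → Fin (2 * (c + 1) + 1)),
    fun Q => (Fintype.equivFin (Fin m × Fin m → Fin (2 * (c + 1) + 1)) (G Q) : ℕ),
    fun Q => Fin.is_lt _, fun Q Q' hQ hQ' h i j => ?_⟩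
  have h1 : G Q = G Q' := (Fintype.equivFin _).injective (Fin.ext h)
  have hrange : ∀ x : ℝ, |x| ≤ C → 0 ≤ ⌊x / η⌋ + (c + 1) ∧
      (⌊x / η⌋ + (c + 1)).toNat < 2 * (c + 1) + 1 := by
    intro x hx
    have h2 : |x / η| ≤ c := by
      rw [abs_div, abs_of_pos hη]
      exact (div_le_div_of_nonneg_right hx hη.le).trans (Nat.le_ceil _)
    have h3 := abs_le.1 h2
    have h4 : -(c : ℤ) ≤ ⌊x / η⌋ := Int.le_floor.2 (by push_cast; exact h3.1)
    have h5 : ⌊x / η⌋ ≤ (c : ℤ) := by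
      have h6 : (⌊x / η⌋ : ℝ) ≤ (c : ℝ) := (Int.floor_le _).trans h3.2
      exact_mod_cast h6
    omega
  obtain ⟨a1, a2⟩ := hrange _ (hQ i j)
  obtain ⟨b1, b2⟩ := hrange _ (hQ' i j)
  have h2 := congrArg Fin.val (congrFun h1 (i, j))
  simp only [hG, Fin.ofNat_eq_cast, Fin.val_natCast] at h2
  rw [Nat.mod_eq_of_lt a2, Nat.mod_eq_of_lt b2] at h2
  have h3 : ⌊Q i j / η⌋ = ⌊Q' i j / η⌋ := by omega
  have h4 := Int.abs_sub_lt_one_of_floor_eq_floor h3
  rw [← sub_div, abs_div, abs_of_pos hη, div_lt_one hη] at h4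
  exact h4.le

/-- the basic estimates -/
private theorem sm_est {m : ℕ} (B : BData m) (dist : B.n × ℝ → B.n × ℝ → ℝ) (c : ℝ) (hc : 0 < c)
    (h : ∀ p p' i j, |(B.muInv p * B.mu p') i j| ≤ Real.exp (c * (dist p p' + 1)) ∧
      |(B.muInv p' * B.mu p) i j| ≤ Real.exp (c * (dist p p' + 1))) (Hm : ℝ)
    (hHm : ∀ j, |B.H j| ≤ Hm) (hHm0 : 0 ≤ Hm) :
    ∃ c₁ c₂ : ℝ, 0 ≤ c₁ ∧ 0 ≤ c₂ ∧ ∀ p p' : B.n × ℝ, |p.2 - p'.2| ≤ c₁ * (dist p p' + 1) ∧
      ∀ i j, |((((smg B p.1)⁻¹ * smg B p'.1 : B.N) : GL (Fin m) ℝ) : Mat m) i j| ≤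
        Real.exp (c₂ * (dist p p' + 1) + p.2 * (B.H i - B.H j)) := by
  obtain ⟨i₀, hi₀⟩ : ∃ i₀, B.H i₀ ≠ 0 := by
    by_contra hcon
    push Not at hcon
    exact B.H_ne (funext hcon)
  have hpos : 0 < |B.H i₀| := abs_pos.2 hi₀
  have hc₁ : 0 ≤ c / |B.H i₀| := by positivity
  refine ⟨c / |B.H i₀|, c + c / |B.H i₀| * Hm, hc₁, by positivity, fun p p' => ?_⟩
  have hlog : ∀ p p' : B.n × ℝ, (B.muInv p * B.mu p') i₀ i₀ = Real.exp ((p'.2 - p.2) * B.H i₀) := by
    intro p p'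
    rw [sm_entry, sm_diag, mul_one, ← Real.exp_add]
    congr 1
    ring
  have h1 := (h p p' i₀ i₀).1
  have h2 := (h p p' i₀ i₀).2
  rw [hlog, abs_of_pos (Real.exp_pos _), Real.exp_le_exp] at h1 h2
  have htime : |p.2 - p'.2| ≤ c / |B.H i₀| * (dist p p' + 1) := by
    have h3 : |(p.2 - p'.2) * B.H i₀| ≤ c * (dist p p' + 1) := by
      rw [abs_le]
      constructor <;> linarith
    rw [abs_mul] at h3
    rw [div_mul_eq_mul_div, le_div_iff₀ hpos]
    exact h3
  refine ⟨htime, fun i j => ?_⟩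
  have h3 := (h p p' i j).1
  have h4 : ((((smg B p.1)⁻¹ * smg B p'.1 : B.N) : GL (Fin m) ℝ) : Mat m) i j =
      Real.exp (p.2 * B.H i) * (B.muInv p * B.mu p') i j * Real.exp (-(p'.2 * B.H j)) := by
    rw [sm_entry]
    have e1 : Real.exp (p.2 * B.H i) * Real.exp (-(p.2 * B.H i)) = 1 := by
      rw [← Real.exp_add, add_neg_cancel, Real.exp_zero]
    have e2 : Real.exp (p'.2 * B.H j) * Real.exp (-(p'.2 * B.H j)) = 1 := by
      rw [← Real.exp_add, add_neg_cancel, Real.exp_zero]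
    linear_combination (-(Real.exp (p'.2 * B.H j) * Real.exp (-(p'.2 * B.H j))) *
      ((((smg B p.1)⁻¹ * smg B p'.1 : B.N) : GL (Fin m) ℝ) : Mat m) i j) * e1 -
      ((((smg B p.1)⁻¹ * smg B p'.1 : B.N) : GL (Fin m) ℝ) : Mat m) i j * e2
  rw [h4, abs_mul, abs_mul, abs_of_pos (Real.exp_pos _), abs_of_pos (Real.exp_pos _)]
  calc Real.exp (p.2 * B.H i) * |(B.muInv p * B.mu p') i j| * Real.exp (-(p'.2 * B.H j))
      ≤ Real.exp (p.2 * B.H i) * Real.exp (c * (dist p p' + 1)) * Real.exp (-(p'.2 * B.H j)) := by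
        gcongr
    _ = Real.exp (p.2 * B.H i + c * (dist p p' + 1) + -(p'.2 * B.H j)) := by
        rw [Real.exp_add, Real.exp_add]
    _ ≤ _ := by
        refine Real.exp_le_exp.2 ?_
        have h5 : (p.2 - p'.2) * B.H j ≤ c / |B.H i₀| * (dist p p' + 1) * Hm := by
          calc (p.2 - p'.2) * B.H j ≤ |(p.2 - p'.2) * B.H j| := le_abs_self _
            _ = |p.2 - p'.2| * |B.H j| := abs_mul _ _
            _ ≤ _ := mul_le_mul htime (hHm j) (abs_nonneg _) ((abs_nonneg _).trans htime)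
        nlinarith

private theorem sm_low_mono {m : ℕ} {B : BData m} {D : ℕ} (T : Tower B.N D) {s C C' : ℝ} {g : B.N}
    (hC : C ≤ C') (h : T.Low D s C g) : T.Low D s C' g := fun i hi =>
  (h i hi).trans (mul_le_mul_of_nonneg_right hC (Real.rpow_nonneg (by norm_num) _))

theorem polyDim_solv {m : ℕ} (B : BData m) {D : ℕ} (T : Tower B.N D) (hT : B.Adapted T)
    (hN : T.NPart) (dist : B.n × ℝ → B.n × ℝ → ℝ) (hd : B.GoodDist dist) :
    PolyDim dist D := by
  classical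
  intro r ε q hε
  obtain ⟨⟨c, hc, hent⟩, hsmall⟩ := hd
  obtain ⟨Hm, hHm, hHm0⟩ : ∃ Hm : ℝ, (∀ j, |B.H j| ≤ Hm) ∧ 0 ≤ Hm :=
    ⟨∑ j, |B.H j|, fun j => Finset.single_le_sum (f := fun j => |B.H j|)
      (fun i _ => abs_nonneg _) (Finset.mem_univ j), Finset.sum_nonneg fun i _ => abs_nonneg _⟩
  obtain ⟨c₁, c₂, h₁0, h₂0, hest⟩ := sm_est B dist c hc hent Hm hHm hHm0
  obtain ⟨CA, hCA0, hCA⟩ := hT.1 (Real.exp (c₂ * (r + 1) + 2 * Hm))
  obtain ⟨Λ, f, C₂, hf1, hf2, hf3⟩ := hN (max CA (c₁ * (r + 1) + 1)) q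
  obtain ⟨R', hR'0, hR'⟩ := hT.1 1
  obtain ⟨C, e, hcode⟩ := hf3 R'
  obtain ⟨C₃, hC₃0, hC₃⟩ := hT.2 C₂
  obtain ⟨C₄, hC₄⟩ : ∃ C₄ : ℝ, C₄ = (1 + C₃) * Real.exp (2 * Hm) := ⟨_, rfl⟩
  have hC₄0 : 0 < C₄ := by
    rw [hC₄]
    positivity
  obtain ⟨δ, hδ, hδs⟩ := hsmall ε hε
  have hη : 0 < δ / (m * C₄ + 1) := by positivity
  obtain ⟨L, F, hF1, hF2⟩ := sm_code m C₄ _ hη
  obtain ⟨K, hK⟩ := exists_nat_ge (max (c₁ + 1) (c₂ / Real.log 3 + 1))
  have hK1 : c₁ + 1 ≤ K := (le_max_left _ _).trans hK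
  have hK2 : c₂ / Real.log 3 + 1 ≤ K := (le_max_right _ _).trans hK
  have hlog3 : 0 < Real.log 3 := Real.log_pos (by norm_num)
  refine ⟨Λ, fun i p => f i (smg B p.1) ⌊p.2⌋, C * (2 * K + 1) ^ e * L + 1, e,
    fun p => hf1 _ _, ?_, ?_⟩
  · -- labels of neighbours
    intro i p p' a b hdist ha hb
    obtain ⟨h1, h2⟩ := hest p p'
    refine hf2 i _ _ _ _ a b ?_ ?_ ha hb
    · refine le_trans ?_ (le_max_right _ _)
      have h3 : c₁ * (dist p p' + 1) ≤ c₁ * (r + 1) :=
        mul_le_mul_of_nonneg_left (by linarith) h₁0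
      have h4 := abs_le.1 h1
      have a1 := Int.floor_le p.2
      have a2 := Int.lt_floor_add_one p.2
      have a3 := Int.floor_le p'.2
      have a4 := Int.lt_floor_add_one p'.2
      rw [abs_le]
      constructor <;> linarith
    · refine sm_low_mono T (le_max_left _ _) (hCA _ _ fun i j hij => ?_)
      refine (h2 i j).trans ?_
      rw [← Real.exp_add]
      refine Real.exp_le_exp.2 ?_
      have a1 : p.2 ≤ max (⌊p.2⌋ : ℝ) (⌊p'.2⌋ : ℝ) + 1 :=
        (Int.lt_floor_add_one p.2).le.trans (by linarith [le_max_left (⌊p.2⌋ : ℝ) (⌊p'.2⌋ : ℝ)])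
      have a2 : 0 ≤ B.H i - B.H j := by linarith
      have a3 := abs_le.1 (hHm i)
      have a4 := abs_le.1 (hHm j)
      have a5 : c₂ * (dist p p' + 1) ≤ c₂ * (r + 1) :=
        mul_le_mul_of_nonneg_left (by linarith) h₂0
      have a6 : p.2 * (B.H i - B.H j) ≤
          (max (⌊p.2⌋ : ℝ) (⌊p'.2⌋ : ℝ) + 1) * (B.H i - B.H j) :=
        mul_le_mul_of_nonneg_right a1 a2
      linarith
  · -- counting
    intro i p₀ a n _
    have hn0 : (0 : ℝ) ≤ n := Nat.cast_nonneg n
    have hKn : (0 : ℤ) ≤ K * (n + 1) := by positivity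
    obtain ⟨code, hc1, hc2⟩ := hcode i a (⌊p₀.2⌋ - K * (n + 1)) (⌊p₀.2⌋ + K * (n + 1))
      (smg B p₀.1) (by linarith)
    have hnat : (⌊p₀.2⌋ + (K : ℤ) * (n + 1) - (⌊p₀.2⌋ - K * (n + 1))).toNat =
        2 * K * (n + 1) := by
      have h1 : ⌊p₀.2⌋ + (K : ℤ) * (n + 1) - (⌊p₀.2⌋ - K * (n + 1)) =
          ((2 * K * (n + 1) : ℕ) : ℤ) := by
        push_cast
        ring
      rw [h1, Int.toNat_natCast]
    rw [hnat] at hc1
    have hP : ∀ p : B.n × ℝ, dist p₀ p ≤ n → ⌊p₀.2⌋ - K * (n + 1) ≤ ⌊p.2⌋ ∧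
        ⌊p.2⌋ ≤ ⌊p₀.2⌋ + K * (n + 1) ∧
        T.Low D ((⌊p₀.2⌋ + K * (n + 1) : ℤ) : ℝ) R' ((smg B p₀.1)⁻¹ * smg B p.1) := by
      intro p hp
      obtain ⟨h1, h2⟩ := hest p₀ p
      have h3 : c₁ * (dist p₀ p + 1) ≤ c₁ * (n + 1) :=
        mul_le_mul_of_nonneg_left (by linarith) h₁0
      have h4 := abs_le.1 h1
      have a1 := Int.floor_le p₀.2
      have a2 := Int.lt_floor_add_one p₀.2
      have a3 := Int.floor_le p.2
      have b1 : (c₁ + 1) * (n + 1) ≤ K * (n + 1) :=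
        mul_le_mul_of_nonneg_right hK1 (by linarith)
      refine ⟨Int.le_floor.2 ?_, ?_, ?_⟩
      · push_cast
        nlinarith
      · have h5 : (⌊p.2⌋ : ℝ) ≤ ((⌊p₀.2⌋ + K * (n + 1) : ℤ) : ℝ) := by
          push_cast
          nlinarith
        exact_mod_cast h5
      · refine hR' _ _ fun i j hij => ?_
        rw [one_mul]
        refine (h2 i j).trans (Real.exp_le_exp.2 ?_)
        have a4 := B.gap i j hij
        have a5 : c₂ * (dist p₀ p + 1) ≤ c₂ * (n + 1) :=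
          mul_le_mul_of_nonneg_left (by linarith) h₂0
        have a6 : (c₂ / Real.log 3) * (n + 1) ≤
            ((⌊p₀.2⌋ + K * (n + 1) : ℤ) : ℝ) - p₀.2 := by
          have b2 : (c₂ / Real.log 3 + 1) * (n + 1) ≤ K * (n + 1) :=
            mul_le_mul_of_nonneg_right hK2 (by linarith)
          push_cast
          linarith
        have a7 : 0 ≤ (c₂ / Real.log 3) * (n + 1) := by positivity
        have a8 : c₂ * (n + 1) ≤
            (((⌊p₀.2⌋ + K * (n + 1) : ℤ) : ℝ) - p₀.2) * (B.H i - B.H j) := by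
          calc c₂ * (n + 1) = (c₂ / Real.log 3) * (n + 1) * Real.log 3 := by
                field_simp
            _ ≤ _ := mul_le_mul a6 a4 hlog3.le (a7.trans a6)
        linarith
    obtain ⟨P, hPd⟩ : ∃ P : B.n × ℝ → Prop, ∀ p, P p ↔
        f i (smg B p.1) ⌊p.2⌋ = some a ∧ dist p₀ p ≤ n := ⟨_, fun _ => Iff.rfl⟩
    obtain ⟨cd, hcd⟩ : ∃ cd : B.n × ℝ → ℕ, ∀ p, cd p = code (smg B p.1) ⌊p.2⌋ :=
      ⟨_, fun _ => rfl⟩
    have hcdlt : ∀ p, P p → cd p < C * (2 * K + 1) ^ e * (n + 1) ^ e := by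
      intro p hp
      obtain ⟨hp1, hp2⟩ := (hPd p).1 hp
      obtain ⟨b1, b2, b3⟩ := hP p hp2
      rw [hcd]
      refine lt_of_lt_of_le (hc1 _ _ hp1 b1 b2 b3) ?_
      calc C * (2 * K * (n + 1) + 1) ^ e ≤ C * ((2 * K + 1) * (n + 1)) ^ e :=
            Nat.mul_le_mul_left _ (Nat.pow_le_pow_left (by nlinarith) e)
        _ = C * (2 * K + 1) ^ e * (n + 1) ^ e := by rw [mul_pow, mul_assoc]
    -- two points with the same code
    have hQ : ∀ p p' : B.n × ℝ, P p → P p' → cd p = cd p' →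
        ∀ i j, |(B.muInv p * B.mu p') i j| ≤ C₄ := by
      intro p p' hp hp' hcc k l
      obtain ⟨hp1, hp2⟩ := (hPd p).1 hp
      obtain ⟨hp1', hp2'⟩ := (hPd p').1 hp'
      obtain ⟨b1, b2, b3⟩ := hP p hp2
      obtain ⟨b1', b2', b3'⟩ := hP p' hp2'
      rw [hcd, hcd] at hcc
      obtain ⟨ht, hlow⟩ := hc2 _ _ _ _ hp1 hp1' b1 b2 b1' b2' b3 b3' hcc
      have hU := hC₃ _ _ hlow
      have a1 := Int.floor_le p.2
      have a2 := (Int.lt_floor_add_one p.2).le
      have a3 := Int.floor_le p'.2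
      have a4 := (Int.lt_floor_add_one p'.2).le
      rw [← ht] at a3 a4
      have hprod : ∀ (x y : ℝ), |x| ≤ 1 → |y| ≤ Hm → x * y ≤ Hm := by
        intro x y hx hy
        calc x * y ≤ |x * y| := le_abs_self _
          _ = |x| * |y| := abs_mul _ _
          _ ≤ 1 * Hm := mul_le_mul hx hy (abs_nonneg _) zero_le_one
          _ = Hm := one_mul _
      rw [sm_entry, abs_mul, abs_mul, abs_of_pos (Real.exp_pos _), abs_of_pos (Real.exp_pos _)]
      by_cases hkl : k = l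
      · subst hkl
        rw [sm_diag, abs_one, mul_one, ← Real.exp_add, hC₄]
        calc Real.exp (-(p.2 * B.H k) + p'.2 * B.H k) ≤ Real.exp (2 * Hm) := by
              refine Real.exp_le_exp.2 ?_
              have h1 := hprod (p'.2 - p.2) (B.H k) (by rw [abs_le]; constructor <;> linarith)
                (hHm k)
              linarith
          _ ≤ (1 + C₃) * Real.exp (2 * Hm) := by
              refine le_mul_of_one_le_left (Real.exp_pos _).le ?_
              linarith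
      · by_cases hH : B.H l < B.H k
        · have h1 := hU k l hH
          calc _ ≤ Real.exp (-(p.2 * B.H k)) *
                (C₃ * Real.exp ((⌊p.2⌋ : ℝ) * (B.H k - B.H l))) * Real.exp (p'.2 * B.H l) := by
                gcongr
            _ = C₃ * Real.exp ((⌊p.2⌋ - p.2) * B.H k + (p'.2 - ⌊p.2⌋) * B.H l) := by
                rw [show Real.exp (-(p.2 * B.H k)) *
                  (C₃ * Real.exp ((⌊p.2⌋ : ℝ) * (B.H k - B.H l))) * Real.exp (p'.2 * B.H l) =
                  C₃ * (Real.exp (-(p.2 * B.H k)) * Real.exp ((⌊p.2⌋ : ℝ) * (B.H k - B.H l)) *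
                    Real.exp (p'.2 * B.H l)) by ring, ← Real.exp_add, ← Real.exp_add]
                congr 2
                ring
            _ ≤ C₃ * Real.exp (2 * Hm) := by
                refine mul_le_mul_of_nonneg_left (Real.exp_le_exp.2 ?_) hC₃0
                have h2 := hprod (⌊p.2⌋ - p.2) (B.H k)
                  (by rw [abs_le]; constructor <;> linarith) (hHm k)
                have h3 := hprod (p'.2 - ⌊p.2⌋) (B.H l)
                  (by rw [abs_le]; constructor <;> linarith) (hHm l)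
                linarith
            _ ≤ C₄ := by
                rw [hC₄]
                refine mul_le_mul_of_nonneg_right (by linarith) (Real.exp_pos _).le
        · rw [sm_zero B _ k l hkl hH, abs_zero, mul_zero, zero_mul]
          exact hC₄0.le
    obtain ⟨rep, hrep⟩ : ∃ rep : ℕ → B.n × ℝ, ∀ p, P p → P (rep (cd p)) ∧
        cd (rep (cd p)) = cd p := by
      refine ⟨fun k => if h : ∃ p, P p ∧ cd p = k then h.choose else p₀, fun p hp => ?_⟩
      have h : ∃ p', P p' ∧ cd p' = cd p := ⟨p, hp, rfl⟩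
      simp only [dif_pos h]
      exact h.choose_spec
    refine ⟨fun p => if P p then cd p * L + F (B.muInv (rep (cd p)) * B.mu p) else 0, ?_, ?_⟩
    · intro p
      dsimp only
      split_ifs with hp
      · have h1 := hcdlt p hp
        have h2 := hF1 (B.muInv (rep (cd p)) * B.mu p)
        calc cd p * L + F (B.muInv (rep (cd p)) * B.mu p) < cd p * L + L := by omega
          _ = (cd p + 1) * L := by ring
          _ ≤ (C * (2 * K + 1) ^ e * (n + 1) ^ e) * L := Nat.mul_le_mul_right _ h1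
          _ ≤ (C * (2 * K + 1) ^ e * L + 1) * (n + 1) ^ e := by
              have : 0 ≤ (n + 1) ^ e := Nat.zero_le _
              nlinarith
      · positivity
    · intro y z hy hz hdy hdz hg
      have hPy : P y := (hPd y).2 ⟨hy, hdy⟩
      have hPz : P z := (hPd z).2 ⟨hz, hdz⟩
      dsimp only at hg
      rw [if_pos hPy, if_pos hPz] at hg
      have h1 := hF1 (B.muInv (rep (cd y)) * B.mu y)
      have h2 := hF1 (B.muInv (rep (cd z)) * B.mu z)
      have hcc : cd y = cd z := by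
        have hL : 0 < L := by omega
        have e1 : (cd y * L + F (B.muInv (rep (cd y)) * B.mu y)) / L = cd y := by
          rw [mul_comm, Nat.mul_add_div hL, Nat.div_eq_of_lt h1, add_zero]
        have e2 : (cd z * L + F (B.muInv (rep (cd z)) * B.mu z)) / L = cd z := by
          rw [mul_comm, Nat.mul_add_div hL, Nat.div_eq_of_lt h2, add_zero]
        rw [← e1, ← e2, hg]
      rw [hcc] at hg
      have hFF := Nat.add_left_cancel hg
      obtain ⟨r1, r2⟩ := hrep z hPz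
      have hQy := hQ _ _ r1 hPy (r2.trans hcc.symm)
      have hQz := hQ _ _ r1 hPz r2
      have hQi := hQ _ _ hPy r1 (r2.trans hcc.symm).symm
      have hdiff := hF2 _ _ hQy hQz hFF
      refine hδs y z fun k l => ?_
      have hmat : B.muInv y * B.mu z - 1 = (B.muInv y * B.mu (rep (cd z))) *
          (B.muInv (rep (cd z)) * B.mu z - B.muInv (rep (cd z)) * B.mu y) := by
        have e1 : ∀ w : B.n × ℝ, (B.muInv y * B.mu (rep (cd z))) *
            (B.muInv (rep (cd z)) * B.mu w) = B.muInv y * B.mu w := by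
          intro w
          calc _ = B.muInv y * (B.mu (rep (cd z)) * B.muInv (rep (cd z))) * B.mu w := by
                simp only [Matrix.mul_assoc]
            _ = _ := by rw [sm_mu_muInv, Matrix.mul_one]
        rw [Matrix.mul_sub, e1, e1, sm_muInv_mu]
      rw [hmat, Matrix.mul_apply]
      calc |∑ x, (B.muInv y * B.mu (rep (cd z))) k x *
            (B.muInv (rep (cd z)) * B.mu z - B.muInv (rep (cd z)) * B.mu y) x l|
          ≤ ∑ x, |(B.muInv y * B.mu (rep (cd z))) k x *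
            (B.muInv (rep (cd z)) * B.mu z - B.muInv (rep (cd z)) * B.mu y) x l| :=
            Finset.abs_sum_le_sum_abs _ _
        _ ≤ ∑ _x : Fin m, C₄ * (δ / (m * C₄ + 1)) := by
            refine Finset.sum_le_sum fun x _ => ?_
            rw [abs_mul]
            refine mul_le_mul (hQi k x) ?_ (abs_nonneg _) hC₄0.le
            rw [Matrix.sub_apply, abs_sub_comm]
            exact hdiff x l
        _ = m * (C₄ * (δ / (m * C₄ + 1))) := by simp
        _ ≤ δ := by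
            rw [← mul_assoc, ← mul_div_assoc, div_le_iff₀ (by positivity)]
            nlinarith

end MP65
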