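import Pool.Agent.Work.MP_65b809_gt.IMin
import Pool.Agent.Work.MP_65b809_gt.PolyU
import Pool.Agent.Work.MP_65b809_gt.RDist
import Pool.Agent.Work.MP_65b809_gt.MTow
import Pool.Agent.Work.MP_65b809_gt.SMain
import Pool.Agent.Work.MP_65b809_gt.NPart
import Pool.Agent.Work.MP_65b809_gt.PDBase

/-! # SymMain : `PolyDim` of a rank one symmetric space

`nice_alg`: `alg_closed`, `AlgGroup.transpose`, `alg_nilp`, `alg_pos`.
`nice_map`: for `Q ∈ GL` with `Q⁻¹ = Qᵀ` (as matrices) the group `Q G Q⁻¹`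
(`Subgroup.map (MulAut.conj Q).toMonoidHom G`) is nice, `lieSet (Q G Q⁻¹) = Q lieSet G Q⁻¹`.

`exists_iwaHyp`. Since `rankX G = 1` there is a one dimensional `A ⊆ pSet G` (the set in the
definition of `rankX` is bounded by `m²` and its supremum `1` is attained, `Nat.sSup_mem`), so
`0 ≠ s ∈ pSet G`. Spectral theorem: `Q s Q⁻¹ = diag σ`, `Q` orthogonal. `H = c σ` with
`c > 0` such that all positive differences are `≥ log 3`. `rank`: if `s'` is symmetric, in the Lie
algebra of `Q G Q⁻¹`, and commutes with `diag H`, then the span `A'` of `Q⁻¹ s' Q` and `s` consists of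
pairwise commuting elements of `pSet G` (`lie_add`, `lie_smul`), so `finrank A' ≤ rankX G = 1`
(`le_csSup` with the bound `m²`) and `s' = c' diag H`.

`polyDim_sym`: `B` from `exists_bdata`; `T` from `exists_tower`, `T.nPart`; `dist p p' = rdist (X p) (X p')`,
`X p` the unit with matrix `mu p (mu p)ᵀ`; it is a `GoodDist` by `entry_le`, `rdist_small`
(`muInv p` is the inverse of `mu p`). `polyDim_solv` gives `PolyDim dist (finrank n)`, and
`finrank n ≤ dimX G - 1` by `finrank_n_lt` (`span (pS (QGQ⁻¹))` has the dimension of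
`span (pSet G)`). `iwasawa` gives for every `x : SymSpace G` a `p(x)` with
`Q x Q⁻¹ = mu p (mu p)ᵀ` (`Q x Q⁻¹ = Q x Qᵀ` is positive definite), so
`rdist x y = dist (p x) (p y)` by `rdist_conj`; `PolyDim.comap`.
-/

namespace MP65

open Matrix NormedSpace

theorem nice_alg {m : ℕ} (G : AlgGroup m) : Nice G.G where
  closed := alg_closed G
  transpose := G.transpose
  nilp := fun _ hY h => alg_nilp G hY h
  pos := fun _ hs h => alg_pos G hs h

/-- the conjugate group -/
private abbrev syG {m : ℕ} (G : Subgroup (GL (Fin m) ℝ)) (Q : GL (Fin m) ℝ) :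
    Subgroup (GL (Fin m) ℝ) := G.map (MulAut.conj Q).toMonoidHom

private theorem sy_mem {m : ℕ} (G : Subgroup (GL (Fin m) ℝ)) (Q g : GL (Fin m) ℝ) :
    g ∈ syG G Q ↔ Q⁻¹ * g * Q ∈ G := by
  constructor
  · rintro ⟨h, hh, rfl⟩
    have e : Q⁻¹ * (MulAut.conj Q).toMonoidHom h * Q = h := by
      change Q⁻¹ * (Q * h * Q⁻¹) * Q = h
      group
    rw [e]
    exact hh
  · intro h
    refine ⟨_, h, ?_⟩
    change Q * (Q⁻¹ * g * Q) * Q⁻¹ = g
    group

private theorem sy_lie {m : ℕ} (G : Subgroup (GL (Fin m) ℝ)) (Q : GL (Fin m) ℝ) (Y : Mat m) :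
    Y ∈ lieSet (syG G Q) ↔ ((Q⁻¹ : GL (Fin m) ℝ) : Mat m) * Y * (Q : Mat m) ∈ lieSet G := by
  have key : ∀ t : ℝ, exp (t • (((Q⁻¹ : GL (Fin m) ℝ) : Mat m) * Y * (Q : Mat m))) =
      ((Q⁻¹ : GL (Fin m) ℝ) : Mat m) * exp (t • Y) * (Q : Mat m) := by
    intro t
    rw [← Matrix.exp_units_conj' Q (t • Y), Matrix.mul_smul, Matrix.smul_mul]
  constructor
  · intro h t
    obtain ⟨g, hg, hgt⟩ := h t
    refine ⟨Q⁻¹ * g * Q, (sy_mem G Q g).1 hg, ?_⟩
    rw [key, Units.val_mul, Units.val_mul, hgt]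
  · intro h t
    obtain ⟨g, hg, hgt⟩ := h t
    refine ⟨Q * g * Q⁻¹, ?_, ?_⟩
    · rw [sy_mem]
      have e : Q⁻¹ * (Q * g * Q⁻¹) * Q = g := by group
      rw [e]
      exact hg
    · rw [Units.val_mul, Units.val_mul, hgt, key]
      have e1 : (Q : Mat m) * ((Q⁻¹ : GL (Fin m) ℝ) : Mat m) = 1 := by
        rw [← Units.val_mul, mul_inv_cancel, Units.val_one]
      calc _ = ((Q : Mat m) * ((Q⁻¹ : GL (Fin m) ℝ) : Mat m)) * exp (t • Y) *
          ((Q : Mat m) * ((Q⁻¹ : GL (Fin m) ℝ) : Mat m)) := by simp only [Matrix.mul_assoc]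
        _ = _ := by rw [e1, Matrix.one_mul, Matrix.mul_one]

private theorem sy_inv {m : ℕ} (Q : GL (Fin m) ℝ)
    (hQ : (Q : Mat m) * (Q : Mat m).transpose = 1) :
    ((Q⁻¹ : GL (Fin m) ℝ) : Mat m) = (Q : Mat m).transpose := by
  have e1 : ((Q⁻¹ : GL (Fin m) ℝ) : Mat m) * (Q : Mat m) = 1 := by
    rw [← Units.val_mul, inv_mul_cancel, Units.val_one]
  exact left_inv_eq_right_inv e1 hQ

private theorem sy_transpose {m : ℕ} (Q : GL (Fin m) ℝ)
    (hQ : (Q : Mat m) * (Q : Mat m).transpose = 1) (Y : Mat m) :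
    (((Q⁻¹ : GL (Fin m) ℝ) : Mat m) * Y * (Q : Mat m)).transpose =
      ((Q⁻¹ : GL (Fin m) ℝ) : Mat m) * Y.transpose * (Q : Mat m) := by
  rw [Matrix.transpose_mul, Matrix.transpose_mul, sy_inv Q hQ, Matrix.transpose_transpose,
    Matrix.mul_assoc]

private theorem nice_map {m : ℕ} {G : Subgroup (GL (Fin m) ℝ)} (hG : Nice G) (Q : GL (Fin m) ℝ)
    (hQ : (Q : Mat m) * (Q : Mat m).transpose = 1) : Nice (syG G Q) where
  closed := by
    intro u g hu h
    rw [sy_mem]
    refine hG.closed (fun k => Q⁻¹ * u k * Q) _ (fun k => (sy_mem G Q _).1 (hu k)) fun i j => ?_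
    simp only [Units.val_mul, Matrix.mul_apply]
    refine tendsto_finsetSum _ fun a _ => Filter.Tendsto.mul_const _ ?_
    exact tendsto_finsetSum _ fun b _ => Filter.Tendsto.const_mul _ (h b a)
  transpose := by
    intro g hg g' hg'
    rw [sy_mem] at hg ⊢
    refine hG.transpose _ hg _ ?_
    rw [Units.val_mul, Units.val_mul, Units.val_mul, Units.val_mul, hg', sy_transpose Q hQ]
  nilp := by
    intro Y hY h
    rw [sy_lie]
    obtain ⟨g, hg, hgY⟩ := h
    refine hG.nilp _ ?_ ⟨Q⁻¹ * g * Q, (sy_mem G Q g).1 hg, ?_⟩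
    · rw [Units.conj_pow', hY, mul_zero, zero_mul]
    · rw [Units.val_mul, Units.val_mul, hgY, Matrix.exp_units_conj']
  pos := by
    intro s hs h
    rw [sy_lie]
    obtain ⟨g, hg, hgs⟩ := h
    refine hG.pos _ ?_ ⟨Q⁻¹ * g * Q, (sy_mem G Q g).1 hg, ?_⟩
    · rw [sy_transpose Q hQ, hs]
    · rw [Units.val_mul, Units.val_mul, hgs, Matrix.exp_units_conj']

/-- the spectral theorem for a real symmetric matrix -/
private theorem sy_spec {m : ℕ} (s : Mat m) (hs : s.transpose = s) :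
    ∃ (Q : GL (Fin m) ℝ) (σ : Fin m → ℝ), (Q : Mat m) * (Q : Mat m).transpose = 1 ∧
      (Q : Mat m) * s * ((Q⁻¹ : GL (Fin m) ℝ) : Mat m) = diagonal σ := by
  have hH : s.IsHermitian := by
    rw [Matrix.IsHermitian, Matrix.conjTranspose_eq_transpose_of_trivial, hs]
  have hu := (hH.eigenvectorUnitary).2
  rw [Matrix.mem_unitaryGroup_iff, Matrix.star_eq_conjTranspose,
    Matrix.conjTranspose_eq_transpose_of_trivial] at hu
  have hu' := mul_eq_one_comm.1 hu
  obtain ⟨O, hO⟩ : ∃ O : Mat m, O = (hH.eigenvectorUnitary : Mat m) := ⟨_, rfl⟩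
  rw [← hO] at hu hu'
  have h := hH.spectral_theorem
  rw [Unitary.conjStarAlgAut_apply, Matrix.star_eq_conjTranspose,
    Matrix.conjTranspose_eq_transpose_of_trivial] at h
  have h' : s = O * diagonal hH.eigenvalues * O.transpose := by
    rw [hO]
    exact h
  refine ⟨⟨O.transpose, O, hu', hu⟩, hH.eigenvalues, ?_, ?_⟩
  · change O.transpose * O.transpose.transpose = 1
    rw [Matrix.transpose_transpose, hu']
  · change O.transpose * s * O = _
    conv_lhs => rw [h']
    calc _ = (O.transpose * O) * diagonal hH.eigenvalues * (O.transpose * O) := by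
          simp only [Matrix.mul_assoc]
      _ = _ := by rw [hu', Matrix.one_mul, Matrix.mul_one]

private theorem sy_scale {m : ℕ} (σ : Fin m → ℝ) : ∃ c : ℝ, 0 < c ∧
    ∀ i j, σ j < σ i → Real.log 3 ≤ c * (σ i - σ j) := by
  classical
  have hl : 0 < Real.log 3 := Real.log_pos (by norm_num)
  set F : Fin m × Fin m → ℝ := fun ij =>
    if σ ij.2 < σ ij.1 then Real.log 3 / (σ ij.1 - σ ij.2) else 0 with hF
  have hF0 : ∀ ij, 0 ≤ F ij := by
    intro ij
    simp only [hF]
    split_ifs with h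
    · exact div_nonneg hl.le (by linarith)
    · exact le_rfl
  refine ⟨∑ ij, F ij + 1, by linarith [Finset.sum_nonneg fun ij (_ : ij ∈ Finset.univ) => hF0 ij],
    fun i j hij => ?_⟩
  have h1 : F (i, j) ≤ ∑ ij, F ij :=
    Finset.single_le_sum (fun ij _ => hF0 ij) (Finset.mem_univ (i, j))
  have h2 : F (i, j) = Real.log 3 / (σ i - σ j) := by
    simp only [hF]
    rw [if_pos hij]
  have h3 : 0 < σ i - σ j := by linarith
  rw [h2, div_le_iff₀ h3] at h1
  nlinarith

private theorem sy_bdd {m : ℕ} (G : AlgGroup m) : BddAbove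
    {k | ∃ A : Submodule ℝ (Mat m), (A : Set _) ⊆ pSet G ∧
      (∀ s ∈ A, ∀ t ∈ A, s * t = t * s) ∧ Module.finrank ℝ A = k} := by
  refine ⟨Module.finrank ℝ (Mat m), ?_⟩
  rintro k ⟨A, -, -, rfl⟩
  exact Submodule.finrank_le A

theorem exists_iwaHyp {m : ℕ} (G : AlgGroup m) (hr : rankX G = 1) :
    ∃ (Q : GL (Fin m) ℝ) (H : Fin m → ℝ), (Q : Mat m) * (Q : Mat m).transpose = 1 ∧
      IwaHyp (G.G.map (MulAut.conj Q).toMonoidHom) H ∧
      Module.finrank ℝ (Submodule.span ℝ (pS (G.G.map (MulAut.conj Q).toMonoidHom))) = dimX G := by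
  have hN := nice_alg G
  -- a nonzero element of the tangent space
  obtain ⟨s, hsp, hs0⟩ : ∃ s ∈ pSet G, s ≠ 0 := by
    have hne : {k | ∃ A : Submodule ℝ (Mat m), (A : Set _) ⊆ pSet G ∧
      (∀ s ∈ A, ∀ t ∈ A, s * t = t * s) ∧ Module.finrank ℝ A = k}.Nonempty := by
      refine ⟨0, ⊥, ?_, ?_, finrank_bot ℝ _⟩
      · intro x hx
        rw [SetLike.mem_coe, Submodule.mem_bot] at hx
        rw [hx]
        exact ⟨Matrix.transpose_zero, lie_zero hN⟩
      · intro x hx y hy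
        rw [Submodule.mem_bot] at hx hy
        rw [hx, hy]
    have h1 := Nat.sSup_mem hne (sy_bdd G)
    obtain ⟨A, hA, -, hA1⟩ := h1
    have h2 : Module.finrank ℝ A = 1 := hA1.trans hr
    have h3 : A ≠ ⊥ := by
      rintro rfl
      rw [finrank_bot] at h2
      exact zero_ne_one h2
    obtain ⟨x, hx, hx0⟩ := Submodule.exists_mem_ne_zero_of_ne_bot h3
    exact ⟨x, hA hx, hx0⟩
  have hsT : s.transpose = s := hsp.1
  have hsL : s ∈ lieSet G.G := hsp.2
  obtain ⟨Q, σ, hQ, hσ⟩ := sy_spec s hsT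
  obtain ⟨c, hc, hgap⟩ := sy_scale σ
  have e1 : ((Q⁻¹ : GL (Fin m) ℝ) : Mat m) * (Q : Mat m) = 1 := by
    rw [← Units.val_mul, inv_mul_cancel, Units.val_one]
  have e2 : (Q : Mat m) * ((Q⁻¹ : GL (Fin m) ℝ) : Mat m) = 1 := by
    rw [← Units.val_mul, mul_inv_cancel, Units.val_one]
  have hback : ∀ Y : Mat m, ((Q⁻¹ : GL (Fin m) ℝ) : Mat m) * ((Q : Mat m) * Y *
      ((Q⁻¹ : GL (Fin m) ℝ) : Mat m)) * (Q : Mat m) = Y := by
    intro Y
    calc _ = (((Q⁻¹ : GL (Fin m) ℝ) : Mat m) * (Q : Mat m)) * Y *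
        (((Q⁻¹ : GL (Fin m) ℝ) : Mat m) * (Q : Mat m)) := by simp only [Matrix.mul_assoc]
      _ = Y := by rw [e1, Matrix.one_mul, Matrix.mul_one]
  have hforw : ∀ Y : Mat m, (Q : Mat m) * (((Q⁻¹ : GL (Fin m) ℝ) : Mat m) * Y * (Q : Mat m)) *
      ((Q⁻¹ : GL (Fin m) ℝ) : Mat m) = Y := by
    intro Y
    calc _ = ((Q : Mat m) * ((Q⁻¹ : GL (Fin m) ℝ) : Mat m)) * Y *
        ((Q : Mat m) * ((Q⁻¹ : GL (Fin m) ℝ) : Mat m)) := by simp only [Matrix.mul_assoc]
      _ = Y := by rw [e2, Matrix.one_mul, Matrix.mul_one]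
  have hσ0 : σ ≠ 0 := by
    rintro rfl
    apply hs0
    have h := hback s
    rw [hσ] at h
    have h0 : diagonal (0 : Fin m → ℝ) = (0 : Mat m) := Matrix.diagonal_zero
    rw [h0, Matrix.mul_zero, Matrix.zero_mul] at h
    exact h.symm
  have hdiag : diagonal (fun i => c * σ i) = c • (diagonal σ : Mat m) := by
    rw [← Matrix.diagonal_smul]
    rfl
  have hbackσ : ((Q⁻¹ : GL (Fin m) ℝ) : Mat m) * diagonal σ * (Q : Mat m) = s := by
    rw [← hσ, hback]
  refine ⟨Q, fun i => c * σ i, hQ, ⟨nice_map hN Q hQ, ?_, ?_, ?_, ?_⟩, ?_⟩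
  · intro h
    apply hσ0
    funext i
    have h1 := congrFun h i
    simp only [Pi.zero_apply, mul_eq_zero] at h1
    exact h1.resolve_left hc.ne'
  · intro i j hij
    have hij' : σ j < σ i := lt_of_mul_lt_mul_left hij hc.le
    rw [← mul_sub]
    exact hgap i j hij'
  · change diagonal (fun i => c * σ i) ∈ lieSet (syG G.G Q)
    rw [sy_lie, hdiag, Matrix.mul_smul, Matrix.smul_mul, hbackσ]
    exact lie_smul hN c hsL
  · -- rank one
    intro s' hs'T hs'L hcomm
    change s' ∈ lieSet (syG G.G Q) at hs'L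
    rw [sy_lie] at hs'L
    set s1 : Mat m := ((Q⁻¹ : GL (Fin m) ℝ) : Mat m) * s' * (Q : Mat m) with hs1
    have hs1T : s1.transpose = s1 := by rw [hs1, sy_transpose Q hQ, hs'T]
    have hcomm' : s' * diagonal σ = diagonal σ * s' := by
      have h1 : c • (s' * diagonal σ) = c • (diagonal σ * s') := by
        rw [← Matrix.mul_smul, ← Matrix.smul_mul, ← hdiag]
        exact hcomm
      exact smul_right_injective (Mat m) hc.ne' h1
    have hcs : s1 * s = s * s1 := by
      have h1 : ∀ X Y : Mat m, (((Q⁻¹ : GL (Fin m) ℝ) : Mat m) * X * (Q : Mat m)) *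
          (((Q⁻¹ : GL (Fin m) ℝ) : Mat m) * Y * (Q : Mat m)) =
          ((Q⁻¹ : GL (Fin m) ℝ) : Mat m) * (X * Y) * (Q : Mat m) := by
        intro X Y
        calc _ = ((Q⁻¹ : GL (Fin m) ℝ) : Mat m) * X * ((Q : Mat m) *
            ((Q⁻¹ : GL (Fin m) ℝ) : Mat m)) * Y * (Q : Mat m) := by simp only [Matrix.mul_assoc]
          _ = _ := by rw [e2, Matrix.mul_one]; simp only [Matrix.mul_assoc]
      rw [← hbackσ, hs1, h1, h1, hcomm']
    obtain ⟨A, hA⟩ : ∃ A : Submodule ℝ (Mat m), A = Submodule.span ℝ {s1, s} := ⟨_, rfl⟩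
    have hAmem : ∀ x ∈ A, ∃ a b : ℝ, x = a • s1 + b • s := by
      intro x hx
      rw [hA, Submodule.mem_span_pair] at hx
      obtain ⟨a, b, h⟩ := hx
      exact ⟨a, b, h.symm⟩
    have hAp : (A : Set (Mat m)) ⊆ pSet G := by
      intro x hx
      obtain ⟨a, b, rfl⟩ := hAmem x hx
      refine ⟨?_, ?_⟩
      · rw [Matrix.transpose_add, Matrix.transpose_smul, Matrix.transpose_smul, hs1T, hsT]
      · exact lie_add hN (lie_smul hN a hs'L) (lie_smul hN b hsL)
    have hAc : ∀ x ∈ A, ∀ y ∈ A, x * y = y * x := by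
      intro x hx y hy
      obtain ⟨a, b, rfl⟩ := hAmem x hx
      obtain ⟨a', b', rfl⟩ := hAmem y hy
      simp only [Matrix.add_mul, Matrix.mul_add, Matrix.smul_mul, Matrix.mul_smul, hcs, smul_add,
        smul_smul]
      rw [mul_comm a' a, mul_comm a' b, mul_comm b' a, mul_comm b' b]
      abel
    have hle : Module.finrank ℝ A ≤ 1 := by
      have h1 := le_csSup (sy_bdd G) ⟨A, hAp, hAc, rfl⟩
      have h2 : rankX G = sSup {k | ∃ A : Submodule ℝ (Mat m), (A : Set _) ⊆ pSet G ∧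
        (∀ s ∈ A, ∀ t ∈ A, s * t = t * s) ∧ Module.finrank ℝ A = k} := rfl
      rw [← h2, hr] at h1
      exact h1
    have hsA : s ∈ A := by
      rw [hA]
      exact Submodule.subset_span (by simp)
    have hs1A : s1 ∈ A := by
      rw [hA]
      exact Submodule.subset_span (by simp)
    have hsA0 : (⟨s, hsA⟩ : A) ≠ 0 := by
      intro h
      exact hs0 (congrArg Subtype.val h)
    have hfr : Module.finrank ℝ A = 1 := by
      refine le_antisymm hle ?_
      have : Nontrivial A := ⟨⟨_, _, hsA0⟩⟩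
      exact Module.finrank_pos
    obtain ⟨k, hk⟩ := (finrank_eq_one_iff_of_nonzero' (⟨s, hsA⟩ : A) hsA0).1 hfr ⟨s1, hs1A⟩
    have hk' : k • s = s1 := congrArg Subtype.val hk
    refine ⟨k / c, ?_⟩
    have h1 := hforw s'
    rw [← hs1, ← hk', Matrix.mul_smul, Matrix.smul_mul, hσ] at h1
    change s' = (k / c) • diagonal (fun i => c * σ i)
    rw [← h1, hdiag, smul_smul, div_mul_cancel₀ _ hc.ne']
  · -- dimension
    let φ : Mat m ≃ₗ[ℝ] Mat m :=
      { toFun := fun Y => (Q : Mat m) * Y * ((Q⁻¹ : GL (Fin m) ℝ) : Mat m)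
        map_add' := fun X Y => by rw [Matrix.mul_add, Matrix.add_mul]
        map_smul' := fun a X => by
          rw [Matrix.mul_smul, Matrix.smul_mul]
          rfl
        invFun := fun Y => ((Q⁻¹ : GL (Fin m) ℝ) : Mat m) * Y * (Q : Mat m)
        left_inv := hback
        right_inv := hforw }
    have himg : pS (syG G.G Q) = φ '' pSet G := by
      ext Y
      constructor
      · rintro ⟨h1, h2⟩
        refine ⟨((Q⁻¹ : GL (Fin m) ℝ) : Mat m) * Y * (Q : Mat m), ⟨?_, ?_⟩, hforw Y⟩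
        · rw [sy_transpose Q hQ, h1]
        · exact (sy_lie _ _ _).1 h2
      · rintro ⟨X, ⟨h1, h2⟩, rfl⟩
        refine ⟨?_, ?_⟩
        · have h3 : X = ((Q⁻¹ : GL (Fin m) ℝ) : Mat m) * φ X * (Q : Mat m) := (hback X).symm
          have h4 : ((Q⁻¹ : GL (Fin m) ℝ) : Mat m) * (φ X).transpose * (Q : Mat m) = X := by
            rw [← sy_transpose Q hQ, ← h3, h1]
          have h5 := hforw (φ X).transpose
          rw [h4] at h5
          exact h5.symm
        · rw [sy_lie]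
          have h3 : ((Q⁻¹ : GL (Fin m) ℝ) : Mat m) * φ X * (Q : Mat m) = X := hback X
          rw [h3]
          exact h2
    have hspan : Submodule.span ℝ (pS (syG G.G Q)) =
        (Submodule.span ℝ (pSet G)).map (φ : Mat m →ₗ[ℝ] Mat m) := by
      rw [himg, Submodule.map_span]
      rfl
    change Module.finrank ℝ (Submodule.span ℝ (pS (syG G.G Q))) = _
    rw [hspan]
    exact φ.finrank_map_eq _

theorem polyDim_sym {m : ℕ} (G : AlgGroup m) (hr : rankX G = 1) :
    PolyDim (fun x y : SymSpace G => rdist x.1 y.1) (dimX G - rankX G) := by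
  obtain ⟨Q, H, hQ, hI, hfin⟩ := exists_iwaHyp G hr
  obtain ⟨B, hBH, hB⟩ := exists_bdata hI
  obtain ⟨T, hT⟩ := exists_tower B
  have hmi : ∀ p : B.n × ℝ, B.muInv p * B.mu p = 1 := by
    intro p
    have h1 : exp (-(p.1 : Mat m)) * exp (p.1 : Mat m) = 1 := by
      rw [Matrix.exp_neg]
      exact Matrix.nonsing_inv_mul _ ((Matrix.isUnit_iff_isUnit_det _).1 (Matrix.isUnit_exp _))
    have h2 : diagonal (fun i => Real.exp (-(p.2 * B.H i))) *
        diagonal (fun i => Real.exp (p.2 * B.H i)) = (1 : Mat m) := by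
      rw [Matrix.diagonal_mul_diagonal, ← Matrix.diagonal_one]
      congr 1
      funext i
      rw [← Real.exp_add, neg_add_cancel, Real.exp_zero]
    calc B.muInv p * B.mu p = diagonal (fun i => Real.exp (-(p.2 * B.H i))) *
        (exp (-(p.1 : Mat m)) * exp (p.1 : Mat m)) * diagonal (fun i => Real.exp (p.2 * B.H i)) := by
          simp only [BData.muInv, BData.mu, Matrix.mul_assoc]
      _ = 1 := by rw [h1, Matrix.mul_one, h2]
  have him : ∀ p : B.n × ℝ, B.mu p * B.muInv p = 1 := fun p => mul_eq_one_comm.1 (hmi p)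
  let U : B.n × ℝ → GL (Fin m) ℝ := fun p => ⟨B.mu p, B.muInv p, him p, hmi p⟩
  let X : B.n × ℝ → GL (Fin m) ℝ := fun p =>
    ⟨B.mu p * (B.mu p).transpose, (B.muInv p).transpose * B.muInv p, by
      calc _ = B.mu p * ((B.mu p).transpose * (B.muInv p).transpose) * B.muInv p := by
            simp only [Matrix.mul_assoc]
        _ = 1 := by rw [← Matrix.transpose_mul, hmi, Matrix.transpose_one, Matrix.mul_one, him],
      by
      calc _ = (B.muInv p).transpose * (B.muInv p * B.mu p) * (B.mu p).transpose := by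
            simp only [Matrix.mul_assoc]
        _ = 1 := by rw [hmi, Matrix.mul_one, ← Matrix.transpose_mul, him, Matrix.transpose_one]⟩
  have hUX : ∀ p, (X p : Mat m) = (U p : Mat m) * (U p : Mat m).transpose := fun p => rfl
  have hUU : ∀ p p', (((U p)⁻¹ * U p' : GL (Fin m) ℝ) : Mat m) = B.muInv p * B.mu p' :=
    fun p p' => rfl
  have hgood : B.GoodDist (fun p p' => rdist (X p) (X p')) := by
    refine ⟨⟨1, one_pos, fun p p' i j => ?_⟩, fun ε hε => ?_⟩
    · obtain ⟨h1, h2⟩ := entry_le (X p) (X p') (U p) (U p') (hUX p) (hUX p') i j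
      have h3 : Real.exp (rdist (X p) (X p')) ≤ Real.exp (1 * (rdist (X p) (X p') + 1)) :=
        Real.exp_le_exp.2 (by linarith)
      exact ⟨h1.trans h3, h2.trans h3⟩
    · obtain ⟨δ, hδ, h⟩ := rdist_small m ε hε
      refine ⟨δ, hδ, fun p p' hp => ?_⟩
      exact h (X p) (X p') (U p) (U p') (hUX p) (hUX p') hp
  have hmain := polyDim_solv B T hT T.nPart _ hgood
  have hdim : Module.finrank ℝ B.n ≤ dimX G - rankX G := by
    have h1 := finrank_n_lt hI hB
    rw [hfin] at h1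
    omega
  have hmain' := PolyDim.mono hdim hmain
  -- the Iwasawa decomposition
  have hiwa : ∀ x : SymSpace G, ∃ p : B.n × ℝ, Q * x.1 * Q⁻¹ = X p := by
    intro x
    have hxG : Q * x.1 * Q⁻¹ ∈ syG G.G Q := by
      rw [sy_mem]
      have e : Q⁻¹ * (Q * x.1 * Q⁻¹) * Q = x.1 := by group
      rw [e]
      exact x.2.1
    have hpos : ((Q * x.1 * Q⁻¹ : GL (Fin m) ℝ) : Mat m).PosDef := by
      have h1 : ((Q * x.1 * Q⁻¹ : GL (Fin m) ℝ) : Mat m) =
          (Q : Mat m) * (x.1 : Mat m) * (Q : Mat m).conjTranspose := by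
        rw [Units.val_mul, Units.val_mul, sy_inv Q hQ,
          Matrix.conjTranspose_eq_transpose_of_trivial]
      rw [h1]
      exact (Matrix.IsUnit.posDef_star_right_conjugate_iff (U := (Q : Mat m)) ⟨Q, rfl⟩).2 x.2.2
    obtain ⟨p, hp⟩ := iwasawa hI hBH hB hxG hpos
    exact ⟨p, Units.ext hp⟩
  choose φ hφ using hiwa
  have hdist : ∀ x y : SymSpace G, rdist (X (φ x)) (X (φ y)) = rdist x.1 y.1 := by
    intro x y
    rw [← hφ, ← hφ, rdist_conj]
  refine PolyDim.comap (dY := fun p p' => rdist (X p) (X p')) φ ⟨1, fun x x' => ?_⟩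
    (fun ε hε => ⟨ε, hε, fun x x' h => ?_⟩) hmain'
  · rw [hdist]
    push_cast
    linarith
  · rw [hdist] at h
    exact h

end MP65
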