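import Pool.Agent.Work.MP_65b809_gt.TDefs

/-! # TLam : the levels `lam i s = ⌊w_i s⌋`, `w_i ≥ 1` (elementary floor estimates) -/

namespace MP65

/-- levels -/
theorem Tower.lam_mono {N : Type} [Group N] {d : ℕ} (T : Tower N d) {i : ℕ} (hi : i < d)
    {s t : ℤ} (h : s ≤ t) : T.lam i s ≤ T.lam i t := by
  have hw := T.one_le_w i hi
  have h' : (s : ℝ) ≤ t := by exact_mod_cast h
  exact Int.floor_le_floor (mul_le_mul_of_nonneg_left h' (by linarith))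

theorem Tower.lam_add {N : Type} [Group N] {d : ℕ} (T : Tower N d) {i : ℕ} (hi : i < d)
    (s : ℤ) (k : ℕ) : T.lam i s + k ≤ T.lam i (s + k) := by
  have hw := T.one_le_w i hi
  unfold lam
  rw [Int.le_floor]
  push_cast
  have h1 := Int.floor_le (T.w i * (s : ℝ))
  have h2 : (k : ℝ) ≤ T.w i * k := le_mul_of_one_le_left (Nat.cast_nonneg k) hw
  rw [mul_add]
  linarith

/-- `3^{lam i s} ≤ 3^{w_i s} < 3 · 3^{lam i s}` -/
theorem Tower.lam_bounds {N : Type} [Group N] {d : ℕ} (T : Tower N d) (i : ℕ) (s : ℤ) :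
    (3 : ℝ) ^ (T.lam i s) ≤ (3 : ℝ) ^ (T.w i * (s : ℝ)) ∧
      (3 : ℝ) ^ (T.w i * (s : ℝ)) ≤ 3 * (3 : ℝ) ^ (T.lam i s) := by
  have h1 := Int.floor_le (T.w i * (s : ℝ))
  have h2 := (Int.lt_floor_add_one (T.w i * (s : ℝ))).le
  have e : (3 : ℝ) ^ (T.lam i s) = (3 : ℝ) ^ ((T.lam i s : ℤ) : ℝ) := (Real.rpow_intCast 3 _).symm
  rw [e]
  constructor
  · exact Real.rpow_le_rpow_of_exponent_le (by norm_num) h1
  · calc (3 : ℝ) ^ (T.w i * (s : ℝ)) ≤ (3 : ℝ) ^ (((T.lam i s : ℤ) : ℝ) + 1) :=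
          Real.rpow_le_rpow_of_exponent_le (by norm_num) h2
      _ = 3 * (3 : ℝ) ^ ((T.lam i s : ℤ) : ℝ) := by
          rw [Real.rpow_add (by norm_num), Real.rpow_one, mul_comm]

/-- `lam i (s + k) ≤ lam i s + C_k` -/
theorem Tower.lam_add_le {N : Type} [Group N] {d : ℕ} (T : Tower N d) (k : ℕ) :
    ∃ C : ℕ, ∀ (i : ℕ) (s : ℤ), i < d → T.lam i (s + k) ≤ T.lam i s + C := by
  refine ⟨(Finset.range d).sup (fun i => ⌊T.w i * (k : ℝ)⌋.toNat) + 1, fun i s hi => ?_⟩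
  have h1 : ⌊T.w i * (k : ℝ)⌋.toNat ≤
      (Finset.range d).sup (fun i => ⌊T.w i * (k : ℝ)⌋.toNat) :=
    Finset.le_sup (f := fun i => ⌊T.w i * (k : ℝ)⌋.toNat) (Finset.mem_range.2 hi)
  have h2 : T.lam i (s + k) ≤ T.lam i s + ⌊T.w i * (k : ℝ)⌋ + 1 := by
    unfold lam
    have h3 : T.w i * ((s + k : ℤ) : ℝ) = T.w i * (s : ℝ) + T.w i * (k : ℝ) := by
      push_cast
      ring
    rw [h3]
    have h := Int.le_floor_add_floor (T.w i * (s : ℝ)) (T.w i * (k : ℝ))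
    omega
  have h4 := Int.self_le_toNat ⌊T.w i * (k : ℝ)⌋
  push_cast
  omega

/-- a level `t` lies between two consecutive `lam i s`, `lam i (s+1)` -/
theorem Tower.exists_lam {N : Type} [Group N] {d : ℕ} (T : Tower N d) {i : ℕ} (hi : i < d)
    (t : ℤ) : ∃ s : ℤ, T.lam i s ≤ t ∧ t < T.lam i (s + 1) := by
  have h0 : T.lam i 0 = 0 := by simp [lam]
  obtain ⟨s, hs, hmax⟩ := Int.exists_greatest_of_bdd (P := fun s => T.lam i s ≤ t) (by
    refine ⟨max t 0, fun s hs => ?_⟩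
    by_contra hcon
    push Not at hcon
    have h1 := T.lam_add hi 0 s.toNat
    have h2 : (0 : ℤ) + (s.toNat : ℤ) = s := by omega
    rw [h2, h0] at h1
    omega) (by
    refine ⟨-(t.natAbs : ℤ), ?_⟩
    have h1 := T.lam_add hi (-(t.natAbs : ℤ)) t.natAbs
    rw [neg_add_cancel, h0] at h1
    omega)
  refine ⟨s, hs, ?_⟩
  by_contra hcon
  push Not at hcon
  have := hmax (s + 1) hcon
  omega

end MP65
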