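import Pool.Agent.Work.MP_65b809_gt.TEqv

/-! # TLow : smallness and closeness at a scale

* `low_mul`, `low_inv`: finite induction on the coordinate (at most `d` steps), constants from `bd`
  (note `3^(..) > 0`; take maxima to have one constant for all `j ≤ d` and to have `0 ≤ C'`).
  If `C < 0` then `Low` is false for `j > 0` and trivial for `j = 0`; one may replace `C` by `|C|`.
* `low_congr`: same coordinates. `low_mono_s`: `w_i ≥ 1 > 0`. `low_scale`:
  `3^(w_i s) = 3^(w_i (s+p)) 3^(-w_i p)` and `C 3^{-w_i p} ≤ C 3^{-p} ≤ 1`.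
* `close_trans`: `a⁻¹c = (a⁻¹b)(b⁻¹c)`. `close_congr`: `eqv_mul`, `eqv_inv`, `low_congr`.
* `x_mul3`: apply `bd` twice; for the inverse `bd` with `u, u⁻¹`.
-/

namespace MP65

namespace Tower

variable {N : Type} [Group N] {d : ℕ} (T : Tower N d)

private theorem TLow_pos (a : ℝ) : (0 : ℝ) < (3 : ℝ) ^ a := Real.rpow_pos_of_pos (by norm_num) a

theorem low_one {j : ℕ} (hj : j ≤ d) (s : ℝ) {C : ℝ} (hC : 0 ≤ C) : T.Low j s C 1 := by
  intro i hi
  rw [T.x_one i (hi.trans_le hj), abs_zero]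
  exact mul_nonneg hC (TLow_pos _).le

theorem low_congr {j : ℕ} {s C : ℝ} {u v : N} (h : T.Eqv j u v) (hu : T.Low j s C u) :
    T.Low j s C v := by
  intro i hi
  rw [← h i hi]
  exact hu i hi

theorem low_mono {j : ℕ} {s C C' : ℝ} (h : C ≤ C') {u : N} (hu : T.Low j s C u) :
    T.Low j s C' u := fun i hi =>
  (hu i hi).trans (mul_le_mul_of_nonneg_right h (TLow_pos _).le)

theorem low_mono_j {i j : ℕ} (h : i ≤ j) {s C : ℝ} {u : N} (hu : T.Low j s C u) :
    T.Low i s C u := fun k hk => hu k (lt_of_lt_of_le hk h)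

theorem low_mono_s {j : ℕ} (hj : j ≤ d) {s s' C : ℝ} (hC : 0 ≤ C) (h : s ≤ s') {u : N}
    (hu : T.Low j s C u) : T.Low j s' C u := by
  intro i hi
  have hw := T.one_le_w i (hi.trans_le hj)
  refine (hu i hi).trans (mul_le_mul_of_nonneg_left ?_ hC)
  exact Real.rpow_le_rpow_of_exponent_le (by norm_num)
    (mul_le_mul_of_nonneg_left h (by linarith))

theorem low_mul (C C' : ℝ) : ∃ C'' : ℝ, 0 ≤ C'' ∧ ∀ (j : ℕ) (s : ℝ) (u v : N), j ≤ d →
    T.Low j s C u → T.Low j s C' v → T.Low j s C'' (u * v) := by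
  obtain ⟨B, hB⟩ := T.bd (max C C')
  refine ⟨|C| + |C'| + |B|, by positivity, fun j s u v hj hu hv i hi => ?_⟩
  have h1 := hB i (hi.trans_le hj) s u v
    (T.low_mono_j hi.le (T.low_mono (le_max_left C C') hu))
    (T.low_mono_j hi.le (T.low_mono (le_max_right C C') hv))
  have h2 := hu i hi
  have h3 := hv i hi
  have hp := TLow_pos (T.w i * s)
  have h4 : T.x i (u * v) = (T.x i (u * v) - T.x i u - T.x i v) + T.x i u + T.x i v := by ring
  rw [h4]
  have h5 := abs_add_le ((T.x i (u * v) - T.x i u - T.x i v) + T.x i u) (T.x i v)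
  have h6 := abs_add_le (T.x i (u * v) - T.x i u - T.x i v) (T.x i u)
  have e1 := mul_le_mul_of_nonneg_right (le_abs_self C) hp.le
  have e2 := mul_le_mul_of_nonneg_right (le_abs_self C') hp.le
  have e3 := mul_le_mul_of_nonneg_right (le_abs_self B) hp.le
  linarith

theorem low_inv (C : ℝ) : ∃ C'' : ℝ, 0 ≤ C'' ∧ ∀ (j : ℕ) (s : ℝ) (u : N), j ≤ d →
    T.Low j s C u → T.Low j s C'' u⁻¹ := by
  have key : ∀ n : ℕ, n ≤ d → ∃ C'' : ℝ, 0 ≤ C'' ∧ ∀ (j : ℕ) (s : ℝ) (u : N), j ≤ n →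
      T.Low j s C u → T.Low j s C'' u⁻¹ := by
    intro n
    induction n with
    | zero =>
      intro _
      refine ⟨0, le_rfl, fun j s u hj _ i hi => ?_⟩
      omega
    | succ n ih =>
      intro hn
      obtain ⟨C₁, hC₁, h1⟩ := ih (by omega)
      obtain ⟨B, hB⟩ := T.bd (max C C₁)
      refine ⟨max C₁ (|C| + |B|), le_max_of_le_left hC₁, fun j s u hj hu i hi => ?_⟩
      have hp := TLow_pos (T.w i * s)
      rcases Nat.lt_or_ge i n with hin | hin
      · have h2 := h1 (i + 1) s u hin (T.low_mono_j hi hu) i (Nat.lt_succ_self i)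
        exact h2.trans (mul_le_mul_of_nonneg_right (le_max_left _ _) hp.le)
      · have e : i = n := by omega
        subst e
        have hu' : T.Low i s C u := T.low_mono_j hi.le hu
        have h3 := hB i (by omega) s u u⁻¹ (T.low_mono (le_max_left C C₁) hu')
          (T.low_mono (le_max_right C C₁) (h1 i s u le_rfl hu'))
        rw [mul_inv_cancel, T.x_one i (by omega)] at h3
        have h4 := hu i hi
        have h5 : T.x i u⁻¹ = -(0 - T.x i u - T.x i u⁻¹) + -T.x i u := by ring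
        rw [h5]
        have h6 := abs_add_le (-(0 - T.x i u - T.x i u⁻¹)) (-T.x i u)
        rw [abs_neg, abs_neg] at h6
        have e1 := mul_le_mul_of_nonneg_right (le_abs_self C) hp.le
        have e2 := mul_le_mul_of_nonneg_right (le_abs_self B) hp.le
        have e3 := mul_le_mul_of_nonneg_right (le_max_right C₁ (|C| + |B|)) hp.le
        linarith
  exact key d le_rfl

/-- going up `p` scales divides the constant by `3^p` -/
theorem low_scale {j : ℕ} (hj : j ≤ d) {s C : ℝ} {p : ℕ} (hp : C ≤ 3 ^ p) {u : N}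
    (hu : T.Low j s C u) : T.Low j (s + p) 1 u := by
  intro i hi
  have hw := T.one_le_w i (hi.trans_le hj)
  refine (hu i hi).trans ?_
  rw [mul_add, Real.rpow_add (by norm_num), one_mul, mul_comm]
  refine mul_le_mul_of_nonneg_left (hp.trans ?_) (TLow_pos _).le
  rw [← Real.rpow_natCast]
  exact Real.rpow_le_rpow_of_exponent_le (by norm_num)
    (le_mul_of_one_le_left (Nat.cast_nonneg p) hw)

/-- going down `p` scales multiplies the constant -/
theorem low_down (C : ℝ) (p : ℕ) : ∃ C' : ℝ, 0 ≤ C' ∧ ∀ (j : ℕ) (s : ℝ) (u : N), j ≤ d →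
    T.Low j (s + p) C u → T.Low j s C' u := by
  have hsum : ∀ i, i < d → (3 : ℝ) ^ (T.w i * (p : ℝ)) ≤
      ∑ i ∈ Finset.range d, (3 : ℝ) ^ (T.w i * (p : ℝ)) := fun i hi =>
    Finset.single_le_sum (f := fun i => (3 : ℝ) ^ (T.w i * (p : ℝ)))
      (fun k _ => (TLow_pos _).le) (Finset.mem_range.2 hi)
  refine ⟨|C| * ∑ i ∈ Finset.range d, (3 : ℝ) ^ (T.w i * (p : ℝ)),
    mul_nonneg (abs_nonneg C) (Finset.sum_nonneg fun k _ => (TLow_pos _).le),
    fun j s u hj hu i hi => ?_⟩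
  have h1 := hu i hi
  rw [mul_add, Real.rpow_add (by norm_num)] at h1
  have hp := TLow_pos (T.w i * s)
  have hq := TLow_pos (T.w i * (p : ℝ))
  calc |T.x i u| ≤ C * ((3 : ℝ) ^ (T.w i * s) * (3 : ℝ) ^ (T.w i * (p : ℝ))) := h1
    _ ≤ |C| * ((3 : ℝ) ^ (T.w i * s) * (3 : ℝ) ^ (T.w i * (p : ℝ))) :=
        mul_le_mul_of_nonneg_right (le_abs_self C) (mul_pos hp hq).le
    _ = |C| * (3 : ℝ) ^ (T.w i * (p : ℝ)) * (3 : ℝ) ^ (T.w i * s) := by ring
    _ ≤ _ := mul_le_mul_of_nonneg_right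
        (mul_le_mul_of_nonneg_left (hsum i (hi.trans_le hj)) (abs_nonneg C)) hp.le

/-- approximate additivity of `x j` when the lower coordinates are small -/
theorem x_mul3 (C : ℝ) : ∃ C' : ℝ, 0 ≤ C' ∧ ∀ (j : ℕ) (s : ℝ) (u v w : N), j < d →
    T.Low j s C u → T.Low j s C v → T.Low j s C w →
    |T.x j (u * v * w) - T.x j u - T.x j v - T.x j w| ≤ C' * 3 ^ (T.w j * s) ∧
    |T.x j (u * v) - T.x j u - T.x j v| ≤ C' * 3 ^ (T.w j * s) ∧
    |T.x j u⁻¹ + T.x j u| ≤ C' * 3 ^ (T.w j * s) := by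
  obtain ⟨B₁, hB₁⟩ := T.bd C
  obtain ⟨C₂, -, hC₂⟩ := T.low_mul C C
  obtain ⟨C₃, -, hC₃⟩ := T.low_inv C
  obtain ⟨B₂, hB₂⟩ := T.bd (max C₂ C)
  obtain ⟨B₃, hB₃⟩ := T.bd (max C C₃)
  refine ⟨|B₁| + |B₂| + |B₃|, by positivity, fun j s u v w hj hu hv hw => ?_⟩
  have hp := TLow_pos (T.w j * s)
  have e1 := mul_le_mul_of_nonneg_right (le_abs_self B₁) hp.le
  have e2 := mul_le_mul_of_nonneg_right (le_abs_self B₂) hp.le
  have e3 := mul_le_mul_of_nonneg_right (le_abs_self B₃) hp.le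
  have f1 := mul_nonneg (abs_nonneg B₁) hp.le
  have f2 := mul_nonneg (abs_nonneg B₂) hp.le
  have f3 := mul_nonneg (abs_nonneg B₃) hp.le
  have h1 := hB₁ j hj s u v hu hv
  have h2 := hB₂ j hj s (u * v) w (T.low_mono (le_max_left _ _) (hC₂ j s u v hj.le hu hv))
    (T.low_mono (le_max_right _ _) hw)
  have h3 := hB₃ j hj s u u⁻¹ (T.low_mono (le_max_left _ _) hu)
    (T.low_mono (le_max_right _ _) (hC₃ j s u hj.le hu))
  rw [mul_inv_cancel, T.x_one j hj] at h3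
  refine ⟨?_, ?_, ?_⟩
  · have h5 : T.x j (u * v * w) - T.x j u - T.x j v - T.x j w =
        (T.x j (u * v * w) - T.x j (u * v) - T.x j w) +
          (T.x j (u * v) - T.x j u - T.x j v) := by ring
    rw [h5]
    have h6 := abs_add_le (T.x j (u * v * w) - T.x j (u * v) - T.x j w)
      (T.x j (u * v) - T.x j u - T.x j v)
    linarith
  · linarith
  · have h5 : T.x j u⁻¹ + T.x j u = -(0 - T.x j u - T.x j u⁻¹) := by ring
    rw [h5, abs_neg]
    linarith

theorem close_symm {j : ℕ} {s C : ℝ} {a b : N} (h : T.Close j s C a b) : T.Close j s C b a :=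
  ⟨h.2, h.1⟩

theorem close_refl {j : ℕ} (hj : j ≤ d) (s : ℝ) {C : ℝ} (hC : 0 ≤ C) (a : N) :
    T.Close j s C a a := by
  unfold Close
  rw [inv_mul_cancel]
  exact ⟨T.low_one hj s hC, T.low_one hj s hC⟩

theorem close_trans (C C' : ℝ) : ∃ C'' : ℝ, 0 ≤ C'' ∧ ∀ (j : ℕ) (s : ℝ) (a b c : N), j ≤ d →
    T.Close j s C a b → T.Close j s C' b c → T.Close j s C'' a c := by
  obtain ⟨C₁, h1, hC₁⟩ := T.low_mul C C'
  obtain ⟨C₂, h2, hC₂⟩ := T.low_mul C' C
  refine ⟨max C₁ C₂, le_max_of_le_left h1, fun j s a b c hj hab hbc => ⟨?_, ?_⟩⟩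
  · have e : a⁻¹ * c = a⁻¹ * b * (b⁻¹ * c) := by group
    rw [e]
    exact T.low_mono (le_max_left _ _) (hC₁ j s _ _ hj hab.1 hbc.1)
  · have e : c⁻¹ * a = c⁻¹ * b * (b⁻¹ * a) := by group
    rw [e]
    exact T.low_mono (le_max_right _ _) (hC₂ j s _ _ hj hbc.2 hab.2)

theorem close_mono {j : ℕ} {s C C' : ℝ} (h : C ≤ C') {a b : N} (hu : T.Close j s C a b) :
    T.Close j s C' a b := ⟨T.low_mono h hu.1, T.low_mono h hu.2⟩

theorem close_mono_j {i j : ℕ} (h : i ≤ j) {s C : ℝ} {a b : N} (hu : T.Close j s C a b) :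
    T.Close i s C a b := ⟨T.low_mono_j h hu.1, T.low_mono_j h hu.2⟩

theorem close_mono_s {j : ℕ} (hj : j ≤ d) {s s' C : ℝ} (hC : 0 ≤ C) (h : s ≤ s') {a b : N}
    (hu : T.Close j s C a b) : T.Close j s' C a b :=
  ⟨T.low_mono_s hj hC h hu.1, T.low_mono_s hj hC h hu.2⟩

theorem close_congr {j : ℕ} (hj : j ≤ d) {s C : ℝ} {a b a' b' : N} (ha : T.Eqv j a a')
    (hb : T.Eqv j b b') (h : T.Close j s C a b) : T.Close j s C a' b' :=
  ⟨T.low_congr (T.eqv_mul hj (T.eqv_inv hj ha) hb) h.1,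
    T.low_congr (T.eqv_mul hj (T.eqv_inv hj hb) ha) h.2⟩

theorem close_scale {j : ℕ} (hj : j ≤ d) {s C : ℝ} {p : ℕ} (hp : C ≤ 3 ^ p) {a b : N}
    (hu : T.Close j s C a b) : T.Close j (s + p) 1 a b :=
  ⟨T.low_scale hj hp hu.1, T.low_scale hj hp hu.2⟩

/-- from one-sided to two-sided closeness -/
theorem close_of_low (C : ℝ) : ∃ C' : ℝ, 0 ≤ C' ∧ ∀ (j : ℕ) (s : ℝ) (a b : N), j ≤ d →
    T.Low j s C (a⁻¹ * b) → T.Close j s C' a b := by
  obtain ⟨C₁, h1, hC₁⟩ := T.low_inv C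
  refine ⟨max C C₁, le_max_of_le_right h1, fun j s a b hj h => ⟨?_, ?_⟩⟩
  · exact T.low_mono (le_max_left _ _) h
  · have e : b⁻¹ * a = (a⁻¹ * b)⁻¹ := by group
    rw [e]
    exact T.low_mono (le_max_right _ _) (hC₁ j s _ hj h)

end Tower

end MP65
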