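import Pool.Agent.Work.MP_65b809_gt.Defs

/-! # MP_65b809_gt : towers, chains, the coned graph (fixed definitions, do not edit)

A `Tower` is a group `N` with coordinates `x 0, ..., x (d-1)` and weights `w i ≥ 1`, such that
`x j (u v) - x j u - x j v` depends only on the coordinates `i < j` of `u` and `v` and is
`O(3^{w_j s})` when these are `O(3^{w_i s})` (`s` = a real scale). -/

namespace MP65

open Set

/-- integer part of the rounding of `x` at level `t` (nearest integer to `x / 3^t`) -/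
noncomputable def mr (t : ℤ) (x : ℝ) : ℤ := ⌊x / (3 : ℝ) ^ t + 1 / 2⌋

/-- rounding of `x` to the nearest multiple of `3^t` -/
noncomputable def rd (t : ℤ) (x : ℝ) : ℝ := (3 : ℝ) ^ t * (mr t x : ℝ)

/-- nearest integer to `m / 3` (balanced ternary parent) -/
def par (m : ℤ) : ℤ := (m + 1) / 3

/-- `|par^k m|` plus the number of nonzero digits among the `k` lowest balanced ternary digits -/
def wi : ℕ → ℤ → ℕ
  | 0, m => m.natAbs
  | k + 1, m => wi k (par m) + (if m % 3 = 0 then 0 else 1)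

structure Tower (N : Type) [Group N] (d : ℕ) where
  x : ℕ → N → ℝ
  w : ℕ → ℝ
  z : ℕ → ℝ → N
  one_le_w : ∀ j, j < d → 1 ≤ w j
  x_one : ∀ j, j < d → x j 1 = 0
  dep : ∀ j, j < d → ∀ u u' v v' : N, (∀ i, i < j → x i u = x i u') →
    (∀ i, i < j → x i v = x i v') →
    x j (u * v) - x j u - x j v = x j (u' * v') - x j u' - x j v'
  bd : ∀ C : ℝ, ∃ C' : ℝ, ∀ j, j < d → ∀ (s : ℝ) (u v : N),
    (∀ i, i < j → |x i u| ≤ C * 3 ^ (w i * s)) → (∀ i, i < j → |x i v| ≤ C * 3 ^ (w i * s)) →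
    |x j (u * v) - x j u - x j v| ≤ C' * 3 ^ (w j * s)
  z_zero : ∀ j, j < d → z j 0 = 1
  x_z : ∀ j, j < d → ∀ ρ, x j (z j ρ) = ρ
  x_z_ne : ∀ j i, j < d → i < d → i ≠ j → ∀ ρ, x i (z j ρ) = 0

namespace Tower

variable {N : Type} [Group N] {d : ℕ} (T : Tower N d)

/-- the first `j` coordinates are `O(3^{w_i s})` with constant `C` -/
def Low (j : ℕ) (s C : ℝ) (g : N) : Prop := ∀ i, i < j → |T.x i g| ≤ C * 3 ^ (T.w i * s)

/-- the first `j` coordinates of `u` and `v` agree -/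
def Eqv (j : ℕ) (u v : N) : Prop := ∀ i, i < j → T.x i u = T.x i v

/-- `a` and `b` are `C`-close at scale `s` in the first `j` coordinates -/
def Close (j : ℕ) (s C : ℝ) (a b : N) : Prop := T.Low j s C (a⁻¹ * b) ∧ T.Low j s C (b⁻¹ * a)

/-- integer level of the coordinate `i` at scale `s` -/
noncomputable def lam (i : ℕ) (s : ℤ) : ℤ := ⌊T.w i * (s : ℝ)⌋

/-- product of the increments of the coordinates `< j` between the scales `s + 1` and `s` -/
noncomputable def incTo (y : ℕ → ℝ) (s : ℤ) : ℕ → N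
  | 0 => 1
  | j + 1 => incTo y s j *
      T.z j (rd (T.lam j s) (y j) - rd (T.lam j (s + 1)) (y j))

noncomputable def inc (y : ℕ → ℝ) (s : ℤ) : N := T.incTo y s d

open Classical in
/-- the chain of the tuple `y`: `ch y s = 1` for large `s` and `ch y s = ch y (s+1) * inc y s`
(existence is proved in `Ch.lean`) -/
noncomputable def ch (y : ℕ → ℝ) : ℤ → N :=
  if h : ∃ c : ℤ → N, (∃ T0 : ℤ, ∀ s, T0 ≤ s → c s = 1) ∧ ∀ s, c s = c (s + 1) * T.inc y s
  then h.choose else fun _ => 1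

/-- the first `j` coordinates of `y` are grid numbers at scale `s` -/
def Grid (j : ℕ) (s : ℤ) (y : ℕ → ℝ) : Prop := ∀ i, i < j → rd (T.lam i s) (y i) = y i

/-- rounding of all coordinates at scale `s` -/
noncomputable def rdl (s : ℤ) (y : ℕ → ℝ) : ℕ → ℝ := fun i => rd (T.lam i s) (y i)

/-- the vertices: tuples of grid numbers -/
def V (y : ℕ → ℝ) : Prop := ∃ s : ℤ, T.Grid d s y

/-- edges of the coned graph `G^(j)` -/
def Edge (K : ℝ) (j : ℕ) (y y' : ℕ → ℝ) : Prop :=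
  ∃ s : ℤ, T.Grid j s y ∧ T.Grid j s y' ∧ T.Close j s K (T.ch y s) (T.ch y' s)

/-- edges of `G^(j)` at a scale `s ≤ t` -/
def EdgeLe (K : ℝ) (j : ℕ) (t : ℤ) (y y' : ℕ → ℝ) : Prop :=
  ∃ s : ℤ, s ≤ t ∧ T.Grid j s y ∧ T.Grid j s y' ∧ T.Close j s K (T.ch y s) (T.ch y' s)

/-- `y` has at most `k` nonzero levels below `t` (in the first `j` coordinates) -/
def NzLe (j : ℕ) (t : ℤ) (k : ℕ) (y : ℕ → ℝ) : Prop :=
  ∃ S : Finset ℤ, S.card ≤ k ∧ ∀ s : ℤ, s < t → s ∉ S → ∀ i, i < j →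
    rd (T.lam i s) (y i) = rd (T.lam i (s + 1)) (y i)

end Tower

/-- the first `j` entries agree -/
def EqOn (j : ℕ) (y y' : ℕ → ℝ) : Prop := ∀ i, i < j → y i = y' i

/-- the entries `≥ j` are replaced by `0` -/
def trunc (j : ℕ) (y : ℕ → ℝ) : ℕ → ℝ := fun i => if i < j then y i else 0

namespace Tower

variable {N : Type} [Group N] {d : ℕ} (T : Tower N d)

/-- joined by a path of at most `k` edges of `G^(j)` -/
def Conn (K : ℝ) (j : ℕ) : ℕ → (ℕ → ℝ) → (ℕ → ℝ) → Prop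
  | 0 => EqOn j
  | k + 1 => fun y y' => ∃ u, Conn K j k y u ∧ (EqOn j u y' ∨ T.Edge K j u y')

/-- joined by a path of at most `k` edges of scale `≤ t` -/
def ConnLe (K : ℝ) (j : ℕ) (t : ℤ) : ℕ → (ℕ → ℝ) → (ℕ → ℝ) → Prop
  | 0 => EqOn j
  | k + 1 => fun y y' => ∃ u, ConnLe K j t k y u ∧ (EqOn j u y' ∨ T.EdgeLe K j t u y')

/-- the good edge constants `K` (existence is proved in `Graph.lean`) -/
def GoodK (K : ℝ) : Prop :=
  0 ≤ K ∧ (∀ (y : ℕ → ℝ) (s : ℤ), T.Close d s K (T.ch y (s + 1)) (T.ch y s)) ∧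
  ∀ C : ℝ, ∃ p : ℕ, ∀ (j : ℕ) (y y' : ℕ → ℝ) (s : ℤ), j ≤ d →
    T.Close j s C (T.ch y s) (T.ch y' s) →
    T.Close j ((s + p : ℤ) : ℝ) K (T.ch y (s + p)) (T.ch y' (s + p))

/-- the vertices in the ball of radius `R` of `G^(j)` about `b` -/
def FB (K : ℝ) (j R : ℕ) (b : ℕ → ℝ) : Set (ℕ → ℝ) := {y | T.V y ∧ T.Conn K j R b y}

end Tower

/-- probability vectors with at most `D + 1` nonzero entries -/
def Prob {I : Type} (D : ℕ) (μ : I →₀ ℝ) : Prop :=
  (∀ v, 0 ≤ μ v) ∧ μ.sum (fun _ a => a) = 1 ∧ μ.support.card ≤ D + 1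

/-- the `ℓ¹` norm -/
noncomputable def l1 {I : Type} (μ : I →₀ ℝ) : ℝ := μ.sum (fun _ a => |a|)

/-- `F` carries a `D`-dimensional structure: probability vectors with at most `D+1` nonzero
entries, `δ`-Lipschitz along edges, with supports of diameter at most `R` in the graph -/
def Tower.HasStr {N : Type} [Group N] {d : ℕ} (T : Tower N d) (K : ℝ) (F : Set (ℕ → ℝ)) (D : ℕ)
    (δ : ℝ) (R : ℕ) : Prop :=
  ∃ (I : Type) (μ : (ℕ → ℝ) → I →₀ ℝ), (∀ y ∈ F, Prob D (μ y)) ∧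
    (∀ y ∈ F, ∀ y' ∈ F, T.Edge K d y y' → l1 (μ y - μ y') ≤ δ) ∧
    ∀ v, ∀ y ∈ F, ∀ y' ∈ F, μ y v ≠ 0 → μ y' v ≠ 0 → T.Conn K d R y y'

/-- the key lemma at stage `j` (proved in `KLem.lean`): on every `R`-ball `B` of `G^(j)` there is an
integer function `n` of the first `j + 1` coordinates, Lipschitz along the edges of `G^(j+1)`
inside `B`, such that two points joined by a path of such edges along which `a ≤ n < a + W` are
at bounded distance in `G^(j+1)` -/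
def Tower.KLem {N : Type} [Group N] {d : ℕ} (T : Tower N d) (K : ℝ) (j : ℕ) : Prop :=
  ∀ R : ℕ, ∃ C₀ : ℕ, ∀ W : ℕ, ∃ R' : ℕ, ∀ b₀ : ℕ → ℝ, ∃ n : (ℕ → ℝ) → ℕ,
    (∀ y y', EqOn (j + 1) y y' → n y = n y') ∧
    (∀ y ∈ T.FB K j R b₀, ∀ y' ∈ T.FB K j R b₀, T.Edge K (j + 1) y y' →
      n y ≤ n y' + C₀ ∧ n y' ≤ n y + C₀) ∧
    ∀ (a : ℕ) (y y' : ℕ → ℝ), y ∈ T.FB K j R b₀ →
      Relation.ReflTransGen (fun u v => u ∈ T.FB K j R b₀ ∧ v ∈ T.FB K j R b₀ ∧
        T.Edge K (j + 1) u v ∧ (a ≤ n u ∧ n u < a + W) ∧ (a ≤ n v ∧ n v < a + W)) y y' →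
      T.Conn K (j + 1) R' y y'

/-- the structure statement at stage `j` (proved by downward induction in `PInd.lean`) -/
def Tower.PStr {N : Type} [Group N] {d : ℕ} (T : Tower N d) (K : ℝ) (j : ℕ) : Prop :=
  ∀ (R : ℕ) (δ : ℝ), 0 < δ → ∃ Ro : ℕ, ∀ b₀ : ℕ → ℝ, T.HasStr K (T.FB K j R b₀) (d - j) δ Ro

/-- counting: the set `A` of tuples has at most `n` elements up to equality of the first `d`
coordinates -/
def Cnt (d : ℕ) (A : Set (ℕ → ℝ)) (n : ℕ) : Prop :=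
  ∃ code : (ℕ → ℝ) → ℕ, (∀ y ∈ A, code y < n) ∧
    ∀ y ∈ A, ∀ y' ∈ A, code y = code y' → EqOn d y y'

/-- The result for the group part: for all `R`, `q` there are `q` colourings of `N × ℤ` by labels
such that each point is missed by at most `d` colours, points `(g,t)`, `(g',t')` with `|t-t'| ≤ R`
and `g⁻¹ g' = O(3^{w max(t,t')})` have the same label, and the points of a label with scales in
`[t₀,t₁]` which are close to `g₀` at the scale `t₁` are covered by polynomially many (in `t₁ - t₀`)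
sets `{t} × (set of diameter O(1) at the scale t)`. -/
def Tower.NPart {N : Type} [Group N] {d : ℕ} (T : Tower N d) : Prop :=
  ∀ (R : ℝ) (q : ℕ), ∃ (Λ : Type) (f : Fin q → N → ℤ → Option Λ) (C₂ : ℝ),
    (∀ g t, ({i | f i g t = none} : Set (Fin q)).ncard ≤ d) ∧
    (∀ (i : Fin q) (g : N) (t : ℤ) (g' : N) (t' : ℤ) (a b : Λ), |(t : ℝ) - t'| ≤ R → T.Low d (max (t : ℝ) t') R (g⁻¹ * g') →
      f i g t = some a → f i g' t' = some b → a = b) ∧
    ∀ R' : ℝ, ∃ C e : ℕ, ∀ (i : Fin q) (a : Λ) (t₀ t₁ : ℤ) (g₀ : N), t₀ ≤ t₁ →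
      ∃ code : N → ℤ → ℕ,
        (∀ g t, f i g t = some a → t₀ ≤ t → t ≤ t₁ → T.Low d t₁ R' (g₀⁻¹ * g) →
          code g t < C * ((t₁ - t₀).toNat + 1) ^ e) ∧
        ∀ g t g' t', f i g t = some a → f i g' t' = some a → t₀ ≤ t → t ≤ t₁ → t₀ ≤ t' →
          t' ≤ t₁ → T.Low d t₁ R' (g₀⁻¹ * g) → T.Low d t₁ R' (g₀⁻¹ * g') →
          code g t = code g' t' → t = t' ∧ T.Low d t C₂ (g⁻¹ * g')

end MP65
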