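import Pool.Agent.Work.MP_65b809_gt.TDefs

/-! # TEqv : agreement of coordinates, the elements `z j ρ`

Write `P_j(u,v) = x_j(uv) - x_j u - x_j v`; by `dep` it depends only on the coordinates `< j` of
`u`, `v`; `P_j(u,v) = 0` if the coordinates `< j` of `u` (or of `v`) vanish (compare with
`(1,v)`, `x_j(1 v) - x_j 1 - x_j v = 0`).
* `eqv_mul`: strong induction on the index `i < j` with `dep`.
* `eqv_inv`: induction on `i`: `0 = x_i(u u⁻¹) = x_i u + x_i u⁻¹ + P_i(u,u⁻¹)`.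
* `x_z_mul` etc.: the coordinates `< j` of `z j ρ` vanish (`x_z_ne`).
* `eqv_conj_z`: `(a z)⁻¹ (b z') = z⁻¹ (a⁻¹ b) z'`.
-/

namespace MP65

namespace Tower

variable {N : Type} [Group N] {d : ℕ} (T : Tower N d)

theorem eqv_refl (j : ℕ) (u : N) : T.Eqv j u u := fun _ _ => rfl

theorem eqv_symm {j : ℕ} {u v : N} (h : T.Eqv j u v) : T.Eqv j v u := fun i hi => (h i hi).symm

theorem eqv_trans {j : ℕ} {u v w : N} (h : T.Eqv j u v) (h' : T.Eqv j v w) : T.Eqv j u w :=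
  fun i hi => (h i hi).trans (h' i hi)

theorem eqv_mono {i j : ℕ} (hij : i ≤ j) {u v : N} (h : T.Eqv j u v) : T.Eqv i u v :=
  fun k hk => h k (lt_of_lt_of_le hk hij)

theorem eqv_mul {j : ℕ} (hj : j ≤ d) {u u' v v' : N} (h : T.Eqv j u u') (h' : T.Eqv j v v') :
    T.Eqv j (u * v) (u' * v') := by
  intro i hi
  have h1 := T.dep i (hi.trans_le hj) u u' v v' (fun k hk => h k (hk.trans hi))
    (fun k hk => h' k (hk.trans hi))
  have h2 := h i hi
  have h3 := h' i hi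
  linarith

/-- the correction term vanishes if the lower coordinates of the first factor vanish -/
private theorem TEqv_left {j : ℕ} (hj : j < d) {u v : N} (hu : ∀ i, i < j → T.x i u = 0) :
    T.x j (u * v) = T.x j u + T.x j v := by
  have h1 := T.dep j hj u 1 v v (fun i hi => by rw [hu i hi, T.x_one i (hi.trans hj)])
    (fun _ _ => rfl)
  rw [one_mul, T.x_one j hj] at h1
  linarith

private theorem TEqv_right {j : ℕ} (hj : j < d) {u v : N} (hv : ∀ i, i < j → T.x i v = 0) :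
    T.x j (u * v) = T.x j u + T.x j v := by
  have h1 := T.dep j hj u u v 1 (fun _ _ => rfl)
    (fun i hi => by rw [hv i hi, T.x_one i (hi.trans hj)])
  rw [mul_one, T.x_one j hj] at h1
  linarith

theorem eqv_inv {j : ℕ} (hj : j ≤ d) {u u' : N} (h : T.Eqv j u u') : T.Eqv j u⁻¹ u'⁻¹ := by
  have key : ∀ i, i < j → T.x i u⁻¹ = T.x i u'⁻¹ := by
    intro i
    induction i using Nat.strong_induction_on with
    | _ i ih =>
      intro hi
      have h1 := T.dep i (hi.trans_le hj) u u' u⁻¹ u'⁻¹ (fun k hk => h k (hk.trans hi))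
        (fun k hk => ih k hk (hk.trans hi))
      rw [mul_inv_cancel, mul_inv_cancel, h i hi] at h1
      linarith
  exact key

/-- multiplication by an element whose coordinates `< j` vanish -/
theorem x_mul_left {j : ℕ} (hj : j < d) {u v : N} (hu : ∀ i, i < j → T.x i u = 0) :
    T.x j (u * v) = T.x j u + T.x j v := TEqv_left T hj hu

theorem x_mul_right {j : ℕ} (hj : j < d) {u v : N} (hv : ∀ i, i < j → T.x i v = 0) :
    T.x j (u * v) = T.x j u + T.x j v := TEqv_right T hj hv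

private theorem TEqv_z {j : ℕ} (hj : j < d) (ρ : ℝ) : ∀ i, i < j → T.x i (T.z j ρ) = 0 :=
  fun i hi => T.x_z_ne j i hj (hi.trans hj) hi.ne ρ

theorem eqv_z_mul {j : ℕ} (hj : j < d) (ρ : ℝ) (v : N) : T.Eqv j (T.z j ρ * v) v := by
  intro i hi
  rw [T.x_mul_left (hi.trans hj) fun k hk => TEqv_z T hj ρ k (hk.trans hi), TEqv_z T hj ρ i hi,
    zero_add]

theorem eqv_mul_z {j : ℕ} (hj : j < d) (ρ : ℝ) (v : N) : T.Eqv j (v * T.z j ρ) v := by
  intro i hi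
  rw [T.x_mul_right (hi.trans hj) fun k hk => TEqv_z T hj ρ k (hk.trans hi), TEqv_z T hj ρ i hi,
    add_zero]

theorem x_z_mul {j : ℕ} (hj : j < d) (ρ : ℝ) (v : N) : T.x j (T.z j ρ * v) = ρ + T.x j v := by
  rw [T.x_mul_left hj (TEqv_z T hj ρ), T.x_z j hj]

theorem x_mul_z {j : ℕ} (hj : j < d) (ρ : ℝ) (v : N) : T.x j (v * T.z j ρ) = T.x j v + ρ := by
  rw [T.x_mul_right hj (TEqv_z T hj ρ), T.x_z j hj]

private theorem TEqv_succ {j : ℕ} {u v : N} (h : T.Eqv j u v) (h' : T.x j u = T.x j v) :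
    T.Eqv (j + 1) u v := by
  intro i hi
  rcases Nat.lt_succ_iff_lt_or_eq.1 hi with h1 | h1
  · exact h i h1
  · rw [h1]
    exact h'

/-- `z j ρ` is central modulo the coordinates `> j` -/
theorem eqv_z_comm {j : ℕ} (hj : j < d) (ρ : ℝ) (v : N) :
    T.Eqv (j + 1) (T.z j ρ * v) (v * T.z j ρ) := by
  refine TEqv_succ T (T.eqv_trans (T.eqv_z_mul hj ρ v) (T.eqv_symm (T.eqv_mul_z hj ρ v))) ?_
  rw [T.x_z_mul hj, T.x_mul_z hj, add_comm]

theorem eqv_z_add {j : ℕ} (hj : j < d) (ρ ρ' : ℝ) :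
    T.Eqv (j + 1) (T.z j ρ * T.z j ρ') (T.z j (ρ + ρ')) := by
  refine TEqv_succ T (fun i hi => ?_) ?_
  · rw [T.eqv_z_mul hj ρ (T.z j ρ') i hi, TEqv_z T hj _ i hi, TEqv_z T hj _ i hi]
  · rw [T.x_z_mul hj, T.x_z j hj, T.x_z j hj]

theorem eqv_z_inv {j : ℕ} (hj : j < d) (ρ : ℝ) : T.Eqv (j + 1) (T.z j ρ)⁻¹ (T.z j (-ρ)) := by
  have h1 := T.eqv_z_add hj ρ (-ρ)
  rw [add_neg_cancel, T.z_zero j hj] at h1
  have h2 := T.eqv_mul (j := j + 1) (Nat.succ_le_of_lt hj)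
    (T.eqv_refl (j + 1) (T.z j ρ)⁻¹) h1
  rw [inv_mul_cancel_left, mul_one] at h2
  exact T.eqv_symm h2

/-- `(a z_j(ρ))⁻¹ (b z_j(ρ'))` agrees with `a⁻¹ b` in the coordinates `< j`, and its `j`-th
coordinate is `x_j(a⁻¹ b) + ρ' - ρ` -/
theorem eqv_conj_z {j : ℕ} (hj : j < d) (a b : N) (ρ ρ' : ℝ) :
    T.Eqv j ((a * T.z j ρ)⁻¹ * (b * T.z j ρ')) (a⁻¹ * b) ∧
      T.x j ((a * T.z j ρ)⁻¹ * (b * T.z j ρ')) = T.x j (a⁻¹ * b) + ρ' - ρ := by
  have e : (a * T.z j ρ)⁻¹ * (b * T.z j ρ') = (T.z j ρ)⁻¹ * (a⁻¹ * b * T.z j ρ') := by group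
  have h1 : T.Eqv (j + 1) ((T.z j ρ)⁻¹ * (a⁻¹ * b * T.z j ρ'))
      (T.z j (-ρ) * (a⁻¹ * b * T.z j ρ')) :=
    T.eqv_mul (Nat.succ_le_of_lt hj) (T.eqv_z_inv hj ρ) (T.eqv_refl _ _)
  rw [e]
  constructor
  · exact T.eqv_trans (T.eqv_mono (Nat.le_succ j) h1)
      (T.eqv_trans (T.eqv_z_mul hj (-ρ) _) (T.eqv_mul_z hj ρ' _))
  · rw [h1 j (Nat.lt_succ_self j), T.x_z_mul hj, T.x_mul_z hj]
    ring

end Tower

end MP65
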