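import Pool.Agent.Work.MP_65b809_gt.TDefs

/-! # Wi : balanced ternary digit weights of integers

`par m = ⌊(m+1)/3⌋`; every `m` is `3 (par m) + e`, `e ∈ {-1,0,1}`, `e = 0 ↔ m % 3 = 0`.
`wi k m = |par^k m| + #{nonzero digits among the k lowest}`.

* `wi_lip`: it is enough to show `|wi k (m+1) - wi k m| ≤ 1`, induction on `k`: `k = 0` clear. For
  `k+1` write `m = 3a + e`. `e = 0`: `par (m+1) = a`, digit `1`: `wi (m+1) = wi k a + 1 = wi m + 1`.
  `e = -1`: `par (m+1) = a`, digit `0`: `wi (m+1) = wi m - 1`. `e = 1`: `m+1 = 3(a+1) - 1`,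
  `wi (m+1) = wi k (a+1) + 1`, `wi m = wi k a + 1`: induction.
* `wi_nine`: for `|l| ≤ 4` the number `9a + l` has `par^2 = a` and at most two nonzero digits; for
  `l = 5`, `9a + 5 = 9(a+1) - 4` and `wi k (a+1) ≤ wi k a + 1`; `l = -5` symmetric.
* `wi_boundary`: consecutive integers with different parents: the smaller one is `3a+1`, the larger
  `3(a+1)-1`, both digits nonzero, and the parents are consecutive. Induct on `k`.
* `wi_pow_mul`: `par (3 m) = m` and `(3m) % 3 = 0`.
-/

namespace MP65

theorem par_three_mul (m : ℤ) : par (3 * m) = m := by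
  unfold par
  omega

theorem par_three_mul_add_one (m : ℤ) : par (3 * m + 1) = m := by
  unfold par
  omega

theorem par_three_mul_sub_one (m : ℤ) : par (3 * m - 1) = m := by
  unfold par
  omega

theorem par_cases (m : ℤ) : m = 3 * par m ∨ m = 3 * par m + 1 ∨ m = 3 * par m - 1 := by
  unfold par
  omega

theorem wi_zero_right (k : ℕ) : wi k 0 = 0 := by
  induction k with
  | zero => rfl
  | succ k ih =>
    have h : par 0 = 0 := by unfold par; norm_num
    rw [wi, h, ih]
    rfl

theorem wi_neg (k : ℕ) (m : ℤ) : wi k (-m) = wi k m := by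
  induction k generalizing m with
  | zero => rw [wi, wi, Int.natAbs_neg]
  | succ k ih =>
    have h : par (-m) = -par m := by unfold par; omega
    rw [wi, wi, h, ih]
    congr 1
    split_ifs <;> omega

private theorem Wi_step (k : ℕ) (m : ℤ) :
    wi k (m + 1) ≤ wi k m + 1 ∧ wi k m ≤ wi k (m + 1) + 1 := by
  induction k generalizing m with
  | zero =>
    simp only [wi]
    omega
  | succ k ih =>
    simp only [wi]
    rcases par_cases m with h | h | h
    · have h1 : par (m + 1) = par m := by unfold par; unfold par at h; omega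
      rw [h1]
      split_ifs <;> omega
    · have h1 : par (m + 1) = par m + 1 := by unfold par; unfold par at h; omega
      have h2 := ih (par m)
      rw [h1]
      split_ifs <;> omega
    · have h1 : par (m + 1) = par m := by unfold par; unfold par at h; omega
      rw [h1]
      split_ifs <;> omega

private theorem Wi_steps (k n : ℕ) (m : ℤ) :
    wi k (m + n) ≤ wi k m + n ∧ wi k m ≤ wi k (m + n) + n := by
  induction n with
  | zero => simp
  | succ n ih =>
    have h := Wi_step k (m + n)
    have e : m + ((n + 1 : ℕ) : ℤ) = m + n + 1 := by push_cast; ring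
    rw [e]
    omega

theorem wi_lip (k : ℕ) (m m' : ℤ) : (wi k m : ℤ) ≤ wi k m' + |m - m'| := by
  rcases le_total m' m with h | h
  · obtain ⟨n, hn⟩ : ∃ n : ℕ, m = m' + n := ⟨(m - m').toNat, by omega⟩
    have h1 := (Wi_steps k n m').1
    rw [← hn] at h1
    have h2 : |m - m'| = n := by rw [hn, add_sub_cancel_left, Nat.abs_cast]
    rw [h2]
    exact_mod_cast h1
  · obtain ⟨n, hn⟩ : ∃ n : ℕ, m' = m + n := ⟨(m' - m).toNat, by omega⟩
    have h1 := (Wi_steps k n m).2
    rw [← hn] at h1
    have h2 : |m - m'| = n := by rw [hn, sub_add_cancel_left, abs_neg, Nat.abs_cast]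
    rw [h2]
    exact_mod_cast h1

theorem wi_nine (k : ℕ) (a l : ℤ) (hl : |l| ≤ 5) : wi (k + 2) (9 * a + l) ≤ wi k a + 3 := by
  rw [abs_le] at hl
  have e : wi (k + 2) (9 * a + l) = wi k (par (par (9 * a + l))) +
      (if par (9 * a + l) % 3 = 0 then 0 else 1) + (if (9 * a + l) % 3 = 0 then 0 else 1) := rfl
  rw [e]
  have hd : (if par (9 * a + l) % 3 = 0 then 0 else 1) + (if (9 * a + l) % 3 = 0 then 0 else 1) ≤
      2 := by split_ifs <;> omega
  rcases lt_or_ge l 5 with h5 | h5
  · rcases lt_or_ge (-5) l with h6 | h6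
    · have h1 : par (par (9 * a + l)) = a := by unfold par; omega
      rw [h1]
      omega
    · have h1 : par (par (9 * a + l)) = a - 1 := by unfold par; omega
      have h2 := (Wi_step k (a - 1)).2
      rw [sub_add_cancel] at h2
      rw [h1]
      omega
  · have h1 : par (par (9 * a + l)) = a + 1 := by unfold par; omega
    have h2 := (Wi_step k a).1
    rw [h1]
    omega

theorem wi_add (k l : ℕ) (m : ℤ) : wi l (par^[k] m) ≤ wi (k + l) m ∧
    wi (k + l) m ≤ wi l (par^[k] m) + k := by
  induction k generalizing m with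
  | zero => simp
  | succ k ih =>
    have e : wi (k + 1 + l) m = wi (k + l) (par m) + (if m % 3 = 0 then 0 else 1) := by
      rw [add_right_comm]
      rfl
    have h := ih (par m)
    rw [Function.iterate_succ_apply, e]
    split_ifs <;> omega

theorem wi_pow_mul (k l : ℕ) (m : ℤ) : wi (k + l) (3 ^ k * m) = wi l m := by
  induction k with
  | zero => simp
  | succ k ih =>
    have e1 : (3 : ℤ) ^ (k + 1) * m = 3 * (3 ^ k * m) := by ring
    have e : wi (k + 1 + l) (3 * (3 ^ k * m)) = wi (k + l) (par (3 * (3 ^ k * m))) +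
        (if 3 * (3 ^ k * m) % 3 = 0 then 0 else 1) := by
      rw [add_right_comm]
      rfl
    rw [e1, e, par_three_mul, ih, if_pos (Int.mul_emod_right 3 _), add_zero]

theorem natAbs_par_le_wi (k : ℕ) (m : ℤ) : (par^[k] m).natAbs ≤ wi k m :=
  (wi_add k 0 m).1

theorem wi_le_natAbs (k : ℕ) (m : ℤ) : wi k m ≤ m.natAbs := by
  induction k generalizing m with
  | zero => exact le_rfl
  | succ k ih =>
    have h := ih (par m)
    rw [wi]
    rcases par_cases m with h1 | h1 | h1 <;> split_ifs <;> omega

theorem wi_boundary (k l : ℕ) (m m' : ℤ) (h : |m - m'| ≤ 1) (hne : par^[k] m ≠ par^[k] m') :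
    wi (k + l) m = wi l (par^[k] m) + k ∧ |par^[k] m - par^[k] m'| ≤ 1 := by
  induction k generalizing m m' with
  | zero => exact ⟨by simp, h⟩
  | succ k ih =>
    have e : wi (k + 1 + l) m = wi (k + l) (par m) + (if m % 3 = 0 then 0 else 1) := by
      rw [add_right_comm]
      rfl
    rw [Function.iterate_succ_apply, Function.iterate_succ_apply] at hne ⊢
    have hp : par m ≠ par m' := fun hp => hne (by rw [hp])
    rw [abs_le] at h
    have h1 : |par m - par m'| ≤ 1 := by
      rw [abs_le]
      unfold par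
      omega
    have h2 : m % 3 ≠ 0 := by
      unfold par at hp
      omega
    obtain ⟨h3, h4⟩ := ih (par m) (par m') h1 hne
    refine ⟨?_, h4⟩
    rw [e, if_neg h2, h3]
    ring

/-- `wi k m = 0` only for `m = 0` -/
theorem eq_zero_of_wi (k : ℕ) (m : ℤ) (h : wi k m = 0) : m = 0 := by
  induction k generalizing m with
  | zero => exact Int.natAbs_eq_zero.1 h
  | succ k ih =>
    rw [wi] at h
    have h1 := ih (par m) (by omega)
    have h2 : m % 3 = 0 := by
      by_contra h3
      rw [if_neg h3] at h
      omega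
    rcases par_cases m with h4 | h4 | h4 <;> omega

end MP65
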