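import Pool.Agent.Work.MP_65b809_gt.Rnd
import Pool.Agent.Work.MP_65b809_gt.Wi

/-! # Wt : weight of a grid number with cut-off `Λ`

For `x` with `rd (Λ - k) x = x`: `Wt Λ x = wi k (mr (Λ - k) x)` = `|mr Λ x|` plus the number of
nonzero balanced ternary digits of `x` below the level `Λ` (independent of `k`: `Wt_eq`, from
`wi_pow_mul`, since going one level down multiplies the integer by `3`).

* `Wt_eq`: for two admissible `k ≤ k'`: `mr (Λ - k') x = 3^(k'-k) mr (Λ - k) x`, `wi_pow_mul`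
  (`k' = (k'-k) + k`).
* `Wt_lip`: for two grid numbers of level `t ≤ Λ`, `x - x' = 3^t (mr t x - mr t x')`; `wi_lip`.
* `digit_set`: the digits of `x` at the levels `t < θ` which are nonzero, i.e.
  `mr t x ≠ 3 mr (t+1) x`; induct on the number of levels between the grid level of `x` and `θ`;
  each nonzero digit adds `1` to `wi`.
* `WInf x`: for `3^Λ > 2|x|` we have `mr Λ x = 0` and `Wt Λ x` does not depend on such `Λ`
  (`wi (k+1) m = wi k m` type argument: `wi k 0 = 0`, compare `wi (a + k) m` and `wi k m` when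
  `par^[k] m = 0`; induct on `k`).
-/

namespace MP65

open Classical in
/-- weight of a grid number with cut-off `Λ` -/
noncomputable def Wt (Λ : ℤ) (x : ℝ) : ℕ :=
  if h : ∃ k : ℕ, rd (Λ - k) x = x then wi h.choose (mr (Λ - h.choose) x) else 0

open Classical in
/-- number of nonzero digits of a grid number -/
noncomputable def WInf (x : ℝ) : ℕ :=
  if h : ∃ Λ : ℤ, 2 * |x| < (3 : ℝ) ^ Λ then Wt h.choose x else 0

private theorem Wt_pos (t : ℤ) : (0 : ℝ) < (3 : ℝ) ^ t := zpow_pos (by norm_num) t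

private theorem Wt_mr_grid {s t : ℤ} (n : ℕ) (hn : t = s + n) {x : ℝ} (h : rd t x = x) :
    mr s x = 3 ^ n * mr t x := by
  have h1 : rd s x = x := rd_fix_mono (by omega) h
  have h2 : (3 : ℝ) ^ s * (mr s x : ℝ) = (3 : ℝ) ^ t * (mr t x : ℝ) := h1.trans h.symm
  rw [hn, zpow_add₀ (by norm_num : (3 : ℝ) ≠ 0), mul_assoc, ← hn, zpow_natCast] at h2
  have h3 := mul_left_cancel₀ (Wt_pos s).ne' h2
  exact_mod_cast h3

private theorem Wt_ind {Λ : ℤ} {k k' : ℕ} {x : ℝ} (h : rd (Λ - k) x = x) (hk : k ≤ k') :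
    wi k' (mr (Λ - k') x) = wi k (mr (Λ - k) x) := by
  obtain ⟨n, rfl⟩ := Nat.exists_eq_add_of_le hk
  rw [Wt_mr_grid n (s := Λ - ((k + n : ℕ) : ℤ)) (t := Λ - k) (by push_cast; ring) h, add_comm k n,
    wi_pow_mul]

theorem Wt_eq {Λ : ℤ} {k : ℕ} {x : ℝ} (h : rd (Λ - k) x = x) :
    Wt Λ x = wi k (mr (Λ - k) x) := by
  have hex : ∃ k : ℕ, rd (Λ - k) x = x := ⟨k, h⟩
  unfold Wt
  rw [dif_pos hex]
  rcases le_total hex.choose k with h1 | h1
  · exact (Wt_ind hex.choose_spec h1).symm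
  · exact Wt_ind h h1

theorem Wt_eq' {Λ t : ℤ} (ht : t ≤ Λ) {x : ℝ} (h : rd t x = x) :
    Wt Λ x = wi (Λ - t).toNat (mr t x) := by
  have e : Λ - ((Λ - t).toNat : ℤ) = t := by omega
  have h1 := Wt_eq (Λ := Λ) (k := (Λ - t).toNat) (x := x) (by rw [e]; exact h)
  rw [h1, e]

theorem wi_level_le_Wt {Λ t : ℤ} (ht : t ≤ Λ) {x : ℝ} {s : ℤ} (hs : rd s x = x) :
    wi (Λ - t).toNat (mr t x) ≤ Wt Λ x := by
  rcases le_total t s with h | h
  · rw [Wt_eq' ht (rd_fix_mono h hs)]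
  · rw [Wt_eq' (h.trans ht) hs]
    obtain ⟨n, hn⟩ : ∃ n : ℕ, t = s + n := ⟨(t - s).toNat, by omega⟩
    have e : (Λ - s).toNat = n + (Λ - t).toNat := by omega
    rw [e, hn, mr_add, ← hn]
    exact (wi_add n _ _).1

theorem Wt_lip {Λ t : ℤ} (ht : t ≤ Λ) {x x' : ℝ} (h : rd t x = x) (h' : rd t x' = x') {C : ℕ}
    (hC : |x - x'| ≤ C * (3 : ℝ) ^ t) : Wt Λ x ≤ Wt Λ x' + C := by
  rw [Wt_eq' ht h, Wt_eq' ht h']
  have h1 := wi_lip (Λ - t).toNat (mr t x) (mr t x')
  have e1 : x - x' = (3 : ℝ) ^ t * ((mr t x - mr t x' : ℤ) : ℝ) := by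
    have a1 : (3 : ℝ) ^ t * (mr t x : ℝ) = x := h
    have a2 : (3 : ℝ) ^ t * (mr t x' : ℝ) = x' := h'
    push_cast
    rw [mul_sub, a1, a2]
  have hp := Wt_pos t
  rw [e1, abs_mul, abs_of_pos hp, mul_comm, mul_le_mul_iff_left₀ hp] at hC
  have h2 : |mr t x - mr t x'| ≤ C := by exact_mod_cast hC
  omega

/-- the set of the nonzero digits below the level `θ` -/
theorem digit_set {Λ θ : ℤ} (hθ : θ ≤ Λ) {x : ℝ} {s : ℤ} (hs : rd s x = x) :
    ∃ S : Finset ℤ, S.card + wi (Λ - θ).toNat (mr θ x) ≤ Wt Λ x ∧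
      ∀ t : ℤ, t < θ → t ∉ S → rd t x = rd (t + 1) x := by
  rcases le_total θ s with h | h
  · refine ⟨∅, ?_, fun t ht _ => ?_⟩
    · rw [Finset.card_empty, zero_add]
      exact wi_level_le_Wt hθ hs
    · rw [rd_fix_mono (by omega) hs, rd_fix_mono (by omega) hs]
  · obtain ⟨n, hn⟩ : ∃ n : ℕ, θ = s + n := ⟨(θ - s).toNat, by omega⟩
    induction n generalizing θ with
    | zero =>
      have e : θ = s := by omega
      subst e
      refine ⟨∅, ?_, fun t ht _ => ?_⟩
      · rw [Finset.card_empty, zero_add]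
        exact wi_level_le_Wt hθ hs
      · rw [rd_fix_mono (by omega) hs, rd_fix_mono (by omega) hs]
    | succ n ih =>
      obtain ⟨S, hS1, hS2⟩ := ih (θ := θ - 1) (by omega) (by omega) (by omega)
      have e1 : (Λ - (θ - 1)).toNat = (Λ - θ).toNat + 1 := by omega
      have e2 : mr θ x = par (mr (θ - 1) x) := by
        rw [← mr_succ, sub_add_cancel]
      rw [e1, wi, ← e2] at hS1
      by_cases h3 : mr (θ - 1) x % 3 = 0
      · refine ⟨S, ?_, fun t ht htS => ?_⟩
        · rw [if_pos h3, add_zero] at hS1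
          exact hS1
        · rcases lt_or_ge t (θ - 1) with h4 | h4
          · exact hS2 t h4 htS
          · have h5 : t = θ - 1 := by omega
            subst h5
            rw [sub_add_cancel]
            have h6 : mr (θ - 1) x = 3 * mr θ x := by
              rw [e2]
              unfold par
              omega
            unfold rd
            rw [h6]
            have h7 : (3 : ℝ) ^ θ = (3 : ℝ) ^ (θ - 1) * 3 := by
              rw [← zpow_add_one₀ (by norm_num : (3 : ℝ) ≠ 0), sub_add_cancel]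
            rw [h7]
            push_cast
            ring
      · rw [if_neg h3] at hS1
        refine ⟨insert (θ - 1) S, ?_, fun t ht htS => ?_⟩
        · have := Finset.card_insert_le (θ - 1) S
          omega
        · rw [Finset.mem_insert, not_or] at htS
          exact hS2 t (by omega) htS.2

private theorem Wt_wi_add (a j : ℕ) (m : ℤ) (h : par^[a] m = 0) : wi (a + j) m = wi a m := by
  induction a generalizing m with
  | zero =>
    have h' : m = 0 := h
    rw [h', wi_zero_right, wi_zero_right]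
  | succ a ih =>
    rw [Function.iterate_succ_apply] at h
    have e : wi (a + 1 + j) m = wi (a + j) (par m) + (if m % 3 = 0 then 0 else 1) := by
      rw [add_right_comm]
      rfl
    rw [e, ih _ h]
    rfl

private theorem Wt_zero (Λ : ℤ) : Wt Λ 0 = 0 := by
  rw [Wt_eq' le_rfl (rd_zero' Λ)]
  have h : mr Λ 0 = 0 := by
    have h1 : (3 : ℝ) ^ Λ * (mr Λ 0 : ℝ) = 0 := rd_zero' Λ
    rcases mul_eq_zero.1 h1 with h2 | h2
    · exact absurd h2 (Wt_pos Λ).ne'
    · exact_mod_cast h2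
  rw [h, wi_zero_right]

private theorem Wt_cut {Λ Λ' : ℤ} (hle : Λ ≤ Λ') {x : ℝ} (h : 2 * |x| < (3 : ℝ) ^ Λ) {s : ℤ}
    (hs : rd s x = x) : Wt Λ' x = Wt Λ x := by
  have h0 := rd_eq_zero h
  rcases le_total Λ s with h1 | h1
  · have h2 := rd_fix_mono h1 hs
    rw [h0] at h2
    rw [← h2, Wt_zero, Wt_zero]
  · rw [Wt_eq' (h1.trans hle) hs, Wt_eq' h1 hs]
    obtain ⟨n, hn⟩ : ∃ n : ℕ, Λ = s + n := ⟨(Λ - s).toNat, by omega⟩
    have e1 : (Λ - s).toNat = n := by omega
    have e2 : (Λ' - s).toNat = n + (Λ' - Λ).toNat := by omega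
    rw [e1, e2]
    refine Wt_wi_add n _ _ ?_
    rw [← mr_add, ← hn]
    have h3 : (3 : ℝ) ^ Λ * (mr Λ x : ℝ) = 0 := h0
    rcases mul_eq_zero.1 h3 with h2 | h2
    · exact absurd h2 (Wt_pos Λ).ne'
    · exact_mod_cast h2

theorem WInf_eq {Λ : ℤ} {x : ℝ} (h : 2 * |x| < (3 : ℝ) ^ Λ) {s : ℤ} (hs : rd s x = x) :
    WInf x = Wt Λ x := by
  have hex : ∃ Λ : ℤ, 2 * |x| < (3 : ℝ) ^ Λ := ⟨Λ, h⟩
  unfold WInf
  rw [dif_pos hex]
  rcases le_total hex.choose Λ with h1 | h1
  · exact (Wt_cut h1 hex.choose_spec hs).symm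
  · exact Wt_cut h1 h hs

end MP65
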