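import Pool.Agent.Work.MP_65b809_gt.Merge

/-! # YhE : the relative `j`-th coordinate `yh`, Lipschitz along edges

For a reference element `g₀` and a top scale `t`:
`yh g₀ t j y = y j + rd (lam j t) (x_j (g₀⁻¹ ch (trunc j y) t))`.

`yh_edge`. Let `M` be the constant of `merge_nz` for `k`. Write `h u = ch (trunc j y) u`,
`h' u = ch (trunc j y') u`. By `ch_trunc` and `Grid (j+1) s`, `ch y s ~_{j+1} h s * z_j(y j)`, same for
`y'`, so by `eqv_conj_z` `x_j((ch y s)⁻¹ ch y' s) = x_j((h s)⁻¹ (h' s)) + y' j - y j`, hence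
(1) `|y' j - y j + x_j((h s)⁻¹ h' s)| ≤ K 3^{w_j s}`.
Case A: `s + M ≤ t`. Then the roundings of the coordinates `< j` agree at `s + M`, so
`h u = h' u` for `u ≥ s + M` (`ch_congr_above` for truncated tuples: the roundings at higher scales are
roundings of these, `rd_rd`), in particular the two shifts are equal. `h s = h(s+M) u₁`,
`h' s = h(s+M) u₂` with `u₁, u₂` in `Low d (s+M) C₁` (`close_ch`), so
`|x_j((h s)⁻¹ h' s)| = |x_j(u₁⁻¹ u₂)| ≤ C₂ 3^{w_j (s+M)} ≤ C₃ 3^{w_j s}`.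
Case B: `t - M < s ≤ t`. `h s = h t u₁`, `h' s = h' t u₂` with `u₁,u₂` in `Low d t C₁`. Put
`a = g₀⁻¹ h t`, `a' = g₀⁻¹ h' t`, both in `Low j t C` (`ch_eqv_trunc`). Then
`(h s)⁻¹ h' s = u₁⁻¹ a⁻¹ a' u₂` and by `x_mul3` (coordinates `< j` of all factors are bounded at the
scale `t`) `x_j` of it is `x_j a' - x_j a + O(3^{w_j t})`, and `x_j a`, `x_j a'` are within
`3^{lam j t}` of the shifts. As `t - s < M`, `3^{w_j t} ≤ C 3^{w_j s}`.
Finally `3^{w_j s} ≤ 3 · 3^{lam j s}`. Take `C'` a natural number.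
-/

namespace MP65

namespace Tower

variable {N : Type} [Group N] {d : ℕ} (T : Tower N d)

/-- relative coordinate -/
noncomputable def yh (g₀ : N) (t : ℤ) (j : ℕ) (y : ℕ → ℝ) : ℝ :=
  y j + rd (T.lam j t) (T.x j (g₀⁻¹ * T.ch (trunc j y) t))

theorem yh_congr (g₀ : N) (t : ℤ) {j : ℕ} {y y' : ℕ → ℝ} (h : EqOn (j + 1) y y') :
    T.yh g₀ t j y = T.yh g₀ t j y' := by
  have h1 : trunc j y = trunc j y' := by
    funext i
    unfold trunc
    by_cases hi : i < j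
    · simp only [hi, if_true]
      exact h i (by omega)
    · simp only [hi, if_false]
  unfold yh
  rw [h1, h j (Nat.lt_succ_self j)]

/-- at levels `≤ lam j t` the roundings of `yh` and `y j` differ by the shift -/
theorem rd_yh (g₀ : N) (t : ℤ) (j : ℕ) (y : ℕ → ℝ) {τ : ℤ} (hτ : τ ≤ T.lam j t) :
    rd τ (T.yh g₀ t j y) = rd τ (y j) + rd (T.lam j t) (T.x j (g₀⁻¹ * T.ch (trunc j y) t)) := by
  unfold yh
  rw [add_comm (y j), rd_add_grid hτ (rd_fix _ _), add_comm]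

theorem yh_grid (g₀ : N) {t s : ℤ} (hst : s ≤ t) {j : ℕ} (hj : j < d) {y : ℕ → ℝ}
    (hy : T.Grid (j + 1) s y) : rd (T.lam j s) (T.yh g₀ t j y) = T.yh g₀ t j y := by
  rw [T.rd_yh g₀ t j y (T.lam_mono hj hst), hy j (Nat.lt_succ_self j)]
  rfl

/-- approximate additivity of the relative coordinates -/
private theorem yhe_rel (C : ℝ) : ∃ C' : ℝ, 0 ≤ C' ∧ ∀ (j : ℕ) (s : ℝ) (g₀ p p' : N), j < d →
    T.Low j s C (g₀⁻¹ * p) → T.Low j s C (g₀⁻¹ * p') →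
    |T.x j (p⁻¹ * p') - (T.x j (g₀⁻¹ * p') - T.x j (g₀⁻¹ * p))| ≤ C' * 3 ^ (T.w j * s) := by
  obtain ⟨Ci, hCi0, hCi⟩ := T.low_inv C
  obtain ⟨C₁, hC₁0, hC₁⟩ := T.x_mul3 (max C Ci)
  refine ⟨C₁ + C₁, by positivity, ?_⟩
  intro j s g₀ p p' hj hp hp'
  have e : p⁻¹ * p' = (g₀⁻¹ * p)⁻¹ * (g₀⁻¹ * p') := by group
  have hi := hCi j s _ hj.le hp
  have h1 := (hC₁ j s (g₀⁻¹ * p)⁻¹ (g₀⁻¹ * p') 1 hj (T.low_mono (le_max_right _ _) hi)
    (T.low_mono (le_max_left _ _) hp') (T.low_one hj.le s (le_trans hCi0 (le_max_right _ _)))).2.1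
  have h2 := (hC₁ j s (g₀⁻¹ * p) (g₀⁻¹ * p') 1 hj (T.low_mono (le_max_left _ _) hp)
    (T.low_mono (le_max_left _ _) hp') (T.low_one hj.le s (le_trans hCi0 (le_max_right _ _)))).2.2
  rw [e, add_mul]
  rw [abs_le] at h1 h2 ⊢
  constructor <;> linarith [h1.1, h1.2, h2.1, h2.2]

private theorem yhe_pert (C : ℝ) : ∃ C' : ℝ, 0 ≤ C' ∧ ∀ (j : ℕ) (s : ℝ) (u v w : N), j < d →
    T.Low (j + 1) s C u → T.Low j s C v → T.Low (j + 1) s C w →
    |T.x j (u⁻¹ * v * w) - T.x j v| ≤ C' * 3 ^ (T.w j * s) := by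
  obtain ⟨Ci, hCi0, hCi⟩ := T.low_inv C
  obtain ⟨C₁, hC₁0, hC₁⟩ := T.x_mul3 (max C Ci)
  refine ⟨C₁ + Ci + |C|, by positivity, ?_⟩
  intro j s u v w hj hu hv hw
  have hi := hCi (j + 1) s _ hj hu
  have h1 := (hC₁ j s u⁻¹ v w hj
    (T.low_mono_j (Nat.le_succ j) (T.low_mono (le_max_right _ _) hi))
    (T.low_mono (le_max_left _ _) hv)
    (T.low_mono_j (Nat.le_succ j) (T.low_mono (le_max_left _ _) hw))).1
  have h2 := hi j (Nat.lt_succ_self j)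
  have h3 := hw j (Nat.lt_succ_self j)
  have hp : (0 : ℝ) < 3 ^ (T.w j * s) := by positivity
  have h4 : C * 3 ^ (T.w j * s) ≤ |C| * 3 ^ (T.w j * s) :=
    mul_le_mul_of_nonneg_right (le_abs_self C) hp.le
  rw [add_mul, add_mul]
  rw [abs_le] at h1 h2 h3 ⊢
  constructor <;> linarith [h1.1, h1.2, h2.1, h2.2, h3.1, h3.2]

theorem yh_edge {K : ℝ} (hK : T.GoodK K) (k : ℕ) (C : ℝ) : ∃ C' : ℕ,
    ∀ (j : ℕ) (g₀ : N) (t s : ℤ) (y y' : ℕ → ℝ), j < d →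
    T.NzLe j t k y → T.Close j t C g₀ (T.ch y t) → T.Close j t C g₀ (T.ch y' t) → s ≤ t →
    T.Grid (j + 1) s y → T.Grid (j + 1) s y' → T.Close (j + 1) s K (T.ch y s) (T.ch y' s) →
    |T.yh g₀ t j y - T.yh g₀ t j y'| ≤ C' * (3 : ℝ) ^ (T.lam j s) := by
  obtain ⟨M, hM⟩ := T.merge_nz hK k
  obtain ⟨C₁, hC₁0, hC₁⟩ := T.close_ch
  -- case A constants
  obtain ⟨C₂, hC₂0, hC₂⟩ := T.low_inv C₁
  obtain ⟨C₃, hC₃0, hC₃⟩ := T.low_mul C₂ C₁
  obtain ⟨C₄, hC₄0, hC₄⟩ := T.low_down C₃ M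
  -- case B constants
  obtain ⟨E, hE⟩ := T.lam_add_le M
  obtain ⟨D₁, hD₁0, hD₁⟩ := T.yhe_rel C
  obtain ⟨D₂, hD₂0, hD₂⟩ := T.low_inv C
  obtain ⟨D₃, hD₃0, hD₃⟩ := T.low_mul D₂ C
  obtain ⟨D₄, hD₄0, hD₄⟩ := T.yhe_pert (max C₁ D₃)
  refine ⟨⌈3 * (K + C₄) + 3 * K + (D₁ + D₄ + 1) * 3 * 3 ^ E⌉₊, ?_⟩
  intro j g₀ t s y y' hj hNz hcl hcl' hst hG hG' hE'
  have hK0 : 0 ≤ K := hK.1
  have hj0 : j ≤ d := hj.le
  have hj1 : j + 1 ≤ d := hj
  have hpos : (0 : ℝ) < (3 : ℝ) ^ (T.lam j s) := by positivity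
  have hlb := T.lam_bounds j s
  -- (1)
  have h1 : |y' j - y j + T.x j ((T.ch (trunc j y) s)⁻¹ * T.ch (trunc j y') s)| ≤
      3 * K * (3 : ℝ) ^ (T.lam j s) := by
    have e1 := T.ch_trunc hj y s
    have e2 := T.ch_trunc hj y' s
    rw [hG j (Nat.lt_succ_self j)] at e1
    rw [hG' j (Nat.lt_succ_self j)] at e2
    have e3 := T.eqv_mul hj1 (T.eqv_inv hj1 e1) e2
    have e4 := (T.eqv_conj_z hj (T.ch (trunc j y) s) (T.ch (trunc j y') s) (y j) (y' j)).2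
    have e5 := hE'.1 j (Nat.lt_succ_self j)
    rw [e3 j (Nat.lt_succ_self j), e4] at e5
    have e6 : y' j - y j + T.x j ((T.ch (trunc j y) s)⁻¹ * T.ch (trunc j y') s) =
      T.x j ((T.ch (trunc j y) s)⁻¹ * T.ch (trunc j y') s) + y' j - y j := by ring
    rw [e6]
    refine e5.trans ?_
    have := mul_le_mul_of_nonneg_left hlb.2 hK0
    linarith
  have hceil := Nat.le_ceil (3 * (K + C₄) + 3 * K + (D₁ + D₄ + 1) * 3 * 3 ^ E)
  refine le_trans ?_ (mul_le_mul_of_nonneg_right hceil hpos.le)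
  by_cases hA : s + M ≤ t
  · -- case A
    have hm := hM j s t y y' hj0 (T.grid_mono_j (Nat.le_succ j) hG)
      (T.grid_mono_j (Nat.le_succ j) hG') (T.close_mono_j (Nat.le_succ j) hE') hNz hA
    have hch : ∀ r, s + M ≤ r → T.ch (trunc j y) r = T.ch (trunc j y') r := by
      apply T.ch_congr_above
      intro r hr i hi
      unfold trunc
      by_cases hij : i < j
      · simp only [hij, if_true]
        have h6 : T.lam i (s + M) ≤ T.lam i r := T.lam_mono hi hr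
        rw [← rd_rd h6 (y i), ← hm i hij, rd_rd h6]
      · simp only [hij, if_false]
    have hdiff : T.yh g₀ t j y - T.yh g₀ t j y' = y j - y' j := by
      unfold yh
      rw [hch t hA]
      ring
    have hlow : T.Low d s C₄ ((T.ch (trunc j y) s)⁻¹ * T.ch (trunc j y') s) := by
      have e : (T.ch (trunc j y) s)⁻¹ * T.ch (trunc j y') s =
          ((T.ch (trunc j y) (s + M))⁻¹ * T.ch (trunc j y) s)⁻¹ *
            ((T.ch (trunc j y') (s + M))⁻¹ * T.ch (trunc j y') s) := by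
        rw [hch (s + M) le_rfl]
        group
      rw [e]
      have l1 := (hC₁ (trunc j y) s (s + M) (by omega)).1
      have l2 := (hC₁ (trunc j y') s (s + M) (by omega)).1
      have l3 := hC₃ d _ _ _ le_rfl (hC₂ d _ _ le_rfl l1) l2
      apply hC₄ d s _ le_rfl
      have e3 : ((s + M : ℤ) : ℝ) = (s : ℝ) + M := by push_cast; ring
      rwa [e3] at l3
    have h2 := hlow j hj
    have h3 : C₄ * 3 ^ (T.w j * (s : ℝ)) ≤ 3 * C₄ * (3 : ℝ) ^ (T.lam j s) := by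
      have := mul_le_mul_of_nonneg_left hlb.2 hC₄0
      linarith
    rw [hdiff]
    have h4 : |y j - y' j| ≤ (3 * K + 3 * C₄) * (3 : ℝ) ^ (T.lam j s) := by
      rw [abs_le] at h1 h2 ⊢
      constructor <;> nlinarith [h1.1, h1.2, h2.1, h2.2]
    refine h4.trans (mul_le_mul_of_nonneg_right ?_ hpos.le)
    have : 0 ≤ (D₁ + D₄ + 1) * 3 * 3 ^ E := by positivity
    linarith
  · -- case B
    push Not at hA
    have hpt : (0 : ℝ) < 3 ^ (T.w j * (t : ℝ)) := by positivity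
    have hscale : (3 : ℝ) ^ (T.w j * (t : ℝ)) ≤ 3 * 3 ^ E * (3 : ℝ) ^ (T.lam j s) := by
      refine (T.lam_bounds j t).2.trans ?_
      have h2 : T.lam j t ≤ T.lam j s + E := (T.lam_mono hj hA.le).trans (hE j s hj)
      have h3 : (3 : ℝ) ^ (T.lam j t) ≤ (3 : ℝ) ^ (T.lam j s + E) :=
        zpow_le_zpow_right₀ (by norm_num) h2
      rw [zpow_add₀ (by norm_num : (3 : ℝ) ≠ 0), zpow_natCast] at h3
      nlinarith
    obtain ⟨H, hHe⟩ : ∃ H, H = T.ch (trunc j y) t := ⟨_, rfl⟩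
    obtain ⟨H', hHe'⟩ : ∃ H', H' = T.ch (trunc j y') t := ⟨_, rfl⟩
    have lowa : T.Low j t C (g₀⁻¹ * H) := by
      rw [hHe]
      exact T.low_congr (T.eqv_mul hj0 (T.eqv_refl j g₀⁻¹) (T.ch_eqv_trunc hj0 y t)) hcl.1
    have lowa' : T.Low j t C (g₀⁻¹ * H') := by
      rw [hHe']
      exact T.low_congr (T.eqv_mul hj0 (T.eqv_refl j g₀⁻¹) (T.ch_eqv_trunc hj0 y' t)) hcl'.1
    have l1 := (hC₁ (trunc j y) s t hst).1
    have l2 := (hC₁ (trunc j y') s t hst).1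
    rw [← hHe] at l1
    rw [← hHe'] at l2
    have e : (T.ch (trunc j y) s)⁻¹ * T.ch (trunc j y') s =
        (H⁻¹ * T.ch (trunc j y) s)⁻¹ * (H⁻¹ * H') * (H'⁻¹ * T.ch (trunc j y') s) := by group
    have lv : T.Low j t D₃ (H⁻¹ * H') := by
      have e2 : H⁻¹ * H' = (g₀⁻¹ * H)⁻¹ * (g₀⁻¹ * H') := by group
      rw [e2]
      exact hD₃ j _ _ _ hj0 (hD₂ j _ _ hj0 lowa) lowa'
    have p1 := hD₄ j t _ _ _ hj (T.low_mono (le_max_left _ _) (T.low_mono_j hj1 l1))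
      (T.low_mono (le_max_right _ _) lv) (T.low_mono (le_max_left _ _) (T.low_mono_j hj1 l2))
    rw [← e] at p1
    have p2 := hD₁ j t g₀ H H' hj lowa lowa'
    have r1 := abs_sub_rd_le (T.lam j t) (T.x j (g₀⁻¹ * H))
    have r2 := abs_sub_rd_le (T.lam j t) (T.x j (g₀⁻¹ * H'))
    have hlt := (T.lam_bounds j t).1
    have q1 : T.yh g₀ t j y - T.yh g₀ t j y' = y j - y' j +
        (rd (T.lam j t) (T.x j (g₀⁻¹ * H)) - rd (T.lam j t) (T.x j (g₀⁻¹ * H'))) := by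
      unfold yh
      rw [← hHe, ← hHe']
      ring
    have q2 : |T.yh g₀ t j y - T.yh g₀ t j y'| ≤ 3 * K * (3 : ℝ) ^ (T.lam j s) +
        (D₁ + D₄ + 1) * 3 ^ (T.w j * (t : ℝ)) := by
      rw [q1, add_mul, add_mul, one_mul]
      rw [abs_le] at h1 p1 p2 r1 r2 ⊢
      constructor <;> linarith [h1.1, h1.2, p1.1, p1.2, p2.1, p2.2, r1.1, r1.2, r2.1, r2.2]
    have q3 : (D₁ + D₄ + 1) * 3 ^ (T.w j * (t : ℝ)) ≤
        (D₁ + D₄ + 1) * (3 * 3 ^ E * (3 : ℝ) ^ (T.lam j s)) :=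
      mul_le_mul_of_nonneg_left hscale (by positivity)
    have q4 : 0 ≤ 3 * (K + C₄) * (3 : ℝ) ^ (T.lam j s) := by positivity
    calc _ ≤ _ := q2
      _ ≤ 3 * K * (3 : ℝ) ^ (T.lam j s) + (D₁ + D₄ + 1) * (3 * 3 ^ E * (3 : ℝ) ^ (T.lam j s)) := by
        linarith
      _ ≤ _ := by
        have : (3 * (K + C₄) + 3 * K + (D₁ + D₄ + 1) * 3 * 3 ^ E) * (3 : ℝ) ^ (T.lam j s) =
          3 * (K + C₄) * (3 : ℝ) ^ (T.lam j s) + (3 * K * (3 : ℝ) ^ (T.lam j s) +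
            (D₁ + D₄ + 1) * (3 * 3 ^ E * (3 : ℝ) ^ (T.lam j s))) := by ring
        rw [this]
        linarith

/-- the chains at the scale `t` of two tuples whose `yh` have close roundings are close -/
theorem close_of_yh (C : ℝ) : ∃ C' : ℝ, 0 ≤ C' ∧
    ∀ (j : ℕ) (g₀ : N) (t : ℤ) (y y' : ℕ → ℝ), j < d →
    T.Close j t C g₀ (T.ch y t) → T.Close j t C g₀ (T.ch y' t) →
    (|((mr (T.lam j t) (T.yh g₀ t j y) - mr (T.lam j t) (T.yh g₀ t j y') : ℤ) : ℝ)| ≤ C) →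
    T.Close (j + 1) t C' (T.ch y t) (T.ch y' t) := by
  obtain ⟨C₁, hC₁0, hC₁⟩ := T.close_trans C C
  obtain ⟨D₁, hD₁0, hD₁⟩ := T.yhe_rel C
  refine ⟨C₁ + D₁ + |C| + 1, by positivity, ?_⟩
  have key : ∀ (j : ℕ) (g₀ : N) (t : ℤ) (y y' : ℕ → ℝ), j < d →
      T.Close j t C g₀ (T.ch y t) → T.Close j t C g₀ (T.ch y' t) →
      (|((mr (T.lam j t) (T.yh g₀ t j y) - mr (T.lam j t) (T.yh g₀ t j y') : ℤ) : ℝ)| ≤ C) →
      T.Low (j + 1) t (C₁ + D₁ + |C| + 1) ((T.ch y t)⁻¹ * T.ch y' t) := by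
    intro j g₀ t y y' hj hcl hcl' hmr
    have hj0 : j ≤ d := hj.le
    have hj1 : j + 1 ≤ d := hj
    have hcc := (hC₁ j t _ _ _ hj0 (T.close_symm hcl) hcl').1
    intro i hi
    have hp : (0 : ℝ) < 3 ^ (T.w i * (t : ℝ)) := by positivity
    rcases Nat.lt_succ_iff_lt_or_eq.1 hi with hi | rfl
    · refine (hcc i hi).trans (mul_le_mul_of_nonneg_right ?_ hp.le)
      have := abs_nonneg C
      linarith
    · obtain ⟨H, hHe⟩ : ∃ H, H = T.ch (trunc i y) t := ⟨_, rfl⟩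
      obtain ⟨H', hHe'⟩ : ∃ H', H' = T.ch (trunc i y') t := ⟨_, rfl⟩
      have lowa : T.Low i t C (g₀⁻¹ * H) := by
        rw [hHe]
        exact T.low_congr (T.eqv_mul hj0 (T.eqv_refl i g₀⁻¹) (T.ch_eqv_trunc hj0 y t)) hcl.1
      have lowa' : T.Low i t C (g₀⁻¹ * H') := by
        rw [hHe']
        exact T.low_congr (T.eqv_mul hj0 (T.eqv_refl i g₀⁻¹) (T.ch_eqv_trunc hj0 y' t)) hcl'.1
      have p2 := hD₁ i t g₀ H H' hj lowa lowa'
      have e1 := T.ch_trunc hj y t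
      have e2 := T.ch_trunc hj y' t
      rw [← hHe] at e1
      rw [← hHe'] at e2
      have e3 := T.eqv_mul hj1 (T.eqv_inv hj1 e1) e2
      have e4 := (T.eqv_conj_z hj H H' (rd (T.lam i t) (y i)) (rd (T.lam i t) (y' i))).2
      rw [e3 i (Nat.lt_succ_self i), e4]
      have r1 := abs_sub_rd_le (T.lam i t) (T.x i (g₀⁻¹ * H))
      have r2 := abs_sub_rd_le (T.lam i t) (T.x i (g₀⁻¹ * H'))
      have s1 := T.rd_yh g₀ t i y (le_refl (T.lam i t))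
      have s2 := T.rd_yh g₀ t i y' (le_refl (T.lam i t))
      rw [← hHe] at s1
      rw [← hHe'] at s2
      have hlt := (T.lam_bounds i t).1
      have hpl : (0 : ℝ) < (3 : ℝ) ^ (T.lam i t) := by positivity
      have m1 : |rd (T.lam i t) (T.yh g₀ t i y) - rd (T.lam i t) (T.yh g₀ t i y')| ≤
          |C| * 3 ^ (T.w i * (t : ℝ)) := by
        unfold rd
        rw [← mul_sub, abs_mul, abs_of_pos hpl]
        push_cast at hmr
        calc (3 : ℝ) ^ (T.lam i t) * |(mr (T.lam i t) (T.yh g₀ t i y) : ℝ) -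
              mr (T.lam i t) (T.yh g₀ t i y')| ≤ (3 : ℝ) ^ (T.lam i t) * |C| :=
              mul_le_mul_of_nonneg_left (hmr.trans (le_abs_self C)) hpl.le
          _ ≤ (3 : ℝ) ^ (T.w i * (t : ℝ)) * |C| :=
              mul_le_mul_of_nonneg_right hlt (abs_nonneg C)
          _ = _ := mul_comm _ _
      rw [s1, s2] at m1
      have hC₁p : 0 ≤ C₁ * 3 ^ (T.w i * (t : ℝ)) := by positivity
      rw [add_mul, add_mul, add_mul, one_mul]
      rw [abs_le] at m1 p2 r1 r2 ⊢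
      constructor <;> linarith [m1.1, m1.2, p2.1, p2.2, r1.1, r1.2, r2.1, r2.2]
  intro j g₀ t y y' hj hcl hcl' hmr
  refine ⟨key j g₀ t y y' hj hcl hcl' hmr, key j g₀ t y' y hj hcl' hcl ?_⟩
  have : (mr (T.lam j t) (T.yh g₀ t j y') - mr (T.lam j t) (T.yh g₀ t j y) : ℤ) =
      -(mr (T.lam j t) (T.yh g₀ t j y) - mr (T.lam j t) (T.yh g₀ t j y') : ℤ) := by ring
  rw [this, Int.cast_neg, abs_neg]
  exact hmr

end Tower

end MP65
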